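import Pool.Agent.ELM.Bas

/-!
# ELM: equal derivatives have equal atoms (row ATM)
-/

set_option autoImplicit false

namespace Pool.Agent.ELM

open Filter MeasureTheory Topology

namespace Fam

variable (F : Fam)

theorem bdd_of (ψ : C(Ci, ℝ)) : ∃ C : ℝ, ∀ x, |ψ x| ≤ C := ⟨‖ψ‖, fun x => ψ.norm_coe_le_norm x⟩

/-- the continuous linear functional `D` -/
noncomputable def DL (t : Par) (y : ℕ → Ci) (hs : Summable (F.coef t y)) : C(Ci, ℝ) →L[ℝ] ℝ :=
  LinearMap.mkContinuous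
    { toFun := fun ψ => F.D t y ψ
      map_add' := fun ψ χ => by
        unfold D
        rw [← (F.D_summable t y hs ψ (bdd_of ψ)).tsum_add (F.D_summable t y hs χ (bdd_of χ))]
        refine tsum_congr fun j => ?_
        simp only [ContinuousMap.add_apply]
        ring
      map_smul' := fun c ψ => by
        unfold D
        rw [RingHom.id_apply, smul_eq_mul, ← tsum_mul_left]
        refine tsum_congr fun j => ?_
        simp only [ContinuousMap.smul_apply, smul_eq_mul]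
        ring }
    (2 * ∑' j, F.coef t y j) fun ψ => by
      have h1 : ∀ j, ‖F.coef t y j * (ψ (y (j + 1)) - ψ (F.a t (y (j + 1))))‖ ≤
          F.coef t y j * (2 * ‖ψ‖) := fun j => by
        rw [norm_mul, Real.norm_eq_abs, abs_of_pos (F.coef_pos _ _ _)]
        refine mul_le_mul_of_nonneg_left ?_ (F.coef_pos _ _ _).le
        calc ‖ψ (y (j + 1)) - ψ (F.a t (y (j + 1)))‖ ≤ ‖ψ (y (j + 1))‖ +
              ‖ψ (F.a t (y (j + 1)))‖ := norm_sub_le _ _
          _ ≤ ‖ψ‖ + ‖ψ‖ := add_le_add (ψ.norm_coe_le_norm _) (ψ.norm_coe_le_norm _)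
          _ = 2 * ‖ψ‖ := by ring
      have h2 : Summable fun j => F.coef t y j * (2 * ‖ψ‖) := hs.mul_right _
      calc ‖F.D t y ψ‖ ≤ ∑' j, F.coef t y j * (2 * ‖ψ‖) := by
            unfold D
            exact tsum_of_norm_bounded h2.hasSum h1
        _ = 2 * (∑' j, F.coef t y j) * ‖ψ‖ := by
            rw [tsum_mul_right]
            ring

theorem DL_apply (t : Par) (y : ℕ → Ci) (hs : Summable (F.coef t y)) (ψ : C(Ci, ℝ)) :
    F.DL t y hs ψ = F.D t y ψ := rfl

/-- the tent function at `x₀` -/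
noncomputable def tent (x₀ : Ci) (n : ℕ) : C(Ci, ℝ) where
  toFun := fun x => max 0 (1 - n * ‖x - x₀‖)
  continuous_toFun := by fun_prop

theorem tent_abs (x₀ : Ci) (n : ℕ) (x : Ci) : |tent x₀ n x| ≤ 1 := by
  have h1 : (0 : ℝ) ≤ tent x₀ n x := le_max_left _ _
  rw [abs_of_nonneg h1]
  refine max_le zero_le_one ?_
  have : (0 : ℝ) ≤ n * ‖x - x₀‖ := by positivity
  linarith

open Classical in
theorem tent_tendsto (x₀ x : Ci) :
    Tendsto (fun n => tent x₀ n x) atTop (𝓝 (if x = x₀ then 1 else 0)) := by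
  by_cases h : x = x₀
  · rw [if_pos h, h]
    refine tendsto_const_nhds.congr fun n => ?_
    change (1 : ℝ) = max 0 (1 - n * ‖x₀ - x₀‖)
    simp
  · rw [if_neg h]
    have h0 : 0 < ‖x - x₀‖ := norm_pos_iff.2 (sub_ne_zero.2 h)
    obtain ⟨m, hm⟩ := exists_nat_gt (‖x - x₀‖⁻¹)
    refine tendsto_const_nhds.congr' ?_
    filter_upwards [eventually_ge_atTop m] with n hn
    have h1 : (m : ℝ) ≤ n := by exact_mod_cast hn
    have h2 : 1 ≤ (n : ℝ) * ‖x - x₀‖ := by
      have h3 : ‖x - x₀‖⁻¹ * ‖x - x₀‖ = 1 := inv_mul_cancel₀ h0.ne'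
      have h4 : ‖x - x₀‖⁻¹ * ‖x - x₀‖ ≤ (n : ℝ) * ‖x - x₀‖ :=
        mul_le_mul_of_nonneg_right (hm.le.trans h1) h0.le
      exact h3.symm.le.trans h4
    change (0 : ℝ) = max 0 (1 - n * ‖x - x₀‖)
    rw [max_eq_left]
    linarith

theorem D_tendsto (t : Par) (y : ℕ → Ci) (hs : Summable (F.coef t y)) (x₀ : Ci) :
    Tendsto (fun n => F.D t y (tent x₀ n)) atTop (𝓝 (F.At t y x₀)) := by
  classical
  unfold At D
  refine tendsto_tsum_of_dominated_convergence (bound := fun j => F.coef t y j * 2)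
    (hs.mul_right _) (fun j => ?_) (Eventually.of_forall fun n j => ?_)
  · refine Tendsto.const_mul _ (Tendsto.sub ?_ ?_)
    · convert tent_tendsto x₀ (y (j + 1))
    · convert tent_tendsto x₀ (F.a t (y (j + 1)))
  · rw [norm_mul, Real.norm_eq_abs, abs_of_pos (F.coef_pos _ _ _)]
    refine mul_le_mul_of_nonneg_left ?_ (F.coef_pos _ _ _).le
    calc ‖tent x₀ n (y (j + 1)) - tent x₀ n (F.a t (y (j + 1)))‖ ≤
          ‖tent x₀ n (y (j + 1))‖ + ‖tent x₀ n (F.a t (y (j + 1)))‖ := norm_sub_le _ _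
      _ ≤ 1 + 1 := add_le_add (tent_abs _ _ _) (tent_abs _ _ _)
      _ = 2 := by norm_num

theorem atom (t : Par) (p : ℕ) (y z : ℕ → Ci)
    (hy : ∀ n, p ≤ n → 1000 * F.visits y n ≤ n) (hz : ∀ n, p ≤ n → 1000 * F.visits z n ≤ n)
    (h : ∀ i, F.D t y (F.φ i) = F.D t z (F.φ i)) (x₀ : Ci) : F.At t y x₀ = F.At t z x₀ := by
  have sy := F.coef_summable t p y hy
  have sz := F.coef_summable t p z hz
  have h1 : ∀ u : ℕ → Ci, F.D t u (1 : C(Ci, ℝ)) = 0 := fun u => by
    unfold D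
    simp
  have h0 : F.DL t y sy - F.DL t z sz = 0 := by
    refine F.dense _ ?_ fun i => ?_
    · rw [_root_.sub_apply, DL_apply, DL_apply, h1, h1, sub_zero]
    · rw [_root_.sub_apply, DL_apply, DL_apply, h, sub_self]
  have h2 : ∀ n, F.D t y (tent x₀ n) = F.D t z (tent x₀ n) := fun n => by
    have h3 := congrArg (fun L : C(Ci, ℝ) →L[ℝ] ℝ => L (tent x₀ n)) h0
    simp only [_root_.sub_apply, DL_apply, _root_.zero_apply] at h3
    exact sub_eq_zero.1 h3
  refine tendsto_nhds_unique (F.D_tendsto t y sy x₀) ?_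
  simp only [h2]
  exact F.D_tendsto t z sz x₀

end Fam

end Pool.Agent.ELM
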