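import Pool.Agent.ELM.Clo
import Pool.Agent.ELM.Atom

/-!
# ELM: almost all parameters are good (row RES)
-/

set_option autoImplicit false

namespace Pool.Agent.ELM

open Filter MeasureTheory Topology

namespace Fam

variable (F : Fam)

theorem good_of_not_bad {t : Par} (h : ∀ i p, t ∉ F.Bad i p) : F.Good t := by
  intro p k l y z hy hz ty tz h0 x₀
  refine F.atom t p y z ty.t2 tz.t2 (fun i => ?_) x₀
  by_contra hne
  have hpos : 0 < |F.D t y (F.φ i) - F.D t z (F.φ i)| := abs_pos.2 (sub_ne_zero.2 hne)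
  obtain ⟨m, hm⟩ := exists_nat_gt (|F.D t y (F.φ i) - F.D t z (F.φ i)|⁻¹)
  refine h i (max p m) ⟨k, l, y, z, hy, hz, ty.mono (le_max_left _ _), tz.mono (le_max_left _ _),
    h0, ?_⟩
  have h1 : |F.D t y (F.φ i) - F.D t z (F.φ i)|⁻¹ * |F.D t y (F.φ i) - F.D t z (F.φ i)| = 1 :=
    inv_mul_cancel₀ hpos.ne'
  have h2 : |F.D t y (F.φ i) - F.D t z (F.φ i)|⁻¹ ≤ ((max p m : ℕ) : ℝ) + 1 := by
    have h3 : (m : ℝ) ≤ ((max p m : ℕ) : ℝ) := by exact_mod_cast le_max_right p m
    linarith
  exact h1.symm.le.trans (mul_le_mul_of_nonneg_right h2 hpos.le)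

theorem good_residual_of (h : ∀ i p, interior (F.Bad i p) = ∅) :
    {t | F.Good t} ∈ residual Par := by
  have h1 : (⋂ i : ℕ, ⋂ p : ℕ, (F.Bad i p)ᶜ) ∈ residual Par := by
    rw [countable_iInter_mem]
    intro i
    rw [countable_iInter_mem]
    intro p
    exact residual_of_dense_open (F.bad_closed i p).isOpen_compl
      (interior_eq_empty_iff_dense_compl.1 (h i p))
  filter_upwards [h1] with t ht
  simp only [Set.mem_iInter, Set.mem_compl_iff] at ht
  exact F.good_of_not_bad ht

/-- there is a good parameter -/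
theorem exists_good_of (h : ∀ i p, interior (F.Bad i p) = ∅) : ∃ t, F.Good t := by
  have h1 : Dense {t | F.Good t} := dense_of_mem_residual (F.good_residual_of h)
  exact h1.nonempty

end Fam

end Pool.Agent.ELM
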