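import Pool.Agent.ELM.Cov
import Pool.Agent.ELM.Res

/-!
# ELM: almost all parameters are good

The product measure of the parameters gives mass zero to the bad sets: by Fubini it suffices that
the intersection with every line in the direction `i` is a null set.
-/

set_option autoImplicit false

namespace Pool.Agent.ELM

open Filter MeasureTheory Topology

/-- the product of the Lebesgue measures on the space of the parameters -/
noncomputable def lam : Measure Par := Measure.infinitePi fun _ => (volume : Measure unitInterval)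

instance : IsProbabilityMeasure lam := by
  unfold lam
  infer_instance

/-- changing one coordinate preserves the product measure -/
theorem update_mp (i : ℕ) : MeasurePreserving
    (fun p : Par × unitInterval => Function.update p.1 i p.2) (lam.prod volume) lam := by
  classical
  have hm : Measurable (fun p : Par × unitInterval => Function.update p.1 i p.2) := by
    rw [measurable_pi_iff]
    intro n
    by_cases hn : n = i
    · subst hn
      simp only [Function.update_self]
      exact measurable_snd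
    · simp only [Function.update_of_ne hn]
      exact (measurable_pi_apply n).comp measurable_fst
  refine ⟨hm, ?_⟩
  unfold lam
  refine Measure.eq_infinitePi _ fun s t ht => ?_
  have h3 : (fun p : Par × unitInterval => Function.update p.1 i p.2) ⁻¹'
      (Set.pi (s : Set ℕ) t) =
      (Set.pi ((s.erase i : Finset ℕ) : Set ℕ) t) ×ˢ (if i ∈ s then t i else Set.univ) := by
    ext ⟨u, x⟩
    simp only [Set.mem_preimage, Set.mem_pi, Finset.mem_coe, Set.mem_prod, Finset.mem_erase]
    constructor
    · intro h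
      refine ⟨fun j hj => ?_, ?_⟩
      · have := h j hj.2
        rwa [Function.update_of_ne hj.1] at this
      · split_ifs with hi
        · have := h i hi
          rwa [Function.update_self] at this
        · exact Set.mem_univ _
    · rintro ⟨h4, h5⟩ j hj
      by_cases hji : j = i
      · subst hji
        rw [if_pos hj] at h5
        rwa [Function.update_self]
      · rw [Function.update_of_ne hji]
        exact h4 j ⟨hji, hj⟩
  rw [Measure.map_apply hm (.pi (Finset.countable_toSet _) fun i _ => ht i), h3,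
    Measure.prod_prod, Measure.infinitePi_pi _ fun i _ => ht i]
  split_ifs with hi
  · rw [mul_comm, Finset.mul_prod_erase s (fun j => volume (t j)) hi]
  · rw [measure_univ, mul_one, Finset.erase_eq_of_notMem hi]

/-- a set of parameters is null if all its sections in the direction `i` are null -/
theorem null_of_sections {B : Set Par} (hB : MeasurableSet B) (i : ℕ)
    (h : ∀ t : Par, volume {x : unitInterval | Function.update t i x ∈ B} = 0) : lam B = 0 := by
  have h1 := (update_mp i).measure_preimage hB.nullMeasurableSet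
  rw [← h1, Measure.prod_apply ((update_mp i).measurable hB)]
  have h2 : ∀ t : Par, volume (Prod.mk t ⁻¹'
      ((fun p : Par × unitInterval => Function.update p.1 i p.2) ⁻¹' B)) = 0 := h
  simp only [h2, lintegral_zero]

namespace Fam

variable (F : Fam)

theorem volume_zero_of_data (i p : ℕ) (t₀ : Par) (V : Set ℝ) (hV : V ⊆ Set.Ioo 0 1)
    (hdata : ∀ x ∈ V, ∃ (t : Par) (k l : ℕ → ℤ) (y z : ℕ → Ci), (∀ j, j ≠ i → t j = t₀ j) ∧
      (t i : ℝ) = x ∧ F.IsOrbit t k y ∧ F.IsOrbit t l z ∧ F.Typ p k y ∧ F.Typ p l z ∧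
      y 0 = z 0 ∧ 1 ≤ ((p : ℝ) + 1) * |F.D t y (F.φ i) - F.D t z (F.φ i)|) : volume V = 0 := by
  classical
  obtain ⟨K, hK, n₀, hclose⟩ := F.close i p
  have hq := F.q_pos
  have hq1 : F.q < 1 := by linarith [F.q_le]
  choose! t k l y z h1 h2 h3 h4 h5 h6 h7 h8 using hdata
  have hbound : ∀ n, n₀ ≤ n → volume V ≤
      ENNReal.ofReal (2 * K * (12 ^ 4 * F.q ^ 85) ^ n) := by
    intro n hn
    obtain ⟨hp2, hcl⟩ := hclose n hn
    set ε := F.q ^ (5 * n) with hε
    have hεpos : 0 < ε := by positivity
    set M := ⌊ε⁻¹⌋₊ with hM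
    set I := (pref (2 * n) ×ˢ pref (2 * n)) ×ˢ Finset.range (M + 1) with hI
    set piece : ((Fin (2 * n) → ℤ) × (Fin (2 * n) → ℤ)) × ℕ → Set ℝ := fun ι =>
      {x | x ∈ V ∧ (fun j : Fin (2 * n) => k x j) = ι.1.1 ∧
        (fun j : Fin (2 * n) => l x j) = ι.1.2 ∧ ⌊x / ε⌋₊ = ι.2} with hpiece
    have hcover : V ⊆ ⋃ ι ∈ I, piece ι := by
      intro x hx
      rw [Set.mem_iUnion₂]
      refine ⟨((fun j : Fin (2 * n) => k x j, fun j : Fin (2 * n) => l x j), ⌊x / ε⌋₊), ?_,
        hx, rfl, rfl, rfl⟩
      rw [hI, Finset.mem_product, Finset.mem_product]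
      refine ⟨⟨mem_pref _ _ ?_, mem_pref _ _ ?_⟩, ?_⟩
      · have h9 := (h5 x hx).t1 (2 * n) hp2
        rw [Fin.sum_univ_eq_sum_range (fun j => |k x j|) (2 * n)]
        exact h9
      · have h9 := (h6 x hx).t1 (2 * n) hp2
        rw [Fin.sum_univ_eq_sum_range (fun j => |l x j|) (2 * n)]
        exact h9
      · rw [Finset.mem_range, Nat.lt_succ_iff]
        refine Nat.floor_le_floor ?_
        rw [div_eq_mul_inv]
        have h9 : x ≤ 1 := (hV hx).2.le
        have h10 : 0 < ε⁻¹ := inv_pos.mpr hεpos
        calc x * ε⁻¹ ≤ 1 * ε⁻¹ := mul_le_mul_of_nonneg_right h9 h10.le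
          _ = ε⁻¹ := one_mul _
    have hdiam : ∀ ι ∈ I, volume (piece ι) ≤ ENNReal.ofReal (K * F.q ^ (90 * n)) := by
      intro ι _
      refine volume_le_of_dist _ _ fun x hx x' hx' => ?_
      have hxV : x ∈ V := hx.1
      have hxV' : x' ∈ V := hx'.1
      have h9 : |x' - x| ≤ ε := by
        have hx0 : 0 ≤ x / ε := div_nonneg (hV hxV).1.le hεpos.le
        have hx0' : 0 ≤ x' / ε := div_nonneg (hV hxV').1.le hεpos.le
        have e1 : ⌊x / ε⌋₊ = ⌊x' / ε⌋₊ := by rw [hx.2.2.2, hx'.2.2.2]
        have h10 := Nat.floor_le hx0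
        have h11 := Nat.floor_le hx0'
        have h12 := Nat.lt_floor_add_one (x / ε)
        have h13 := Nat.lt_floor_add_one (x' / ε)
        rw [e1] at h10 h12
        have h14 : |x' / ε - x / ε| ≤ 1 := by
          rw [abs_le]
          constructor <;> linarith
        rw [← sub_div, abs_div, abs_of_pos hεpos, div_le_one hεpos] at h14
        exact h14
      rw [abs_sub_comm]
      have h10 := hcl (t x) (t x') (fun j hj => by rw [h1 x hxV j hj, h1 x' hxV' j hj])
        (by rw [h2 x hxV, h2 x' hxV']; exact h9) (k x) (l x) (k x') (l x') (y x) (z x) (y x')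
        (z x') (h3 x hxV) (h4 x hxV) (h5 x hxV) (h6 x hxV) (h7 x hxV) (h8 x hxV) (h3 x' hxV')
        (h4 x' hxV') (h5 x' hxV') (h6 x' hxV') (h7 x' hxV')
        (fun j hj => by
          have h11 := congrFun (hx.2.1.trans hx'.2.1.symm) ⟨j, hj⟩
          exact h11)
        (fun j hj => by
          have h11 := congrFun (hx.2.2.1.trans hx'.2.2.1.symm) ⟨j, hj⟩
          exact h11)
      rw [h2 x hxV, h2 x' hxV'] at h10
      exact h10
    have hcard : (I.card : ℝ) ≤ 12 ^ (4 * n) * (2 * ε⁻¹) := by
      rw [hI, Finset.card_product, Finset.card_product, Finset.card_range]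
      push_cast
      have h9 := card_pref (2 * n)
      have h10 : (M : ℝ) + 1 ≤ 2 * ε⁻¹ := by
        have h11 : (M : ℝ) ≤ ε⁻¹ := Nat.floor_le (inv_nonneg.mpr hεpos.le)
        have h12 : 1 ≤ ε⁻¹ := by
          rw [one_le_inv₀ hεpos]
          exact pow_le_one₀ hq.le hq1.le
        linarith
      calc ((pref (2 * n)).card : ℝ) * ((pref (2 * n)).card : ℝ) * ((M : ℝ) + 1) ≤
          (12 ^ (2 * n) * 12 ^ (2 * n)) * (2 * ε⁻¹) := by
            refine mul_le_mul (mul_le_mul h9 h9 (Nat.cast_nonneg _) (by positivity)) h10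
              (by positivity) (by positivity)
        _ = 12 ^ (4 * n) * (2 * ε⁻¹) := by
            rw [← pow_add]
            congr 2
            ring
    calc volume V ≤ volume (⋃ ι ∈ I, piece ι) := measure_mono hcover
      _ ≤ ∑ ι ∈ I, volume (piece ι) := measure_biUnion_finset_le _ _
      _ ≤ ∑ _ι ∈ I, ENNReal.ofReal (K * F.q ^ (90 * n)) := Finset.sum_le_sum hdiam
      _ = ENNReal.ofReal ((I.card : ℝ) * (K * F.q ^ (90 * n))) := by
          rw [Finset.sum_const, nsmul_eq_mul, ENNReal.ofReal_mul (Nat.cast_nonneg _),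
            ENNReal.ofReal_natCast]
      _ ≤ ENNReal.ofReal (2 * K * (12 ^ 4 * F.q ^ 85) ^ n) := by
          refine ENNReal.ofReal_le_ofReal ?_
          calc (I.card : ℝ) * (K * F.q ^ (90 * n)) ≤
              (12 ^ (4 * n) * (2 * ε⁻¹)) * (K * F.q ^ (90 * n)) :=
                mul_le_mul_of_nonneg_right hcard (by positivity)
            _ = 2 * K * (12 ^ 4 * F.q ^ 85) ^ n := by
                have e1 : F.q ^ (90 * n) = ε * F.q ^ (85 * n) := by
                  rw [hε, ← pow_add]
                  congr 1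
                  ring
                rw [e1, mul_pow, ← pow_mul, ← pow_mul]
                field_simp
  have hθ : (12 : ℝ) ^ 4 * F.q ^ 85 < 1 := by
    have h9 : F.q ^ 85 ≤ (1 / 2) ^ 85 := pow_le_pow_left₀ hq.le F.q_le 85
    calc (12 : ℝ) ^ 4 * F.q ^ 85 ≤ 12 ^ 4 * (1 / 2) ^ 85 :=
          mul_le_mul_of_nonneg_left h9 (by positivity)
      _ < 1 := by norm_num
  have hlim : Tendsto (fun n : ℕ => ENNReal.ofReal (2 * K * (12 ^ 4 * F.q ^ 85) ^ n)) atTop
      (𝓝 0) := by
    have h9 := (tendsto_pow_atTop_nhds_zero_of_lt_one (by positivity) hθ).const_mul (2 * K)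
    rw [mul_zero] at h9
    have h10 := ENNReal.tendsto_ofReal h9
    rwa [ENNReal.ofReal_zero] at h10
  have h9 : volume V ≤ 0 := ge_of_tendsto hlim (eventually_atTop.mpr ⟨n₀, hbound⟩)
  exact nonpos_iff_eq_zero.1 h9

/-- the sections of the bad sets are null -/
theorem bad_section (i p : ℕ) (t₀ : Par) :
    volume {x : unitInterval | Function.update t₀ i x ∈ F.Bad i p} = 0 := by
  have h1 := F.volume_zero_of_data i p t₀
    {x : ℝ | x ∈ Set.Ioo (0 : ℝ) 1 ∧ ∃ h : x ∈ unitInterval,
      Function.update t₀ i ⟨x, h⟩ ∈ F.Bad i p} (fun x hx => hx.1) (by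
      rintro x ⟨-, h, k, l, y, z, h2, h3, h4, h5, h6, h7⟩
      refine ⟨Function.update t₀ i ⟨x, h⟩, k, l, y, z, fun j hj => ?_, ?_, h2, h3, h4, h5, h6, h7⟩
      · rw [Function.update_of_ne hj]
      · rw [Function.update_self])
  rw [unitInterval.volume_apply]
  refine measure_mono_null (t := {x : ℝ | x ∈ Set.Ioo (0 : ℝ) 1 ∧ ∃ h : x ∈ unitInterval,
      Function.update t₀ i ⟨x, h⟩ ∈ F.Bad i p} ∪ {0, 1}) ?_ ?_
  · rintro _ ⟨x, hx, rfl⟩
    rcases eq_or_ne (x : ℝ) 0 with h0 | h0
    · right
      exact Or.inl h0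
    · rcases eq_or_ne (x : ℝ) 1 with h2 | h2
      · right
        exact Or.inr h2
      · left
        exact ⟨⟨lt_of_le_of_ne x.2.1 (Ne.symm h0), lt_of_le_of_ne x.2.2 h2⟩, x.2, hx⟩
  · rw [measure_union_null_iff]
    exact ⟨h1, (Set.toFinite _).measure_zero _⟩

/-- the bad sets are null -/
theorem bad_null (i p : ℕ) : lam (F.Bad i p) = 0 :=
  null_of_sections (F.bad_closed i p).measurableSet i (F.bad_section i p)

/-- almost all parameters are good -/
theorem good_ae : ∀ᵐ t ∂lam, F.Good t := by
  have h1 : ∀ᵐ t ∂lam, ∀ i p, t ∉ F.Bad i p := by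
    rw [ae_all_iff]
    intro i
    rw [ae_all_iff]
    intro p
    exact measure_eq_zero_iff_ae_notMem.1 (F.bad_null i p)
  filter_upwards [h1] with t ht
  exact F.good_of_not_bad ht

/-- the good parameters form a residual set -/
theorem good_residual : ∀ᶠ t in residual Par, F.Good t := F.good_residual_of F.bad_interior

end Fam

end Pool.Agent.ELM
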