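import Pool.Agent.ELM.FanE

/-!
# ELM, row FAM, analytic version: the family exists
-/

set_option autoImplicit false
set_option linter.unusedVariables false

namespace Pool.Agent.ELM.Fan

open Filter MeasureTheory Topology Set

/-- the smallest rotation angle of the first powers -/
theorem exists_d {θ : ℝ} (hθ : Irrational θ) : ∃ d : ℝ, 0 < d ∧ d ≤ 1 / 8 ∧
    ∀ j : ℤ, j ≠ 0 → |j| < 30 → 3 * d < ‖((j * θ : ℝ) : Ci)‖ := by
  have hpos : ∀ j : ℤ, j ≠ 0 → 0 < ‖((j * θ : ℝ) : Ci)‖ := by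
    intro j hj
    rw [norm_pos_iff]
    intro h0
    rw [AddCircle.coe_eq_zero_iff] at h0
    obtain ⟨m, hm⟩ := h0
    refine (hθ.intCast_mul hj) ⟨m, ?_⟩
    rw [← hm]
    simp
  set S : Finset ℤ := (Finset.Icc (-29) 29).filter fun j => j ≠ 0 with hS
  have hne : S.Nonempty := ⟨1, by simp [hS]⟩
  obtain ⟨j0, hj0, hmin⟩ := S.exists_min_image (fun j : ℤ => ‖((j * θ : ℝ) : Ci)‖) hne
  have h0 : 0 < ‖((j0 * θ : ℝ) : Ci)‖ := hpos j0 (by
    have := (Finset.mem_filter.1 hj0).2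
    exact this)
  refine ⟨min (1 / 8) (‖((j0 * θ : ℝ) : Ci)‖ / 4), by positivity, min_le_left _ _, ?_⟩
  intro j hj hj1
  have h1 := hmin j (by
    rw [hS, Finset.mem_filter, Finset.mem_Icc]
    have := abs_lt.1 hj1
    exact ⟨⟨by omega, by omega⟩, hj⟩)
  have h2 := min_le_right (1 / 8) (‖((j0 * θ : ℝ) : Ci)‖ / 4)
  linarith

theorem exists_q {d : ℝ} (hd : 0 < d) : ∃ q : ℝ, 0 < q ∧ q ≤ 1 / 2 ∧ 6000 * q ^ 100 ≤ d := by
  obtain ⟨n, hn⟩ := exists_nat_gt (6000 / d)
  have hn0 : (0:ℝ) < n := lt_trans (by positivity) hn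
  refine ⟨1 / ((n:ℝ) + 2), by positivity, ?_, ?_⟩
  · exact one_div_le_one_div_of_le (by norm_num) (by linarith)
  · have h1 : (1 / ((n:ℝ) + 2)) ^ 100 ≤ 1 / ((n:ℝ) + 2) := by
      apply pow_le_of_le_one (by positivity) _ (by norm_num)
      rw [div_le_one (by positivity)]
      linarith
    have h2 : 6000 * (1 / ((n:ℝ) + 2)) ≤ d := by
      rw [mul_one_div, div_le_iff₀ (by positivity)]
      rw [div_lt_iff₀ hd] at hn
      nlinarith
    linarith

/-- the data of the analytic family -/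
structure AnaFam (θ : ℝ) where
  F : Fam
  hθ : F.θ = θ
  d : ℝ
  e : ℝ
  b : Base d e
  h : Pm d e
  a_eq : ∀ (t : Par) (x : Ci), F.a t x = aHo b h t x
  w_eq : ∀ (t : Par) (x : Ci), F.w t x = wC b t x
  φ_eq : ∀ i, F.φ i = fC b.c i

/-- the choice of the parameters -/
structure Ch (θ d q e : ℝ) : Prop where
  irr : Irrational θ
  pm : Pm d e
  dθ : ∀ j : ℤ, j ≠ 0 → |j| < 30 → 3 * d < ‖((j * θ : ℝ) : Ci)‖
  q_pos : 0 < q
  q_le : q ≤ 1 / 2
  r1 : 6 / e = q⁻¹ ^ 200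
  r2 : 12 * e / d ≤ q ^ 100
  r3 : 24 * e ≤ q ^ 100

theorem exists_ch (θ : ℝ) (hθ : Irrational θ) : ∃ d q e : ℝ, Ch θ d q e := by
  obtain ⟨d, hd, hd1, hdθ⟩ := exists_d hθ
  obtain ⟨q, hq, hq1, hq2⟩ := exists_q hd
  set e : ℝ := 6 * q ^ 200 with he
  have hq200 : q ^ 200 = q ^ 100 * q ^ 100 := by rw [← pow_add]
  have hqp : 0 < q ^ 100 := by positivity
  have hq3 : q ^ 100 ≤ 1 / 2 := by
    have : q ^ 100 ≤ q := pow_le_of_le_one hq.le (by linarith) (by norm_num)
    linarith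
  refine ⟨d, q, e, hθ, ⟨hd, hd1, by positivity, ?_⟩, hdθ, hq, hq1, ?_, ?_, ?_⟩
  · rw [he, hq200]
    nlinarith
  · rw [he, inv_pow]
    field_simp
  · rw [div_le_iff₀ hd, he, hq200]
    nlinarith
  · rw [he, hq200]
    nlinarith

/-- the family of a base density -/
theorem Ch.exists_fam {θ d q e : ℝ} (H : Ch θ d q e) (b : Base d e) :
    ∃ A : AnaFam θ, A.d = d ∧ A.e = e ∧ HEq A.b b := by
  have h := H.pm
  have hd := h.d0
  have r1 := H.r1
  have r2 := H.r2
  have r3 := H.r3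
  have hdθ := H.dθ
  have hout : ∀ x : Ci, x ∉ {x : Ci | ‖x‖ < d} → d ≤ ‖x‖ := fun x hx => not_lt.1 hx
  refine ⟨⟨{
    θ := θ
    irr := H.irr
    a := fun t x => aHo b h t x
    inv := fun t x => aHo_inv b h t x
    ne_self := fun t x => aHo_ne b h t x
    cont := aHo_cont b h
    good := fun t => aHo_good b h t
    w := wC b
    w_pos := fun t x => wC_pos b h t x
    w_cont := wC_cont b h
    φ := fC b.c
    dense := fun L h1 h2 => dense_dir b.c_pos L h1 h2
    expand := ?_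
    U := {x : Ci | ‖x‖ < d}
    U_open := isOpen_lt continuous_norm continuous_const
    q := q
    q_pos := H.q_pos
    q_le := H.q_le
    lip := fun t x y => by rw [← r1]; exact aHo_lip b h t x y
    contr := fun t x y hx hy => (aHo_contr b h t (hout x hx) (hout y hy)).trans
      (mul_le_mul_of_nonneg_right r2 (norm_nonneg _))
    der_le := fun t x => by rw [← r1]; exact wC_ratio b h t x
    der_le' := fun t x hx => (wC_ratio' b h t (hout x hx)).trans r3
    stay := ?_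
    ret := ?_ }, rfl, d, e, b, h, fun t x => rfl, fun t x => rfl, fun i => rfl⟩, rfl, rfl, HEq.rfl⟩
  · -- expand
    intro i
    obtain ⟨C, hC⟩ := expand_al b h i
    refine ⟨C, fun t t' htt x ε => ?_⟩
    obtain ⟨r, rfl⟩ := exists_coe x
    have h1 := hC t t' htt r ε
    refine le_trans ?_ h1
    rw [← AddCircle.coe_add, aHo_coe, aHo_coe, ← AddCircle.coe_sub, ← AddCircle.coe_sub]
    exact norm_coe_le _
  · -- stay
    intro t x hx k hk hk1 hmem
    have h1 := aHo_small b h t (hout x hx)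
    have h2 := hdθ k hk (by omega)
    have h3 : ‖aHo b h t x + ((k * θ : ℝ) : Ci)‖ < d := hmem
    have h4 := norm_sub_le (aHo b h t x + ((k * θ : ℝ) : Ci)) (aHo b h t x)
    rw [add_sub_cancel_left] at h4
    linarith
  · -- ret
    intro x k k' hk hk' h1 h2
    by_contra hne
    have h3 := hdθ (k - k') (sub_ne_zero.2 hne) (by
      rw [abs_lt] at hk hk' ⊢
      omega)
    have h4 : ‖x + ((k * θ : ℝ) : Ci)‖ < d := h1
    have h5 : ‖x + ((k' * θ : ℝ) : Ci)‖ < d := h2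
    have h6 := norm_sub_le (x + ((k * θ : ℝ) : Ci)) (x + ((k' * θ : ℝ) : Ci))
    rw [add_sub_add_left_eq_sub, ← AddCircle.coe_sub] at h6
    have e1 : ((k * θ : ℝ) - k' * θ : ℝ) = ((k - k' : ℤ) : ℝ) * θ := by push_cast; ring
    rw [e1] at h6
    linarith

/-- an open set of densities in which the densities of the analytic families are dense -/
theorem exists_open (θ : ℝ) (hθ : Irrational θ) : ∃ O : Set C(Ci, ℝ), IsOpen O ∧ O.Nonempty ∧
    (∀ w ∈ O, ∀ x, 0 < w x) ∧ ∀ w ∈ O, ∀ ε > 0, ∃ A : AnaFam θ,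
      ∀ (t : Par) (x : Ci), |A.b.Z * wC A.b t x - w x| < ε := by
  obtain ⟨d, q, e, H⟩ := exists_ch θ hθ
  have h := H.pm
  have he := h.e0
  refine ⟨Metric.ball (wz d e) (e / 8), Metric.isOpen_ball, ⟨wz d e, Metric.mem_ball_self (by linarith)⟩,
    fun w hw x => ?_, fun w hw ε hε => ?_⟩
  · have h1 : dist (w x) (wz d e x) < e / 8 := (ContinuousMap.dist_apply_le_dist x).trans_lt hw
    rw [Real.dist_eq] at h1
    have h2 := (abs_lt.1 h1).1
    have h3 : 3 / 2 * e ≤ wz d e x := by rw [wz_apply]; exact le_max_left _ _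
    linarith
  · obtain ⟨b, hb, hc⟩ := exists_base h w (fun x => by
      have h1 : dist (w x) (wz d e x) < e / 8 := (ContinuousMap.dist_apply_le_dist x).trans_lt hw
      rwa [Real.dist_eq] at h1) (δ := ε / 2) (by linarith)
    obtain ⟨A, hAd, hAe, hAb⟩ := H.exists_fam b
    refine ⟨A, fun t x => ?_⟩
    obtain ⟨F, hθ', d', e', b', h', a1, a2, a3⟩ := A
    subst hAd hAe
    obtain rfl := eq_of_heq hAb
    show |b'.Z * wC b' t x - w x| < ε
    obtain ⟨s, rfl⟩ := exists_coe x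
    rw [wC_coe]
    have hZ := b'.Z_pos h'
    have hZ1 := Z_le1 b' h'
    have e1 : b'.Z * wl b' t s - w (s : Ci) = (b'.f s - w (s : Ci)) + b'.Z * P' b'.c t s := by
      unfold wl
      field_simp
      ring
    rw [e1]
    have h2 := P'_abs (c_nonneg b') t s
    have h3 : |b'.Z * P' b'.c t s| ≤ ε / 2 := by
      rw [abs_mul, abs_of_pos hZ]
      have := abs_nonneg (P' b'.c t s)
      nlinarith
    have h4 := abs_add_le (b'.f s - w (s : Ci)) (b'.Z * P' b'.c t s)
    have h5 := hb s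
    linarith

theorem exists_anaFam (θ : ℝ) (hθ : Irrational θ) : Nonempty (AnaFam θ) := by
  obtain ⟨O, -, ⟨w, hw⟩, -, h⟩ := exists_open θ hθ
  obtain ⟨A, -⟩ := h w hw 1 one_pos
  exact ⟨A⟩

end Pool.Agent.ELM.Fan
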