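import Pool.Agent.ELM.AnaG
import Pool.Agent.ELM.FanF

/-!
# ELM, row ANA: the analytic family consists of real-analytic diffeomorphisms
-/

set_option autoImplicit false
set_option linter.unusedVariables false

namespace Pool.Agent.ELM.Fan

open Filter MeasureTheory Topology Set

/-! ### primitives of real-analytic functions -/

/-- a primitive of a holomorphic function, near a point -/
theorem analyticAt_primitive_aux {x₀ r : ℝ} (hr : 0 < r) {W : ℂ → ℂ}
    (hW : DifferentiableOn ℂ W (Metric.ball (x₀ : ℂ) r)) {f : ℝ → ℝ}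
    (hf : ∀ x ∈ Ioo (x₀ - r) (x₀ + r), HasDerivAt f ((W x).re) x) : AnalyticAt ℝ f x₀ := by
  obtain ⟨Φ, hΦ⟩ := hW.isExactOn_ball
  have hΦd : DifferentiableOn ℂ Φ (Metric.ball (x₀ : ℂ) r) := fun z hz =>
    (hΦ z hz).differentiableAt.differentiableWithinAt
  have h1 : AnalyticAt ℝ Φ (x₀ : ℂ) :=
    (hΦd.analyticAt (Metric.isOpen_ball.mem_nhds (Metric.mem_ball_self hr))).restrictScalars
  have h2 : AnalyticAt ℝ (fun y : ℝ => (Φ (y : ℂ)).re) x₀ :=
    (Complex.reCLM.analyticAt _).comp (h1.comp (Complex.ofRealCLM.analyticAt x₀))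
  have hmem : ∀ y ∈ Ioo (x₀ - r) (x₀ + r), (y : ℂ) ∈ Metric.ball (x₀ : ℂ) r := by
    intro y hy
    rw [Metric.mem_ball, Complex.dist_eq, ← Complex.ofReal_sub, Complex.norm_real,
      Real.norm_eq_abs, abs_lt]
    constructor <;> linarith [hy.1, hy.2]
  have h3 : ∀ y ∈ Ioo (x₀ - r) (x₀ + r),
      HasDerivAt (fun y : ℝ => (Φ (y : ℂ)).re - f y) 0 y := by
    intro y hy
    have h4 : HasDerivAt (fun y : ℝ => (Φ (y : ℂ)).re) (W y).re y :=
      (hΦ _ (hmem y hy)).real_of_complex
    have h5 := h4.sub (hf y hy)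
    rwa [sub_self] at h5
  have h6 : ∀ y ∈ Ioo (x₀ - r) (x₀ + r),
      (Φ (y : ℂ)).re - f y = (Φ (x₀ : ℂ)).re - f x₀ := by
    intro y hy
    have hx₀ : x₀ ∈ Ioo (x₀ - r) (x₀ + r) := ⟨by linarith, by linarith⟩
    exact isOpen_Ioo.is_const_of_deriv_eq_zero isPreconnected_Ioo
      (fun z hz => (h3 z hz).differentiableAt.differentiableWithinAt)
      (fun z hz => (h3 z hz).deriv) hy hx₀
  have h7 : AnalyticAt ℝ (fun y : ℝ => (Φ (y : ℂ)).re - ((Φ (x₀ : ℂ)).re - f x₀)) x₀ :=
    h2.sub analyticAt_const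
  refine h7.congr ?_
  filter_upwards [isOpen_Ioo.mem_nhds (show x₀ ∈ Ioo (x₀ - r) (x₀ + r) from
    ⟨by linarith, by linarith⟩)] with y hy
  have := h6 y hy
  linarith

/-- a primitive of a real-analytic function is real-analytic -/
theorem analyticAt_primitive {f g : ℝ → ℝ} {x₀ : ℝ} (hg : AnalyticAt ℝ g x₀)
    (hf : ∀ x, HasDerivAt f (g x) x) : AnalyticAt ℝ f x₀ := by
  obtain ⟨p, hp⟩ := hg
  obtain ⟨C, ρ, hC, hρ, hb⟩ := p.le_mul_pow_of_radius_pos hp.radius_pos
  rw [hasFPowerSeriesAt_iff] at hp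
  obtain ⟨s, hs, hs'⟩ := Metric.eventually_nhds_iff.1 hp
  set r : ℝ := min s (1 / (2 * ρ)) with hr
  have hr0 : 0 < r := lt_min hs (by positivity)
  have hρr : ρ * r ≤ 1 / 2 := by
    have h1 : r ≤ 1 / (2 * ρ) := min_le_right _ _
    calc ρ * r ≤ ρ * (1 / (2 * ρ)) := mul_le_mul_of_nonneg_left h1 hρ.le
      _ = 1 / 2 := by field_simp
  let W : ℂ → ℂ := fun z => ∑' n, ((p.coeff n : ℝ) : ℂ) * (z - x₀) ^ n
  have hW : DifferentiableOn ℂ W (Metric.ball (x₀ : ℂ) r) := by
    refine Complex.differentiableOn_tsum_of_summable_norm (u := fun n => C * (1 / 2) ^ n)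
      ((summable_geometric_of_lt_one (by norm_num) (by norm_num)).mul_left C)
      (fun n => ?_) Metric.isOpen_ball (fun n z hz => ?_)
    · fun_prop
    · rw [Metric.mem_ball, Complex.dist_eq] at hz
      rw [norm_mul, norm_pow, Complex.norm_real]
      have h1 : ‖p.coeff n‖ ≤ C * ρ ^ n := by
        have := hb n
        rwa [FormalMultilinearSeries.norm_apply_eq_norm_coef] at this
      calc ‖p.coeff n‖ * ‖z - x₀‖ ^ n ≤ (C * ρ ^ n) * r ^ n :=
            mul_le_mul h1 (pow_le_pow_left₀ (norm_nonneg _) hz.le n) (by positivity) (by positivity)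
        _ = C * (ρ * r) ^ n := by rw [mul_pow]; ring
        _ ≤ C * (1 / 2) ^ n := mul_le_mul_of_nonneg_left
            (pow_le_pow_left₀ (by positivity) hρr n) hC.le
  refine analyticAt_primitive_aux hr0 hW fun x hx => ?_
  have h1 : HasSum (fun n => (x - x₀) ^ n • p.coeff n) (g x) := by
    have h2 : dist (x - x₀) 0 < s := by
      rw [dist_zero_right, Real.norm_eq_abs, abs_lt]
      have : r ≤ s := min_le_left _ _
      constructor <;> linarith [hx.1, hx.2]
    have := hs' h2
    rwa [add_sub_cancel] at this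
  have h3 : W x = ((g x : ℝ) : ℂ) := by
    have h4 : HasSum (fun n => (((x - x₀) ^ n • p.coeff n : ℝ) : ℂ)) ((g x : ℝ) : ℂ) :=
      Complex.hasSum_ofReal.2 h1
    rw [← h4.tsum_eq]
    refine tsum_congr fun n => ?_
    push_cast [smul_eq_mul]
    ring
  rw [h3, Complex.ofReal_re]
  exact hf x

/-! ### the perturbations -/

theorem norm_cos_le (z : ℂ) : ‖Complex.cos z‖ ≤ Real.exp |z.im| := by
  rw [Complex.cos, norm_div, Complex.norm_two]
  have h1 : ‖Complex.exp (z * Complex.I)‖ ≤ Real.exp |z.im| := by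
    rw [Complex.norm_exp]
    apply Real.exp_le_exp.2
    simp only [Complex.mul_re, Complex.I_re, Complex.I_im, mul_zero, mul_one, zero_sub]
    exact neg_le_abs _
  have h2 : ‖Complex.exp (-z * Complex.I)‖ ≤ Real.exp |z.im| := by
    rw [Complex.norm_exp]
    apply Real.exp_le_exp.2
    simp only [Complex.mul_re, Complex.neg_re, Complex.neg_im, Complex.I_re, Complex.I_im,
      mul_zero, mul_one, zero_sub, neg_neg]
    exact le_abs_self _
  have h3 := norm_add_le (Complex.exp (z * Complex.I)) (Complex.exp (-z * Complex.I))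
  linarith

variable {c : ℝ}

/-- the perturbation is real-analytic -/
theorem P_ana (hc : 0 ≤ c) (t : Par) : AnalyticOnNhd ℝ (P c t) univ := by
  let U : Set ℂ := {z | |z.im| < 2}
  have hU : IsOpen U := isOpen_lt (Complex.continuous_im.abs) continuous_const
  let W : ℂ → ℂ := fun z => ∑' i, ((((t i : ℝ) * cc c i : ℝ) : ℂ)) * Complex.cos (om i * z - ph i)
  have hW : DifferentiableOn ℂ W U := by
    refine Complex.differentiableOn_tsum_of_summable_norm (u := uu c) (uu_summable c)
      (fun i => ?_) hU (fun i z hz => ?_)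
    · fun_prop
    · have h0 : |z.im| < 2 := hz
      have h1 : ‖Complex.cos (om i * z - ph i)‖ ≤ Real.exp (2 * om i) := by
        refine (norm_cos_le _).trans (Real.exp_le_exp.2 ?_)
        have e1 : (((om i : ℝ) : ℂ) * z - ((ph i : ℝ) : ℂ)).im = om i * z.im := by
          simp
        rw [e1, abs_mul, abs_of_pos (om_pos i), mul_comm 2]
        exact mul_le_mul_of_nonneg_left h0.le (om_pos i).le
      rw [norm_mul, Complex.norm_real, norm_mul, Real.norm_eq_abs, Real.norm_eq_abs,
        abs_of_nonneg (t_abs t i).1, abs_of_nonneg (cc_nonneg hc i)]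
      have h2 := cc_exp (c := c) i
      have h3 := om_ge i
      have h4 : 1 ≤ om i ^ 2 := one_le_pow₀ h3
      have h5 := (t_abs t i).2
      have h6 := (t_abs t i).1
      have h7 := cc_nonneg hc i
      have h8 := Real.exp_pos (2 * om i)
      calc (t i : ℝ) * cc c i * ‖Complex.cos (om i * z - ph i)‖
          ≤ 1 * cc c i * Real.exp (2 * om i) := by
            apply mul_le_mul _ h1 (norm_nonneg _) (by positivity)
            exact mul_le_mul_of_nonneg_right h5 h7
        _ ≤ cc c i * om i ^ 2 * Real.exp (2 * om i) := by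
            apply mul_le_mul_of_nonneg_right _ h8.le
            rw [one_mul]
            exact le_mul_of_one_le_right h7 h4
        _ = uu c i := h2
  have h1 := analytic_re hU (fun x => by
    show |((x : ℝ) : ℂ).im| < 2
    simp) hW
  have h2 : (fun x : ℝ => (W x).re) = P c t := by
    funext x
    have h3 : W x = ((P c t x : ℝ) : ℂ) := by
      show ∑' i, ((((t i : ℝ) * cc c i : ℝ) : ℂ)) * Complex.cos (om i * x - ph i) = _
      unfold P
      rw [Complex.ofReal_tsum]
      refine tsum_congr fun i => ?_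
      unfold fr
      push_cast
      ring
    rw [h3, Complex.ofReal_re]
  rwa [h2] at h1

/-! ### the family -/

section
variable {d e : ℝ} (b : Base d e)

theorem Base.G_ana : AnalyticOnNhd ℝ b.G univ := fun x _ =>
  analyticAt_primitive (b.trig.ana x) b.G_deriv

theorem bl_ana (h : Pm d e) (t : Par) : AnalyticOnNhd ℝ (bl b t) univ := by
  have h1 : AnalyticOnNhd ℝ (fun x => b.G x / b.Z) univ := fun x _ =>
    (b.G_ana x (mem_univ _)).div analyticAt_const (b.Z_pos h).ne'
  exact h1.add (P_ana b.c_pos.le t)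

theorem aHo_ana (h : Pm d e) (t : Par) : IsAnalytic (aHo b h t) := by
  have hg := good_line b h t
  have h1 := analytic_shift (bl_ana b h t) (fun x => hg.pos.trans_le (hg.ge x)) hg.hasDeriv
    hg.goodLift.surjective (s := 1 / 2) (A := al b h t) (bl_al b h t)
  exact ⟨al b h t, h1.1, h1.2, fun x => (aHo_coe b h t x).symm⟩

end

/-- rotations are real-analytic -/
theorem rot_ana (θ : ℝ) : IsAnalytic (rot θ) := by
  refine ⟨fun x => θ + x, fun x _ => analyticAt_const.add analyticAt_id, fun x => ?_, fun x => ?_⟩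
  · rw [deriv_const_add, deriv_id'']
    exact one_ne_zero
  · rw [rot_apply, AddCircle.coe_add]

theorem rot_inv_ana (θ : ℝ) : IsAnalytic (rot θ)⁻¹ := by
  have := rot_zpow θ (-1)
  rw [zpow_neg_one] at this
  rw [this]
  exact rot_ana _

/-- every element of the group generated by `T` and `S = a T a` is real-analytic -/
theorem AnaFam.analytic {θ : ℝ} (A : AnaFam θ) (t : Par) :
    IsAnalytic (A.F.aH t) ∧ ∀ g ∈ Subgroup.closure
      {Pool.Agent.ELM.rot A.F.θ, A.F.aH t * Pool.Agent.ELM.rot A.F.θ * A.F.aH t}, IsAnalytic g := by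
  have h1 : A.F.aH t = aHo A.b A.h t := by
    ext x
    exact A.a_eq t x
  have h2 : IsAnalytic (A.F.aH t) := by rw [h1]; exact aHo_ana A.b A.h t
  have h3 : (A.F.aH t)⁻¹ = A.F.aH t := by
    ext x
    rfl
  refine ⟨h2, IsAnalytic.closure ?_⟩
  rintro g (rfl | rfl)
  · exact ⟨rot_ana _, rot_inv_ana _⟩
  · refine ⟨(h2.mul (rot_ana _)).mul h2, ?_⟩
    rw [mul_inv_rev, mul_inv_rev, h3]
    exact h2.mul ((rot_inv_ana _).mul h2)

end Pool.Agent.ELM.Fan
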