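import Mathlib

/-!
# Random walks on groups of circle diffeomorphisms: definitions

The circle is `UnitAddCircle = ℝ/ℤ`, and a group of circle diffeomorphisms is a subgroup of the
group of its homeomorphisms.
-/

set_option autoImplicit false

namespace Pool.Agent.ELM

open Filter MeasureTheory Topology
open scoped ENNReal

/-- the homeomorphisms of the circle -/
abbrev Homeo := UnitAddCircle ≃ₜ UnitAddCircle

/-- the representative in `(-1/2, 1/2]` of a point of the circle -/
noncomputable def rep (x : UnitAddCircle) : ℝ := AddCircle.equivIoc (1 : ℝ) (-1 / 2) x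

/-- the expression of `g` near `x` in local coordinates of the circle: `h ↦ g (x + h) - g x` -/
noncomputable def localExpr (g : UnitAddCircle → UnitAddCircle) (x : UnitAddCircle) (h : ℝ) : ℝ :=
  rep (g (x + (h : UnitAddCircle)) - g x)

/-- the derivative `g' x` -/
noncomputable def cderiv (g : UnitAddCircle → UnitAddCircle) (x : UnitAddCircle) : ℝ :=
  deriv (localExpr g x) 0

/-- `g` is a diffeomorphism of class `C^{1+τ}`: its derivative exists, does not vanish and is
`τ`-Hölder -/
structure IsHolderDiffeo (τ : ℝ) (g : Homeo) : Prop where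
  differentiable : ∀ x, DifferentiableAt ℝ (localExpr g x) 0
  ne_zero : ∀ x, cderiv g x ≠ 0
  holder : ∃ C : ℝ, ∀ x y, |cderiv g x - cderiv g y| ≤ C * dist x y ^ τ

/-- `G` preserves no probability measure on the circle -/
def IsNonElementary (G : Subgroup Homeo) : Prop :=
  ∀ m : Measure UnitAddCircle, IsProbabilityMeasure m → ∃ g ∈ G, m.map g ≠ m

/-- `L` is the unique minimal nonempty closed invariant set -/
structure IsLimitSet (G : Subgroup Homeo) (L : Set UnitAddCircle) : Prop where
  closed : IsClosed L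
  nonempty : L.Nonempty
  invariant : ∀ g ∈ G, Set.MapsTo g L L
  minimal : ∀ K : Set UnitAddCircle, IsClosed K → K.Nonempty → (∀ g ∈ G, Set.MapsTo g K K) → L ⊆ K

/-- an interval of the circle -/
def IsInterval (I : Set UnitAddCircle) : Prop :=
  ∃ s : Set ℝ, s.OrdConnected ∧ s.Nontrivial ∧ I = (fun x : ℝ => (x : UnitAddCircle)) '' s

/-- `g n` converges to the identity on `I` in the `C^1`-topology -/
def TendstoIdOn (g : ℕ → Homeo) (I : Set UnitAddCircle) : Prop :=
  TendstoUniformlyOn (fun n x => g n x) (fun x => x) atTop I ∧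
  TendstoUniformlyOn (fun n x => cderiv (g n) x) (fun _ => 1) atTop I

/-- `G`, with limit set `L`, is strongly locally discrete in the `C^1`-topology -/
def IsStronglyLocallyDiscrete (G : Subgroup Homeo) (L : Set UnitAddCircle) : Prop :=
  ∃ J : Set (Set UnitAddCircle), (∀ I ∈ J, IsInterval I) ∧ L ⊆ ⋃₀ J ∧
    ∀ I ∈ J, ∀ g : ℕ → Homeo, (∀ n, g n ∈ G) → TendstoIdOn g I → ∀ᶠ n in atTop, g n = 1

/-- the Hölder seminorm `|log |g'||_τ` -/
noncomputable def logHolder (τ : ℝ) (g : Homeo) : ℝ≥0∞ :=
  ⨆ (x : UnitAddCircle) (y : UnitAddCircle) (_ : x ≠ y),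
    ENNReal.ofReal (abs (Real.log |cderiv g x| - Real.log |cderiv g y|) / dist x y ^ τ)

/-- the convolution powers `μ^{*n}` -/
noncomputable def convPow {Γ : Type*} [Group Γ] (μ : PMF Γ) : ℕ → PMF Γ
  | 0 => PMF.pure 1
  | n + 1 => (convPow μ n).bind fun g => μ.map fun h => g * h

/-- the entropy `H(p)` -/
noncomputable def entropy {Γ : Type*} (p : PMF Γ) : ℝ := ∑' g, Real.negMulLog (p g).toReal

section

variable {G : Subgroup Homeo}

/-- `∑ μ(g) g_* ν = ν` -/
def IsStationary (μ : PMF G) (ν : Measure UnitAddCircle) : Prop :=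
  Measure.sum (fun g : G => μ g • ν.map (g : Homeo)) = ν

/-- the boundary entropy `h_ν` -/
noncomputable def boundaryEntropy (μ : PMF G) (ν : Measure UnitAddCircle) : ℝ :=
  -∑' g : G, (μ g).toReal * ∫ x, Real.log ((ν.map (g⁻¹ : Homeo)).rnDeriv ν x).toReal ∂ν

end

/-- `G` together with some `μ` is a counterexample to the strict entropy inequality. -/
def IsCounterexample (G : Subgroup Homeo) : Prop :=
  G.FG ∧ (∃ τ > 0, ∀ g ∈ G, IsHolderDiffeo τ g) ∧ IsNonElementary G ∧
  (∃ L, IsLimitSet G L ∧ ¬ IsStronglyLocallyDiscrete G L) ∧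
  ∃ μ : PMF G, Subsemigroup.closure μ.support = ⊤ ∧
    (Summable fun g => Real.negMulLog (μ g).toReal) ∧
    (∃ τ > 0, ∑' g : G, μ g * logHolder τ g < ∞) ∧
    ∃ ν : Measure UnitAddCircle, IsProbabilityMeasure ν ∧ IsStationary μ ν ∧
      (∀ ν' : Measure UnitAddCircle, IsProbabilityMeasure ν' → IsStationary μ ν' → ν' = ν) ∧
      Tendsto (fun n : ℕ => entropy (convPow μ n) / n) atTop (𝓝 (boundaryEntropy μ ν))

end Pool.Agent.ELM
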