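import Mathlib
import Pool.Agent.ELM.Defs

/-!
# ELM: real-analytic homeomorphisms of the circle, general part
-/

set_option autoImplicit false

namespace Pool.Agent.ELM

open Filter MeasureTheory Topology
open scoped ENNReal ContDiff

/-- `g` is a real-analytic diffeomorphism: it has a real-analytic lift with nonzero derivative -/
def IsAnalytic (g : Homeo) : Prop :=
  ∃ A : ℝ → ℝ, AnalyticOnNhd ℝ A Set.univ ∧ (∀ x, deriv A x ≠ 0) ∧
    ∀ x : ℝ, ((A x : ℝ) : UnitAddCircle) = g (x : UnitAddCircle)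

theorem IsAnalytic.one : IsAnalytic 1 :=
  ⟨id, analyticOnNhd_id, fun x => by simp, fun x => rfl⟩

theorem IsAnalytic.mul {g h : Homeo} (hg : IsAnalytic g) (hh : IsAnalytic h) :
    IsAnalytic (g * h) := by
  obtain ⟨A, hA1, hA2, hA3⟩ := hg
  obtain ⟨B, hB1, hB2, hB3⟩ := hh
  refine ⟨A ∘ B, hA1.comp hB1 (Set.mapsTo_univ _ _), fun x => ?_, fun x => ?_⟩
  · rw [deriv_comp x (hA1 (B x) (Set.mem_univ _)).differentiableAt
      (hB1 x (Set.mem_univ _)).differentiableAt]
    exact mul_ne_zero (hA2 _) (hB2 _)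
  · change ((A (B x) : ℝ) : UnitAddCircle) = g (h x)
    rw [hA3, hB3]

/-- a group generated by real-analytic diffeomorphisms with real-analytic inverses -/
theorem IsAnalytic.closure {S : Set Homeo} (hS : ∀ g ∈ S, IsAnalytic g ∧ IsAnalytic g⁻¹) :
    ∀ g ∈ Subgroup.closure S, IsAnalytic g := by
  have h : ∀ g ∈ Subgroup.closure S, IsAnalytic g ∧ IsAnalytic g⁻¹ := by
    intro g hg
    induction hg using Subgroup.closure_induction with
    | mem x hx => exact hS x hx
    | one => exact ⟨IsAnalytic.one, by rw [inv_one]; exact IsAnalytic.one⟩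
    | mul x y _ _ hx hy => exact ⟨hx.1.mul hy.1, by rw [mul_inv_rev]; exact hy.2.mul hx.2⟩
    | inv x _ hx => exact ⟨hx.2, by rw [inv_inv]; exact hx.1⟩
  exact fun g hg => (h g hg).1

/-- the restriction to `ℝ` of the real part of a holomorphic function is real-analytic -/
theorem analytic_re {U : Set ℂ} (hU : IsOpen U) (hR : ∀ x : ℝ, (x : ℂ) ∈ U) {W : ℂ → ℂ}
    (hW : DifferentiableOn ℂ W U) : AnalyticOnNhd ℝ (fun x : ℝ => (W x).re) Set.univ := by
  intro x _
  have h1 : AnalyticAt ℝ W (x : ℂ) := (hW.analyticAt (hU.mem_nhds (hR x))).restrictScalars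
  have h2 : AnalyticAt ℝ (fun y : ℝ => (y : ℂ)) x := Complex.ofRealCLM.analyticAt x
  have h3 : AnalyticAt ℝ (fun y : ℝ => W (y : ℂ)) x := h1.comp h2
  exact (Complex.reCLM.analyticAt _).comp h3

/-- a primitive of such a function is real-analytic -/
theorem analytic_primitive {U : Set ℂ} (hU : IsOpen U) (hR : ∀ x : ℝ, (x : ℂ) ∈ U) {W : ℂ → ℂ}
    (hW : DifferentiableOn ℂ W U) {f : ℝ → ℝ} (hf : ∀ x : ℝ, HasDerivAt f ((W x).re) x) :
    AnalyticOnNhd ℝ f Set.univ := by
  intro x₀ _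
  obtain ⟨r, hr, hrU⟩ := Metric.isOpen_iff.1 hU _ (hR x₀)
  obtain ⟨Φ, hΦ⟩ := (hW.mono hrU).isExactOn_ball
  have hΦd : DifferentiableOn ℂ Φ (Metric.ball (x₀ : ℂ) r) := fun z hz =>
    (hΦ z hz).differentiableAt.differentiableWithinAt
  have h1 : AnalyticAt ℝ Φ (x₀ : ℂ) :=
    (hΦd.analyticAt (Metric.isOpen_ball.mem_nhds (Metric.mem_ball_self hr))).restrictScalars
  have h2 : AnalyticAt ℝ (fun y : ℝ => (Φ (y : ℂ)).re) x₀ :=
    (Complex.reCLM.analyticAt _).comp (h1.comp (Complex.ofRealCLM.analyticAt x₀))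
  have hmem : ∀ y ∈ Set.Ioo (x₀ - r) (x₀ + r), (y : ℂ) ∈ Metric.ball (x₀ : ℂ) r := by
    intro y hy
    rw [Metric.mem_ball, Complex.dist_eq, ← Complex.ofReal_sub, Complex.norm_real,
      Real.norm_eq_abs, abs_lt]
    constructor <;> linarith [hy.1, hy.2]
  have h3 : ∀ y ∈ Set.Ioo (x₀ - r) (x₀ + r),
      HasDerivAt (fun y : ℝ => (Φ (y : ℂ)).re - f y) 0 y := by
    intro y hy
    have h4 : HasDerivAt (fun y : ℝ => (Φ (y : ℂ)).re) (W y).re y :=
      (hΦ _ (hmem y hy)).real_of_complex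
    have h5 := h4.sub (hf y)
    rwa [sub_self] at h5
  have h6 : ∀ y ∈ Set.Ioo (x₀ - r) (x₀ + r),
      (Φ (y : ℂ)).re - f y = (Φ (x₀ : ℂ)).re - f x₀ := by
    intro y hy
    have hx₀ : x₀ ∈ Set.Ioo (x₀ - r) (x₀ + r) := ⟨by linarith, by linarith⟩
    exact isOpen_Ioo.is_const_of_deriv_eq_zero isPreconnected_Ioo
      (fun z hz => (h3 z hz).differentiableAt.differentiableWithinAt)
      (fun z hz => (h3 z hz).deriv) hy hx₀
  have h7 : AnalyticAt ℝ (fun y : ℝ => (Φ (y : ℂ)).re - ((Φ (x₀ : ℂ)).re - f x₀)) x₀ :=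
    h2.sub analyticAt_const
  refine h7.congr ?_
  filter_upwards [isOpen_Ioo.mem_nhds (show x₀ ∈ Set.Ioo (x₀ - r) (x₀ + r) from
    ⟨by linarith, by linarith⟩)] with y hy
  have := h6 y hy
  linarith

/-- the solution `A` of `B (A x) = B x + s` is real-analytic -/
theorem analytic_shift {B w A : ℝ → ℝ} (hB : AnalyticOnNhd ℝ B Set.univ)
    (hw : ∀ x, 0 < w x) (hBw : ∀ x, HasDerivAt B (w x) x) (hs : Function.Surjective B) {s : ℝ}
    (hA : ∀ x, B (A x) = B x + s) :
    AnalyticOnNhd ℝ A Set.univ ∧ ∀ x, deriv A x ≠ 0 := by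
  have hmono : StrictMono B := strictMono_of_hasDerivAt_pos hBw hw
  let e : ℝ ≃ₜ ℝ := (hmono.orderIsoOfSurjective B hs).toHomeomorph
  have he : ∀ x, e x = B x := fun x => rfl
  have h1 : ContDiff ℝ ω (e.symm : ℝ → ℝ) :=
    e.contDiff_symm_deriv (f' := w) (fun x => (hw x).ne') hBw
      (contDiff_omega_iff_analyticOnNhd.2 hB)
  have h2 : A = fun x => e.symm (B x + s) := by
    funext x
    rw [← hA x, ← he, e.symm_apply_apply]
  have h3 : ContDiff ℝ ω A := by
    rw [h2]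
    exact h1.comp ((contDiff_omega_iff_analyticOnNhd.2 hB).add contDiff_const)
  have h4 : AnalyticOnNhd ℝ A Set.univ := contDiff_omega_iff_analyticOnNhd.1 h3
  refine ⟨h4, fun x h0 => ?_⟩
  have h5 : HasDerivAt A 0 x := by
    have := (h4 x (Set.mem_univ _)).differentiableAt.hasDerivAt
    rwa [h0] at this
  have h6 : HasDerivAt (fun y => B (A y)) (w (A x) * 0) x := (hBw (A x)).comp x h5
  have h7 : HasDerivAt (fun y => B (A y)) (w x) x := by
    have : (fun y => B (A y)) = fun y => B y + s := funext hA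
    rw [this]
    exact (hBw x).add_const s
  have h8 := h6.unique h7
  have h9 := hw x
  rw [mul_zero] at h8
  exact h9.ne h8

end Pool.Agent.ELM
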