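import Pool.Agent.ELM.Defs

/-!
# The entropy of the simple random walk on the free group of rank two
-/

set_option autoImplicit false

namespace Pool.Agent.ELM

open Filter Topology
open scoped ENNReal

/-- the free group on two generators -/
abbrev F2 := FreeGroup Bool

/-- the letters of `F2`: the generators and their inverses -/
def ltr (x : Bool × Bool) : F2 := FreeGroup.mk [x]

/-- the uniform measure on the letters -/
noncomputable def muF : PMF F2 := (PMF.uniformOfFintype (Bool × Bool)).map ltr

/-- the inverse letter -/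
def opp (x : Bool × Bool) : Bool × Bool := (x.1, !x.2)

theorem opp_opp (x : Bool × Bool) : opp (opp x) = x := by simp [opp]

theorem ltr_inv (x : Bool × Bool) : (ltr x)⁻¹ = ltr (opp x) := rfl

/-- the bijection `x ↦ opp x` -/
def oppEquiv : Bool × Bool ≃ Bool × Bool := ⟨opp, opp, opp_opp, opp_opp⟩

theorem toWord_ltr_mul (x : Bool × Bool) (g : F2) :
    (ltr x * g).toWord = List.casesOn (motive := fun _ => List (Bool × Bool)) g.toWord [x]
      fun hd tl => if x.1 = hd.1 ∧ x.2 = !hd.2 then tl else x :: hd :: tl := by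
  rw [FreeGroup.toWord_mul, ltr, FreeGroup.toWord_mk, FreeGroup.reduce_singleton,
    List.singleton_append, FreeGroup.reduce.cons, FreeGroup.reduce_toWord]

theorem norm_ltr_mul_one (x : Bool × Bool) : (ltr x * 1).norm = 1 := by
  rw [FreeGroup.norm, toWord_ltr_mul, FreeGroup.toWord_one]
  rfl

/-- multiplication by one letter decreases the length, by the three others increases it -/
theorem norm_ltr_mul {g : F2} (hg : g ≠ 1) : 0 < g.norm ∧ ∃ y : Bool × Bool, ∀ x,
    (ltr x * g).norm = if x = y then g.norm - 1 else g.norm + 1 := by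
  cases hw : g.toWord with
  | nil => exact absurd (FreeGroup.toWord_eq_nil_iff.1 hw) hg
  | cons hd tl =>
    have hn : g.norm = tl.length + 1 := by rw [FreeGroup.norm, hw, List.length_cons]
    refine ⟨by omega, opp hd, fun x => ?_⟩
    rw [FreeGroup.norm, toWord_ltr_mul, hw]
    by_cases hx : x = opp hd
    · rw [if_pos hx, hn]
      simp [hx, opp]
    · rw [if_neg hx, hn]
      have : ¬ (x.1 = hd.1 ∧ x.2 = !hd.2) := fun h => hx (Prod.ext h.1 h.2)
      simp [this]

theorem convPow_succ' {Γ : Type*} [Group Γ] (μ : PMF Γ) (n : ℕ) :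
    convPow μ (n + 1) = μ.bind fun s => (convPow μ n).map fun g => s * g := by
  induction n with
  | zero =>
    simp only [convPow, PMF.pure_bind, PMF.pure_map, one_mul, mul_one]
    rw [PMF.bind_pure]
    exact PMF.map_id μ
  | succ n ih =>
    change (convPow μ (n + 1)).bind (fun g => μ.map fun h => g * h) =
      μ.bind fun s => ((convPow μ n).bind fun g => μ.map fun h => g * h).map fun g => s * g
    rw [ih, PMF.bind_bind]
    congr 1
    ext1 s
    rw [PMF.bind_map, PMF.map_bind]
    congr 1
    ext1 g
    rw [PMF.map_comp, Function.comp_apply]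
    congr 1
    ext1 h
    exact mul_assoc s g h

theorem map_mul_apply {Γ : Type*} [Group Γ] (p : PMF Γ) (s g : Γ) :
    (p.map fun h => s * h) g = p (s⁻¹ * g) := by
  rw [PMF.map_apply]
  rw [tsum_eq_single (s⁻¹ * g)]
  · rw [if_pos (by group)]
  · intro h hne
    rw [if_neg]
    rintro rfl
    exact hne (by group)

/-- the distribution of the walk -/
noncomputable def P (n : ℕ) (g : F2) : ℝ := (convPow muF n g).toReal

theorem P_nonneg (n : ℕ) (g : F2) : 0 ≤ P n g := ENNReal.toReal_nonneg

theorem P_zero (g : F2) : P 0 g = if g = 1 then 1 else 0 := by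
  unfold P
  rw [convPow, PMF.pure_apply]
  split_ifs <;> simp

theorem P_succ (n : ℕ) (g : F2) : P (n + 1) g = ∑ x : Bool × Bool, (1 / 4) * P n (ltr x * g) := by
  unfold P
  rw [convPow_succ']
  nth_rewrite 1 [muF]
  rw [PMF.bind_map, PMF.bind_apply, tsum_fintype, ENNReal.toReal_sum]
  · rw [← Equiv.sum_comp oppEquiv]
    refine Finset.sum_congr rfl fun x _ => ?_
    rw [ENNReal.toReal_mul, PMF.uniformOfFintype_apply, Function.comp_apply, map_mul_apply,
      ltr_inv]
    change _ * ((convPow muF n) (ltr (opp (opp x)) * g)).toReal = _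
    rw [opp_opp]
    simp
  · intro x _
    exact ENNReal.mul_ne_top (PMF.apply_ne_top _ _) (PMF.apply_ne_top _ _)

theorem sum_ite {A B : ℝ} (y : Bool × Bool) :
    ∑ x : Bool × Bool, (1 / 4 : ℝ) * (if x = y then A else B) = (A + 3 * B) / 4 := by
  rw [← Finset.mul_sum]
  have h : ∀ x : Bool × Bool, (if x = y then A else B) = B + if x = y then A - B else 0 := by
    intro x
    split_ifs <;> ring
  rw [Finset.sum_congr rfl fun x _ => h x, Finset.sum_add_distrib, Finset.sum_ite_eq',
    if_pos (Finset.mem_univ y)]
  simp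
  ring

/-- the basic bound: no group element is hit with probability more than `3^{-|g|}` -/
theorem P_le (n : ℕ) (g : F2) : P n g ≤ (1 / 3) ^ g.norm := by
  induction n generalizing g with
  | zero =>
    rw [P_zero]
    split_ifs with h
    · rw [h, FreeGroup.norm_one, pow_zero]
    · positivity
  | succ n ih =>
    rw [P_succ]
    by_cases hg : g = 1
    · subst hg
      rw [FreeGroup.norm_one, pow_zero]
      have h1 : ∀ x : Bool × Bool, (1 / 4 : ℝ) * P n (ltr x * 1) ≤ 1 / 4 * (1 / 3) := by
        intro x
        have := ih (ltr x * 1)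
        rw [norm_ltr_mul_one, pow_one] at this
        linarith
      refine (Finset.sum_le_sum fun x _ => h1 x).trans ?_
      simp
      norm_num
    · obtain ⟨hpos, y, hy⟩ := norm_ltr_mul hg
      have h1 : ∀ x : Bool × Bool, (1 / 4 : ℝ) * P n (ltr x * g) ≤
          1 / 4 * (if x = y then (1 / 3) ^ (g.norm - 1) else (1 / 3) ^ (g.norm + 1)) := by
        intro x
        have := ih (ltr x * g)
        rw [hy x] at this
        split_ifs at this ⊢ with hxy
        · linarith
        · linarith
      refine (Finset.sum_le_sum fun x _ => h1 x).trans ?_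
      rw [sum_ite]
      obtain ⟨r, hr⟩ : ∃ r, g.norm = r + 1 := ⟨g.norm - 1, by omega⟩
      rw [hr, Nat.add_sub_cancel]
      have : (0 : ℝ) < (1 / 3) ^ r := by positivity
      rw [pow_succ, pow_succ]
      linarith

theorem P_eq_zero {n : ℕ} {g : F2} (h : n < g.norm) : P n g = 0 := by
  induction n generalizing g with
  | zero =>
    rw [P_zero, if_neg]
    rintro rfl
    rw [FreeGroup.norm_one] at h
    omega
  | succ n ih =>
    rw [P_succ]
    refine Finset.sum_eq_zero fun x _ => ?_
    have hg : g ≠ 1 := by
      rintro rfl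
      rw [FreeGroup.norm_one] at h
      omega
    obtain ⟨hpos, y, hy⟩ := norm_ltr_mul hg
    have h1 := hy x
    rw [ih (by split_ifs at h1 <;> omega), mul_zero]

/-! ### counting -/

/-- a finite set containing all the reduced words of length `r` -/
def W : ℕ → Finset (List (Bool × Bool))
  | 0 => {[]}
  | r + 1 => (W r).biUnion fun L =>
      (Finset.univ.filter fun x : Bool × Bool => L.head? ≠ some (opp x)).image fun x => x :: L

theorem card_W (r : ℕ) : (W r).card ≤ 2 * 3 ^ r := by
  have h1 : ∀ L : List (Bool × Bool), L ≠ [] → ((Finset.univ.filter fun x : Bool × Bool =>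
      L.head? ≠ some (opp x)).image fun x => x :: L).card ≤ 3 := by
    intro L hL
    refine Finset.card_image_le.trans ?_
    obtain ⟨hd, tl, rfl⟩ := List.exists_cons_of_ne_nil hL
    have h2 : (Finset.univ.filter fun x : Bool × Bool => (hd :: tl).head? ≠ some (opp x)) ⊆
        Finset.univ.erase (opp hd) := by
      intro x hx
      rw [Finset.mem_filter] at hx
      rw [Finset.mem_erase]
      refine ⟨?_, Finset.mem_univ _⟩
      rintro rfl
      exact hx.2 (by simp [opp_opp])
    refine (Finset.card_le_card h2).trans ?_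
    rw [Finset.card_erase_of_mem (Finset.mem_univ _)]
    simp
  have hne : ∀ r, ∀ L ∈ W (r + 1), L ≠ [] := by
    intro r L hL
    simp only [W, Finset.mem_biUnion, Finset.mem_image] at hL
    obtain ⟨L', -, x, -, rfl⟩ := hL
    simp
  have h3 : ∀ r, (W (r + 1)).card ≤ 4 * 3 ^ r := by
    intro r
    induction r with
    | zero => decide
    | succ r ih =>
      rw [W]
      refine Finset.card_biUnion_le.trans ?_
      refine (Finset.sum_le_sum fun L hL => h1 L (hne r L hL)).trans ?_
      rw [Finset.sum_const, smul_eq_mul, pow_succ]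
      omega
  cases r with
  | zero => decide
  | succ r =>
    refine (h3 r).trans ?_
    rw [pow_succ]
    omega

theorem toWord_mem_W (g : F2) : g.toWord ∈ W g.norm := by
  have key : ∀ (r : ℕ) (L : List (Bool × Bool)), FreeGroup.reduce L = L → L.length = r →
      L ∈ W r := by
    intro r
    induction r with
    | zero =>
      intro L _ h
      rw [List.length_eq_zero_iff] at h
      simp [W, h]
    | succ r ih =>
      intro L hL h
      cases L with
      | nil => simp at h
      | cons x L =>
        have h1 : L.length = r := by simpa using h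
        rw [FreeGroup.reduce.cons] at hL
        have h2 : FreeGroup.reduce L = L ∧ L.head? ≠ some (opp x) := by
          cases hR : FreeGroup.reduce L with
          | nil =>
            rw [hR] at hL
            simp only [List.cons.injEq, true_and] at hL
            rw [← hL]
            simp
          | cons hd tl =>
            rw [hR] at hL
            simp only at hL
            split_ifs at hL with hc
            · exfalso
              have h4 : (FreeGroup.reduce L).length ≤ L.length :=
                (FreeGroup.reduce.red (L := L)).length_le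
              rw [hR] at h4
              have h5 := congrArg List.length hL
              simp only [List.length_cons] at h4 h5
              omega
            · simp only [List.cons.injEq, true_and] at hL
              refine ⟨hL, ?_⟩
              rw [← hL]
              intro h6
              simp only [List.head?_cons, Option.some.injEq] at h6
              exact hc (by simp [h6, opp])
        simp only [W, Finset.mem_biUnion, Finset.mem_image, Finset.mem_filter]
        exact ⟨L, ih L h2.1 h1, x, ⟨Finset.mem_univ _, h2.2⟩, rfl⟩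
  exact key _ _ (FreeGroup.reduce_toWord g) rfl

/-- the ball of radius `n` -/
noncomputable def ball (n : ℕ) : Finset F2 :=
  ((Finset.range (n + 1)).biUnion W).image FreeGroup.mk

theorem mem_ball {n : ℕ} {g : F2} (h : g.norm ≤ n) : g ∈ ball n := by
  unfold ball
  rw [Finset.mem_image]
  refine ⟨g.toWord, ?_, FreeGroup.mk_toWord⟩
  rw [Finset.mem_biUnion]
  exact ⟨g.norm, Finset.mem_range.2 (by omega), toWord_mem_W g⟩

theorem sum_ball (n : ℕ) : ∑ g ∈ ball n, (if g.norm ≤ n then (1 / 3 : ℝ) ^ g.norm else 0) ≤
    2 * (n + 1) := by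
  classical
  have h1 : ∀ g ∈ ball n, (if g.norm ≤ n then (1 / 3 : ℝ) ^ g.norm else 0) =
      ∑ r ∈ Finset.range (n + 1), if g.norm = r then (1 / 3 : ℝ) ^ r else 0 := by
    intro g _
    split_ifs with h
    · rw [Finset.sum_ite_eq, if_pos (Finset.mem_range.2 (by omega))]
    · rw [Finset.sum_ite_eq, if_neg (by rw [Finset.mem_range]; omega)]
  rw [Finset.sum_congr rfl h1, Finset.sum_comm]
  have h2 : ∀ r ∈ Finset.range (n + 1),
      ∑ g ∈ ball n, (if g.norm = r then (1 / 3 : ℝ) ^ r else 0) ≤ 2 := by
    intro r _
    rw [← Finset.sum_filter, Finset.sum_const, nsmul_eq_mul]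
    have h3 : ((ball n).filter fun g : F2 => g.norm = r).card ≤ (W r).card := by
      refine Finset.card_le_card_of_injOn FreeGroup.toWord ?_
        (FreeGroup.toWord_injective.injOn)
      intro g hg
      rw [Finset.mem_coe, Finset.mem_filter] at hg
      have := toWord_mem_W g
      rw [hg.2] at this
      exact this
    have h4 : (((ball n).filter fun g : F2 => g.norm = r).card : ℝ) ≤ 2 * 3 ^ r := by
      exact_mod_cast h3.trans (card_W r)
    calc _ ≤ 2 * 3 ^ r * (1 / 3 : ℝ) ^ r := by gcongr
      _ = 2 := by rw [mul_assoc, ← mul_pow]; norm_num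
  refine (Finset.sum_le_sum h2).trans ?_
  rw [Finset.sum_const, Finset.card_range, nsmul_eq_mul]
  push_cast
  linarith

/-! ### expectations -/

/-- the expectation of `f (X_n)` -/
noncomputable def Ex (n : ℕ) (f : F2 → ℝ) : ℝ := ∑ g ∈ ball n, P n g * f g

theorem sum_ball_eq {n m : ℕ} (hm : n ≤ m) (f : F2 → ℝ) :
    ∑ g ∈ ball m, P n g * f g = ∑' g, P n g * f g := by
  refine (tsum_eq_sum fun g hg => ?_).symm
  rw [P_eq_zero, zero_mul]
  by_contra h
  exact hg (mem_ball (by omega))

theorem Ex_eq_tsum (n : ℕ) (f : F2 → ℝ) : Ex n f = ∑' g, P n g * f g := sum_ball_eq le_rfl f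

theorem summable_P (n : ℕ) (f : F2 → ℝ) : Summable fun g => P n g * f g := by
  refine summable_of_hasFiniteSupport ((ball n).finite_toSet.subset fun g hg => ?_)
  by_contra h
  refine hg ?_
  change P n g * f g = 0
  rw [P_eq_zero, zero_mul]
  by_contra h'
  exact h (mem_ball (by omega))

theorem Ex_zero (f : F2 → ℝ) : Ex 0 f = f 1 := by
  rw [Ex_eq_tsum, tsum_eq_single 1]
  · rw [P_zero, if_pos rfl, one_mul]
  · intro g hg
    rw [P_zero, if_neg hg, zero_mul]

theorem Ex_succ (n : ℕ) (f : F2 → ℝ) :
    Ex (n + 1) f = Ex n fun g => ∑ x : Bool × Bool, (1 / 4) * f (ltr x * g) := by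
  rw [Ex_eq_tsum, Ex_eq_tsum]
  have h1 : ∀ g, P (n + 1) g * f g = ∑ x : Bool × Bool, (1 / 4) * (P n (ltr x * g) * f g) := by
    intro g
    rw [P_succ, Finset.sum_mul]
    exact Finset.sum_congr rfl fun x _ => by ring
  have h2 : ∀ x : Bool × Bool, ∀ g, P n (ltr x * g) * f g =
      (fun h => P n h * f (ltr (opp x) * h)) (ltr x * g) := by
    intro x g
    simp only
    rw [← ltr_inv, inv_mul_cancel_left]
  have h3 : ∀ x : Bool × Bool, Summable fun g => (1 / 4 : ℝ) * (P n (ltr x * g) * f g) := by
    intro x
    refine Summable.mul_left _ ?_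
    rw [show (fun g => P n (ltr x * g) * f g) =
      (fun h => P n h * f (ltr (opp x) * h)) ∘ (Equiv.mulLeft (ltr x)) from funext (h2 x)]
    exact (Equiv.mulLeft (ltr x)).summable_iff.2 (summable_P n _)
  have h4 : ∀ x : Bool × Bool, ∑' g, (1 / 4 : ℝ) * (P n (ltr x * g) * f g) =
      ∑' h, P n h * ((1 / 4) * f (ltr (opp x) * h)) := by
    intro x
    have e1 := (Equiv.mulLeft (ltr x)).tsum_eq (fun h => P n h * f (ltr (opp x) * h))
    have e2 : ∑' g, P n (ltr x * g) * f g = ∑' h, P n h * f (ltr (opp x) * h) := by
      rw [← e1]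
      exact tsum_congr fun g => h2 x g
    rw [tsum_mul_left, e2, ← tsum_mul_left]
    exact tsum_congr fun h => by ring
  rw [tsum_congr h1, Summable.tsum_finsetSum fun x _ => h3 x,
    Finset.sum_congr rfl fun x _ => h4 x]
  have h5 : ∀ x : Bool × Bool, Summable fun h => P n h * ((1 / 4 : ℝ) * f (ltr x * h)) := fun x =>
    summable_P n _
  have h6 := Equiv.sum_comp oppEquiv (fun x => ∑' h, P n h * ((1 / 4) * f (ltr x * h)))
  refine h6.trans ?_
  rw [← Summable.tsum_finsetSum fun x _ => h5 x]
  exact tsum_congr fun g => by rw [Finset.mul_sum]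

theorem Ex_mono {n : ℕ} {f f' : F2 → ℝ} (h : ∀ g, f g ≤ f' g) : Ex n f ≤ Ex n f' :=
  Finset.sum_le_sum fun g _ => mul_le_mul_of_nonneg_left (h g) (P_nonneg n g)

theorem Ex_add (n : ℕ) (f f' : F2 → ℝ) : Ex n (fun g => f g + f' g) = Ex n f + Ex n f' := by
  unfold Ex
  rw [← Finset.sum_add_distrib]
  exact Finset.sum_congr rfl fun g _ => by ring

theorem Ex_mul (n : ℕ) (c : ℝ) (f : F2 → ℝ) : Ex n (fun g => c * f g) = c * Ex n f := by
  unfold Ex
  rw [Finset.mul_sum]
  exact Finset.sum_congr rfl fun g _ => by ring

theorem Ex_one (n : ℕ) : Ex n (fun _ => 1) = 1 := by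
  induction n with
  | zero => exact Ex_zero _
  | succ n ih =>
    rw [Ex_succ]
    have : (fun _ : F2 => ∑ x : Bool × Bool, (1 / 4 : ℝ) * 1) = fun _ => 1 := by
      ext g
      simp
    rw [this, ih]

theorem Ex_const (n : ℕ) (c : ℝ) : Ex n (fun _ => c) = c := by
  have := Ex_mul n c fun _ => 1
  rw [Ex_one, mul_one] at this
  simpa using this

/-- the return probabilities are exponentially small -/
theorem P_one_le (n : ℕ) : P n 1 ≤ (7 / 8) ^ n := by
  have h1 : ∀ m, Ex m (fun g => (1 / 2 : ℝ) ^ g.norm) ≤ (7 / 8) ^ m := by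
    intro m
    induction m with
    | zero => rw [Ex_zero, FreeGroup.norm_one, pow_zero, pow_zero]
    | succ m ih =>
      rw [Ex_succ]
      refine (Ex_mono (f' := fun g => (7 / 8) * (1 / 2 : ℝ) ^ g.norm) fun g => ?_).trans ?_
      · by_cases hg : g = 1
        · subst hg
          rw [Finset.sum_congr rfl fun x _ => by rw [norm_ltr_mul_one]]
          simp
          norm_num
        · obtain ⟨hpos, y, hy⟩ := norm_ltr_mul hg
          have h2 : ∀ x : Bool × Bool, (1 / 4 : ℝ) * (1 / 2) ^ (ltr x * g).norm =
              1 / 4 * (if x = y then (1 / 2) ^ (g.norm - 1) else (1 / 2) ^ (g.norm + 1)) := by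
            intro x
            rw [hy x]
            split_ifs <;> rfl
          rw [Finset.sum_congr rfl fun x _ => h2 x, sum_ite]
          obtain ⟨r, hr⟩ : ∃ r, g.norm = r + 1 := ⟨g.norm - 1, by omega⟩
          rw [hr, Nat.add_sub_cancel]
          have : (0 : ℝ) < (1 / 2) ^ r := by positivity
          rw [pow_succ, pow_succ]
          linarith
      · rw [Ex_mul, pow_succ]
        linarith
  refine le_trans ?_ (h1 n)
  unfold Ex
  have h3 := Finset.single_le_sum (f := fun g => P n g * (1 / 2 : ℝ) ^ g.norm)
    (fun g _ => mul_nonneg (P_nonneg n g) (by positivity)) (mem_ball (n := n) (g := 1) (by simp))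
  simpa using h3

/-- the drift of the walk -/
theorem Ex_norm (n : ℕ) :
    (n : ℝ) / 2 ≤ Ex n (fun g => (g.norm : ℝ)) ∧ Ex n (fun g => (g.norm : ℝ)) ≤ n / 2 + 4 := by
  have h1 : ∀ m, Ex (m + 1) (fun g => (g.norm : ℝ)) =
      Ex m (fun g => (g.norm : ℝ)) + 1 / 2 + 1 / 2 * P m 1 := by
    intro m
    rw [Ex_succ]
    have h2 : (fun g : F2 => ∑ x : Bool × Bool, (1 / 4 : ℝ) * ((ltr x * g).norm : ℝ)) =
        fun g => ((g.norm : ℝ) + 1 / 2) + (1 / 2) * (if g = 1 then 1 else 0) := by
      ext g
      by_cases hg : g = 1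
      · subst hg
        rw [Finset.sum_congr rfl fun x _ => by rw [norm_ltr_mul_one], if_pos rfl,
          FreeGroup.norm_one]
        simp
        norm_num
      · obtain ⟨hpos, y, hy⟩ := norm_ltr_mul hg
        have h2 : ∀ x : Bool × Bool, (1 / 4 : ℝ) * ((ltr x * g).norm : ℝ) =
            1 / 4 * (if x = y then (g.norm : ℝ) - 1 else (g.norm : ℝ) + 1) := by
          intro x
          rw [hy x]
          split_ifs
          · push_cast [Nat.cast_sub (show 1 ≤ g.norm by omega)]
            ring
          · push_cast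
            ring
        rw [Finset.sum_congr rfl fun x _ => h2 x, sum_ite, if_neg hg]
        ring
    rw [h2, Ex_add, Ex_add, Ex_const, Ex_mul]
    congr 2
    unfold Ex
    rw [Finset.sum_eq_single (1 : F2)]
    · simp
    · intro g _ hg
      simp [hg]
    · intro h
      exact absurd (mem_ball (by simp)) h
  constructor
  · induction n with
    | zero => rw [Ex_zero]; simp
    | succ n ih =>
      rw [h1]
      have := P_nonneg n 1
      push_cast
      linarith
  · have h2 : ∀ m, Ex m (fun g => (g.norm : ℝ)) ≤ m / 2 + 4 * (1 - (7 / 8) ^ m) := by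
      intro m
      induction m with
      | zero => rw [Ex_zero]; simp
      | succ m ih =>
        rw [h1]
        have := P_one_le m
        push_cast
        rw [pow_succ]
        linarith
    have : (0 : ℝ) < (7 / 8) ^ n := by positivity
    linarith [h2 n]

/-! ### entropy -/

theorem entropy_eq (n : ℕ) : entropy (convPow muF n) = ∑ g ∈ ball n, Real.negMulLog (P n g) := by
  unfold entropy
  refine tsum_eq_sum fun g hg => ?_
  have : P n g = 0 := by
    apply P_eq_zero
    by_contra h
    exact hg (mem_ball (by omega))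
  unfold P at this
  rw [this, Real.negMulLog_zero]

theorem entropy_ge (n : ℕ) : Real.log 3 * (n / 2) ≤ entropy (convPow muF n) := by
  rw [entropy_eq]
  have h1 : Real.log 3 * Ex n (fun g => (g.norm : ℝ)) ≤ ∑ g ∈ ball n, Real.negMulLog (P n g) := by
    unfold Ex
    rw [Finset.mul_sum]
    refine Finset.sum_le_sum fun g _ => ?_
    rcases (P_nonneg n g).eq_or_lt with h0 | h0
    · rw [← h0]
      simp
    · have h2 := Real.log_le_log h0 (P_le n g)
      rw [Real.log_pow, one_div, Real.log_inv] at h2
      rw [Real.negMulLog]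
      nlinarith
  refine le_trans ?_ h1
  exact mul_le_mul_of_nonneg_left (Ex_norm n).1 (Real.log_nonneg (by norm_num))

theorem entropy_le (n : ℕ) :
    entropy (convPow muF n) ≤ Real.log 3 * (n / 2 + 4) + Real.log (n + 1) + 1 := by
  rw [entropy_eq]
  have hn : (0 : ℝ) < (n : ℝ) + 1 := by positivity
  -- Gibbs with `q g = 3^{-|g|} / (n + 1)`
  have h1 : ∀ g ∈ ball n, Real.negMulLog (P n g) ≤
      (Real.log 3 * (P n g * (g.norm : ℝ)) + Real.log (n + 1) * P n g) +
        ((if g.norm ≤ n then (1 / 3 : ℝ) ^ g.norm else 0) / (n + 1) - P n g) := by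
    intro g _
    rcases (P_nonneg n g).eq_or_lt with h0 | h0
    · rw [← h0]
      simp only [Real.negMulLog_zero, zero_mul, mul_zero, add_zero, zero_add, sub_zero]
      apply div_nonneg _ hn.le
      split_ifs <;> positivity
    · have hle : g.norm ≤ n := by
        by_contra h
        exact h0.ne' (P_eq_zero (by omega))
      rw [if_pos hle]
      set q : ℝ := (1 / 3 : ℝ) ^ g.norm / (n + 1) with hq
      have hq0 : 0 < q := by positivity
      have h2 := Real.log_le_sub_one_of_pos (div_pos hq0 h0)
      rw [Real.log_div hq0.ne' h0.ne'] at h2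
      have h3 : P n g * (Real.log q - Real.log (P n g)) ≤ q - P n g := by
        have h4 := mul_le_mul_of_nonneg_left h2 h0.le
        have h5 : P n g * (q / P n g - 1) = q - P n g := by field_simp
        linarith
      have h6 : Real.log q = -(g.norm * Real.log 3) - Real.log (n + 1) := by
        rw [hq, Real.log_div (by positivity) hn.ne', Real.log_pow, one_div, Real.log_inv]
        ring
      rw [h6] at h3
      rw [Real.negMulLog]
      linarith
  refine (Finset.sum_le_sum h1).trans ?_
  rw [Finset.sum_add_distrib, Finset.sum_add_distrib, Finset.sum_sub_distrib, ← Finset.mul_sum,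
    ← Finset.mul_sum, ← Finset.sum_div]
  have h2 : ∑ g ∈ ball n, P n g = 1 := by
    have := Ex_one n
    unfold Ex at this
    simpa using this
  have h3 := (Ex_norm n).2
  unfold Ex at h3
  have h4 := sum_ball n
  have h5 : (∑ g ∈ ball n, if g.norm ≤ n then (1 / 3 : ℝ) ^ g.norm else 0) / (n + 1) ≤ 2 := by
    rw [div_le_iff₀ hn]
    exact h4
  have h6 : Real.log 3 * ∑ g ∈ ball n, P n g * (g.norm : ℝ) ≤ Real.log 3 * (n / 2 + 4) :=
    mul_le_mul_of_nonneg_left h3 (Real.log_nonneg (by norm_num))
  rw [h2]
  linarith

/-- the asymptotic entropy of the simple random walk on the free group of rank two -/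
theorem tendsto_entropy :
    Tendsto (fun n : ℕ => entropy (convPow muF n) / n) atTop (𝓝 (Real.log 3 / 2)) := by
  have hlow : ∀ᶠ n : ℕ in atTop, Real.log 3 / 2 ≤ entropy (convPow muF n) / n := by
    filter_upwards [eventually_gt_atTop 0] with n hn
    have hn' : (0 : ℝ) < n := by exact_mod_cast hn
    rw [le_div_iff₀ hn']
    linarith [entropy_ge n]
  have hup : ∀ᶠ n : ℕ in atTop, entropy (convPow muF n) / n ≤
      Real.log 3 / 2 + (4 * Real.log 3 + 1) / n + Real.log ((n : ℝ) + 1) / n := by
    filter_upwards [eventually_gt_atTop 0] with n hn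
    have hn' : (0 : ℝ) < n := by exact_mod_cast hn
    rw [div_le_iff₀ hn', add_mul, add_mul, div_mul_cancel₀ _ hn'.ne', div_mul_cancel₀ _ hn'.ne']
    linarith [entropy_le n]
  have hlim : Tendsto (fun n : ℕ => Real.log 3 / 2 + (4 * Real.log 3 + 1) / (n : ℝ) +
      Real.log ((n : ℝ) + 1) / n) atTop (𝓝 (Real.log 3 / 2)) := by
    have l1 : Tendsto (fun n : ℕ => (4 * Real.log 3 + 1) / (n : ℝ)) atTop (𝓝 0) :=
      tendsto_const_div_atTop_nhds_zero_nat _
    have l2 : Tendsto (fun n : ℕ => Real.log ((n : ℝ) + 1) / n) atTop (𝓝 0) := by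
      have l3 : Tendsto (fun x : ℝ => Real.log x / x) atTop (𝓝 0) := by
        simpa using Real.tendsto_pow_log_div_mul_add_atTop 1 0 1 one_ne_zero
      have l4 : Tendsto (fun n : ℕ => (n : ℝ) + 1) atTop atTop :=
        tendsto_atTop_add_const_right _ _ tendsto_natCast_atTop_atTop
      have l5 := l3.comp l4
      have l6 : Tendsto (fun n : ℕ => ((n : ℝ) + 1) / n) atTop (𝓝 1) := by
        have l7 : Tendsto (fun n : ℕ => (1 : ℝ) + 1 / n) atTop (𝓝 (1 + 0)) :=
          tendsto_const_nhds.add (tendsto_const_div_atTop_nhds_zero_nat 1)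
        rw [add_zero] at l7
        refine l7.congr' ?_
        filter_upwards [eventually_gt_atTop 0] with n hn
        have hn' : (n : ℝ) ≠ 0 := by exact_mod_cast hn.ne'
        field_simp
      have l8 := l5.mul l6
      rw [zero_mul] at l8
      refine l8.congr' ?_
      filter_upwards [eventually_gt_atTop 0] with n hn
      have hn' : (n : ℝ) ≠ 0 := by exact_mod_cast hn.ne'
      have hn'' : (n : ℝ) + 1 ≠ 0 := by positivity
      simp only [Function.comp_apply]
      field_simp
    have := (tendsto_const_nhds (x := Real.log 3 / 2)).add l1 |>.add l2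
    simpa using this
  exact tendsto_of_tendsto_of_tendsto_of_le_of_le' tendsto_const_nhds hlim hlow hup

/-! ### transport along an injective homomorphism -/

theorem convPow_map {Γ Δ : Type*} [Group Γ] [Group Δ] (φ : Γ →* Δ) (μ : PMF Γ) (n : ℕ) :
    convPow (μ.map φ) n = (convPow μ n).map φ := by
  induction n with
  | zero =>
    change PMF.pure 1 = (PMF.pure 1).map φ
    rw [PMF.pure_map, map_one]
  | succ n ih =>
    change (convPow (μ.map φ) n).bind (fun g => (μ.map φ).map fun h => g * h) =
      ((convPow μ n).bind fun g => μ.map fun h => g * h).map φ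
    rw [ih, PMF.bind_map, PMF.map_bind]
    congr 1
    ext1 g
    rw [Function.comp_apply, PMF.map_comp, PMF.map_comp]
    congr 1
    ext1 h
    exact (map_mul φ g h).symm

theorem entropy_map {Γ Δ : Type*} (φ : Γ → Δ) (hφ : Function.Injective φ) (p : PMF Γ) :
    entropy (p.map φ) = entropy p := by
  unfold entropy
  have h1 : ∀ g, (p.map φ) (φ g) = p g := by
    intro g
    rw [PMF.map_apply, tsum_eq_single g]
    · rw [if_pos rfl]
    · intro h hne
      rw [if_neg fun he => hne (hφ he.symm)]
  have h2 : Function.support (fun d => Real.negMulLog ((p.map φ) d).toReal) ⊆ Set.range φ := by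
    intro d hd
    by_contra hne
    refine hd ?_
    have h3 : (p.map φ) d = 0 := by
      rw [PMF.map_apply, ENNReal.tsum_eq_zero]
      intro g
      rw [if_neg]
      rintro rfl
      exact hne ⟨g, rfl⟩
    simp [h3]
  rw [← hφ.tsum_eq h2]
  exact tsum_congr fun g => by rw [h1]

/-- the asymptotic entropy of the uniform measure on the letters, for free generators of any
group -/
theorem tendsto_entropy_map {Γ : Type*} [Group Γ] (φ : F2 →* Γ) (hφ : Function.Injective φ) :
    Tendsto (fun n : ℕ => entropy (convPow (muF.map φ) n) / n) atTop (𝓝 (Real.log 3 / 2)) := by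
  have h : ∀ n, entropy (convPow (muF.map φ) n) = entropy (convPow muF n) := fun n => by
    rw [convPow_map, entropy_map φ hφ]
  simp only [h]
  exact tendsto_entropy

end Pool.Agent.ELM
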