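import Pool.Agent.ELM.Lift
import Pool.Agent.ELM.Tree

/-!
# The group generated by an irrational rotation and another diffeomorphism
-/

set_option autoImplicit false

namespace Pool.Agent.ELM

open Filter MeasureTheory Topology Set
open scoped ENNReal

variable (T S : Homeo)

/-- the group `⟨T, S⟩` -/
abbrev Grp : Subgroup Homeo := Subgroup.closure {T, S}

theorem T_mem : T ∈ Grp T S := Subgroup.subset_closure (mem_insert T {S})

theorem S_mem : S ∈ Grp T S := Subgroup.subset_closure (mem_insert_of_mem T (mem_singleton S))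

/-- the homomorphism from the free group -/
def toHomeo : F2 →* Homeo := FreeGroup.lift fun b : Bool => if b then T else S

/-- the same homomorphism, with values in the group -/
def toGrp : F2 →* Grp T S :=
  FreeGroup.lift fun b : Bool => if b then ⟨T, T_mem T S⟩ else ⟨S, S_mem T S⟩

theorem coe_toGrp (w : F2) : ((toGrp T S w : Grp T S) : Homeo) = toHomeo T S w := by
  have h : (Grp T S).subtype.comp (toGrp T S) = toHomeo T S := by
    ext b : 1
    cases b <;> simp [toGrp, toHomeo]
  exact DFunLike.congr_fun h w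

theorem toGrp_injective (h : Function.Injective (toHomeo T S)) :
    Function.Injective (toGrp T S) := by
  intro v w hvw
  apply h
  rw [← coe_toGrp, ← coe_toGrp, hvw]

theorem toGrp_surjective : Function.Surjective (toGrp T S) := by
  rintro ⟨g, hg⟩
  have h : Grp T S ≤ (toHomeo T S).range := by
    rw [Subgroup.closure_le]
    rintro x (rfl | rfl)
    · exact ⟨FreeGroup.of true, by simp [toHomeo]⟩
    · exact ⟨FreeGroup.of false, by simp [toHomeo]⟩
  obtain ⟨w, hw⟩ := h hg
  exact ⟨w, Subtype.ext (by rw [coe_toGrp, hw])⟩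

/-- the letters of the group -/
def gltr (x : Bool × Bool) : Grp T S := toGrp T S (ltr x)

theorem toHomeo_ltr (x : Bool × Bool) : toHomeo T S (ltr x) =
    if x.2 then (if x.1 then T else S) else (if x.1 then T else S)⁻¹ := by
  obtain ⟨b, s⟩ := x
  cases s <;> cases b <;> simp [toHomeo, ltr, FreeGroup.lift_mk]

/-- the uniform measure on the letters of the group -/
noncomputable def muG : PMF (Grp T S) := muF.map (toGrp T S)

theorem muG_eq : muG T S = (PMF.uniformOfFintype (Bool × Bool)).map (gltr T S) := by
  rw [muG, muF, PMF.map_comp]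
  rfl

theorem support_muG : (muG T S).support = range (gltr T S) := by
  rw [muG_eq, PMF.support_map, PMF.support_uniformOfFintype]
  exact image_univ

theorem closure_support : Subsemigroup.closure (muG T S).support = ⊤ := by
  rw [support_muG, eq_top_iff]
  rintro g -
  obtain ⟨w, rfl⟩ := toGrp_surjective T S g
  have hl : ∀ x, toGrp T S (ltr x) ∈ Subsemigroup.closure (range (gltr T S)) := fun x =>
    Subsemigroup.subset_closure ⟨x, rfl⟩
  have key : ∀ L : List (Bool × Bool),
      toGrp T S (FreeGroup.mk L) ∈ Subsemigroup.closure (range (gltr T S)) := by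
    intro L
    induction L with
    | nil =>
      have h1 : toGrp T S (FreeGroup.mk []) =
          toGrp T S (ltr (true, true)) * toGrp T S (ltr (opp (true, true))) := by
        rw [← map_mul, ← ltr_inv, mul_inv_cancel]
        rfl
      rw [h1]
      exact Subsemigroup.mul_mem _ (hl _) (hl _)
    | cons x L ih =>
      have h1 : toGrp T S (FreeGroup.mk (x :: L)) =
          toGrp T S (ltr x) * toGrp T S (FreeGroup.mk L) := by
        rw [← map_mul, ltr, FreeGroup.mul_mk]
        rfl
      rw [h1]
      exact Subsemigroup.mul_mem _ (hl _) ih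
  rw [← FreeGroup.mk_toWord (x := w)]
  exact key _

theorem tsum_muG (F : Grp T S → ℝ≥0∞) :
    ∑' g, muG T S g * F g = ∑ x : Bool × Bool, 4⁻¹ * F (gltr T S x) := by
  classical
  have h1 : ∀ g, muG T S g * F g = ∑ x : Bool × Bool, if g = gltr T S x then 4⁻¹ * F g else 0 := by
    intro g
    rw [muG_eq, PMF.map_apply, tsum_fintype, Finset.sum_mul]
    refine Finset.sum_congr rfl fun x _ => ?_
    rw [PMF.uniformOfFintype_apply]
    split_ifs
    · simp
    · rw [zero_mul]
  rw [tsum_congr h1, Summable.tsum_finsetSum fun x _ => ENNReal.summable]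
  refine Finset.sum_congr rfl fun x _ => ?_
  rw [tsum_eq_single (gltr T S x)]
  · rw [if_pos rfl]
  · intro g hg
    rw [if_neg hg]

theorem tsum_muG_real (F : Grp T S → ℝ) :
    ∑' g, (muG T S g).toReal * F g = ∑ x : Bool × Bool, 4⁻¹ * F (gltr T S x) := by
  classical
  have h1 : ∀ g, (muG T S g).toReal * F g =
      ∑ x : Bool × Bool, if g = gltr T S x then 4⁻¹ * F g else 0 := by
    intro g
    rw [muG_eq, PMF.map_apply, tsum_fintype, ENNReal.toReal_sum, Finset.sum_mul]
    · refine Finset.sum_congr rfl fun x _ => ?_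
      rw [PMF.uniformOfFintype_apply]
      split_ifs
      · simp
      · simp
    · intro x _
      split_ifs
      · exact PMF.apply_ne_top _ _
      · exact ENNReal.zero_ne_top
  rw [tsum_congr h1, Summable.tsum_finsetSum]
  · refine Finset.sum_congr rfl fun x _ => ?_
    rw [tsum_eq_single (gltr T S x)]
    · rw [if_pos rfl]
    · intro g hg
      rw [if_neg hg]
  · intro x _
    refine summable_of_hasFiniteSupport ((finite_singleton (gltr T S x)).subset fun g hg => ?_)
    by_contra h
    exact hg (if_neg h)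

/-- stationarity for the uniform measure on the four letters -/
def Stat4 (ν : Measure UnitAddCircle) : Prop :=
  ν.map T + ν.map (T⁻¹ : Homeo) + ν.map S + ν.map (S⁻¹ : Homeo) = (4 : ℝ≥0∞) • ν

theorem sum_letters {M : Type*} [AddCommMonoid M] (F : Homeo → M) :
    ∑ x : Bool × Bool, F (gltr T S x : Grp T S) = F T + F T⁻¹ + F S + F S⁻¹ := by
  have e : ∀ x, ((gltr T S x : Grp T S) : Homeo) = toHomeo T S (ltr x) := fun x =>
    coe_toGrp T S (ltr x)
  rw [Fintype.sum_prod_type]
  simp only [Fintype.sum_bool, e, toHomeo_ltr]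
  simp only [if_true, Bool.false_eq_true, if_false]
  rw [← add_assoc]

theorem isStationary_iff (ν : Measure UnitAddCircle) :
    IsStationary (muG T S) ν ↔ Stat4 T S ν := by
  have h1 : (Measure.sum fun g : Grp T S => muG T S g • ν.map (g : Homeo)) =
      (4 : ℝ≥0∞)⁻¹ • (ν.map T + ν.map (T⁻¹ : Homeo) + ν.map S + ν.map (S⁻¹ : Homeo)) := by
    ext s hs
    rw [Measure.sum_apply _ hs]
    have h2 := tsum_muG T S (fun g => ν.map (g : Homeo) s)
    have h3 := sum_letters T S (fun g : Homeo => ν.map g s)
    simp only [Measure.smul_apply, smul_eq_mul, Measure.add_apply] at h2 h3 ⊢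
    rw [h2, ← Finset.mul_sum, h3]
  unfold IsStationary Stat4
  rw [h1]
  constructor
  · intro h
    conv_rhs => rw [← h]
    rw [smul_smul, ENNReal.mul_inv_cancel (by norm_num) (by norm_num), one_smul]
  · intro h
    rw [h, smul_smul, ENNReal.inv_mul_cancel (by norm_num) (by norm_num), one_smul]

/-- the contribution of one group element to the boundary entropy -/
noncomputable def logRN (ν : Measure UnitAddCircle) (g : Homeo) : ℝ :=
  ∫ x, Real.log ((ν.map (g⁻¹ : Homeo)).rnDeriv ν x).toReal ∂ν

theorem boundaryEntropy_eq (ν : Measure UnitAddCircle) : boundaryEntropy (muG T S) ν =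
    -(logRN ν T + logRN ν T⁻¹ + logRN ν S + logRN ν S⁻¹) / 4 := by
  unfold boundaryEntropy
  have h1 := tsum_muG_real T S (fun g => logRN ν (g : Homeo))
  have h2 := sum_letters T S (fun g : Homeo => logRN ν g)
  rw [← Finset.mul_sum, h2] at h1
  unfold logRN at h1 ⊢
  rw [h1]
  ring

/-- the final assembly -/
theorem isCounterexample {θ : ℝ} (hθ : Irrational θ) {S : Homeo} (hS : IsGood S)
    (hinj : Function.Injective (toHomeo (rot θ) S)) (hne : IsNonElementary (Grp (rot θ) S))
    {ν : Measure UnitAddCircle} (hν : IsProbabilityMeasure ν) (hst : Stat4 (rot θ) S ν)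
    (huniq : ∀ ν' : Measure UnitAddCircle, IsProbabilityMeasure ν' → Stat4 (rot θ) S ν' → ν' = ν)
    (hent : logRN ν (rot θ) + logRN ν (rot θ)⁻¹ + logRN ν S + logRN ν S⁻¹ = -2 * Real.log 3) :
    IsCounterexample (Grp (rot θ) S) := by
  have hgood : ∀ g ∈ Grp (rot θ) S, IsGood g := fun g hg =>
    IsGood.of_mem_closure (s := {rot θ, S}) (by
      rintro x (rfl | rfl)
      · exact isGood_rot θ
      · exact hS) hg
  refine ⟨?_, ⟨1, one_pos, fun g hg => (hgood g hg).isHolderDiffeo⟩, hne,
    ⟨univ, isLimitSet_univ hθ (T_mem _ _),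
      not_isStronglyLocallyDiscrete hθ (T_mem _ _) univ_nonempty⟩, muG (rot θ) S,
    closure_support _ _, ?_, ⟨1, one_pos, ?_⟩, ν, hν, (isStationary_iff _ _ ν).2 hst,
    fun ν' h1 h2 => huniq ν' h1 ((isStationary_iff _ _ ν').1 h2), ?_⟩
  · rw [Subgroup.fg_iff]
    exact ⟨_, rfl, toFinite _⟩
  · refine summable_of_hasFiniteSupport
      ((toFinite (range (gltr (rot θ) S))).subset fun g hg => ?_)
    rw [← support_muG, PMF.mem_support_iff]
    intro h
    refine hg ?_
    simp [h]
  · rw [tsum_muG]
    refine ENNReal.sum_lt_top.2 fun x _ => ENNReal.mul_lt_top (by norm_num) ?_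
    exact (hgood _ (gltr (rot θ) S x).2).logHolder_lt_top
  · have h1 : boundaryEntropy (muG (rot θ) S) ν = Real.log 3 / 2 := by
      rw [boundaryEntropy_eq, hent]
      ring
    rw [h1]
    exact tendsto_entropy_map _ (toGrp_injective _ _ hinj)

end Pool.Agent.ELM
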