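import Pool.Agent.ELM.Model

/-! # ELM, row BAS: sizes of the multipliers and of the coefficients -/

set_option autoImplicit false

namespace Pool.Agent.ELM

open Filter MeasureTheory Topology
open scoped ENNReal

namespace Fam

variable {F : Fam}

theorem Typ.mono {p p' : ℕ} {k : ℕ → ℤ} {y : ℕ → Ci} (h : F.Typ p k y) (hp : p ≤ p') :
    F.Typ p' k y :=
  ⟨fun n hn => h.t1 n (hp.trans hn), fun n hn => h.t2 n (hp.trans hn)⟩

variable (F)

theorem w_bd : ∃ c C : ℝ, 0 < c ∧ ∀ t x, c ≤ F.w t x ∧ F.w t x ≤ C := by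
  obtain ⟨p, -, hp⟩ := isCompact_univ.exists_isMinOn (s := (Set.univ : Set (Par × Ci)))
    Set.univ_nonempty F.w_cont.continuousOn
  obtain ⟨r, -, hr⟩ := isCompact_univ.exists_isMaxOn (s := (Set.univ : Set (Par × Ci)))
    Set.univ_nonempty F.w_cont.continuousOn
  exact ⟨F.w p.1 p.2, F.w r.1 r.2, F.w_pos _ _, fun t x =>
    ⟨hp (Set.mem_univ (t, x)), hr (Set.mem_univ (t, x))⟩⟩

theorem mult_pos (t : Par) (y : ℕ → Ci) (j : ℕ) : 0 < F.mult t y j :=
  Finset.prod_pos fun _ _ => div_pos (F.w_pos _ _) (F.w_pos _ _)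

theorem coef_pos (t : Par) (y : ℕ → Ci) (j : ℕ) : 0 < F.coef t y j :=
  div_pos (F.mult_pos t y j) (F.w_pos _ _)

theorem mult_zero (t : Par) (y : ℕ → Ci) : F.mult t y 0 = 1 := by
  unfold mult
  simp

theorem mult_succ (t : Par) (y : ℕ → Ci) (j : ℕ) : F.mult t y (j + 1) =
    F.mult t y j * (F.w t (y (j + 1)) / F.w t (F.a t (y (j + 1)))) := by
  unfold mult
  rw [Finset.prod_range_succ]

theorem visits_zero (y : ℕ → Ci) : F.visits y 0 = 0 := by
  unfold visits
  simp only [Finset.card_filter]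
  rw [Finset.sum_range_zero]

open Classical in
theorem visits_succ (y : ℕ → Ci) (n : ℕ) :
    F.visits y (n + 1) = F.visits y n + if y (n + 1) ∈ F.U then 1 else 0 := by
  unfold visits
  simp only [Finset.card_filter]
  rw [Finset.sum_range_succ]

theorem visits_le (y : ℕ → Ci) (n : ℕ) : F.visits y n ≤ n := by
  classical
  induction n with
  | zero => rw [visits_zero]
  | succ n ih =>
    rw [visits_succ]
    split_ifs <;> omega

theorem one_le_qinv : 1 ≤ F.q⁻¹ := by
  rw [one_le_inv₀ F.q_pos]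
  linarith [F.q_le]

theorem mult_le_aux (t : Par) (y : ℕ → Ci) (j : ℕ) :
    F.mult t y j ≤ F.q ^ (100 * j) * F.q⁻¹ ^ (300 * F.visits y j) := by
  have hq := F.q_pos
  have hq' : F.q ≠ 0 := hq.ne'
  induction j with
  | zero => simp [mult_zero, visits_zero]
  | succ j ih =>
    have hA : 0 < F.w t (y (j + 1)) / F.w t (F.a t (y (j + 1))) :=
      div_pos (F.w_pos _ _) (F.w_pos _ _)
    have h0 : 0 ≤ F.q ^ (100 * j) * F.q⁻¹ ^ (300 * F.visits y j) := by positivity
    rw [mult_succ, visits_succ]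
    by_cases h : y (j + 1) ∈ F.U
    · rw [if_pos h]
      calc F.mult t y j * (F.w t (y (j + 1)) / F.w t (F.a t (y (j + 1)))) ≤
          (F.q ^ (100 * j) * F.q⁻¹ ^ (300 * F.visits y j)) * F.q⁻¹ ^ 200 :=
            mul_le_mul ih (F.der_le t _) hA.le h0
        _ = F.q ^ (100 * (j + 1)) * F.q⁻¹ ^ (300 * (F.visits y j + 1)) := by
            rw [show 100 * (j + 1) = 100 * j + 100 by ring,
              show 300 * (F.visits y j + 1) = 300 * F.visits y j + 100 + 200 by ring, pow_add,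
              pow_add, pow_add]
            have : F.q ^ 100 * F.q⁻¹ ^ 100 = 1 := by
              rw [← mul_pow, mul_inv_cancel₀ hq', one_pow]
            calc F.q ^ (100 * j) * F.q⁻¹ ^ (300 * F.visits y j) * F.q⁻¹ ^ 200 =
                F.q ^ (100 * j) * (F.q⁻¹ ^ (300 * F.visits y j) * F.q⁻¹ ^ 200) *
                  (F.q ^ 100 * F.q⁻¹ ^ 100) := by rw [this]; ring
              _ = _ := by ring
    · rw [if_neg h, add_zero]
      calc F.mult t y j * (F.w t (y (j + 1)) / F.w t (F.a t (y (j + 1)))) ≤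
          (F.q ^ (100 * j) * F.q⁻¹ ^ (300 * F.visits y j)) * F.q ^ 100 :=
            mul_le_mul ih (F.der_le' t _ h) hA.le h0
        _ = F.q ^ (100 * (j + 1)) * F.q⁻¹ ^ (300 * F.visits y j) := by
            rw [show 100 * (j + 1) = 100 * j + 100 by ring, pow_add]
            ring

theorem mult_le (p : ℕ) : ∃ K : ℝ, 0 < K ∧ ∀ (t : Par) (y : ℕ → Ci),
    (∀ n, p ≤ n → 1000 * F.visits y n ≤ n) → ∀ j, F.mult t y j ≤ K * F.q ^ (99 * j) := by
  have hq := F.q_pos
  have hq' : F.q ≠ 0 := hq.ne'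
  have hq1 := F.one_le_qinv
  have hqle : F.q ≤ 1 := by linarith [F.q_le]
  refine ⟨F.q⁻¹ ^ (300 * p), by positivity, fun t y h j => ?_⟩
  refine (F.mult_le_aux t y j).trans ?_
  rcases Nat.lt_or_ge j p with hj | hj
  · have hv := F.visits_le y j
    rw [mul_comm]
    refine mul_le_mul ?_ ?_ (by positivity) (by positivity)
    · exact pow_le_pow_right₀ hq1 (by omega)
    · exact pow_le_pow_of_le_one hq.le hqle (by omega)
  · have hv := h j hj
    calc F.q ^ (100 * j) * F.q⁻¹ ^ (300 * F.visits y j) ≤ F.q ^ (100 * j) * F.q⁻¹ ^ j := by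
          refine mul_le_mul_of_nonneg_left ?_ (by positivity)
          exact pow_le_pow_right₀ hq1 (by omega)
      _ = 1 * F.q ^ (99 * j) := by
          rw [show 100 * j = 99 * j + j by ring, pow_add]
          have : F.q ^ j * F.q⁻¹ ^ j = 1 := by
            rw [← mul_pow, mul_inv_cancel₀ hq', one_pow]
          rw [mul_assoc, this]
          ring
      _ ≤ F.q⁻¹ ^ (300 * p) * F.q ^ (99 * j) :=
          mul_le_mul_of_nonneg_right (one_le_pow₀ hq1) (by positivity)

theorem coef_le (p : ℕ) : ∃ K : ℝ, 0 < K ∧ ∀ (t : Par) (y : ℕ → Ci),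
    (∀ n, p ≤ n → 1000 * F.visits y n ≤ n) → ∀ j, F.coef t y j ≤ K * F.q ^ (99 * j) := by
  obtain ⟨K, hK, h⟩ := F.mult_le p
  obtain ⟨c, C, hc, hw⟩ := F.w_bd
  have hq := F.q_pos
  refine ⟨K / c, by positivity, fun t y hy j => ?_⟩
  unfold coef
  calc F.mult t y j / F.w t (F.a t (y (j + 1))) ≤ K * F.q ^ (99 * j) / c :=
        div_le_div₀ (by positivity) (h t y hy j) hc (hw _ _).1
    _ = K / c * F.q ^ (99 * j) := by ring

theorem q99_lt_one : F.q ^ 99 < 1 :=
  pow_lt_one₀ F.q_pos.le (by linarith [F.q_le]) (by norm_num)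

theorem geom_summable : Summable fun j : ℕ => F.q ^ (99 * j) := by
  have h := summable_geometric_of_lt_one (pow_nonneg F.q_pos.le 99) F.q99_lt_one
  refine h.congr fun j => ?_
  rw [pow_mul]

theorem coef_summable (t : Par) (p : ℕ) (y : ℕ → Ci)
    (h : ∀ n, p ≤ n → 1000 * F.visits y n ≤ n) : Summable (F.coef t y) := by
  obtain ⟨K, hK, hc⟩ := F.coef_le p
  exact Summable.of_nonneg_of_le (fun j => (F.coef_pos t y j).le) (hc t y h)
    (F.geom_summable.mul_left K)

theorem isOrbit_scons (t : Par) (k : ℕ → ℤ) (y : ℕ → Ci) (h : F.IsOrbit t k y) (b : ℤ) :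
    F.IsOrbit t (scons b k) (scons (F.br t b (y 0)) y) := by
  intro j
  cases j with
  | zero => rfl
  | succ j => exact h j

theorem mult_scons (t : Par) (x : Ci) (y : ℕ → Ci) (j : ℕ) : F.mult t (scons x y) (j + 1) =
    F.w t (y 0) / F.w t (F.a t (y 0)) * F.mult t y j := by
  unfold mult
  rw [Finset.prod_range_succ', mul_comm]
  rfl

theorem coef_scons_zero (t : Par) (x : Ci) (y : ℕ → Ci) :
    F.coef t (scons x y) 0 = 1 / F.w t (F.a t (y 0)) := by
  unfold coef
  rw [mult_zero]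
  rfl

theorem coef_scons (t : Par) (x : Ci) (y : ℕ → Ci) (j : ℕ) : F.coef t (scons x y) (j + 1) =
    F.w t (y 0) / F.w t (F.a t (y 0)) * F.coef t y j := by
  unfold coef
  rw [mult_scons, mul_div_assoc]
  rfl

theorem D_summable (t : Par) (y : ℕ → Ci) (hs : Summable (F.coef t y)) (ψ : Ci → ℝ)
    (hψ : ∃ C : ℝ, ∀ x, |ψ x| ≤ C) :
    Summable fun j => F.coef t y j * (ψ (y (j + 1)) - ψ (F.a t (y (j + 1)))) := by
  obtain ⟨C, hC⟩ := hψ
  refine Summable.of_norm_bounded (hs.mul_right (2 * C)) fun j => ?_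
  rw [Real.norm_eq_abs, abs_mul, abs_of_pos (F.coef_pos t y j)]
  refine mul_le_mul_of_nonneg_left ?_ (F.coef_pos t y j).le
  have h1 := abs_le.1 (hC (y (j + 1)))
  have h2 := abs_le.1 (hC (F.a t (y (j + 1))))
  rw [abs_le]
  constructor <;> linarith [h1.1, h1.2, h2.1, h2.2]

theorem D_scons (t : Par) (x : Ci) (y : ℕ → Ci) (hs : Summable (F.coef t y)) (ψ : Ci → ℝ)
    (hψ : ∃ C : ℝ, ∀ x, |ψ x| ≤ C) : F.D t (scons x y) ψ =
      (ψ (y 0) - ψ (F.a t (y 0))) / F.w t (F.a t (y 0)) +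
        F.w t (y 0) / F.w t (F.a t (y 0)) * F.D t y ψ := by
  have hs' : Summable (F.coef t (scons x y)) := by
    rw [← summable_nat_add_iff 1]
    refine (hs.mul_left (F.w t (y 0) / F.w t (F.a t (y 0)))).congr fun j => ?_
    rw [coef_scons]
  have h1 := F.D_summable t (scons x y) hs' ψ hψ
  unfold D
  rw [h1.tsum_eq_zero_add, coef_scons_zero]
  congr 1
  · show 1 / F.w t (F.a t (y 0)) * (ψ (y 0) - ψ (F.a t (y 0))) = _
    ring
  · rw [← tsum_mul_left]
    refine tsum_congr fun j => ?_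
    rw [coef_scons, mul_assoc]
    rfl

/-- the derivative of a branch: `T^k a (x + e) = T^k a x + (w x / w (a x)) e + O(e ^ 2)` -/
theorem expand_x (t : Par) : ∃ C : ℝ, ∀ (x : Ci) (e : ℝ),
    ‖F.a t (x + (e : Ci)) - F.a t x - ((F.w t x / F.w t (F.a t x) * e : ℝ) : Ci)‖ ≤
      C * e ^ 2 := by
  obtain ⟨C, hC⟩ := F.expand 0
  refine ⟨C, fun x e => ?_⟩
  have h := hC t t (fun _ _ => rfl) x e
  rw [sub_self, zero_mul, add_zero] at h
  have e1 : F.w t x * e / F.w t (F.a t x) = F.w t x / F.w t (F.a t x) * e := by ring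
  rw [e1] at h
  refine h.trans (le_of_eq ?_)
  ring

end Fam

end Pool.Agent.ELM
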