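import Pool.Agent.ELM.Bas

/-!
# ELM: the sets `Bad i p` are closed (row CLO)
-/

set_option autoImplicit false

namespace Pool.Agent.ELM

open Filter MeasureTheory Topology

namespace Fam

variable (F : Fam)

/-- the sequences of exponents with the first condition of typical orbits -/
def KK (p : ℕ) : Set (ℕ → ℤ) := {k | ∀ n, p ≤ n → ∑ j ∈ Finset.range n, |k j| ≤ 2 * (n : ℤ)}

theorem KK_closed (p : ℕ) : IsClosed (KK p) := by
  have h : KK p = ⋂ n : ℕ, ⋂ _ : p ≤ n, {k : ℕ → ℤ | ∑ j ∈ Finset.range n, |k j| ≤ 2 * (n : ℤ)} := by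
    ext k
    simp [KK]
  rw [h]
  refine isClosed_iInter fun n => isClosed_iInter fun _ => ?_
  have hc : Continuous fun k : ℕ → ℤ => ∑ j ∈ Finset.range n, |k j| :=
    continuous_finsetSum _ fun j _ => (continuous_of_discreteTopology (f := fun x : ℤ => |x|)).comp
      (continuous_apply j)
  exact isClosed_le hc continuous_const

theorem KK_compact (p : ℕ) : IsCompact (KK p) := by
  refine IsCompact.of_isClosed_subset
    (isCompact_univ_pi fun j : ℕ => (Set.finite_Icc (-(2 * (j + 1 + p) : ℤ)) (2 * (j + 1 + p))).isCompact)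
    (KK_closed p) ?_
  intro k hk j _
  have h1 := hk (j + 1 + p) (by omega)
  have h2 : |k j| ≤ ∑ i ∈ Finset.range (j + 1 + p), |k i| :=
    Finset.single_le_sum (f := fun i => |k i|) (fun i _ => abs_nonneg _)
      (Finset.mem_range.2 (by omega))
  have h3 : |k j| ≤ 2 * ((j : ℤ) + 1 + p) := by
    have := le_trans h2 h1
    push_cast at this
    linarith
  rw [Set.mem_Icc]
  exact abs_le.1 h3

/-- the sequences of points with the second condition of typical orbits -/
def VV (p : ℕ) : Set (ℕ → Ci) := {y | ∀ n, p ≤ n → 1000 * F.visits y n ≤ n}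

theorem visits_open (n m : ℕ) : IsOpen {y : ℕ → Ci | m ≤ F.visits y n} := by
  rw [isOpen_iff_mem_nhds]
  intro y hy
  have h1 : ∀ᶠ y' in 𝓝 y, ∀ j ∈ Finset.range n, y (j + 1) ∈ F.U → y' (j + 1) ∈ F.U := by
    rw [Filter.eventually_all_finset]
    intro j _
    by_cases h : y (j + 1) ∈ F.U
    · have h2 : ∀ᶠ y' in 𝓝 y, y' (j + 1) ∈ F.U :=
        (continuous_apply (j + 1)).continuousAt.eventually (F.U_open.mem_nhds h)
      filter_upwards [h2] with y' hy' _ using hy'
    · exact Filter.Eventually.of_forall fun y' h' => absurd h' h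
  filter_upwards [h1] with y' hy'
  refine le_trans hy ?_
  unfold visits
  refine Finset.card_le_card ?_
  intro j hj
  classical
  rw [Finset.mem_filter] at hj ⊢
  exact ⟨hj.1, hy' j hj.1 hj.2⟩

theorem VV_closed (p : ℕ) : IsClosed (F.VV p) := by
  have h : F.VV p = ⋂ n : ℕ, ⋂ _ : p ≤ n, {y : ℕ → Ci | 1000 * F.visits y n ≤ n} := by
    ext k
    simp [VV]
  rw [h]
  refine isClosed_iInter fun n => isClosed_iInter fun _ => ?_
  rw [← isOpen_compl_iff]
  have h2 : {y : ℕ → Ci | 1000 * F.visits y n ≤ n}ᶜ = {y | n / 1000 + 1 ≤ F.visits y n} := by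
    ext y
    simp only [Set.mem_compl_iff, Set.mem_ofPred_eq]
    omega
  rw [h2]
  exact F.visits_open n _

theorem w_cont' {X : Type*} [TopologicalSpace X] {f : X → Par} {g : X → Ci} (hf : Continuous f)
    (hg : Continuous g) : Continuous fun x => F.w (f x) (g x) :=
  F.w_cont.comp (hf.prodMk hg)

theorem a_cont' {X : Type*} [TopologicalSpace X] {f : X → Par} {g : X → Ci} (hf : Continuous f)
    (hg : Continuous g) : Continuous fun x => F.a (f x) (g x) :=
  F.cont.comp (hf.prodMk hg)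

theorem coef_cont (j : ℕ) : Continuous fun x : Par × (ℕ → Ci) => F.coef x.1 x.2 j := by
  have hy : ∀ i : ℕ, Continuous fun x : Par × (ℕ → Ci) => x.2 i := fun i =>
    (continuous_apply i).comp continuous_snd
  have ha : ∀ i : ℕ, Continuous fun x : Par × (ℕ → Ci) => F.w x.1 (F.a x.1 (x.2 i)) := fun i =>
    F.w_cont' continuous_fst (F.a_cont' continuous_fst (hy i))
  unfold coef mult
  refine Continuous.div ?_ (ha (j + 1)) fun x => (F.w_pos _ _).ne'
  refine continuous_finsetProd _ fun i _ => ?_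
  exact Continuous.div (F.w_cont' continuous_fst (hy (i + 1))) (ha (i + 1)) fun x =>
    (F.w_pos _ _).ne'

/-- `D` is continuous on the set of typical orbits. -/
theorem D_contOn (p : ℕ) (ψ : C(Ci, ℝ)) :
    ContinuousOn (fun x : Par × (ℕ → Ci) => F.D x.1 x.2 ψ) {x | x.2 ∈ F.VV p} := by
  obtain ⟨K, hK, hc⟩ := F.coef_le p
  unfold D
  refine continuousOn_tsum (u := fun j => K * F.q ^ (99 * j) * (2 * ‖ψ‖)) (fun j => ?_)
    ((F.geom_summable.mul_left K).mul_right _) fun j x hx => ?_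
  · refine Continuous.continuousOn ?_
    refine (F.coef_cont j).mul (Continuous.sub ?_ ?_)
    · exact ψ.continuous.comp ((continuous_apply (j + 1)).comp continuous_snd)
    · exact ψ.continuous.comp (F.a_cont' continuous_fst
        ((continuous_apply (j + 1)).comp continuous_snd))
  · rw [norm_mul, Real.norm_eq_abs, abs_of_pos (F.coef_pos _ _ _)]
    refine mul_le_mul (hc _ _ hx j) ?_ (norm_nonneg _) (by have := F.q_pos; positivity)
    calc ‖ψ (x.2 (j + 1)) - ψ (F.a x.1 (x.2 (j + 1)))‖ ≤ ‖ψ (x.2 (j + 1))‖ +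
          ‖ψ (F.a x.1 (x.2 (j + 1)))‖ := norm_sub_le _ _
      _ ≤ ‖ψ‖ + ‖ψ‖ := add_le_add (ψ.norm_coe_le_norm _) (ψ.norm_coe_le_norm _)
      _ = 2 * ‖ψ‖ := by ring

theorem orbit_closed : IsClosed {x : Par × (ℕ → ℤ) × (ℕ → Ci) | F.IsOrbit x.1 x.2.1 x.2.2} := by
  have h : {x : Par × (ℕ → ℤ) × (ℕ → Ci) | F.IsOrbit x.1 x.2.1 x.2.2} =
      ⋂ j : ℕ, {x | x.2.2 j = F.br x.1 (x.2.1 j) (x.2.2 (j + 1))} := by
    ext x
    simp [IsOrbit]
  rw [h]
  refine isClosed_iInter fun j => isClosed_eq ?_ ?_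
  · exact (continuous_apply j).comp (continuous_snd.comp continuous_snd)
  · unfold br
    refine Continuous.add ?_ ?_
    · exact F.a_cont' continuous_fst ((continuous_apply (j + 1)).comp
        (continuous_snd.comp continuous_snd))
    · exact (continuous_of_discreteTopology (f := fun m : ℤ => (((m : ℝ) * F.θ : ℝ) : Ci))).comp
        ((continuous_apply j).comp (continuous_fst.comp continuous_snd))

theorem bad_closed (i p : ℕ) : IsClosed (F.Bad i p) := by
  let E := Par × ((ℕ → ℤ) × (ℕ → ℤ)) × ((ℕ → Ci) × (ℕ → Ci))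
  let S : Set E := {x | F.IsOrbit x.1 x.2.1.1 x.2.2.1 ∧ F.IsOrbit x.1 x.2.1.2 x.2.2.2 ∧
    x.2.1.1 ∈ KK p ∧ x.2.1.2 ∈ KK p ∧ x.2.2.1 ∈ F.VV p ∧ x.2.2.2 ∈ F.VV p ∧
    x.2.2.1 0 = x.2.2.2 0}
  let g : E → ℝ := fun x => ((p : ℝ) + 1) * |F.D x.1 x.2.2.1 (F.φ i) - F.D x.1 x.2.2.2 (F.φ i)|
  have c1 : Continuous fun x : E => x.2.1.1 := by fun_prop
  have c2 : Continuous fun x : E => x.2.1.2 := by fun_prop
  have c3 : Continuous fun x : E => x.2.2.1 := by fun_prop
  have c4 : Continuous fun x : E => x.2.2.2 := by fun_prop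
  have hS : IsClosed S := by
    have e1 : IsClosed {x : E | F.IsOrbit x.1 x.2.1.1 x.2.2.1} :=
      F.orbit_closed.preimage (f := fun x : E => (x.1, x.2.1.1, x.2.2.1))
        (continuous_fst.prodMk (c1.prodMk c3))
    have e2 : IsClosed {x : E | F.IsOrbit x.1 x.2.1.2 x.2.2.2} :=
      F.orbit_closed.preimage (f := fun x : E => (x.1, x.2.1.2, x.2.2.2))
        (continuous_fst.prodMk (c2.prodMk c4))
    have e3 : IsClosed {x : E | x.2.1.1 ∈ KK p} := (KK_closed p).preimage c1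
    have e4 : IsClosed {x : E | x.2.1.2 ∈ KK p} := (KK_closed p).preimage c2
    have e5 : IsClosed {x : E | x.2.2.1 ∈ F.VV p} := (F.VV_closed p).preimage c3
    have e6 : IsClosed {x : E | x.2.2.2 ∈ F.VV p} := (F.VV_closed p).preimage c4
    have e7 : IsClosed {x : E | x.2.2.1 0 = x.2.2.2 0} :=
      isClosed_eq ((continuous_apply 0).comp c3) ((continuous_apply 0).comp c4)
    exact e1.inter (e2.inter (e3.inter (e4.inter (e5.inter (e6.inter e7)))))
  have hg : ContinuousOn g S := by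
    refine ContinuousOn.mul continuousOn_const (ContinuousOn.abs (ContinuousOn.sub ?_ ?_))
    · exact (F.D_contOn p (F.φ i)).comp (f := fun x : E => (x.1, x.2.2.1))
        (continuous_fst.prodMk c3).continuousOn fun x hx => hx.2.2.2.2.1
    · exact (F.D_contOn p (F.φ i)).comp (f := fun x : E => (x.1, x.2.2.2))
        (continuous_fst.prodMk c4).continuousOn fun x hx => hx.2.2.2.2.2.1
  have hC : IsClosed (S ∩ g ⁻¹' Set.Ici 1) := hg.preimage_isClosed_of_isClosed hS isClosed_Ici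
  have hK : IsCompact (S ∩ g ⁻¹' Set.Ici 1) := by
    refine IsCompact.of_isClosed_subset (isCompact_univ.prod
      (((KK_compact p).prod (KK_compact p)).prod isCompact_univ)) hC fun x hx => ?_
    exact ⟨Set.mem_univ _, ⟨hx.1.2.2.1, hx.1.2.2.2.1⟩, Set.mem_univ _⟩
  have hB : F.Bad i p = Prod.fst '' (S ∩ g ⁻¹' Set.Ici 1) := by
    ext t
    constructor
    · rintro ⟨k, l, y, z, h1, h2, h3, h4, h5, h6⟩
      exact ⟨(t, (k, l), (y, z)), ⟨⟨h1, h2, h3.t1, h4.t1, h3.t2, h4.t2, h5⟩, h6⟩, rfl⟩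
    · rintro ⟨⟨t', ⟨k, l⟩, ⟨y, z⟩⟩, ⟨⟨h1, h2, h3, h4, h5, h6, h7⟩, h8⟩, rfl⟩
      exact ⟨k, l, y, z, h1, h2, ⟨h3, h5⟩, ⟨h4, h6⟩, h7, h8⟩
  rw [hB]
  exact (hK.image continuous_fst).isClosed

end Fam

end Pool.Agent.ELM
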