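import Pool.Agent.ELM.Prob

/-!
# ELM, row CNT: the number of visits of a rarely visited set
-/

set_option autoImplicit false

namespace Pool.Agent.ELM

open Filter MeasureTheory Topology
open scoped ENNReal

namespace Cnt

/-- the exponent `2000` -/
def ex : ℕ := 2000

/-- the base of the exponential moment is `rr ^ 2000` -/
noncomputable def rr : ℝ := 1 + 1 / 10000

theorem rr_pos : 0 < rr := by
  unfold rr
  norm_num

theorem rr_pow_le (n : ℕ) (hn : (n : ℝ) ≤ 2000) : rr ^ n ≤ 5 / 4 := by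
  have h1 : (1 : ℝ) + (n : ℝ) * (-(1 / 10000)) ≤ (1 + -(1 / 10000)) ^ n :=
    one_add_mul_le_pow (by norm_num) n
  have h2 : rr ^ n * (1 + -(1 / 10000)) ^ n ≤ 1 := by
    rw [← mul_pow]
    refine pow_le_one₀ ?_ ?_
    · unfold rr; norm_num
    · unfold rr; norm_num
  have h3 : (0 : ℝ) ≤ rr ^ n := pow_nonneg rr_pos.le n
  have h5 : (4 / 5 : ℝ) ≤ (1 + -(1 / 10000)) ^ n := by linarith
  have h4 : rr ^ n * (4 / 5) ≤ rr ^ n * (1 + -(1 / 10000)) ^ n :=
    mul_le_mul_of_nonneg_left h5 h3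
  linarith

/-- `rr` as an element of `[0, ∞]` -/
noncomputable def re : ℝ≥0∞ := ENNReal.ofReal rr

theorem re_ne_top : re ≠ ∞ := ENNReal.ofReal_ne_top

theorem re_pos : 0 < re := by
  unfold re rr
  rw [ENNReal.ofReal_pos]
  norm_num

theorem one_le_re : 1 ≤ re := by
  unfold re rr
  rw [← ENNReal.ofReal_one]
  exact ENNReal.ofReal_le_ofReal (by norm_num)

/-- the base -/
noncomputable def ss : ℝ≥0∞ := re ^ ex

theorem ss_le : ss ≤ ENNReal.ofReal (5 / 4) := by
  unfold ss re
  rw [← ENNReal.ofReal_pow rr_pos.le]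
  exact ENNReal.ofReal_le_ofReal (rr_pow_le ex (by unfold ex; norm_num))

/-- the growth factor -/
noncomputable def lam : ℝ≥0∞ := 1 + 6 * (2 / 3 ^ 14)

theorem lam_eq : lam = ENNReal.ofReal (1 + 6 * (2 / 3 ^ 14)) := by
  unfold lam
  rw [ENNReal.ofReal_add (by norm_num) (by norm_num), ENNReal.ofReal_mul (by norm_num),
    ENNReal.ofReal_div_of_pos (by norm_num), ENNReal.ofReal_pow (by norm_num)]
  simp

theorem num1 : ss * (1 + 6 * (2 / 3 + 2 / 3 ^ 14)) ≤ 7 := by
  refine (mul_le_mul_left ss_le _).trans ?_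
  have h1 : (1 + 6 * (2 / 3 + 2 / 3 ^ 14) : ℝ≥0∞) =
      ENNReal.ofReal (1 + 6 * (2 / 3 + 2 / 3 ^ 14)) := by
    rw [ENNReal.ofReal_add (by norm_num) (by norm_num), ENNReal.ofReal_mul (by norm_num),
      ENNReal.ofReal_add (by norm_num) (by norm_num),
      ENNReal.ofReal_div_of_pos (by norm_num), ENNReal.ofReal_div_of_pos (by norm_num),
      ENNReal.ofReal_pow (by norm_num)]
    simp
  have h2 : (7 : ℝ≥0∞) = ENNReal.ofReal 7 := by simp
  rw [h1, h2, ← ENNReal.ofReal_mul (by norm_num)]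
  exact ENNReal.ofReal_le_ofReal (by norm_num)

theorem lam_lt : lam < re := by
  rw [lam_eq, re, ENNReal.ofReal_lt_ofReal_iff]
  · unfold rr; norm_num
  · unfold rr; norm_num

open Classical in
/-- the weight -/
noncomputable def wt (b : Prop) : ℝ≥0∞ := if b then 7 else 1

theorem one_le_wt (b : Prop) : 1 ≤ wt b := by
  unfold wt
  split_ifs <;> norm_num

theorem wt_le (b : Prop) : wt b ≤ 7 := by
  unfold wt
  split_ifs <;> norm_num

theorem lintegral_wt (E : Set ℤ) : ∫⁻ k, wt (k ∈ E) ∂kap.toMeasure = 1 + 6 * kap.toMeasure E := by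
  classical
  have h1 : ∀ k : ℤ, wt (k ∈ E) = 1 + 6 * E.indicator 1 k := by
    intro k
    unfold wt
    by_cases hk : k ∈ E
    · rw [if_pos hk, Set.indicator_of_mem hk]
      norm_num
    · rw [if_neg hk, Set.indicator_of_notMem hk]
      simp
  have hm : Measurable (E.indicator (1 : ℤ → ℝ≥0∞)) := measurable_from_top
  have hE : MeasurableSet E := trivial
  rw [lintegral_congr h1, lintegral_add_left measurable_const, lintegral_const_mul _ hm,
    lintegral_indicator_one hE]
  simp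

end Cnt

open Cnt in
open Classical in
/-- row CNT -/
theorem count_ae (B : ℕ → Set (ℕ → ℤ)) (hB : ∀ n, MeasurableSet (B n))
    (V : ℕ → (ℕ → ℤ) → ℕ) (hV : ∀ n, Measurable (V n)) (hV0 : ∀ᵐ u ∂PP, V 0 u = 0)
    (hVs : ∀ n, ∀ᵐ u ∂PP, ∀ᵐ k ∂kap.toMeasure,
      V (n + 1) (scons k u) = V n u + if u ∈ B n then 1 else 0)
    (h1 : ∀ n, ∀ᵐ u ∂PP, u ∉ B n → kap.toMeasure {k | scons k u ∈ B (n + 1)} ≤ 2 / 3 ^ 14)
    (h2 : ∀ n, ∀ᵐ u ∂PP, u ∈ B n →
      kap.toMeasure {k | scons k u ∈ B (n + 1)} ≤ 2 / 3 + 2 / 3 ^ 14) :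
    ∀ᵐ u ∂PP, ∀ᶠ n : ℕ in atTop, 2000 * V n u ≤ n := by
  set f : ℕ → (ℕ → ℤ) → ℝ≥0∞ := fun n u => ss ^ V n u * wt (u ∈ B n) with hf
  have hVm : ∀ n, Measurable fun u => ss ^ V n u := fun n =>
    (measurable_from_top (f := fun v : ℕ => ss ^ v)).comp (hV n)
  have hwm : ∀ n, Measurable fun u => wt (u ∈ B n) := by
    intro n
    unfold wt
    exact Measurable.ite (hB n) measurable_const measurable_const
  have hfm : ∀ n, Measurable (f n) := fun n => (hVm n).mul (hwm n)
  -- one step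
  have hstep : ∀ n, ∫⁻ u, f (n + 1) u ∂PP ≤ lam * ∫⁻ u, f n u ∂PP := by
    intro n
    have e1 : ∫⁻ u, f (n + 1) u ∂PP = ∫⁻ u, ∫⁻ k, f (n + 1) (scons k u) ∂kap.toMeasure ∂PP := by
      rw [← scons_mp.lintegral_comp (hfm (n + 1)), lintegral_prod_symm]
      exact ((hfm (n + 1)).comp scons_measurable).aemeasurable
    rw [e1, ← lintegral_const_mul _ (hfm n)]
    refine lintegral_mono_ae ?_
    filter_upwards [hVs n, h1 n, h2 n] with u hu hu1 hu2
    have e2 : ∫⁻ k, f (n + 1) (scons k u) ∂kap.toMeasure =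
        ss ^ (V n u + if u ∈ B n then 1 else 0) *
          (1 + 6 * kap.toMeasure {k | scons k u ∈ B (n + 1)}) := by
      rw [← lintegral_wt, ← lintegral_const_mul _ (measurable_from_top)]
      refine lintegral_congr_ae ?_
      filter_upwards [hu] with k hk
      simp only [hf]
      rw [hk]
    rw [e2]
    simp only [hf]
    by_cases hb : u ∈ B n
    · rw [if_pos hb]
      have e3 : wt (u ∈ B n) = 7 := by
        unfold wt
        rw [if_pos hb]
      rw [e3, pow_succ, mul_assoc]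
      have e4 : ss * (1 + 6 * kap.toMeasure {k | scons k u ∈ B (n + 1)}) ≤ 7 := by
        refine le_trans ?_ num1
        gcongr
        exact hu2 hb
      calc ss ^ V n u * (ss * (1 + 6 * kap.toMeasure {k | scons k u ∈ B (n + 1)}))
          ≤ ss ^ V n u * 7 := by gcongr
        _ ≤ lam * (ss ^ V n u * 7) := by
            refine le_mul_of_one_le_left' ?_
            unfold lam
            exact le_self_add
    · rw [if_neg hb, add_zero]
      have e3 : wt (u ∈ B n) = 1 := by
        unfold wt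
        rw [if_neg hb]
      rw [e3, mul_one, mul_comm lam]
      unfold lam
      gcongr
      exact hu1 hb
  have hbound : ∀ n, ∫⁻ u, f n u ∂PP ≤ 7 * lam ^ n := by
    intro n
    induction n with
    | zero =>
      rw [pow_zero, mul_one]
      have e1 : ∫⁻ u, f 0 u ∂PP ≤ ∫⁻ _, 7 ∂PP := by
        refine lintegral_mono_ae ?_
        filter_upwards [hV0] with u hu
        simp only [hf]
        rw [hu, pow_zero, one_mul]
        exact wt_le _
      refine e1.trans ?_
      simp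
    | succ n ih =>
      refine (hstep n).trans ?_
      rw [pow_succ, ← mul_assoc, mul_comm]
      gcongr
  -- Markov and Borel-Cantelli
  have hmark : ∀ n, PP {u | n < 2000 * V n u} ≤ 7 * (lam / re) ^ n := by
    intro n
    have e1 : {u | n < 2000 * V n u} ⊆ {u | re ^ n ≤ f n u} := by
      intro u hu
      have hu' : n < 2000 * V n u := hu
      show re ^ n ≤ ss ^ V n u * wt (u ∈ B n)
      have hu2 : n ≤ ex * V n u := hu'.le
      calc re ^ n ≤ re ^ (ex * V n u) := pow_le_pow_right₀ one_le_re hu2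
        _ = ss ^ V n u := by unfold ss; rw [← pow_mul]
        _ ≤ ss ^ V n u * wt (u ∈ B n) := le_mul_of_one_le_right' (one_le_wt _)
    have e2 : re ^ n ≠ 0 := pow_ne_zero _ re_pos.ne'
    have e3 : re ^ n ≠ ∞ := ENNReal.pow_ne_top re_ne_top
    calc PP {u | n < 2000 * V n u} ≤ PP {u | re ^ n ≤ f n u} := measure_mono e1
      _ ≤ (∫⁻ u, f n u ∂PP) / re ^ n := meas_ge_le_lintegral_div (hfm n).aemeasurable e2 e3
      _ ≤ 7 * lam ^ n / re ^ n := by gcongr; exact hbound n
      _ = 7 * (lam / re) ^ n := by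
          rw [div_eq_mul_inv, div_eq_mul_inv, mul_pow, ← ENNReal.inv_pow, mul_assoc]
  have hlt : lam / re < 1 := by
    rw [ENNReal.div_lt_iff (Or.inl re_pos.ne') (Or.inl re_ne_top), one_mul]
    exact lam_lt
  have hsum : ∑' n, PP {u | n < 2000 * V n u} ≠ ∞ := by
    refine ne_top_of_le_ne_top ?_ (ENNReal.tsum_le_tsum hmark)
    rw [ENNReal.tsum_mul_left, ENNReal.tsum_geometric]
    refine ENNReal.mul_ne_top (by simp) ?_
    rw [ENNReal.inv_ne_top]
    exact (tsub_pos_of_lt hlt).ne'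
  filter_upwards [ae_eventually_notMem hsum] with u hu
  filter_upwards [hu] with n hn
  have hn' : ¬ n < 2000 * V n u := hn
  omega

end Pool.Agent.ELM
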