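import Pool.Agent.ELM.Prob

/-! # ELM: probability to visit the exceptional set -/

set_option autoImplicit false

namespace Pool.Agent.ELM

open Filter MeasureTheory Topology
open scoped ENNReal

namespace Fam

variable (F : Fam)

/-- probability to visit `U` -/
theorem visit_good (t : Par) (x : Ci) (hx : x ∉ F.U) :
    kap.toMeasure {k | F.br t k x ∈ F.U} ≤ 1 / 3 ^ 14 := by
  have h1 : {k | F.br t k x ∈ F.U} ⊆ {0} ∪ {k : ℤ | 15 ≤ |k|} := by
    intro k hk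
    by_cases h0 : k = 0
    · exact Or.inl h0
    · right
      by_contra h
      have h2 : |k| < 15 := not_le.1 h
      exact F.stay t x hx k h0 h2 hk
  calc kap.toMeasure {k | F.br t k x ∈ F.U} ≤ kap.toMeasure ({0} ∪ {k : ℤ | 15 ≤ |k|}) :=
        measure_mono h1
    _ ≤ kap.toMeasure {0} + kap.toMeasure {k : ℤ | 15 ≤ |k|} := measure_union_le _ _
    _ ≤ 0 + 1 / 3 ^ 14 := add_le_add kap_zero.le kap_tail
    _ = 1 / 3 ^ 14 := zero_add _

theorem visit_bad (t : Par) (x : Ci) :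
    kap.toMeasure {k | F.br t k x ∈ F.U} ≤ 1 / 3 + 1 / 3 ^ 14 := by
  have h1 : ∃ k₀ : ℤ, {k | F.br t k x ∈ F.U} ⊆ {k₀} ∪ {k : ℤ | 15 ≤ |k|} := by
    by_cases h : ∃ k₀ : ℤ, |k₀| < 15 ∧ F.br t k₀ x ∈ F.U
    · obtain ⟨k₀, h2, h3⟩ := h
      refine ⟨k₀, fun k hk => ?_⟩
      by_cases h4 : |k| < 15
      · exact Or.inl (F.ret (F.a t x) k k₀ h4 h2 hk h3)
      · exact Or.inr (not_lt.1 h4)
    · refine ⟨0, fun k hk => Or.inr ?_⟩
      by_contra h4
      exact h ⟨k, not_le.1 h4, hk⟩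
  obtain ⟨k₀, h1⟩ := h1
  calc kap.toMeasure {k | F.br t k x ∈ F.U} ≤ kap.toMeasure ({k₀} ∪ {k : ℤ | 15 ≤ |k|}) :=
        measure_mono h1
    _ ≤ kap.toMeasure {k₀} + kap.toMeasure {k : ℤ | 15 ≤ |k|} := measure_union_le _ _
    _ ≤ 1 / 3 + 1 / 3 ^ 14 := add_le_add (kap_atom k₀) kap_tail

end Fam

end Pool.Agent.ELM
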