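import Pool.Agent.ELM.Bas
import Pool.Agent.ELM.Visit
import Pool.Agent.ELM.Count

/-!
# ELM: convergence of the branches
-/

set_option autoImplicit false

namespace Pool.Agent.ELM

open Filter MeasureTheory Topology
open scoped ENNReal

theorem cv_sh_scons {α : Type} (x : α) (u : ℕ → α) : sh (scons x u) = u := rfl

theorem cv_scons_sh {α : Type} (u : ℕ → α) : scons (u 0) (sh u) = u := by
  funext n
  cases n <;> rfl

namespace Fam

variable (F : Fam)

theorem cv_br_dist (t : Par) (k : ℤ) (x y : Ci) : F.br t k x - F.br t k y = F.a t x - F.a t y := by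
  unfold br
  abel

theorem cv_br_cont (t : Par) : Continuous fun p : ℤ × Ci => F.br t p.1 p.2 := by
  unfold br
  have h1 : Continuous fun p : ℤ × Ci => F.a t p.2 :=
    F.cont.comp (Continuous.prodMk continuous_const continuous_snd)
  have h2 : Continuous fun p : ℤ × Ci => ((p.1 * F.θ : ℝ) : Ci) :=
    (continuous_of_discreteTopology (f := fun k : ℤ => ((k * F.θ : ℝ) : Ci))).comp continuous_fst
  exact h1.add h2

theorem cv_br_cont' (t : Par) (k : ℤ) : Continuous (F.br t k) :=
  (F.cv_br_cont t).comp (Continuous.prodMk_right k)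

/-! ### Words -/

theorem cv_word_succ (t : Par) (n : ℕ) (u : ℕ → ℤ) (x : Ci) :
    F.word t (n + 1) u x = F.word t n u (F.br t (u n) x) := by
  induction n generalizing u with
  | zero => rfl
  | succ n ih =>
    change F.br t (u 0) (F.word t (n + 1) (sh u) x) = F.br t (u 0) (F.word t n (sh u) _)
    rw [ih]
    rfl

theorem cv_word_cont (t : Par) (n : ℕ) :
    Continuous fun p : (ℕ → ℤ) × Ci => F.word t n p.1 p.2 := by
  induction n with
  | zero => exact continuous_snd
  | succ n ih =>
    have h1 : Continuous fun p : (ℕ → ℤ) × Ci => ((sh p.1 : ℕ → ℤ), p.2) := by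
      refine Continuous.prodMk ?_ continuous_snd
      exact continuous_pi fun j => (continuous_apply (j + 1)).comp continuous_fst
    exact (F.cv_br_cont t).comp
      (Continuous.prodMk ((continuous_apply 0).comp continuous_fst) (ih.comp h1))

open Classical in
/-- the number of visits of two orbits to `U` -/
noncomputable def vis2 (t : Par) (x y : Ci) : ℕ → (ℕ → ℤ) → ℕ
  | 0, _ => 0
  | n + 1, u => vis2 t x y n (sh u) +
      if F.word t n (sh u) x ∈ F.U ∨ F.word t n (sh u) y ∈ F.U then 1 else 0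

theorem vis2_dist (t : Par) (x y : Ci) (n : ℕ) (u : ℕ → ℤ) :
    ‖F.word t n u x - F.word t n u y‖ * F.q ^ (300 * F.vis2 t x y n u) ≤
      F.q ^ (100 * n) * ‖x - y‖ := by
  induction n generalizing u with
  | zero => simp [word, vis2]
  | succ n ih =>
    have hq := F.q_pos
    have h1 := ih (sh u)
    have h2 : ‖F.word t (n + 1) u x - F.word t (n + 1) u y‖ =
        ‖F.a t (F.word t n (sh u) x) - F.a t (F.word t n (sh u) y)‖ := by
      change ‖F.br t (u 0) _ - F.br t (u 0) _‖ = _
      rw [cv_br_dist]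
    rw [h2]
    unfold vis2
    split_ifs with h
    · have h3 := F.lip t (F.word t n (sh u) x) (F.word t n (sh u) y)
      calc ‖F.a t (F.word t n (sh u) x) - F.a t (F.word t n (sh u) y)‖ *
            F.q ^ (300 * (F.vis2 t x y n (sh u) + 1))
          ≤ (F.q⁻¹ ^ 200 * ‖F.word t n (sh u) x - F.word t n (sh u) y‖) *
            F.q ^ (300 * (F.vis2 t x y n (sh u) + 1)) := by gcongr
        _ = (F.q⁻¹ ^ 200 * F.q ^ 200) * F.q ^ 100 *
            (‖F.word t n (sh u) x - F.word t n (sh u) y‖ * F.q ^ (300 * F.vis2 t x y n (sh u))) := by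
            ring
        _ = F.q ^ 100 *
            (‖F.word t n (sh u) x - F.word t n (sh u) y‖ * F.q ^ (300 * F.vis2 t x y n (sh u))) := by
            rw [← mul_pow, inv_mul_cancel₀ hq.ne', one_pow, one_mul]
        _ ≤ F.q ^ 100 * (F.q ^ (100 * n) * ‖x - y‖) := by gcongr
        _ = F.q ^ (100 * (n + 1)) * ‖x - y‖ := by ring
    · push Not at h
      have h3 := F.contr t _ _ h.1 h.2
      calc ‖F.a t (F.word t n (sh u) x) - F.a t (F.word t n (sh u) y)‖ *
            F.q ^ (300 * (F.vis2 t x y n (sh u) + 0))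
          ≤ (F.q ^ 100 * ‖F.word t n (sh u) x - F.word t n (sh u) y‖) *
            F.q ^ (300 * (F.vis2 t x y n (sh u) + 0)) := by gcongr
        _ = F.q ^ 100 *
            (‖F.word t n (sh u) x - F.word t n (sh u) y‖ * F.q ^ (300 * F.vis2 t x y n (sh u))) := by
            ring
        _ ≤ F.q ^ 100 * (F.q ^ (100 * n) * ‖x - y‖) := by gcongr
        _ = F.q ^ (100 * (n + 1)) * ‖x - y‖ := by ring

theorem vis2_meas (t : Par) (n : ℕ) :
    Measurable fun p : (ℕ → ℤ) × Ci × Ci => F.vis2 t p.2.1 p.2.2 n p.1 := by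
  induction n with
  | zero => exact measurable_const
  | succ n ih =>
    have hs : Measurable fun p : (ℕ → ℤ) × Ci × Ci => ((sh p.1 : ℕ → ℤ), p.2) :=
      (sh_measurable.comp measurable_fst).prodMk measurable_snd
    have h1 : Measurable fun p : (ℕ → ℤ) × Ci × Ci => F.word t n (sh p.1) p.2.1 :=
      (F.cv_word_cont t n).measurable.comp
        ((sh_measurable.comp measurable_fst).prodMk (measurable_fst.comp measurable_snd))
    have h2 : Measurable fun p : (ℕ → ℤ) × Ci × Ci => F.word t n (sh p.1) p.2.2 :=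
      (F.cv_word_cont t n).measurable.comp
        ((sh_measurable.comp measurable_fst).prodMk (measurable_snd.comp measurable_snd))
    unfold vis2
    refine (ih.comp hs).add (Measurable.ite ?_ measurable_const measurable_const)
    exact (h1 F.U_open.measurableSet).union (h2 F.U_open.measurableSet)

/-- convergence from the bound on the number of visits -/
theorem conv_of_bound (t : Par) (u : ℕ → ℤ)
    (h : ∀ᶠ n : ℕ in atTop, 2000 * F.vis2 t 0 (F.br t (u n) 0) n u ≤ n) : F.Conv t u := by
  have hq := F.q_pos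
  have hq1 : F.q ≤ 1 := F.q_le.trans (by norm_num)
  obtain ⟨N, hN⟩ := eventually_atTop.1 h
  have h1 : ∀ n, N ≤ n → dist (F.word t n u 0) (F.word t (n + 1) u 0) ≤ F.q ^ (99 * n) := by
    intro n hn
    have h2 := F.vis2_dist t 0 (F.br t (u n) 0) n u
    rw [← F.cv_word_succ, ← dist_eq_norm] at h2
    have h3 : ‖(0 : Ci) - F.br t (u n) 0‖ ≤ 1 := by
      have := AddCircle.norm_le_half_period (1 : ℝ) (x := (0 : Ci) - F.br t (u n) 0) one_ne_zero
      refine this.trans ?_
      norm_num
    have h4 := hN n hn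
    have h5 : F.q ^ n ≤ F.q ^ (300 * F.vis2 t 0 (F.br t (u n) 0) n u) :=
      pow_le_pow_of_le_one hq.le hq1 (by omega)
    have h6 : dist (F.word t n u 0) (F.word t (n + 1) u 0) * F.q ^ n ≤
        F.q ^ (99 * n) * F.q ^ n := by
      calc _ ≤ dist (F.word t n u 0) (F.word t (n + 1) u 0) *
            F.q ^ (300 * F.vis2 t 0 (F.br t (u n) 0) n u) := by gcongr
        _ ≤ F.q ^ (100 * n) * ‖(0 : Ci) - F.br t (u n) 0‖ := h2
        _ ≤ F.q ^ (100 * n) * 1 := by gcongr
        _ = F.q ^ (99 * n) * F.q ^ n := by ring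
    exact le_of_mul_le_mul_right h6 (by positivity)
  have h7 : CauchySeq fun m => F.word t (m + N) u 0 := by
    refine cauchySeq_of_le_geometric (F.q ^ 99) 1 ?_ fun m => ?_
    · exact pow_lt_one₀ hq.le (F.q_le.trans_lt (by norm_num)) (by norm_num)
    · have h8 := h1 (m + N) (by omega)
      rw [show m + 1 + N = m + N + 1 by ring, one_mul, ← pow_mul]
      exact h8.trans (pow_le_pow_of_le_one hq.le hq1 (by omega))
  obtain ⟨x, hx⟩ := cauchySeq_tendsto_of_complete h7
  exact ⟨x, (tendsto_add_atTop_iff_nat N).1 hx⟩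

theorem conv_ae (t : Par) : ∀ᵐ u ∂PP, F.Conv t u := by
  have hm : ∀ n, Measurable fun u : ℕ → ℤ => F.br t (u n) 0 := fun n =>
    Measurable.comp (g := fun p : ℤ × Ci => F.br t p.1 p.2) (f := fun u : ℕ → ℤ => (u n, (0 : Ci)))
      (F.cv_br_cont t).measurable ((measurable_pi_apply n).prodMk measurable_const)
  have hx : ∀ n, Measurable fun u : ℕ → ℤ => F.word t n u 0 := fun n =>
    (F.cv_word_cont t n).measurable.comp (measurable_id.prodMk measurable_const)
  have hy : ∀ n, Measurable fun u : ℕ → ℤ => F.word t n u (F.br t (u n) 0) := fun n =>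
    (F.cv_word_cont t n).measurable.comp (measurable_id.prodMk (hm n))
  have h := count_ae
    (fun n => {u | F.word t n u 0 ∈ F.U ∨ F.word t n u (F.br t (u n) 0) ∈ F.U})
    (fun n => (hx n F.U_open.measurableSet).union (hy n F.U_open.measurableSet))
    (fun n u => F.vis2 t 0 (F.br t (u n) 0) n u)
    (fun n => (F.vis2_meas t n).comp (measurable_id.prodMk (measurable_const.prodMk (hm n))))
    (Eventually.of_forall fun u => rfl)
    (fun n => Eventually.of_forall fun u => Eventually.of_forall fun k =>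
      by
        change F.vis2 t 0 (F.br t (u n) 0) n u + _ = _
        congr 1
        by_cases hU : F.word t n u 0 ∈ F.U ∨ F.word t n u (F.br t (u n) 0) ∈ F.U
        · exact (if_pos hU).trans (if_pos hU).symm
        · exact (if_neg hU).trans (if_neg hU).symm)
    (fun n => Eventually.of_forall fun u hu => ?_)
    (fun n => Eventually.of_forall fun u hu => ?_)
  · filter_upwards [h] with u hu
    exact F.conv_of_bound t u hu
  · simp only [Set.mem_ofPred_eq, not_or] at hu
    have hsub : {k : ℤ | scons k u ∈ {u : ℕ → ℤ | F.word t (n + 1) u 0 ∈ F.U ∨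
        F.word t (n + 1) u (F.br t (u (n + 1)) 0) ∈ F.U}} ⊆
        {k : ℤ | F.br t k (F.word t n u 0) ∈ F.U} ∪
        {k : ℤ | F.br t k (F.word t n u (F.br t (u n) 0)) ∈ F.U} := fun k hk => hk
    calc _ ≤ kap.toMeasure ({k : ℤ | F.br t k (F.word t n u 0) ∈ F.U} ∪
        {k : ℤ | F.br t k (F.word t n u (F.br t (u n) 0)) ∈ F.U}) := measure_mono hsub
      _ ≤ 1 / 3 ^ 14 + 1 / 3 ^ 14 := (measure_union_le _ _).trans
          (add_le_add (F.visit_good t _ hu.1) (F.visit_good t _ hu.2))
      _ = 2 / 3 ^ 14 := by rw [← two_mul, mul_one_div]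
  · have hsub : {k : ℤ | scons k u ∈ {u : ℕ → ℤ | F.word t (n + 1) u 0 ∈ F.U ∨
        F.word t (n + 1) u (F.br t (u (n + 1)) 0) ∈ F.U}} ⊆
        {k : ℤ | F.br t k (F.word t n u 0) ∈ F.U} ∪
        {k : ℤ | F.br t k (F.word t n u (F.br t (u n) 0)) ∈ F.U} := fun k hk => hk
    calc _ ≤ kap.toMeasure ({k : ℤ | F.br t k (F.word t n u 0) ∈ F.U} ∪
        {k : ℤ | F.br t k (F.word t n u (F.br t (u n) 0)) ∈ F.U}) := measure_mono hsub
      _ ≤ (1 / 3 + 1 / 3 ^ 14) + (1 / 3 + 1 / 3 ^ 14) := (measure_union_le _ _).trans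
          (add_le_add (F.visit_bad t _) (F.visit_bad t _))
      _ = 2 / 3 + 2 / 3 ^ 14 := by rw [← two_mul, mul_add, mul_one_div, mul_one_div]

theorem xi_meas (t : Par) : Measurable (F.xi t) := by
  unfold xi
  refine (StronglyMeasurable.limUnder fun n => Measurable.stronglyMeasurable ?_).measurable
  exact (F.cv_word_cont t n).measurable.comp (measurable_id.prodMk measurable_const)

theorem conv_scons (t : Par) (k : ℤ) (u : ℕ → ℤ) : F.Conv t (scons k u) ↔ F.Conv t u := by
  constructor
  · rintro ⟨x, hx⟩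
    have h1 : Tendsto (fun n => F.br t k (F.word t n u 0)) atTop (𝓝 x) :=
      (tendsto_add_atTop_iff_nat 1).2 hx
    have h2 : Continuous fun y : Ci => F.a t (y - ((k * F.θ : ℝ) : Ci)) :=
      (F.cont.comp (Continuous.prodMk_right t)).comp (continuous_id.sub continuous_const)
    refine ⟨_, ((h2.tendsto x).comp h1).congr fun n => ?_⟩
    simp only [Function.comp_apply, br, add_sub_cancel_right, F.inv]
  · rintro ⟨x, hx⟩
    refine ⟨F.br t k x, (tendsto_add_atTop_iff_nat 1).1 ?_⟩
    exact ((F.cv_br_cont' t k).tendsto x).comp hx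

theorem xi_scons (t : Par) (k : ℤ) (u : ℕ → ℤ) (h : F.Conv t u) :
    F.xi t (scons k u) = F.br t k (F.xi t u) := by
  have h1 : Tendsto (fun n => F.word t n u 0) atTop (𝓝 (F.xi t u)) := tendsto_nhds_limUnder h
  refine Tendsto.limUnder_eq ((tendsto_add_atTop_iff_nat 1).1 ?_)
  exact ((F.cv_br_cont' t k).tendsto _).comp h1

theorem orb_scons (t : Par) (k : ℤ) (u : ℕ → ℤ) :
    F.orb t (scons k u) = scons (F.xi t (scons k u)) (F.orb t u) := by
  funext j
  cases j <;> rfl

theorem cv_conv_sh (t : Par) (u : ℕ → ℤ) (h : F.Conv t u) : F.Conv t (sh u) := by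
  rw [← F.conv_scons t (u 0), cv_scons_sh]
  exact h

theorem cv_conv_iter (t : Par) (u : ℕ → ℤ) (h : F.Conv t u) (j : ℕ) : F.Conv t (sh^[j] u) := by
  induction j with
  | zero => exact h
  | succ j ih =>
    rw [Function.iterate_succ_apply']
    exact F.cv_conv_sh t _ ih

theorem cv_sh_iter {α : Type} (u : ℕ → α) (j i : ℕ) : (sh^[j] u) i = u (j + i) := by
  induction j generalizing i with
  | zero => simp
  | succ j ih =>
    rw [Function.iterate_succ_apply']
    change (sh^[j] u) (i + 1) = _
    rw [ih]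
    congr 1
    ring

theorem isOrbit_orb (t : Par) (u : ℕ → ℤ) (h : F.Conv t u) : F.IsOrbit t u (F.orb t u) := by
  intro j
  unfold orb
  have h1 : sh^[j] u = scons (u j) (sh^[j + 1] u) := by
    rw [Function.iterate_succ_apply']
    have h2 : (sh^[j] u) 0 = u j := by rw [cv_sh_iter]; simp
    rw [← h2, cv_scons_sh]
  rw [h1]
  exact F.xi_scons t _ _ (F.cv_conv_iter t u h (j + 1))

end Fam

end Pool.Agent.ELM
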