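import Pool.Agent.ELM.Lin

/-! # ELM, row COV: the bad sets have empty interior -/

set_option autoImplicit false

namespace Pool.Agent.ELM

open Filter MeasureTheory Topology

theorem sum_half_le (M : ℕ) :
    ∑ a ∈ Finset.Icc (-(M : ℤ)) M, (1 / 2 : ℝ) ^ a.natAbs = 3 - 2 * (1 / 2) ^ M := by
  induction M with
  | zero => simp; norm_num
  | succ M ih =>
    have e1 : Finset.Icc (-((M + 1 : ℕ) : ℤ)) ((M + 1 : ℕ) : ℤ) =
        insert (-((M + 1 : ℕ) : ℤ)) (insert (((M + 1 : ℕ) : ℤ)) (Finset.Icc (-(M : ℤ)) M)) := by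
      ext x
      simp only [Finset.mem_Icc, Finset.mem_insert]
      omega
    rw [e1, Finset.sum_insert, Finset.sum_insert, ih]
    · rw [Int.natAbs_neg, Int.natAbs_natCast, pow_succ]
      ring
    · simp only [Finset.mem_Icc]
      omega
    · simp only [Finset.mem_Icc, Finset.mem_insert]
      omega

/-- the prefixes of length `N` with `∑ |k j| ≤ 2 N` -/
noncomputable def pref (N : ℕ) : Finset (Fin N → ℤ) :=
  (Fintype.piFinset fun _ : Fin N => Finset.Icc (-((2 * N : ℕ) : ℤ)) ((2 * N : ℕ) : ℤ)).filter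
    fun k => ∑ j, |k j| ≤ 2 * (N : ℤ)

theorem mem_pref (N : ℕ) (k : Fin N → ℤ) (h : ∑ j, |k j| ≤ 2 * (N : ℤ)) : k ∈ pref N := by
  unfold pref
  rw [Finset.mem_filter, Fintype.mem_piFinset]
  refine ⟨fun j => ?_, h⟩
  have h1 : |k j| ≤ ∑ j, |k j| :=
    Finset.single_le_sum (f := fun j => |k j|) (fun j _ => abs_nonneg _) (Finset.mem_univ j)
  rw [Finset.mem_Icc, ← abs_le]
  push_cast
  linarith

theorem card_pref (N : ℕ) : ((pref N).card : ℝ) ≤ 12 ^ N := by
  have h1 : ((pref N).card : ℝ) ≤ ∑ k ∈ pref N, ∏ j, (4 * (1 / 2 : ℝ) ^ (k j).natAbs) := by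
    rw [Finset.card_eq_sum_ones]
    push_cast
    refine Finset.sum_le_sum fun k hk => ?_
    unfold pref at hk
    have h2 := (Finset.mem_filter.mp hk).2
    rw [Finset.prod_mul_distrib, Finset.prod_const, Finset.card_univ, Fintype.card_fin,
      Finset.prod_pow_eq_pow_sum]
    have h3 : ∑ j, (k j).natAbs ≤ 2 * N := by
      have h4 : ((∑ j, (k j).natAbs : ℕ) : ℤ) ≤ 2 * (N : ℤ) := by
        push_cast
        exact h2
      omega
    calc (1 : ℝ) = 4 ^ N * (1 / 2) ^ (2 * N) := by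
          rw [pow_mul, ← mul_pow]
          norm_num
      _ ≤ 4 ^ N * (1 / 2) ^ (∑ j, (k j).natAbs) := by
          refine mul_le_mul_of_nonneg_left ?_ (by positivity)
          exact pow_le_pow_of_le_one (by norm_num) (by norm_num) h3
  have h2 : ∑ k ∈ pref N, ∏ j, (4 * (1 / 2 : ℝ) ^ (k j).natAbs) ≤
      ∑ k ∈ Fintype.piFinset fun _ : Fin N =>
        Finset.Icc (-((2 * N : ℕ) : ℤ)) ((2 * N : ℕ) : ℤ),
        ∏ j, (4 * (1 / 2 : ℝ) ^ (k j).natAbs) := by
    unfold pref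
    refine Finset.sum_le_sum_of_subset_of_nonneg (Finset.filter_subset _ _) fun k _ _ => ?_
    exact Finset.prod_nonneg fun j _ => by positivity
  have h3 : ∑ k ∈ Fintype.piFinset fun _ : Fin N =>
        Finset.Icc (-((2 * N : ℕ) : ℤ)) ((2 * N : ℕ) : ℤ),
        ∏ j, (4 * (1 / 2 : ℝ) ^ (k j).natAbs) =
      ∏ _j : Fin N, ∑ a ∈ Finset.Icc (-((2 * N : ℕ) : ℤ)) ((2 * N : ℕ) : ℤ),
        (4 * (1 / 2 : ℝ) ^ a.natAbs) :=
    (Finset.prod_univ_sum (fun _ : Fin N =>
      Finset.Icc (-((2 * N : ℕ) : ℤ)) ((2 * N : ℕ) : ℤ))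
      (fun _ a => 4 * (1 / 2 : ℝ) ^ a.natAbs)).symm
  rw [h3, Finset.prod_const, Finset.card_univ, Fintype.card_fin] at h2
  refine h1.trans (h2.trans ?_)
  refine pow_le_pow_left₀ (Finset.sum_nonneg fun a _ => by positivity) ?_ N
  rw [← Finset.mul_sum, sum_half_le]
  have : (0 : ℝ) ≤ (1 / 2) ^ (2 * N) := by positivity
  linarith

/-- a set of reals of diameter at most `r` -/
theorem volume_le_of_dist (V : Set ℝ) (r : ℝ) (h : ∀ x ∈ V, ∀ y ∈ V, |x - y| ≤ r) :
    volume V ≤ ENNReal.ofReal r := by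
  refine (Real.volume_le_diam V).trans ?_
  refine Metric.ediam_le fun x hx y hy => ?_
  rw [edist_dist, Real.dist_eq]
  exact ENNReal.ofReal_le_ofReal (h x hx y hy)

namespace Fam

variable (F : Fam)

/-- two parameters in the same piece of the covering -/
theorem close (i p : ℕ) : ∃ K : ℝ, 0 < K ∧ ∃ n₀ : ℕ, ∀ n, n₀ ≤ n → p ≤ 2 * n ∧
    ∀ t t' : Par, (∀ j, j ≠ i → t j = t' j) → |(t' i : ℝ) - t i| ≤ F.q ^ (5 * n) →
    ∀ (k l k' l' : ℕ → ℤ) (y z y' z' : ℕ → Ci), F.IsOrbit t k y → F.IsOrbit t l z →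
    F.Typ p k y → F.Typ p l z → y 0 = z 0 →
    1 ≤ ((p : ℝ) + 1) * |F.D t y (F.φ i) - F.D t z (F.φ i)| →
    F.IsOrbit t' k' y' → F.IsOrbit t' l' z' → F.Typ p k' y' → F.Typ p l' z' → y' 0 = z' 0 →
    (∀ j, j < 2 * n → k j = k' j) → (∀ j, j < 2 * n → l j = l' j) →
    |(t' i : ℝ) - t i| ≤ K * F.q ^ (90 * n) := by
  obtain ⟨C, hC, n₁, hlin⟩ := F.lin i p
  have hq := F.q_pos
  have hq1 : F.q < 1 := by linarith [F.q_le]
  have hp1 : (0 : ℝ) < (p : ℝ) + 1 := by positivity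
  have h1 : Tendsto (fun n : ℕ => 2 * C * ((p : ℝ) + 1) * F.q ^ n) atTop
      (𝓝 (2 * C * ((p : ℝ) + 1) * 0)) :=
    (tendsto_pow_atTop_nhds_zero_of_lt_one hq.le hq1).const_mul _
  have h2 : 2 * C * ((p : ℝ) + 1) * 0 < 1 / 2 := by norm_num
  obtain ⟨n₂, hn₂⟩ := eventually_atTop.mp (h1.eventually (gt_mem_nhds h2))
  refine ⟨4 * C * ((p : ℝ) + 1), by positivity, max (max n₁ n₂) p, fun n hn => ?_⟩
  have hn1 : n₁ ≤ n := (le_max_left _ _).trans ((le_max_left _ _).trans hn)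
  have hn2 : n₂ ≤ n := (le_max_right _ _).trans ((le_max_left _ _).trans hn)
  have hn3 : p ≤ n := (le_max_right _ _).trans hn
  refine ⟨by omega, ?_⟩
  intro t t' htt hδ k l k' l' y z y' z' hy hz hTy hTz h0 hD hy' hz' hTy' hTz' h0' hk hl
  obtain ⟨e₁, he₁, hs₁, hb₁⟩ := hlin n hn1 t t' htt hδ k k' y y' hy hy' hTy hTy' hk
  obtain ⟨e₂, he₂, hs₂, hb₂⟩ := hlin n hn1 t t' htt hδ l l' z z' hz hz' hTz hTz' hl
  have hee : e₁ = e₂ := by
    have h3 : ((e₁ - e₂ : ℝ) : Ci) = 0 := by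
      rw [AddCircle.coe_sub, he₁, he₂, h0, h0', sub_self]
    have h4 : |e₁ - e₂| ≤ 1 / 2 := by
      have h5 := abs_lt.mp hs₁
      have h6 := abs_lt.mp hs₂
      rw [abs_le]
      constructor <;> linarith [h5.1, h5.2, h6.1, h6.2]
    have h5 := norm_coe_eq _ h4
    rw [h3, norm_zero] at h5
    have h6 := abs_eq_zero.mp h5.symm
    linarith
  set δ : ℝ := (t' i : ℝ) - t i with hδdef
  set Dy := F.D t y (F.φ i) with hDy
  set Dz := F.D t z (F.φ i) with hDz
  have h3 : |δ| * |Dy - Dz| ≤ 2 * C * (F.q ^ (90 * n) + |δ| * F.q ^ n) := by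
    rw [← abs_mul]
    have e1 : δ * (Dy - Dz) = (e₂ - δ * Dz) - (e₁ - δ * Dy) := by
      rw [hee]
      ring
    rw [e1]
    have h4 := abs_le.mp hb₁
    have h5 := abs_le.mp hb₂
    rw [abs_le]
    constructor <;> linarith [h4.1, h4.2, h5.1, h5.2]
  have h4 := hn₂ n hn2
  have h5 : |δ| ≤ ((p : ℝ) + 1) * (|δ| * |Dy - Dz|) := by
    calc |δ| = |δ| * 1 := (mul_one _).symm
      _ ≤ |δ| * (((p : ℝ) + 1) * |Dy - Dz|) := mul_le_mul_of_nonneg_left hD (abs_nonneg _)
      _ = _ := by ring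
  have h6 : ((p : ℝ) + 1) * (|δ| * |Dy - Dz|) ≤
      2 * C * ((p : ℝ) + 1) * F.q ^ (90 * n) + (2 * C * ((p : ℝ) + 1) * F.q ^ n) * |δ| := by
    calc ((p : ℝ) + 1) * (|δ| * |Dy - Dz|) ≤
        ((p : ℝ) + 1) * (2 * C * (F.q ^ (90 * n) + |δ| * F.q ^ n)) :=
          mul_le_mul_of_nonneg_left h3 hp1.le
      _ = _ := by ring
  have h7 : (2 * C * ((p : ℝ) + 1) * F.q ^ n) * |δ| ≤ 1 / 2 * |δ| :=
    mul_le_mul_of_nonneg_right h4.le (abs_nonneg _)
  linarith

theorem bad_interior (i p : ℕ) : interior (F.Bad i p) = ∅ := by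
  classical
  by_contra hne
  obtain ⟨t₀, ht₀⟩ := Set.nonempty_iff_ne_empty.mpr hne
  obtain ⟨K, hK, n₀, hclose⟩ := F.close i p
  have hq := F.q_pos
  have hq1 : F.q < 1 := by linarith [F.q_le]
  -- an open set of parameters in the direction `i`
  have hcont : Continuous fun s : unitInterval => Function.update t₀ i s :=
    continuous_const.update i continuous_id
  have hO : IsOpen ((fun s : unitInterval => Function.update t₀ i s) ⁻¹'
      interior (F.Bad i p)) := isOpen_interior.preimage hcont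
  obtain ⟨W, hW, hWO⟩ := isOpen_induced_iff.mp hO
  have hmem : (t₀ i : ℝ) ∈ W := by
    have h1 : t₀ i ∈ Subtype.val ⁻¹' W := by
      rw [hWO, Set.mem_preimage, Function.update_eq_self]
      exact ht₀
    exact h1
  set V : Set ℝ := W ∩ Set.Ioo 0 1 with hV
  have hVopen : IsOpen V := hW.inter isOpen_Ioo
  have hVne : V.Nonempty := by
    have h1 : (t₀ i : ℝ) ∈ closure (Set.Ioo (0 : ℝ) 1) := by
      rw [closure_Ioo (by norm_num)]
      exact (t₀ i).2
    exact mem_closure_iff.mp h1 W hW hmem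
  have hVpos : 0 < volume V := hVopen.measure_pos volume hVne
  -- the data
  have hdata : ∀ x ∈ V, ∃ (t : Par) (k l : ℕ → ℤ) (y z : ℕ → Ci), (∀ j, j ≠ i → t j = t₀ j) ∧
      (t i : ℝ) = x ∧ F.IsOrbit t k y ∧ F.IsOrbit t l z ∧ F.Typ p k y ∧ F.Typ p l z ∧
      y 0 = z 0 ∧ 1 ≤ ((p : ℝ) + 1) * |F.D t y (F.φ i) - F.D t z (F.φ i)| := by
    intro x hx
    have hx01 : x ∈ Set.Icc (0 : ℝ) 1 := Set.Ioo_subset_Icc_self hx.2
    have h1 : (⟨x, hx01⟩ : unitInterval) ∈ Subtype.val ⁻¹' W := hx.1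
    rw [hWO] at h1
    obtain ⟨k, l, y, z, h2, h3, h4, h5, h6, h7⟩ := interior_subset h1
    refine ⟨Function.update t₀ i ⟨x, hx01⟩, k, l, y, z, fun j hj => ?_, ?_, h2, h3, h4, h5, h6,
      h7⟩
    · rw [Function.update_of_ne hj]
    · rw [Function.update_self]
  choose! t k l y z h1 h2 h3 h4 h5 h6 h7 h8 using hdata
  have hbound : ∀ n, n₀ ≤ n → volume V ≤
      ENNReal.ofReal (2 * K * (12 ^ 4 * F.q ^ 85) ^ n) := by
    intro n hn
    obtain ⟨hp2, hcl⟩ := hclose n hn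
    set ε := F.q ^ (5 * n) with hε
    have hεpos : 0 < ε := by positivity
    set M := ⌊ε⁻¹⌋₊ with hM
    set I := (pref (2 * n) ×ˢ pref (2 * n)) ×ˢ Finset.range (M + 1) with hI
    set piece : ((Fin (2 * n) → ℤ) × (Fin (2 * n) → ℤ)) × ℕ → Set ℝ := fun ι =>
      {x | x ∈ V ∧ (fun j : Fin (2 * n) => k x j) = ι.1.1 ∧
        (fun j : Fin (2 * n) => l x j) = ι.1.2 ∧ ⌊x / ε⌋₊ = ι.2} with hpiece
    have hcover : V ⊆ ⋃ ι ∈ I, piece ι := by
      intro x hx
      rw [Set.mem_iUnion₂]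
      refine ⟨((fun j : Fin (2 * n) => k x j, fun j : Fin (2 * n) => l x j), ⌊x / ε⌋₊), ?_,
        hx, rfl, rfl, rfl⟩
      rw [hI, Finset.mem_product, Finset.mem_product]
      refine ⟨⟨mem_pref _ _ ?_, mem_pref _ _ ?_⟩, ?_⟩
      · have h9 := (h5 x hx).t1 (2 * n) hp2
        rw [Fin.sum_univ_eq_sum_range (fun j => |k x j|) (2 * n)]
        exact h9
      · have h9 := (h6 x hx).t1 (2 * n) hp2
        rw [Fin.sum_univ_eq_sum_range (fun j => |l x j|) (2 * n)]
        exact h9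
      · rw [Finset.mem_range, Nat.lt_succ_iff]
        refine Nat.floor_le_floor ?_
        rw [div_eq_mul_inv]
        have h9 : x ≤ 1 := hx.2.2.le
        have h10 : 0 < ε⁻¹ := inv_pos.mpr hεpos
        calc x * ε⁻¹ ≤ 1 * ε⁻¹ := mul_le_mul_of_nonneg_right h9 h10.le
          _ = ε⁻¹ := one_mul _
    have hdiam : ∀ ι ∈ I, volume (piece ι) ≤ ENNReal.ofReal (K * F.q ^ (90 * n)) := by
      intro ι _
      refine volume_le_of_dist _ _ fun x hx x' hx' => ?_
      have hxV : x ∈ V := hx.1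
      have hxV' : x' ∈ V := hx'.1
      have h9 : |x' - x| ≤ ε := by
        have hx0 : 0 ≤ x / ε := div_nonneg hxV.2.1.le hεpos.le
        have hx0' : 0 ≤ x' / ε := div_nonneg hxV'.2.1.le hεpos.le
        have e1 : ⌊x / ε⌋₊ = ⌊x' / ε⌋₊ := by rw [hx.2.2.2, hx'.2.2.2]
        have h10 := Nat.floor_le hx0
        have h11 := Nat.floor_le hx0'
        have h12 := Nat.lt_floor_add_one (x / ε)
        have h13 := Nat.lt_floor_add_one (x' / ε)
        rw [e1] at h10 h12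
        have h14 : |x' / ε - x / ε| ≤ 1 := by
          rw [abs_le]
          constructor <;> linarith
        rw [← sub_div, abs_div, abs_of_pos hεpos, div_le_one hεpos] at h14
        exact h14
      rw [abs_sub_comm]
      have h10 := hcl (t x) (t x') (fun j hj => by rw [h1 x hxV j hj, h1 x' hxV' j hj])
        (by rw [h2 x hxV, h2 x' hxV']; exact h9) (k x) (l x) (k x') (l x') (y x) (z x) (y x')
        (z x') (h3 x hxV) (h4 x hxV) (h5 x hxV) (h6 x hxV) (h7 x hxV) (h8 x hxV) (h3 x' hxV')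
        (h4 x' hxV') (h5 x' hxV') (h6 x' hxV') (h7 x' hxV')
        (fun j hj => by
          have h11 := congrFun (hx.2.1.trans hx'.2.1.symm) ⟨j, hj⟩
          exact h11)
        (fun j hj => by
          have h11 := congrFun (hx.2.2.1.trans hx'.2.2.1.symm) ⟨j, hj⟩
          exact h11)
      rw [h2 x hxV, h2 x' hxV'] at h10
      exact h10
    have hcard : (I.card : ℝ) ≤ 12 ^ (4 * n) * (2 * ε⁻¹) := by
      rw [hI, Finset.card_product, Finset.card_product, Finset.card_range]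
      push_cast
      have h9 := card_pref (2 * n)
      have h10 : (M : ℝ) + 1 ≤ 2 * ε⁻¹ := by
        have h11 : (M : ℝ) ≤ ε⁻¹ := Nat.floor_le (inv_nonneg.mpr hεpos.le)
        have h12 : 1 ≤ ε⁻¹ := by
          rw [one_le_inv₀ hεpos]
          exact pow_le_one₀ hq.le hq1.le
        linarith
      calc ((pref (2 * n)).card : ℝ) * ((pref (2 * n)).card : ℝ) * ((M : ℝ) + 1) ≤
          (12 ^ (2 * n) * 12 ^ (2 * n)) * (2 * ε⁻¹) := by
            refine mul_le_mul (mul_le_mul h9 h9 (Nat.cast_nonneg _) (by positivity)) h10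
              (by positivity) (by positivity)
        _ = 12 ^ (4 * n) * (2 * ε⁻¹) := by
            rw [← pow_add]
            congr 2
            ring
    calc volume V ≤ volume (⋃ ι ∈ I, piece ι) := measure_mono hcover
      _ ≤ ∑ ι ∈ I, volume (piece ι) := measure_biUnion_finset_le _ _
      _ ≤ ∑ _ι ∈ I, ENNReal.ofReal (K * F.q ^ (90 * n)) := Finset.sum_le_sum hdiam
      _ = ENNReal.ofReal ((I.card : ℝ) * (K * F.q ^ (90 * n))) := by
          rw [Finset.sum_const, nsmul_eq_mul, ENNReal.ofReal_mul (Nat.cast_nonneg _),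
            ENNReal.ofReal_natCast]
      _ ≤ ENNReal.ofReal (2 * K * (12 ^ 4 * F.q ^ 85) ^ n) := by
          refine ENNReal.ofReal_le_ofReal ?_
          calc (I.card : ℝ) * (K * F.q ^ (90 * n)) ≤
              (12 ^ (4 * n) * (2 * ε⁻¹)) * (K * F.q ^ (90 * n)) :=
                mul_le_mul_of_nonneg_right hcard (by positivity)
            _ = 2 * K * (12 ^ 4 * F.q ^ 85) ^ n := by
                have e1 : F.q ^ (90 * n) = ε * F.q ^ (85 * n) := by
                  rw [hε, ← pow_add]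
                  congr 1
                  ring
                rw [e1, mul_pow, ← pow_mul, ← pow_mul]
                field_simp
  have hθ : (12 : ℝ) ^ 4 * F.q ^ 85 < 1 := by
    have h9 : F.q ^ 85 ≤ (1 / 2) ^ 85 := pow_le_pow_left₀ hq.le F.q_le 85
    calc (12 : ℝ) ^ 4 * F.q ^ 85 ≤ 12 ^ 4 * (1 / 2) ^ 85 :=
          mul_le_mul_of_nonneg_left h9 (by positivity)
      _ < 1 := by norm_num
  have hlim : Tendsto (fun n : ℕ => ENNReal.ofReal (2 * K * (12 ^ 4 * F.q ^ 85) ^ n)) atTop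
      (𝓝 0) := by
    have h9 := (tendsto_pow_atTop_nhds_zero_of_lt_one (by positivity) hθ).const_mul (2 * K)
    rw [mul_zero] at h9
    have h10 := ENNReal.tendsto_ofReal h9
    rwa [ENNReal.ofReal_zero] at h10
  have h9 : volume V ≤ 0 := ge_of_tendsto hlim (eventually_atTop.mpr ⟨n₀, hbound⟩)
  exact absurd h9 (not_le.mpr hVpos)

end Fam

end Pool.Agent.ELM
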