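import Pool.Agent.ELM.Model

/-! # ELM: a functional which vanishes on the trigonometric functions -/

set_option autoImplicit false

namespace Pool.Agent.ELM

open Filter MeasureTheory Topology
open scoped ENNReal

/-- the real part of a continuous function -/
noncomputable def reC (f : C(Ci, ℂ)) : C(Ci, ℝ) := ⟨fun x => (f x).re, Complex.continuous_re.comp f.continuous⟩

/-- the imaginary part of a continuous function -/
noncomputable def imC (f : C(Ci, ℂ)) : C(Ci, ℝ) := ⟨fun x => (f x).im, Complex.continuous_im.comp f.continuous⟩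

theorem continuous_reC : Continuous reC :=
  ContinuousMap.continuous_postcomp (⟨Complex.re, Complex.continuous_re⟩ : C(ℂ, ℝ))

theorem continuous_imC : Continuous imC :=
  ContinuousMap.continuous_postcomp (⟨Complex.im, Complex.continuous_im⟩ : C(ℂ, ℝ))

theorem reC_add (f g : C(Ci, ℂ)) : reC (f + g) = reC f + reC g := by
  ext x
  simp [reC]

theorem imC_add (f g : C(Ci, ℂ)) : imC (f + g) = imC f + imC g := by
  ext x
  simp [imC]

theorem reC_smul (c : ℂ) (f : C(Ci, ℂ)) : reC (c • f) = c.re • reC f - c.im • imC f := by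
  ext x
  simp [reC, imC]

theorem imC_smul (c : ℂ) (f : C(Ci, ℂ)) : imC (c • f) = c.re • imC f + c.im • reC f := by
  ext x
  simp [reC, imC]

/-- a functional which vanishes on the trigonometric functions is zero -/
theorem eq_zero_of_fourier (L : C(Ci, ℝ) →L[ℝ] ℝ)
    (h : ∀ n : ℤ, L (reC (fourier n)) = 0 ∧ L (imC (fourier n)) = 0) : L = 0 := by
  let K : Submodule ℂ C(Ci, ℂ) :=
    { carrier := {f | L (reC f) = 0 ∧ L (imC f) = 0}
      add_mem' := by
        rintro f g ⟨h1, h2⟩ ⟨h3, h4⟩
        refine ⟨?_, ?_⟩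
        · rw [reC_add, map_add, h1, h3, add_zero]
        · rw [imC_add, map_add, h2, h4, add_zero]
      zero_mem' := by
        have h1 : reC 0 = 0 := by ext x; simp [reC]
        have h2 : imC 0 = 0 := by ext x; simp [imC]
        exact ⟨by rw [h1, map_zero], by rw [h2, map_zero]⟩
      smul_mem' := by
        rintro c f ⟨h1, h2⟩
        refine ⟨?_, ?_⟩
        · rw [reC_smul, map_sub, map_smul, map_smul, h1, h2, smul_zero, smul_zero, sub_zero]
        · rw [imC_smul, map_add, map_smul, map_smul, h1, h2, smul_zero, smul_zero, add_zero] }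
  have hK : IsClosed (K : Set C(Ci, ℂ)) :=
    (isClosed_singleton.preimage (L.continuous.comp continuous_reC)).inter
      (isClosed_singleton.preimage (L.continuous.comp continuous_imC))
  have h1 : Submodule.span ℂ (Set.range (@fourier (1 : ℝ))) ≤ K := by
    rw [Submodule.span_le]
    rintro _ ⟨n, rfl⟩
    exact h n
  have h2 : (⊤ : Submodule ℂ C(Ci, ℂ)) ≤ K := by
    rw [← span_fourier_closure_eq_top]
    exact Submodule.topologicalClosure_minimal _ h1 hK
  ext f
  have h3 : (⟨fun x => ((f x : ℝ) : ℂ), Complex.continuous_ofReal.comp f.continuous⟩ :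
      C(Ci, ℂ)) ∈ K := h2 trivial
  have h4 := h3.1
  have h5 : reC (⟨fun x => ((f x : ℝ) : ℂ), Complex.continuous_ofReal.comp f.continuous⟩ :
      C(Ci, ℂ)) = f := by
    ext x
    simp [reC]
  rw [h5] at h4
  rw [h4]
  rfl

end Pool.Agent.ELM
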