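import Pool.Agent.ELM.Lift
import Pool.Agent.ELM.Tree

/-!
# ELM: the model

A family of involutions `a t` of the circle, with parameters `t i ∈ [0, 1]`, which contract
everything outside the small set `U`; the orbits `y j = T^(k j) a y (j+1)`; the law of the
exponents; the coding of the boundary of the free group of rank two.
-/

set_option autoImplicit false

namespace Pool.Agent.ELM

open Filter MeasureTheory Topology
open scoped ENNReal

/-- the circle -/
abbrev Ci := UnitAddCircle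

/-- the parameters -/
abbrev Par := ℕ → unitInterval

/-- A family of involutions of the circle. The map `a t` is `β⁻¹ (β + 1/2)`, where `w t = β'`, and
`φ i` is the derivative of `β` with respect to the parameter `t i`. -/
structure Fam where
  /-- the angle of the rotation `T` -/
  θ : ℝ
  irr : Irrational θ
  /-- the involutions -/
  a : Par → Ci → Ci
  inv : ∀ t x, a t (a t x) = x
  ne_self : ∀ t x, a t x ≠ x
  cont : Continuous fun p : Par × Ci => a p.1 p.2
  good : ∀ t, IsGood (a t)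
  /-- the densities -/
  w : Par → Ci → ℝ
  w_pos : ∀ t x, 0 < w t x
  w_cont : Continuous fun p : Par × Ci => w p.1 p.2
  /-- the directions -/
  φ : ℕ → C(Ci, ℝ)
  dense : ∀ L : C(Ci, ℝ) →L[ℝ] ℝ, L 1 = 0 → (∀ i, L (φ i) = 0) → L = 0
  expand : ∀ i, ∃ C : ℝ, ∀ t t' : Par, (∀ j, j ≠ i → t j = t' j) → ∀ (x : Ci) (e : ℝ),
    ‖a t' (x + (e : Ci)) - a t x - (((w t x * e + ((t' i : ℝ) - t i) * (φ i x - φ i (a t x)))
      / w t (a t x) : ℝ) : Ci)‖ ≤ C * (e ^ 2 + ((t' i : ℝ) - t i) ^ 2)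
  /-- the exceptional set -/
  U : Set Ci
  U_open : IsOpen U
  /-- the scale of the contraction -/
  q : ℝ
  q_pos : 0 < q
  q_le : q ≤ 1 / 2
  lip : ∀ t x y, ‖a t x - a t y‖ ≤ q⁻¹ ^ 200 * ‖x - y‖
  contr : ∀ t x y, x ∉ U → y ∉ U → ‖a t x - a t y‖ ≤ q ^ 100 * ‖x - y‖
  der_le : ∀ t x, w t x / w t (a t x) ≤ q⁻¹ ^ 200
  der_le' : ∀ t x, x ∉ U → w t x / w t (a t x) ≤ q ^ 100
  stay : ∀ t x, x ∉ U → ∀ k : ℤ, k ≠ 0 → |k| < 15 → a t x + ((k * θ : ℝ) : Ci) ∉ U
  ret : ∀ (x : Ci) (k k' : ℤ), |k| < 15 → |k'| < 15 → x + ((k * θ : ℝ) : Ci) ∈ U →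
    x + ((k' * θ : ℝ) : Ci) ∈ U → k = k'

/-- put `x` in front of the sequence `u` -/
def scons {α : Type} (x : α) (u : ℕ → α) : ℕ → α
  | 0 => x
  | n + 1 => u n

/-- the shift -/
def sh {α : Type} (u : ℕ → α) : ℕ → α := fun n => u (n + 1)

/-- the sequence `u` with the finite sequence `l` in front -/
def appZ (l : List ℤ) (u : ℕ → ℤ) : ℕ → ℤ := l.foldr scons u

namespace Fam

variable (F : Fam) (t : Par)

/-- the rotation `T^k` -/
def rot (k : ℤ) (x : Ci) : Ci := x + ((k * F.θ : ℝ) : Ci)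

/-- the homeomorphism `a t` -/
def aH : Homeo where
  toFun := F.a t
  invFun := F.a t
  left_inv := F.inv t
  right_inv := F.inv t
  continuous_toFun := F.cont.comp (Continuous.prodMk_right t)
  continuous_invFun := F.cont.comp (Continuous.prodMk_right t)

/-- the maps `T^s` (for `true`) and `S^s = a T^s a` (for `false`) -/
def gen (b : Bool) (s : ℤ) (x : Ci) : Ci :=
  if b = true then F.rot s x else F.a t (F.rot s (F.a t x))

/-- the action of the free group: `T` and `S = a T a` -/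
noncomputable def hom : F2 →* Homeo :=
  FreeGroup.lift fun b => if b = true then Pool.Agent.ELM.rot F.θ
    else F.aH t * Pool.Agent.ELM.rot F.θ * F.aH t

/-- the branch `T^k a` -/
def br (k : ℤ) (x : Ci) : Ci := F.a t x + ((k * F.θ : ℝ) : Ci)

/-- `T^(b 1) a T^(b 2) a ... T^(b r) a` -/
def pw (l : List ℤ) (x : Ci) : Ci := l.foldr (fun b y => F.br t b y) x

/-- the orbit `y` with the points of the finite sequence `l` in front -/
def appO (l : List ℤ) (y : ℕ → Ci) : ℕ → Ci := l.foldr (fun b z => scons (F.br t b (z 0)) z) y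

/-- the point `y 0` is reached from `y n` by `T^(k 0) a ... T^(k (n-1)) a` -/
def IsOrbit (k : ℕ → ℤ) (y : ℕ → Ci) : Prop := ∀ j, y j = F.br t (k j) (y (j + 1))

open Classical in
/-- number of visits of `y 1, ..., y n` to `U` -/
noncomputable def visits (y : ℕ → Ci) (n : ℕ) : ℕ :=
  ((Finset.range n).filter fun j => y (j + 1) ∈ F.U).card

/-- typical orbits, with the constant `p` -/
structure Typ (p : ℕ) (k : ℕ → ℤ) (y : ℕ → Ci) : Prop where
  t1 : ∀ n, p ≤ n → ∑ j ∈ Finset.range n, |k j| ≤ 2 * n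
  t2 : ∀ n, p ≤ n → 1000 * F.visits y n ≤ n

/-- the derivative of `T^(k 0) a ... T^(k (j-1)) a` at `y j` -/
noncomputable def mult (y : ℕ → Ci) (j : ℕ) : ℝ :=
  ∏ i ∈ Finset.range j, F.w t (y (i + 1)) / F.w t (F.a t (y (i + 1)))

/-- the coefficients of the derivative in the parameters -/
noncomputable def coef (y : ℕ → Ci) (j : ℕ) : ℝ := F.mult t y j / F.w t (F.a t (y (j + 1)))

/-- the derivative in the direction `ψ` -/
noncomputable def D (y : ℕ → Ci) (ψ : Ci → ℝ) : ℝ :=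
  ∑' j, F.coef t y j * (ψ (y (j + 1)) - ψ (F.a t (y (j + 1))))

open Classical in
/-- the atom of `D` at the point `x₀` -/
noncomputable def At (y : ℕ → Ci) (x₀ : Ci) : ℝ :=
  F.D t y fun x => if x = x₀ then 1 else 0

/-- pairs of typical orbits with the same end point and different derivatives -/
def Bad (i p : ℕ) : Set Par := {t | ∃ (k l : ℕ → ℤ) (y z : ℕ → Ci), F.IsOrbit t k y ∧
  F.IsOrbit t l z ∧ F.Typ p k y ∧ F.Typ p l z ∧ y 0 = z 0 ∧
  1 ≤ ((p : ℝ) + 1) * |F.D t y (F.φ i) - F.D t z (F.φ i)|}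

/-- typical orbits with the same end point have the same derivative -/
def Good : Prop := ∀ (p : ℕ) (k l : ℕ → ℤ) (y z : ℕ → Ci), F.IsOrbit t k y → F.IsOrbit t l z →
  F.Typ p k y → F.Typ p l z → y 0 = z 0 → ∀ x₀, F.At t y x₀ = F.At t z x₀

end Fam

/-! ## The law of the exponents -/

/-- the probability of the exponent `k` -/
noncomputable def kapf (k : ℤ) : ℝ≥0∞ := if k = 0 then 0 else 3⁻¹ ^ k.natAbs

theorem kapf_nat (n : ℕ) : kapf (n : ℤ) = if n = 0 then 0 else 3⁻¹ ^ n := by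
  unfold kapf
  simp

theorem kapf_neg (n : ℕ) : kapf (-((n : ℤ) + 1)) = 3⁻¹ ^ (n + 1) := by
  unfold kapf
  rw [if_neg (by omega)]
  congr 1

theorem kapf_sum : ∑' k : ℤ, kapf k = 1 := by
  have h3 : (3 : ℝ≥0∞)⁻¹ ≠ ∞ := by simp
  have hg : ∑' n : ℕ, (3 : ℝ≥0∞)⁻¹ ^ (n + 1) = 2⁻¹ := by
    simp only [pow_succ]
    rw [ENNReal.tsum_mul_right, ENNReal.tsum_geometric]
    have h1 : (1 : ℝ≥0∞) - 3⁻¹ = 2 / 3 := by
      have h4 : (1 : ℝ≥0∞) = 2 / 3 + 3⁻¹ := by
        rw [ENNReal.div_eq_inv_mul, ← mul_one (3 : ℝ≥0∞)⁻¹, mul_assoc, ← mul_add]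
        norm_num
        rw [ENNReal.inv_mul_cancel] <;> simp
      conv_lhs => rw [h4]
      exact ENNReal.add_sub_cancel_right h3
    rw [h1, ENNReal.inv_div (by simp) (by simp), ENNReal.div_eq_inv_mul, mul_assoc,
      ENNReal.mul_inv_cancel (by simp) (by simp), mul_one]
  have h0 : ∑' k : ℤ, kapf k = ∑' n : ℕ, kapf (n : ℤ) + ∑' n : ℕ, kapf (-((n : ℤ) + 1)) :=
    tsum_of_nat_of_neg_add_one ENNReal.summable ENNReal.summable
  rw [h0]
  have h1 : ∑' n : ℕ, kapf (n : ℤ) = 2⁻¹ := by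
    rw [tsum_eq_zero_add' ENNReal.summable]
    have : kapf ((0 : ℕ) : ℤ) = 0 := by simp [kapf]
    rw [this, zero_add, ← hg]
    refine tsum_congr fun n => ?_
    rw [kapf_nat, if_neg (by omega)]
  have h2 : ∑' n : ℕ, kapf (-((n : ℤ) + 1)) = 2⁻¹ := by
    rw [← hg]
    exact tsum_congr fun n => kapf_neg n
  rw [h1, h2]
  exact ENNReal.inv_two_add_inv_two

/-- the law of an exponent: `P(k) = 3^(-|k|)` for `k ≠ 0` -/
noncomputable def kap : PMF ℤ := ⟨kapf, by
  rw [← kapf_sum]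
  exact ENNReal.summable.hasSum⟩

/-- the law of a sequence of independent exponents -/
noncomputable def PP : Measure (ℕ → ℤ) := Measure.infinitePi fun _ => kap.toMeasure

instance : IsProbabilityMeasure PP := by
  unfold PP
  infer_instance

/-! ## The coding -/

namespace Fam

variable (F : Fam) (t : Par)

/-- `T^(u 0) a ... T^(u (n-1)) a` -/
def word : ℕ → (ℕ → ℤ) → Ci → Ci
  | 0, _, x => x
  | n + 1, u, x => F.br t (u 0) (word n (sh u) x)

/-- the branches converge -/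
def Conv (u : ℕ → ℤ) : Prop := ∃ x, Tendsto (fun n => F.word t n u 0) atTop (𝓝 x)

/-- the limit of the branches -/
noncomputable def xi (u : ℕ → ℤ) : Ci := limUnder atTop fun n => F.word t n u 0

/-- the orbit of `xi u` -/
noncomputable def orb (u : ℕ → ℤ) (j : ℕ) : Ci := F.xi t (sh^[j] u)

/-- the typical sequences -/
structure STyp (u : ℕ → ℤ) : Prop where
  conv : F.Conv t u
  ne : ∀ j, u j ≠ 0
  t1 : ∃ C : ℤ, ∀ n : ℕ, 4 * ∑ j ∈ Finset.range n, |u j| ≤ 7 * n + C
  t2 : ∃ C : ℕ, ∀ n : ℕ, 2000 * F.visits (F.orb t u) n ≤ n + C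

/-- no short relation at `x` -/
def Free (x : Ci) : Prop := ∀ l : List ℤ, l ≠ [] → (∀ b ∈ l, b ≠ 0) →
  F.pw t l x ≠ x ∧ F.pw t l (F.a t x) ≠ x ∧ F.a t (F.pw t l x) ≠ x

/-- the good sequences -/
structure GSeq (u : ℕ → ℤ) : Prop where
  styp : F.STyp t u
  free : ∀ l : List ℤ, F.Free t (F.pw t l (F.xi t u))

/-- the law of `xi` -/
noncomputable def eta : Measure Ci := PP.map (F.xi t)

/-- the stationary measure -/
noncomputable def nu : Measure Ci :=
  (2⁻¹ : ℝ≥0∞) • F.eta t + (2⁻¹ : ℝ≥0∞) • (F.eta t).map (F.a t)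

end Fam

/-- the boundary of the free group: type of the first syllable and exponents -/
abbrev Bd := Bool × (ℕ → ℤ)

/-- the uniform measure of the boundary -/
noncomputable def mm : Measure Bd :=
  ((2⁻¹ : ℝ≥0∞) • Measure.dirac true + (2⁻¹ : ℝ≥0∞) • Measure.dirac false).prod PP

/-- the action of `T^s`, `s = 1` or `s = -1`, on the boundary -/
def tau (s : ℤ) (b : Bd) : Bd :=
  if b.1 = true then
    (if b.2 0 = -s then (false, sh b.2) else (true, scons (b.2 0 + s) (sh b.2)))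
  else (true, scons s b.2)

/-- the exchange of the two generators -/
def swp (b : Bd) : Bd := (!b.1, b.2)

/-- the density of `(T^s)_* mm` -/
noncomputable def dens (s : ℤ) (b : Bd) : ℝ≥0∞ := if b.1 = true ∧ 0 < s * b.2 0 then 3 else 3⁻¹

/-- the coding of the boundary -/
noncomputable def Fam.cod (F : Fam) (t : Par) (b : Bd) : Ci :=
  if b.1 = true then F.xi t b.2 else F.a t (F.xi t b.2)

end Pool.Agent.ELM
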