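import Pool.Agent.ELM.Assemble
import Pool.Agent.ELM.Model

/-!
# The stationary measure and its boundary entropy
-/

set_option autoImplicit false

namespace Pool.Agent.ELM

open Filter MeasureTheory Topology Set
open scoped ENNReal

theorem map_mulH (g h : Homeo) (m : Measure UnitAddCircle) :
    m.map (g * h : Homeo) = (m.map h).map g := by
  rw [Measure.map_map g.continuous.measurable h.continuous.measurable]
  rfl

theorem map_oneH (m : Measure UnitAddCircle) : m.map (1 : Homeo) = m :=
  Measure.map_id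

/-- the sum over the positive exponents -/
noncomputable def half (T a : Homeo) (η : Measure UnitAddCircle) : Measure UnitAddCircle :=
  Measure.sum fun n : ℕ => (3 : ℝ≥0∞)⁻¹ ^ (n + 1) • η.map (T ^ (n + 1) * a : Homeo)

theorem tsum_third : ∑' n : ℕ, (3 : ℝ≥0∞)⁻¹ ^ (n + 1) = 2⁻¹ := by
  have h3 : (3 : ℝ≥0∞)⁻¹ ≠ ∞ := by simp
  simp only [pow_succ]
  rw [ENNReal.tsum_mul_right, ENNReal.tsum_geometric]
  have h1 : (1 : ℝ≥0∞) - 3⁻¹ = 2 / 3 := by
    have h4 : (1 : ℝ≥0∞) = 2 / 3 + 3⁻¹ := by
      rw [ENNReal.div_eq_inv_mul, ← mul_one (3 : ℝ≥0∞)⁻¹, mul_assoc, ← mul_add]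
      norm_num
      rw [ENNReal.inv_mul_cancel] <;> simp
    conv_lhs => rw [h4]
    exact ENNReal.add_sub_cancel_right h3
  rw [h1, ENNReal.inv_div (by simp) (by simp), ENNReal.div_eq_inv_mul, mul_assoc,
    ENNReal.mul_inv_cancel (by simp) (by simp), mul_one]

section

variable (T a : Homeo) (η : Measure UnitAddCircle)

theorem half_univ (h : IsProbabilityMeasure η) : half T a η univ = 2⁻¹ := by
  unfold half
  rw [Measure.sum_apply _ MeasurableSet.univ, ← tsum_third]
  refine tsum_congr fun n => ?_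
  have h1 : η.map (T ^ (n + 1) * a : Homeo) univ = 1 := by
    rw [Measure.map_apply (T ^ (n + 1) * a : Homeo).continuous.measurable MeasurableSet.univ,
      preimage_univ, h.measure_univ]
  rw [Measure.smul_apply, h1, smul_eq_mul, mul_one]

theorem half_apply {s : Set UnitAddCircle} (hs : MeasurableSet s) : half T a η s =
    ∑' n : ℕ, (3 : ℝ≥0∞)⁻¹ ^ (n + 1) * η.map (T ^ (n + 1) * a : Homeo) s := by
  unfold half
  rw [Measure.sum_apply _ hs]
  rfl

theorem three_half : (3 : ℝ≥0∞) • half T a η = (η.map a + half T a η).map T := by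
  ext s hs
  have h3 : (3 : ℝ≥0∞) * 3⁻¹ = 1 := ENNReal.mul_inv_cancel (by simp) (by simp)
  have hT : Measurable T := T.continuous.measurable
  rw [Measure.smul_apply, smul_eq_mul, Measure.map_apply hT hs, Measure.add_apply,
    half_apply T a η hs, half_apply T a η (hT hs), tsum_eq_zero_add' ENNReal.summable, mul_add]
  congr 1
  · rw [zero_add, pow_one, pow_one, ← mul_assoc, h3, one_mul, map_mulH, Measure.map_apply hT hs]
  · rw [← ENNReal.tsum_mul_left]
    refine tsum_congr fun n => ?_
    rw [pow_succ' (3 : ℝ≥0∞)⁻¹ (n + 1), ← mul_assoc, ← mul_assoc, h3, one_mul,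
      pow_succ' T (n + 1), mul_assoc T, map_mulH T, Measure.map_apply hT hs]

theorem half_add (h : η = Measure.sum fun k : ℤ => kapf k • η.map (T ^ k * a : Homeo)) :
    η = half T a η + half T⁻¹ a η := by
  conv_lhs => rw [h]
  ext s hs
  rw [Measure.sum_apply _ hs, Measure.add_apply, half_apply _ _ _ hs, half_apply _ _ _ hs,
    tsum_of_nat_of_neg_add_one ENNReal.summable ENNReal.summable,
    tsum_eq_zero_add' ENNReal.summable]
  have h0 : (kapf ((0 : ℕ) : ℤ) • η.map (T ^ ((0 : ℕ) : ℤ) * a : Homeo)) s = 0 := by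
    rw [kapf_nat, if_pos rfl, zero_smul]
    rfl
  rw [h0, zero_add]
  refine congrArg₂ (· + ·) (tsum_congr fun n => ?_) (tsum_congr fun n => ?_)
  · rw [kapf_nat, if_neg (by omega), zpow_natCast]
    rfl
  · have h1 : T ^ (-((n : ℤ) + 1)) = T⁻¹ ^ (n + 1) := by
      rw [zpow_neg, inv_pow, ← zpow_natCast]
      push_cast
      rfl
    rw [kapf_neg, h1]
    rfl

end

theorem map_total (x : Homeo) {m m' r : Measure UnitAddCircle}
    (h : (3 : ℝ≥0∞) • m = (m + r).map x) (h' : (3 : ℝ≥0∞) • m' = (m' + r).map (x⁻¹ : Homeo)) :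
    (m + m' + r).map (x⁻¹ : Homeo) = (3 : ℝ≥0∞) • m' + (3 : ℝ≥0∞)⁻¹ • (m + r) := by
  have hx : Measurable (x⁻¹ : Homeo) := (x⁻¹ : Homeo).continuous.measurable
  have h1 : m.map (x⁻¹ : Homeo) = (3 : ℝ≥0∞)⁻¹ • (m + r) := by
    have h2 : ((3 : ℝ≥0∞) • m).map (x⁻¹ : Homeo) = m + r := by
      rw [h, ← map_mulH, inv_mul_cancel, map_oneH]
    rw [← h2, Measure.map_smul, smul_smul, ENNReal.inv_mul_cancel (by simp) (by simp), one_smul]
  rw [add_assoc, Measure.map_add _ _ hx, ← h', h1, add_comm]

theorem logRN_of {ν m r : Measure UnitAddCircle} (hν : IsProbabilityMeasure ν) (g : Homeo)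
    {A : Set UnitAddCircle} (hA : MeasurableSet A) (h1 : ν = m + r) (hm : m Aᶜ = 0)
    (hr : r A = 0) (hg : ν.map (g⁻¹ : Homeo) = (3 : ℝ≥0∞) • m + (3 : ℝ≥0∞)⁻¹ • r)
    (hmm : m univ = 4⁻¹) : logRN ν g = -Real.log 3 / 2 := by
  classical
  have hrA : ν.restrict A = m := by
    ext s hs
    rw [Measure.restrict_apply hs, h1, Measure.add_apply,
      measure_mono_null inter_subset_right hr, add_zero]
    exact measure_inter_conull hm
  have hrA' : ν.restrict Aᶜ = r := by
    ext s hs
    rw [Measure.restrict_apply hs, h1, Measure.add_apply,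
      measure_mono_null inter_subset_right hm, zero_add]
    refine measure_inter_conull ?_
    rwa [compl_compl]
  have hf : ν.withDensity (A.indicator (fun _ => 3) + Aᶜ.indicator fun _ => 3⁻¹) =
      ν.map (g⁻¹ : Homeo) := by
    rw [withDensity_add_left (measurable_const.indicator hA), withDensity_indicator hA,
      withDensity_indicator hA.compl, withDensity_const, withDensity_const, hrA, hrA', hg]
  have hfm : Measurable ((A.indicator (fun _ => 3) + Aᶜ.indicator fun _ => 3⁻¹ :
      UnitAddCircle → ℝ≥0∞)) :=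
    (measurable_const.indicator hA).add (measurable_const.indicator hA.compl)
  have h2 : (ν.map (g⁻¹ : Homeo)).rnDeriv ν =ᵐ[ν]
      (A.indicator (fun _ => 3) + Aᶜ.indicator fun _ => 3⁻¹) := by
    rw [← hf]
    exact Measure.rnDeriv_withDensity ν hfm
  have h3 : ν.real A = 1 / 4 := by
    have h4 : ν A = 4⁻¹ := by
      rw [← Measure.restrict_apply_univ, hrA, hmm]
    rw [Measure.real, h4]
    simp
  unfold logRN
  rw [integral_congr_ae (g := fun x => A.indicator (fun _ => 2 * Real.log 3) x - Real.log 3)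
    (h2.mono fun x hx => ?_)]
  · rw [integral_sub ((integrable_const _).indicator hA) (integrable_const _),
      integral_indicator_const _ hA, h3, integral_const]
    simp
    ring
  · rw [hx]
    by_cases h : x ∈ A
    · simp [h]
      ring
    · simp [h]

section

variable {T a : Homeo} {η : Measure UnitAddCircle}

/-- the stationary measure -/
noncomputable def glue (a : Homeo) (η : Measure UnitAddCircle) : Measure UnitAddCircle :=
  (2⁻¹ : ℝ≥0∞) • η + (2⁻¹ : ℝ≥0∞) • η.map a

theorem isProbabilityMeasure_glue (hη : IsProbabilityMeasure η) :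
    IsProbabilityMeasure (glue a η) := by
  constructor
  unfold glue
  rw [Measure.add_apply, Measure.smul_apply, Measure.smul_apply,
    Measure.map_apply a.continuous.measurable MeasurableSet.univ, preimage_univ,
    hη.measure_univ, smul_eq_mul, mul_one, ENNReal.inv_two_add_inv_two]

theorem glue_main (ha : a * a = 1) (hη : IsProbabilityMeasure η)
    (h : η = Measure.sum fun k : ℤ => kapf k • η.map (T ^ k * a : Homeo))
    {A B : Set UnitAddCircle} (hA : MeasurableSet A) (hB : MeasurableSet B)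
    (hA0 : half T a η Aᶜ = 0) (hB0 : half T⁻¹ a η Bᶜ = 0) (hAB : Disjoint A B)
    (haAB : Disjoint (A ∪ B) (a '' (A ∪ B))) :
    Stat4 T (a * T * a) (glue a η) ∧
    logRN (glue a η) T + logRN (glue a η) T⁻¹ + logRN (glue a η) (a * T * a) +
      logRN (glue a η) (a * T * a)⁻¹ = -2 * Real.log 3 := by
  have hν := isProbabilityMeasure_glue (a := a) hη
  set ν := glue a η with hνd
  have ham : Measurable a := a.continuous.measurable
  have ha1 : a⁻¹ = a := inv_eq_of_mul_eq_one_right ha
  have haa : ∀ x, a (a x) = x := fun x => DFunLike.congr_fun ha x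
  have hSi : (a * T * a)⁻¹ = a * T⁻¹ * a := by
    rw [mul_inv_rev, mul_inv_rev, ha1, mul_assoc]
  have himg : ∀ s : Set UnitAddCircle, a '' s = a ⁻¹' s := fun s =>
    congrFun (image_eq_preimage_of_inverse haa haa) s
  -- the four pieces
  set P := (2⁻¹ : ℝ≥0∞) • half T a η with hP
  set M := (2⁻¹ : ℝ≥0∞) • half T⁻¹ a η with hM
  set P' := P.map a with hP'
  set M' := M.map a with hM'
  have haP : P'.map a = P := by rw [hP', ← map_mulH, ha, map_oneH]
  have haM : M'.map a = M := by rw [hM', ← map_mulH, ha, map_oneH]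
  have h0 : (2⁻¹ : ℝ≥0∞) • η = P + M := by
    rw [hP, hM, ← smul_add, ← half_add T a η h]
  have h0' : (2⁻¹ : ℝ≥0∞) • η.map a = P' + M' := by
    rw [hP', hM', ← Measure.map_add _ _ ham, ← h0, Measure.map_smul]
  have hsum : ν = P + M + (P' + M') := by
    rw [hνd, glue, h0, h0']
  -- the four relations
  have e1 : (3 : ℝ≥0∞) • P = (P + (P' + M')).map T := by
    rw [hP, smul_comm, three_half, ← Measure.map_smul, smul_add, ← h0', add_comm]
  have e2 : (3 : ℝ≥0∞) • M = (M + (P' + M')).map (T⁻¹ : Homeo) := by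
    rw [hM, smul_comm, three_half, ← Measure.map_smul, smul_add, ← h0', add_comm]
  have e3 : (3 : ℝ≥0∞) • P' = (P' + (P + M)).map (a * T * a : Homeo) := by
    rw [map_mulH, map_mulH, Measure.map_add _ _ ham, Measure.map_add _ _ ham, haP, ← hP', ← hM',
      ← e1, Measure.map_smul, ← hP']
  have e4 : (3 : ℝ≥0∞) • M' = (M' + (P + M)).map ((a * T * a)⁻¹ : Homeo) := by
    rw [hSi, map_mulH, map_mulH, Measure.map_add _ _ ham, Measure.map_add _ _ ham, haM, ← hP',
      ← hM', ← e2, Measure.map_smul, ← hM']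
  -- the images of the sum
  have f1 : ν.map (T⁻¹ : Homeo) = (3 : ℝ≥0∞) • M + (3 : ℝ≥0∞)⁻¹ • (P + (P' + M')) := by
    rw [hsum]
    exact map_total T e1 e2
  have f2 : ν.map (T : Homeo) = (3 : ℝ≥0∞) • P + (3 : ℝ≥0∞)⁻¹ • (M + (P' + M')) := by
    have := map_total T⁻¹ e2 (by rwa [inv_inv])
    rwa [inv_inv, add_comm M P, ← hsum] at this
  have hsum' : ν = P' + M' + (P + M) := by rw [hsum, add_comm]
  have f3 : ν.map ((a * T * a)⁻¹ : Homeo) =
      (3 : ℝ≥0∞) • M' + (3 : ℝ≥0∞)⁻¹ • (P' + (P + M)) := by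
    rw [hsum']
    exact map_total (a * T * a) e3 e4
  have f4 : ν.map (a * T * a : Homeo) =
      (3 : ℝ≥0∞) • P' + (3 : ℝ≥0∞)⁻¹ • (M' + (P + M)) := by
    have := map_total (a * T * a)⁻¹ e4 (by rwa [inv_inv])
    rwa [inv_inv, add_comm M' P', ← hsum'] at this
  -- the carriers
  have q : (2⁻¹ : ℝ≥0∞) * 2⁻¹ = 4⁻¹ := by
    rw [← ENNReal.mul_inv (by simp) (by simp)]
    norm_num
  have mP : P univ = 4⁻¹ := by
    rw [hP, Measure.smul_apply, half_univ T a η hη, smul_eq_mul, q]
  have mM : M univ = 4⁻¹ := by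
    rw [hM, Measure.smul_apply, half_univ T⁻¹ a η hη, smul_eq_mul, q]
  have mP' : P' univ = 4⁻¹ := by
    rw [hP', Measure.map_apply ham MeasurableSet.univ, preimage_univ, mP]
  have mM' : M' univ = 4⁻¹ := by
    rw [hM', Measure.map_apply ham MeasurableSet.univ, preimage_univ, mM]
  have cP : P Aᶜ = 0 := by rw [hP, Measure.smul_apply, hA0, smul_zero]
  have cM : M Bᶜ = 0 := by rw [hM, Measure.smul_apply, hB0, smul_zero]
  have hA' : MeasurableSet (a ⁻¹' A) := ham hA
  have hB' : MeasurableSet (a ⁻¹' B) := ham hB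
  have cP' : P' (a ⁻¹' A)ᶜ = 0 := by
    rw [hP', Measure.map_apply ham hA'.compl]
    refine measure_mono_null ?_ cP
    intro x hx hxA
    refine hx ?_
    rw [mem_preimage, haa]
    exact hxA
  have cM' : M' (a ⁻¹' B)ᶜ = 0 := by
    rw [hM', Measure.map_apply ham hB'.compl]
    refine measure_mono_null ?_ cM
    intro x hx hxB
    refine hx ?_
    rw [mem_preimage, haa]
    exact hxB
  rw [himg, preimage_union] at haAB
  have dAA : Disjoint A (a ⁻¹' A) :=
    (haAB.mono_left subset_union_left).mono_right subset_union_left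
  have dAB : Disjoint A (a ⁻¹' B) :=
    (haAB.mono_left subset_union_left).mono_right subset_union_right
  have dBA : Disjoint B (a ⁻¹' A) :=
    (haAB.mono_left subset_union_right).mono_right subset_union_left
  have dBB : Disjoint B (a ⁻¹' B) :=
    (haAB.mono_left subset_union_right).mono_right subset_union_right
  have dAB' : Disjoint (a ⁻¹' A) (a ⁻¹' B) := hAB.preimage a
  have z : ∀ {m : Measure UnitAddCircle} {C D : Set UnitAddCircle}, m Cᶜ = 0 → Disjoint D C →
      m D = 0 := fun hC hD => measure_mono_null hD.subset_compl_right hC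
  refine ⟨?_, ?_⟩
  · unfold Stat4
    rw [f1, f2, f3, f4, hsum]
    ext s hs
    have h3 : (3 : ℝ≥0∞)⁻¹ + 3⁻¹ + 3⁻¹ = 1 := ENNReal.inv_three_add_inv_three
    simp only [Measure.add_apply, Measure.smul_apply, smul_eq_mul]
    generalize P s = p
    generalize M s = m
    generalize P' s = p'
    generalize M' s = m'
    generalize (3 : ℝ≥0∞)⁻¹ = c at h3
    calc _ = (3 + (c + c + c)) * (p + m + (p' + m')) := by ring
      _ = _ := by rw [h3]; norm_num
  · rw [logRN_of hν T hB (m := M) (r := P + (P' + M')) ?_ cM ?_ f1 mM,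
      logRN_of hν T⁻¹ hA (m := P) (r := M + (P' + M')) ?_ cP ?_ (by rwa [inv_inv]) mP,
      logRN_of hν (a * T * a) hB' (m := M') (r := P' + (P + M)) ?_ cM' ?_ f3 mM',
      logRN_of hν (a * T * a)⁻¹ hA' (m := P') (r := M' + (P + M)) ?_ cP' ?_ (by rwa [inv_inv]) mP']
    · ring
    · rw [hsum']
      abel
    · simp only [Measure.add_apply]
      rw [z cM' dAB', z cP dAA.symm, z cM dBA.symm]
      simp
    · rw [hsum']
      abel
    · simp only [Measure.add_apply]
      rw [z cP' dAB'.symm, z cP dAB.symm, z cM dBB.symm]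
      simp
    · rw [hsum]
      abel
    · simp only [Measure.add_apply]
      rw [z cM hAB, z cP' dAA, z cM' dAB]
      simp
    · rw [hsum]
      abel
    · simp only [Measure.add_apply]
      rw [z cP hAB.symm, z cP' dBA, z cM' dBB]
      simp

end

end Pool.Agent.ELM
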