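import Pool.Agent.ELM.Conv
import Pool.Agent.ELM.Glue

/-!
# ELM: the law of the limit of the branches, row ETA

The recursion for `eta`, the stationary measure `nu` has no atoms and is quasi-invariant.
-/

set_option autoImplicit false

namespace Pool.Agent.ELM

open Filter MeasureTheory Topology Set
open scoped ENNReal

namespace Fam

variable (F : Fam)

theorem a_meas82 (t : Par) : Measurable (F.a t) := (F.aH t).continuous.measurable

theorem a_cont82 (t : Par) : Continuous (F.a t) := (F.aH t).continuous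

theorem rot_cont82 (k : ℤ) : Continuous (F.rot k) := continuous_id.add continuous_const

theorem rot_meas82 (k : ℤ) : Measurable (F.rot k) := (F.rot_cont82 k).measurable

theorem br_cont82 (t : Par) (k : ℤ) : Continuous (F.br t k) := (F.a_cont82 t).add continuous_const

theorem br_meas82 (t : Par) (k : ℤ) : Measurable (F.br t k) := (F.br_cont82 t k).measurable

theorem br_eq82 (t : Par) (k : ℤ) (x : Ci) : F.br t k x = F.rot k (F.a t x) := rfl

theorem rot_rot82 (k l : ℤ) (x : Ci) : F.rot k (F.rot l x) = F.rot (l + k) x := by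
  show x + ((l * F.θ : ℝ) : Ci) + ((k * F.θ : ℝ) : Ci) = x + ((((l + k : ℤ) : ℝ) * F.θ : ℝ) : Ci)
  rw [add_assoc, ← AddCircle.coe_add, ← add_mul]
  push_cast
  rfl

theorem rot_zero82 (x : Ci) : F.rot 0 x = x := by
  unfold Fam.rot
  simp

theorem coe_mulH (t : Par) (k : ℤ) :
    ⇑(Pool.Agent.ELM.rot F.θ ^ k * F.aH t : Homeo) = F.br t k := by
  funext x
  show (Pool.Agent.ELM.rot F.θ ^ k : Homeo) (F.a t x) = F.br t k x
  rw [rot_zpow, rot_apply]
  unfold Fam.br
  exact add_comm _ _

theorem aH_mul (t : Par) : F.aH t * F.aH t = 1 := by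
  ext x
  exact F.inv t x

theorem nu_glue (t : Par) : F.nu t = glue (F.aH t) (F.eta t) := rfl

instance eta_prob (t : Par) : IsProbabilityMeasure (F.eta t) :=
  Measure.isProbabilityMeasure_map (F.xi_meas t).aemeasurable

instance nu_prob (t : Par) : IsProbabilityMeasure (F.nu t) := by
  rw [F.nu_glue t]
  exact isProbabilityMeasure_glue (F.eta_prob t)

/-- almost sure properties of `scons k u` -/
theorem ae_scons82 {p : (ℕ → ℤ) → Prop} (h : ∀ᵐ u ∂PP, p u) (k : ℤ) (hk : k ≠ 0) :
    ∀ᵐ u ∂PP, p (scons k u) := by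
  obtain ⟨N, hN, hNm, hN0⟩ := exists_measurable_superset_of_null h
  have h1 : (kap.toMeasure.prod PP) ((fun p : ℤ × (ℕ → ℤ) => scons p.1 p.2) ⁻¹' N) = 0 := by
    rw [scons_mp.measure_preimage hNm.nullMeasurableSet, hN0]
  rw [Measure.prod_apply (scons_measurable hNm), lintegral_countable', ENNReal.tsum_eq_zero] at h1
  have h2 := h1 k
  rw [mul_eq_zero, kap_single] at h2
  have h3 : kapf k ≠ 0 := by
    unfold kapf
    rw [if_neg hk]
    exact pow_ne_zero _ (by simp)
  refine measure_mono_null ?_ (h2.resolve_right h3)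
  intro u hu
  exact hN hu

theorem eta_apply (t : Par) {s : Set Ci} (hs : MeasurableSet s) :
    F.eta t s = ∑' k : ℤ, kapf k * (F.eta t).map (F.br t k) s := by
  have hx : Measurable (F.xi t) := F.xi_meas t
  unfold Fam.eta
  rw [Measure.map_apply hx hs, ← scons_mp.measure_preimage (hx hs).nullMeasurableSet,
    Measure.prod_apply (scons_measurable (hx hs)), lintegral_countable']
  refine tsum_congr fun k => ?_
  rw [kap_single, mul_comm, Measure.map_apply (F.br_meas82 t k) hs,
    Measure.map_apply hx (F.br_meas82 t k hs)]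
  congr 1
  refine measure_congr ?_
  filter_upwards [F.conv_ae t] with u hu
  show (F.xi t (scons k u) ∈ s) = (F.br t k (F.xi t u) ∈ s)
  rw [F.xi_scons t k u hu]

/-- the recursion -/
theorem eta_rec (t : Par) :
    F.eta t = Measure.sum fun k : ℤ => kapf k • (F.eta t).map (F.br t k) := by
  ext s hs
  rw [Measure.sum_apply _ hs, F.eta_apply t hs]
  rfl

theorem eta_rec' (t : Par) : F.eta t = Measure.sum fun k : ℤ =>
    kapf k • (F.eta t).map (Pool.Agent.ELM.rot F.θ ^ k * F.aH t : Homeo) := by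
  conv_lhs => rw [F.eta_rec t]
  congr 1
  funext k
  rw [F.coe_mulH t k]

theorem rot_inj82 {k l : ℤ} {x : Ci} (h : F.rot k x = F.rot l x) : k = l := by
  unfold Fam.rot at h
  have h1 : ((k * F.θ : ℝ) : Ci) = ((l * F.θ : ℝ) : Ci) := add_left_cancel h
  have h2 : ((k * F.θ - l * F.θ : ℝ) : Ci) = 0 := by
    rw [AddCircle.coe_sub, h1, sub_self]
  obtain ⟨n, hn⟩ := (AddCircle.coe_eq_zero_iff (1 : ℝ)).1 h2
  by_contra hkl
  have h3 : ((k - l : ℤ) : ℝ) * F.θ = (n : ℤ) := by
    push_cast
    rw [sub_mul, ← hn]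
    simp
  have h4 : Irrational (((k - l : ℤ) : ℝ) * F.θ) := F.irr.intCast_mul (sub_ne_zero.2 hkl)
  rw [h3] at h4
  exact h4.ne_int n rfl

theorem kapf_ne82 {k : ℤ} (hk : k ≠ 0) : kapf k ≠ 0 := by
  unfold kapf
  rw [if_neg hk]
  exact pow_ne_zero _ (by simp)

theorem map_br_single82 (t : Par) (k : ℤ) (y : Ci) :
    (F.eta t).map (F.br t k) {y} = F.eta t {F.a t (F.rot (-k) y)} := by
  rw [Measure.map_apply (F.br_meas82 t k) (measurableSet_singleton y)]
  congr 1
  ext x
  rw [mem_preimage, mem_singleton_iff, mem_singleton_iff, F.br_eq82]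
  constructor
  · intro h
    rw [← h, F.rot_rot82, add_neg_cancel, F.rot_zero82, F.inv]
  · intro h
    rw [h, F.inv, F.rot_rot82, neg_add_cancel, F.rot_zero82]

theorem eta_atom (t : Par) (x : Ci) : F.eta t {x} = 0 := by
  by_contra hx
  have hfin : Set.Finite {y : Ci | F.eta t {x} ≤ F.eta t {y}} := by
    refine Measure.finite_const_le_meas_of_disjoint_iUnion (F.eta t)
      (As := fun y : Ci => ({y} : Set Ci)) (pos_iff_ne_zero.2 hx)
      (fun y => measurableSet_singleton y) ?_ (measure_ne_top _ _)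
    intro y z hyz
    exact disjoint_singleton.2 hyz
  obtain ⟨y, hy, hmax⟩ := Set.exists_max_image {y : Ci | F.eta t {x} ≤ F.eta t {y}}
    (fun y => F.eta t {y}) hfin ⟨x, le_refl (F.eta t {x})⟩
  have hall : ∀ z : Ci, F.eta t {z} ≤ F.eta t {y} := by
    intro z
    by_cases hz : F.eta t {x} ≤ F.eta t {z}
    · exact hmax z hz
    · exact (not_le.1 hz).le.trans hy
  have key : ∀ k : ℤ, k ≠ 0 → F.eta t {F.a t (F.rot (-k) y)} = F.eta t {y} := by
    intro k hk
    by_contra hne
    have hlt : F.eta t {F.a t (F.rot (-k) y)} < F.eta t {y} := lt_of_le_of_ne (hall _) hne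
    have h1 := F.eta_apply t (measurableSet_singleton y)
    simp only [F.map_br_single82 t] at h1
    have h2 : ∑' l : ℤ, kapf l * F.eta t {F.a t (F.rot (-l) y)} <
        ∑' l : ℤ, kapf l * F.eta t {y} := by
      refine ENNReal.tsum_lt_tsum (i := k) ?_ (fun l => ?_) ?_
      · rw [← h1]
        exact measure_ne_top _ _
      · exact mul_le_mul' le_rfl (hall _)
      · refine ENNReal.mul_lt_mul_right (kapf_ne82 hk) ?_ hlt
        unfold kapf
        rw [if_neg hk]
        exact (ENNReal.pow_lt_top (by simp)).ne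
    rw [ENNReal.tsum_mul_right, kapf_sum, one_mul, ← h1] at h2
    exact lt_irrefl _ h2
  refine Set.infinite_of_injective_forall_mem (f := fun n : ℕ =>
    F.a t (F.rot (-((n : ℤ) + 1)) y)) ?_ (fun n => ?_) hfin
  · intro n m hnm
    have h1 : F.rot (-((n : ℤ) + 1)) y = F.rot (-((m : ℤ) + 1)) y := by
      have h2 := congrArg (F.a t) hnm
      simpa only [F.inv] using h2
    have h2 := F.rot_inj82 h1
    omega
  · show F.eta t {x} ≤ F.eta t {F.a t (F.rot (-((n : ℤ) + 1)) y)}
    rw [key _ (by omega)]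
    exact hy

theorem nu_atom (t : Par) (x : Ci) : F.nu t {x} = 0 := by
  have h : (F.a t) ⁻¹' {x} = {F.a t x} := by
    ext y
    constructor
    · intro hy
      rw [mem_singleton_iff, ← (show F.a t y = x from hy), F.inv]
    · intro hy
      rw [mem_preimage, mem_singleton_iff, (show y = F.a t x from hy), F.inv]
  unfold Fam.nu
  rw [Measure.add_apply, Measure.smul_apply, Measure.smul_apply, F.eta_atom,
    Measure.map_apply (F.a_meas82 t) (measurableSet_singleton x), h, F.eta_atom]
  simp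

theorem nu_a (t : Par) : (F.nu t).map (F.a t) = F.nu t := by
  have h : ((F.eta t).map (F.a t)).map (F.a t) = F.eta t := by
    rw [Measure.map_map (F.a_meas82 t) (F.a_meas82 t)]
    have h1 : F.a t ∘ F.a t = id := funext fun x => F.inv t x
    rw [h1, Measure.map_id]
  unfold Fam.nu
  rw [Measure.map_add _ _ (F.a_meas82 t), Measure.map_smul, Measure.map_smul, h, add_comm]

theorem eta_a_rot (t : Par) (k : ℤ) : ((F.eta t).map (F.a t)).map (F.rot k) ≪ F.nu t := by
  rw [Measure.map_map (F.rot_meas82 k) (F.a_meas82 t)]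
  by_cases hk : k = 0
  · subst hk
    have h : F.rot 0 ∘ F.a t = F.a t := funext fun x => F.rot_zero82 _
    rw [h]
    intro s hs
    unfold Fam.nu at hs
    rw [Measure.add_apply, add_eq_zero, Measure.smul_apply, Measure.smul_apply, smul_eq_mul,
      smul_eq_mul, mul_eq_zero, mul_eq_zero] at hs
    exact hs.2.resolve_left (by simp)
  · refine Measure.AbsolutelyContinuous.mk fun s hsm hs => ?_
    have h1 : F.eta t s = 0 := by
      unfold Fam.nu at hs
      rw [Measure.add_apply, add_eq_zero, Measure.smul_apply, Measure.smul_apply, smul_eq_mul,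
        smul_eq_mul, mul_eq_zero, mul_eq_zero] at hs
      exact hs.1.resolve_left (by simp)
    rw [F.eta_apply t hsm, ENNReal.tsum_eq_zero] at h1
    have h2 := h1 k
    rw [mul_eq_zero] at h2
    exact h2.resolve_left (kapf_ne82 hk)

theorem nu_rot (t : Par) (k : ℤ) : (F.nu t).map (F.rot k) ≪ F.nu t := by
  have h1 := F.eta_a_rot t k
  have h2 : (F.eta t).map (F.rot k) ≪ F.nu t := by
    refine Measure.AbsolutelyContinuous.mk fun s hsm hs => ?_
    rw [Measure.map_apply (F.rot_meas82 k) hsm, F.eta_apply t (F.rot_meas82 k hsm),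
      ENNReal.tsum_eq_zero]
    intro l
    have h3 := F.eta_a_rot t (l + k) hs
    rw [Measure.map_apply (F.rot_meas82 _) hsm, Measure.map_apply (F.a_meas82 t)
      (F.rot_meas82 _ hsm)] at h3
    rw [Measure.map_apply (F.br_meas82 t l) (F.rot_meas82 k hsm)]
    have h4 : F.br t l ⁻¹' (F.rot k ⁻¹' s) = F.a t ⁻¹' (F.rot (l + k) ⁻¹' s) := by
      ext x
      rw [mem_preimage, mem_preimage, mem_preimage, mem_preimage, F.br_eq82, F.rot_rot82]
    rw [h4, h3, mul_zero]
  unfold Fam.nu
  rw [Measure.map_add _ _ (F.rot_meas82 k), Measure.map_smul, Measure.map_smul]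
  refine Measure.AbsolutelyContinuous.mk fun s hsm hs => ?_
  rw [Measure.add_apply, Measure.smul_apply, Measure.smul_apply, h1 hs, h2 hs]
  simp

/-- almost sure properties of `x` for `nu` give almost sure properties of `xi u`. -/
theorem ae_xi (t : Par) {p : Ci → Prop} (h : ∀ᵐ x ∂F.nu t, p x) :
    ∀ᵐ u ∂PP, p (F.xi t u) ∧ p (F.a t (F.xi t u)) := by
  have h0 : F.nu t {x | ¬ p x} = 0 := h
  unfold Fam.nu at h0
  rw [Measure.add_apply, add_eq_zero, Measure.smul_apply, Measure.smul_apply, smul_eq_mul,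
    smul_eq_mul, mul_eq_zero, mul_eq_zero] at h0
  have h1 : ∀ᵐ x ∂F.eta t, p x := h0.1.resolve_left (by simp)
  have h2 : ∀ᵐ x ∂(F.eta t).map (F.a t), p x := h0.2.resolve_left (by simp)
  have h3 : ∀ᵐ u ∂PP, p (F.xi t u) := ae_of_ae_map (F.xi_meas t).aemeasurable h1
  have h4 : ∀ᵐ x ∂F.eta t, p (F.a t x) := ae_of_ae_map (F.a_meas82 t).aemeasurable h2
  have h5 : ∀ᵐ u ∂PP, p (F.a t (F.xi t u)) := ae_of_ae_map (F.xi_meas t).aemeasurable h4
  exact h3.and h5

end Fam

end Pool.Agent.ELM
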