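import Pool.Agent.ELM.OfLift
import Pool.Agent.ELM.Model

/-!
# ELM, row FAM: the base density and its primitive
-/

set_option autoImplicit false
set_option linter.unusedVariables false

namespace Pool.Agent.ELM.FamC

open Filter MeasureTheory Topology Set

/-- the parameters of the construction -/
structure Pm (d e : ℝ) : Prop where
  d0 : 0 < d
  d1 : d ≤ 1 / 8
  e0 : 0 < e
  e1 : 48 * e ≤ d

/-- the base density on the circle -/
noncomputable def w0 (d e : ℝ) (x : Ci) : ℝ := max e (1 - ‖x‖ / d)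

variable {d e : ℝ}

theorem w0_cont (d e : ℝ) : Continuous (w0 d e) := by
  unfold w0
  fun_prop

theorem w0_ge (x : Ci) : e ≤ w0 d e x := le_max_left _ _

theorem w0_pos (h : Pm d e) (x : Ci) : 0 < w0 d e x := h.e0.trans_le (w0_ge x)

theorem w0_le (h : Pm d e) (x : Ci) : w0 d e x ≤ 1 := by
  unfold w0
  apply max_le
  · linarith [h.e1, h.d1, h.e0]
  · have := div_nonneg (norm_nonneg x) h.d0.le
    linarith

theorem w0_out (h : Pm d e) {x : Ci} (hx : d ≤ ‖x‖) : w0 d e x = e := by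
  unfold w0
  apply max_eq_left
  have : 1 ≤ ‖x‖ / d := by rwa [le_div_iff₀ h.d0, one_mul]
  linarith [h.e0]

theorem w0_in (h : Pm d e) {x : Ci} (hx : ‖x‖ ≤ d / 2) : 1 / 2 ≤ w0 d e x := by
  unfold w0
  apply le_max_of_le_right
  have : ‖x‖ / d ≤ 1 / 2 := by
    rw [div_le_iff₀ h.d0]
    linarith
  linarith

theorem w0_lip (h : Pm d e) (x y : Ci) : |w0 d e x - w0 d e y| ≤ d⁻¹ * ‖x - y‖ := by
  unfold w0
  have h1 := abs_max_sub_max_le_max e (1 - ‖x‖ / d) e (1 - ‖y‖ / d)
  rw [sub_self, abs_zero, max_eq_right (a := (0:ℝ)) (abs_nonneg _)] at h1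
  refine h1.trans ?_
  have e1 : (1 - ‖x‖ / d) - (1 - ‖y‖ / d) = -(d⁻¹ * (‖x‖ - ‖y‖)) := by
    field_simp
    ring
  rw [e1, abs_neg, abs_mul, abs_of_pos (inv_pos.2 h.d0)]
  exact mul_le_mul_of_nonneg_left (abs_norm_sub_norm_le x y) (inv_pos.2 h.d0).le

/-! ### norms -/

theorem norm_small {s : ℝ} (hs : |s| ≤ 1 / 2) : ‖(s : Ci)‖ = |s| := by
  rw [AddCircle.norm_coe_eq_abs_iff (1 : ℝ) one_ne_zero, abs_one]
  exact hs

theorem norm_coe_le (s : ℝ) : ‖(s : Ci)‖ ≤ |s| := by
  rw [UnitAddCircle.norm_eq]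
  have := round_le s 0
  simpa using this

theorem coe_sub_one (s : ℝ) : ((s - 1 : ℝ) : Ci) = (s : Ci) := by
  rw [coe_eq_coe_iff']
  exact ⟨-1, by push_cast; ring⟩

theorem coe_add_one (s : ℝ) : ((s + 1 : ℝ) : Ci) = (s : Ci) := by
  rw [coe_eq_coe_iff']
  exact ⟨1, by push_cast; ring⟩

theorem norm_out (h : Pm d e) {s : ℝ} (h1 : d ≤ s) (h2 : s ≤ 1 - d) : d ≤ ‖(s : Ci)‖ := by
  have hd := h.d0
  rcases le_total s (1 / 2) with h3 | h3
  · rw [norm_small (by rw [abs_of_nonneg (by linarith)]; exact h3), abs_of_nonneg (by linarith)]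
    exact h1
  · rw [← coe_sub_one, norm_small (by rw [abs_of_nonpos (by linarith)]; linarith),
      abs_of_nonpos (by linarith)]
    linarith

theorem exists_out (h : Pm d e) {x : Ci} (hx : d ≤ ‖x‖) : ∃ s : ℝ, (s : Ci) = x ∧ d ≤ s ∧ s ≤ 1 - d := by
  have h1 := rep_mem x
  have h2 := abs_rep x
  have hd := h.d1
  rcases le_total 0 (rep x) with h3 | h3
  · rw [abs_of_nonneg h3] at h2
    exact ⟨rep x, coe_rep x, by linarith, by linarith [h1.2]⟩
  · rw [abs_of_nonpos h3] at h2
    refine ⟨rep x + 1, ?_, by linarith [h1.1], by linarith⟩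
    rw [coe_add_one, coe_rep]

/-! ### the primitive -/

/-- the base density on the line -/
noncomputable def f0 (d e : ℝ) (s : ℝ) : ℝ := w0 d e (s : Ci)

theorem f0_cont (d e : ℝ) : Continuous (f0 d e) := (w0_cont d e).comp (AddCircle.continuous_mk' 1)

theorem f0_per (d e : ℝ) : Function.Periodic (f0 d e) 1 := by
  intro s
  unfold f0
  rw [coe_add_one]

theorem f0_int (d e : ℝ) (a b : ℝ) : IntervalIntegrable (f0 d e) volume a b :=
  (f0_cont d e).intervalIntegrable a b

/-- the primitive -/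
noncomputable def G (d e : ℝ) (x : ℝ) : ℝ := ∫ s in (0:ℝ)..x, f0 d e s

/-- the total mass -/
noncomputable def Z (d e : ℝ) : ℝ := G d e 1

theorem G_deriv (d e x : ℝ) : HasDerivAt (G d e) (f0 d e x) x :=
  ((f0_cont d e).integral_hasStrictDerivAt 0 x).hasDerivAt

theorem G_zero (d e : ℝ) : G d e 0 = 0 := by
  unfold G
  simp

theorem G_sub (d e x y : ℝ) : G d e y - G d e x = ∫ s in x..y, f0 d e s := by
  unfold G
  rw [intervalIntegral.integral_interval_sub_left (f0_int d e 0 y) (f0_int d e 0 x)]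

theorem G_add_one (d e x : ℝ) : G d e (x + 1) = G d e x + Z d e := by
  have h1 := (f0_per d e).intervalIntegral_add_eq x 0
  rw [zero_add] at h1
  have h2 := G_sub d e x (x + 1)
  rw [h1] at h2
  unfold Z
  have h3 := G_sub d e 0 1
  rw [G_zero, sub_zero] at h3
  rw [h3]
  linarith

theorem G_neg (d e x : ℝ) : G d e (-x) = - G d e x := by
  unfold G
  have h1 := intervalIntegral.integral_comp_neg (a := 0) (b := x) (f0 d e)
  have h2 : ∀ s, f0 d e (-s) = f0 d e s := by
    intro s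
    unfold f0 w0
    rw [AddCircle.coe_neg, norm_neg]
  simp only [h2, neg_zero] at h1
  rw [intervalIntegral.integral_symm, h1]

theorem G_half (d e : ℝ) : G d e (1 / 2) = Z d e / 2 := by
  have h1 := G_add_one d e (-(1 / 2))
  rw [G_neg] at h1
  have h2 : (-(1 / 2) + 1 : ℝ) = 1 / 2 := by norm_num
  rw [h2] at h1
  linarith

theorem G_le {x y M : ℝ} (hxy : x ≤ y) (hM : ∀ s ∈ Icc x y, f0 d e s ≤ M) :
    G d e y - G d e x ≤ M * (y - x) := by
  rw [G_sub]
  have h1 := intervalIntegral.integral_mono_on (μ := volume) hxy (f0_int d e x y)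
    (intervalIntegrable_const (c := M)) hM
  rw [intervalIntegral.integral_const, smul_eq_mul] at h1
  linarith

theorem G_ge {x y m : ℝ} (hxy : x ≤ y) (hm : ∀ s ∈ Icc x y, m ≤ f0 d e s) :
    m * (y - x) ≤ G d e y - G d e x := by
  rw [G_sub]
  have h1 := intervalIntegral.integral_mono_on (μ := volume) hxy
    (intervalIntegrable_const (c := m)) (f0_int d e x y) hm
  rw [intervalIntegral.integral_const, smul_eq_mul] at h1
  linarith

theorem G_mono (h : Pm d e) {x y : ℝ} (hxy : x ≤ y) : G d e x ≤ G d e y := by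
  have := G_ge (d := d) (e := e) (m := 0) hxy (fun s _ => (w0_pos h _).le)
  linarith

theorem G_d2 (h : Pm d e) : d / 4 ≤ G d e (d / 2) := by
  have hd := h.d0
  have := G_ge (d := d) (e := e) (m := 1 / 2) (x := 0) (y := d / 2) (by linarith) (fun s hs =>
    w0_in h (by
      rw [norm_small (by rw [abs_of_nonneg hs.1]; linarith [hs.2, h.d1]), abs_of_nonneg hs.1]
      exact hs.2))
  rw [G_zero] at this
  linarith

theorem Z_ge (h : Pm d e) : d / 4 ≤ Z d e :=
  (G_d2 h).trans (G_mono h (by linarith [h.d1]))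

theorem Z_pos (h : Pm d e) : 0 < Z d e := by
  have := Z_ge h
  linarith [h.d0]

theorem Z_le (h : Pm d e) : Z d e ≤ 3 * d := by
  have hd := h.d0
  have hd1 := h.d1
  have h1 := G_le (d := d) (e := e) (M := 1) (x := 0) (y := d) hd.le (fun s _ => w0_le h _)
  have h2 := G_le (d := d) (e := e) (M := e) (x := d) (y := 1 - d) (by linarith) (fun s hs =>
    (w0_out h (norm_out h hs.1 hs.2)).le)
  have h3 := G_le (d := d) (e := e) (M := 1) (x := 1 - d) (y := 1) (by linarith) (fun s _ => w0_le h _)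
  rw [G_zero] at h1
  have he := h.e0
  have he1 := h.e1
  unfold Z
  nlinarith

theorem G_mid (h : Pm d e) {x : ℝ} (h1 : d ≤ x) (h2 : x ≤ 1 - d) :
    |G d e x / Z d e - 1 / 2| ≤ 1 / 24 := by
  have hZ := Z_pos h
  have hd := h.d0
  have key : |G d e x - G d e (1 / 2)| ≤ e / 2 := by
    have he := h.e0
    rcases le_total x (1 / 2) with h3 | h3
    · have h4 := G_le (d := d) (e := e) (M := e) h3 (fun s hs =>
        (w0_out h (norm_out h (h1.trans hs.1) (by linarith [hs.2, h.d1]))).le)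
      have h5 := G_mono h h3
      rw [abs_of_nonpos (by linarith)]
      nlinarith
    · have h4 := G_le (d := d) (e := e) (M := e) h3 (fun s hs =>
        (w0_out h (norm_out h (by linarith [hs.1, h.d1]) (hs.2.trans h2))).le)
      have h5 := G_mono h h3
      rw [abs_of_nonneg (by linarith)]
      nlinarith
  rw [G_half] at key
  have e1 : G d e x / Z d e - 1 / 2 = (G d e x - Z d e / 2) / Z d e := by field_simp
  rw [e1, abs_div, abs_of_pos hZ, div_le_iff₀ hZ]
  have := Z_ge h
  have := h.e1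
  linarith

theorem G_near (h : Pm d e) : 1 / 12 ≤ G d e (d / 2) / Z d e := by
  rw [le_div_iff₀ (Z_pos h)]
  have := Z_le h
  have := G_d2 h
  linarith

end Pool.Agent.ELM.FamC
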