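import Pool.Agent.ELM.FamA

/-!
# ELM, row FAM: the perturbations
-/

set_option autoImplicit false
set_option linter.unusedVariables false

namespace Pool.Agent.ELM.FamC

open Filter MeasureTheory Topology Set

/-- the frequencies -/
noncomputable def om (i : ℕ) : ℝ := 2 * Real.pi * ((i / 2 + 1 : ℕ) : ℝ)

/-- the phases -/
noncomputable def ph (i : ℕ) : ℝ := if i % 2 = 0 then 0 else Real.pi / 2

theorem om_ge (i : ℕ) : 1 ≤ om i := by
  unfold om
  have h1 := Real.pi_gt_three
  have h2 : (1:ℝ) ≤ ((i / 2 + 1 : ℕ) : ℝ) := by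
    exact_mod_cast Nat.le_add_left 1 (i / 2)
  nlinarith

theorem om_pos (i : ℕ) : 0 < om i := one_pos.trans_le (om_ge i)

/-- the coefficients -/
noncomputable def cc (c : ℝ) (i : ℕ) : ℝ := c / 2 / 2 ^ i / om i ^ 2

/-- the majorants -/
noncomputable def uu (c : ℝ) (i : ℕ) : ℝ := c / 2 / 2 ^ i

theorem uu_summable (c : ℝ) : Summable (uu c) := summable_geometric_two' c

theorem uu_tsum (c : ℝ) : ∑' i, uu c i = c := tsum_geometric_two' c

variable {c : ℝ}

theorem uu_nonneg (hc : 0 ≤ c) (i : ℕ) : 0 ≤ uu c i := by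
  unfold uu; positivity

theorem cc_nonneg (hc : 0 ≤ c) (i : ℕ) : 0 ≤ cc c i := by
  unfold cc; positivity

theorem cc_pos (hc : 0 < c) (i : ℕ) : 0 < cc c i := by
  have := om_pos i
  unfold cc; positivity

theorem cc_om2 (i : ℕ) : cc c i * om i ^ 2 = uu c i := by
  have := (om_pos i).ne'
  unfold cc uu
  field_simp

theorem cc_om (hc : 0 ≤ c) (i : ℕ) : cc c i * om i ≤ uu c i := by
  rw [← cc_om2 (c := c) i]
  have := om_ge i
  apply mul_le_mul_of_nonneg_left _ (cc_nonneg hc i)
  nlinarith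

theorem cc_le (hc : 0 ≤ c) (i : ℕ) : cc c i ≤ uu c i := by
  refine le_trans ?_ (cc_om hc i)
  have := om_ge i
  have h2 := cc_nonneg hc i
  nlinarith

/-- the directions on the line -/
noncomputable def fr (c : ℝ) (i : ℕ) (x : ℝ) : ℝ := cc c i * Real.cos (om i * x - ph i)

/-- their derivatives -/
noncomputable def fr' (c : ℝ) (i : ℕ) (x : ℝ) : ℝ := -(cc c i * om i * Real.sin (om i * x - ph i))

theorem fr_cont (c : ℝ) (i : ℕ) : Continuous (fr c i) := by unfold fr; fun_prop

theorem fr'_cont (c : ℝ) (i : ℕ) : Continuous (fr' c i) := by unfold fr'; fun_prop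

theorem arg_per (i : ℕ) (x : ℝ) :
    om i * (x + 1) - ph i = om i * x - ph i + ((i / 2 + 1 : ℕ) : ℝ) * (2 * Real.pi) := by
  unfold om; ring

theorem fr_per (c : ℝ) (i : ℕ) : Function.Periodic (fr c i) 1 := by
  intro x
  unfold fr
  rw [arg_per, Real.cos_add_nat_mul_two_pi]

theorem fr'_per (c : ℝ) (i : ℕ) : Function.Periodic (fr' c i) 1 := by
  intro x
  unfold fr'
  rw [arg_per, Real.sin_add_nat_mul_two_pi]

theorem fr_deriv (c : ℝ) (i : ℕ) (x : ℝ) : HasDerivAt (fr c i) (fr' c i x) x := by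
  have h1 : HasDerivAt (fun x : ℝ => om i * x - ph i) (om i) x := by
    simpa using ((hasDerivAt_id x).const_mul (om i)).sub_const (ph i)
  have h2 := h1.cos.const_mul (cc c i)
  refine h2.congr_deriv ?_
  unfold fr'
  ring

theorem fr_abs (hc : 0 ≤ c) (i : ℕ) (x : ℝ) : |fr c i x| ≤ uu c i := by
  unfold fr
  rw [abs_mul, abs_of_nonneg (cc_nonneg hc i)]
  calc cc c i * |Real.cos (om i * x - ph i)| ≤ cc c i * 1 :=
        mul_le_mul_of_nonneg_left (Real.abs_cos_le_one _) (cc_nonneg hc i)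
    _ ≤ uu c i := by rw [mul_one]; exact cc_le hc i

theorem fr'_abs (hc : 0 ≤ c) (i : ℕ) (x : ℝ) : |fr' c i x| ≤ uu c i := by
  unfold fr'
  have h1 := mul_nonneg (cc_nonneg hc i) (om_pos i).le
  rw [abs_neg, abs_mul, abs_of_nonneg h1]
  calc cc c i * om i * |Real.sin (om i * x - ph i)| ≤ cc c i * om i * 1 :=
        mul_le_mul_of_nonneg_left (Real.abs_sin_le_one _) h1
    _ ≤ uu c i := by rw [mul_one]; exact cc_om hc i

theorem sin_lip (x y : ℝ) : |Real.sin x - Real.sin y| ≤ |x - y| := by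
  have h := Real.abs_sin_sub_sin_le x y
  exact h

theorem fr'_lip (hc : 0 ≤ c) (i : ℕ) (x y : ℝ) : |fr' c i x - fr' c i y| ≤ uu c i * |x - y| := by
  have e : fr' c i x - fr' c i y
      = -(cc c i * om i * (Real.sin (om i * x - ph i) - Real.sin (om i * y - ph i))) := by
    unfold fr'; ring
  have h1 := mul_nonneg (cc_nonneg hc i) (om_pos i).le
  rw [e, abs_neg, abs_mul, abs_of_nonneg h1]
  have h2 := sin_lip (om i * x - ph i) (om i * y - ph i)
  have e2 : om i * x - ph i - (om i * y - ph i) = om i * (x - y) := by ring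
  rw [e2, abs_mul, abs_of_pos (om_pos i)] at h2
  calc cc c i * om i * |Real.sin (om i * x - ph i) - Real.sin (om i * y - ph i)|
      ≤ cc c i * om i * (om i * |x - y|) := mul_le_mul_of_nonneg_left h2 h1
    _ = cc c i * om i ^ 2 * |x - y| := by ring
    _ = uu c i * |x - y| := by rw [cc_om2]

/-! ### the sums -/

theorem t_abs (t : Par) (i : ℕ) : 0 ≤ (t i : ℝ) ∧ (t i : ℝ) ≤ 1 := ⟨(t i).2.1, (t i).2.2⟩

theorem term_abs {u : ℝ} (t : Par) (i : ℕ) {x : ℝ} (h : |x| ≤ u) : ‖(t i : ℝ) * x‖ ≤ u := by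
  have h1 := t_abs t i
  rw [Real.norm_eq_abs, abs_mul, abs_of_nonneg h1.1]
  have := abs_nonneg x
  nlinarith

/-- the perturbation of the lift -/
noncomputable def P (c : ℝ) (t : Par) (x : ℝ) : ℝ := ∑' i, (t i : ℝ) * fr c i x

/-- its derivative -/
noncomputable def P' (c : ℝ) (t : Par) (x : ℝ) : ℝ := ∑' i, (t i : ℝ) * fr' c i x

theorem P_summable (hc : 0 ≤ c) (t : Par) (x : ℝ) : Summable fun i => (t i : ℝ) * fr c i x :=
  Summable.of_norm_bounded (uu_summable c) fun i => term_abs t i (fr_abs hc i x)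

theorem P'_summable (hc : 0 ≤ c) (t : Par) (x : ℝ) : Summable fun i => (t i : ℝ) * fr' c i x :=
  Summable.of_norm_bounded (uu_summable c) fun i => term_abs t i (fr'_abs hc i x)

theorem P_deriv (hc : 0 ≤ c) (t : Par) (x : ℝ) : HasDerivAt (P c t) (P' c t x) x :=
  hasDerivAt_tsum (uu_summable c) (fun i y => (fr_deriv c i y).const_mul (t i : ℝ))
    (fun i y => term_abs t i (fr'_abs hc i y)) (P_summable hc t 0) x

theorem P_abs (hc : 0 ≤ c) (t : Par) (x : ℝ) : |P c t x| ≤ c := by
  have := tsum_of_norm_bounded (uu_summable c).hasSum fun i => term_abs t i (fr_abs hc i x)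
  rwa [uu_tsum, Real.norm_eq_abs] at this

theorem P'_abs (hc : 0 ≤ c) (t : Par) (x : ℝ) : |P' c t x| ≤ c := by
  have := tsum_of_norm_bounded (uu_summable c).hasSum fun i => term_abs t i (fr'_abs hc i x)
  rwa [uu_tsum, Real.norm_eq_abs] at this

theorem P'_lip (hc : 0 ≤ c) (t : Par) (x y : ℝ) : |P' c t x - P' c t y| ≤ c * |x - y| := by
  have e : P' c t x - P' c t y = ∑' i, (t i : ℝ) * (fr' c i x - fr' c i y) := by
    unfold P'
    rw [← (P'_summable hc t x).tsum_sub (P'_summable hc t y)]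
    exact tsum_congr fun i => by ring
  have h1 := tsum_of_norm_bounded (g := fun i => uu c i * |x - y|)
    ((uu_summable c).mul_right _).hasSum fun i => term_abs t i (fr'_lip hc i x y)
  rw [tsum_mul_right, uu_tsum, Real.norm_eq_abs] at h1
  rw [e]
  exact h1

theorem P_add_one (c : ℝ) (t : Par) (x : ℝ) : P c t (x + 1) = P c t x := by
  unfold P
  exact tsum_congr fun i => by rw [fr_per c i x]

theorem P'_add_one (c : ℝ) (t : Par) (x : ℝ) : P' c t (x + 1) = P' c t x := by
  unfold P'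
  exact tsum_congr fun i => by rw [fr'_per c i x]

/-- change of one parameter -/
theorem P_change (hc : 0 ≤ c) {t t' : Par} {i : ℕ} (h : ∀ j, j ≠ i → t j = t' j) (x : ℝ) :
    P c t' x = P c t x + ((t' i : ℝ) - t i) * fr c i x := by
  have h1 : P c t' x - P c t x = ∑' j, (((t' j : ℝ) - t j) * fr c j x) := by
    unfold P
    rw [← (P_summable hc t' x).tsum_sub (P_summable hc t x)]
    exact tsum_congr fun i => by ring
  rw [tsum_eq_single i (fun j hj => by rw [h j hj]; simp)] at h1
  linarith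

theorem P'_change (hc : 0 ≤ c) {t t' : Par} {i : ℕ} (h : ∀ j, j ≠ i → t j = t' j) (x : ℝ) :
    P' c t' x = P' c t x + ((t' i : ℝ) - t i) * fr' c i x := by
  have h1 : P' c t' x - P' c t x = ∑' j, (((t' j : ℝ) - t j) * fr' c j x) := by
    unfold P'
    rw [← (P'_summable hc t' x).tsum_sub (P'_summable hc t x)]
    exact tsum_congr fun i => by ring
  rw [tsum_eq_single i (fun j hj => by rw [h j hj]; simp)] at h1
  linarith

/-! ### functions on the circle -/

/-- periodic functions as functions on the circle -/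
noncomputable def mkC (f : ℝ → ℝ) (hf : Continuous f) (hp : Function.Periodic f 1) : C(Ci, ℝ) where
  toFun := hp.lift
  continuous_toFun := by
    have hq : IsQuotientMap ((↑) : ℝ → UnitAddCircle) := QuotientAddGroup.isQuotientMap_mk _
    rw [hq.continuous_iff]
    exact hf

theorem mkC_coe (f : ℝ → ℝ) (hf : Continuous f) (hp : Function.Periodic f 1) (x : ℝ) :
    mkC f hf hp (x : Ci) = f x := rfl

/-- the directions -/
noncomputable def fC (c : ℝ) (i : ℕ) : C(Ci, ℝ) := mkC (fr c i) (fr_cont c i) (fr_per c i)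

/-- their derivatives -/
noncomputable def fC' (c : ℝ) (i : ℕ) : C(Ci, ℝ) := mkC (fr' c i) (fr'_cont c i) (fr'_per c i)

/-- the perturbation on the circle -/
noncomputable def PC (c : ℝ) (t : Par) (x : Ci) : ℝ := ∑' i, (t i : ℝ) * fC c i x

/-- its derivative on the circle -/
noncomputable def PC' (c : ℝ) (t : Par) (x : Ci) : ℝ := ∑' i, (t i : ℝ) * fC' c i x

theorem PC_coe (c : ℝ) (t : Par) (x : ℝ) : PC c t (x : Ci) = P c t x := rfl

theorem PC'_coe (c : ℝ) (t : Par) (x : ℝ) : PC' c t (x : Ci) = P' c t x := rfl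

theorem PC_cont (hc : 0 ≤ c) : Continuous fun p : Par × Ci => PC c p.1 p.2 := by
  refine continuous_tsum (u := uu c) (fun i => ?_) (uu_summable c) (fun i p => ?_)
  · have h1 : Continuous fun p : Par × Ci => ((p.1 i : unitInterval) : ℝ) := by fun_prop
    exact h1.mul ((fC c i).continuous.comp continuous_snd)
  · obtain ⟨a, ha⟩ := exists_coe p.2
    rw [← ha]
    exact term_abs p.1 i (fr_abs hc i a)

theorem PC'_cont (hc : 0 ≤ c) : Continuous fun p : Par × Ci => PC' c p.1 p.2 := by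
  refine continuous_tsum (u := uu c) (fun i => ?_) (uu_summable c) (fun i p => ?_)
  · have h1 : Continuous fun p : Par × Ci => ((p.1 i : unitInterval) : ℝ) := by fun_prop
    exact h1.mul ((fC' c i).continuous.comp continuous_snd)
  · obtain ⟨a, ha⟩ := exists_coe p.2
    rw [← ha]
    exact term_abs p.1 i (fr'_abs hc i a)

end Pool.Agent.ELM.FamC
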