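import Pool.Agent.ELM.FamD

/-!
# ELM, row FAM: the involutions
-/

set_option autoImplicit false
set_option linter.unusedVariables false

namespace Pool.Agent.ELM.FamC

open Filter MeasureTheory Topology Set

variable {d e : ℝ}

/-- the lift of the conjugacy -/
noncomputable def bl (d e : ℝ) (t : Par) (x : ℝ) : ℝ := G d e x / Z d e + P (e / 2) t x

/-- its derivative -/
noncomputable def wl (d e : ℝ) (t : Par) (x : ℝ) : ℝ := f0 d e x / Z d e + P' (e / 2) t x

theorem Z_le1 (h : Pm d e) : Z d e ≤ 1 := by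
  have := Z_le h
  have := h.d1
  linarith

theorem c_nonneg (h : Pm d e) : 0 ≤ e / 2 := by linarith [h.e0]

theorem inv_Z (h : Pm d e) : 1 ≤ 1 / Z d e := by
  rw [le_div_iff₀ (Z_pos h)]
  linarith [Z_le1 h]

theorem e_div_Z (h : Pm d e) : e ≤ e / Z d e := by
  rw [le_div_iff₀ (Z_pos h)]
  have := Z_le1 h
  have := h.e0
  nlinarith

theorem wl_bounds (h : Pm d e) (t : Par) (x : ℝ) :
    f0 d e x / Z d e - e / 2 ≤ wl d e t x ∧ wl d e t x ≤ f0 d e x / Z d e + e / 2 := by
  have := abs_le.1 (P'_abs (c_nonneg h) t x)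
  unfold wl
  constructor <;> linarith

theorem good_line (h : Pm d e) (t : Par) : GoodLine (bl d e t) (wl d e t) (e / (2 * Z d e))
    (2 / Z d e) (d⁻¹ / Z d e + e / 2) where
  add_one x := by
    unfold bl
    rw [G_add_one, P_add_one, add_div, div_self (Z_pos h).ne']
    ring
  hasDeriv x := ((G_deriv d e x).div_const _).add (P_deriv (c_nonneg h) t x)
  pos := by
    have := Z_pos h
    have := h.e0
    positivity
  ge x := by
    have h1 := (wl_bounds h t x).1
    have h2 : e / Z d e ≤ f0 d e x / Z d e :=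
      div_le_div_of_nonneg_right (w0_ge _) (Z_pos h).le
    have h3 := e_div_Z h
    have h4 : e / (2 * Z d e) = e / Z d e / 2 := by
      have := (Z_pos h).ne'
      field_simp
    rw [h4]
    linarith
  le x := by
    have h1 := (wl_bounds h t x).2
    have h2 : f0 d e x / Z d e ≤ 1 / Z d e :=
      div_le_div_of_nonneg_right (w0_le h _) (Z_pos h).le
    have h3 := inv_Z h
    have h4 : 2 / Z d e = 1 / Z d e + 1 / Z d e := by ring
    rw [h4]
    have := h.e1
    have := h.d1
    linarith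
  lip x y := by
    have h1 : |f0 d e x - f0 d e y| ≤ d⁻¹ * |x - y| := by
      refine (w0_lip h _ _).trans ?_
      apply mul_le_mul_of_nonneg_left _ (inv_pos.2 h.d0).le
      rw [← AddCircle.coe_sub]
      exact norm_coe_le _
    have h2 := P'_lip (c_nonneg h) t x y
    have e1 : wl d e t x - wl d e t y = (f0 d e x - f0 d e y) / Z d e
        + (P' (e / 2) t x - P' (e / 2) t y) := by unfold wl; ring
    rw [e1]
    refine (abs_add_le _ _).trans ?_
    rw [abs_div, abs_of_pos (Z_pos h), add_mul]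
    refine add_le_add ?_ h2
    rw [div_mul_eq_mul_div]
    exact div_le_div_of_nonneg_right h1 (Z_pos h).le

/-! ### bounds near `0` and away from `0` -/

theorem bl_mid (h : Pm d e) (t : Par) {x : ℝ} (h1 : d ≤ x) (h2 : x ≤ 1 - d) :
    |bl d e t x - 1 / 2| ≤ 1 / 24 + e / 2 := by
  have h3 := G_mid h h1 h2
  have h4 := P_abs (c_nonneg h) t x
  have e1 : bl d e t x - 1 / 2 = (G d e x / Z d e - 1 / 2) + P (e / 2) t x := by unfold bl; ring
  rw [e1]
  exact (abs_add_le _ _).trans (add_le_add h3 h4)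

theorem bl_right (h : Pm d e) (t : Par) : 1 + (1 / 24 + e / 2) ≤ bl d e t (1 + d / 2) := by
  have h1 := (good_line h t).add_one (d / 2)
  rw [add_comm (d / 2) 1] at h1
  rw [h1]
  have h3 := G_near h
  have h4 := abs_le.1 (P_abs (c_nonneg h) t (d / 2))
  have h5 := h.e1
  have h6 := h.d1
  unfold bl
  linarith

theorem bl_left (h : Pm d e) (t : Par) : bl d e t (1 - d / 2) ≤ 1 - (1 / 24 + e / 2) := by
  have h1 := (good_line h t).add_one (-(d / 2))
  rw [add_comm (-(d / 2)) 1, ← sub_eq_add_neg] at h1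
  rw [h1]
  have h3 := G_near h
  have h4 := abs_le.1 (P_abs (c_nonneg h) t (-(d / 2)))
  have h5 := h.e1
  have h6 := h.d1
  unfold bl
  rw [G_neg, neg_div]
  linarith

theorem wl_in (h : Pm d e) (t : Par) {x : ℝ} (hx : |x - 1| ≤ d / 2) :
    1 / (4 * Z d e) ≤ wl d e t x := by
  have hd := h.d1
  have h1 : 1 / 2 ≤ f0 d e x := by
    refine w0_in h ?_
    rw [← coe_sub_one]
    exact (norm_coe_le _).trans hx
  have h2 := (wl_bounds h t x).1
  have h3 : 1 / 2 / Z d e ≤ f0 d e x / Z d e := div_le_div_of_nonneg_right h1 (Z_pos h).le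
  have h4 := inv_Z h
  have h5 := h.e1
  have h6 : 1 / (4 * Z d e) = 1 / Z d e / 4 := by
    have := (Z_pos h).ne'
    field_simp
  have h7 : 1 / 2 / Z d e = 1 / Z d e / 2 := by ring
  rw [h7] at h3
  rw [h6]
  linarith

theorem wl_out (h : Pm d e) (t : Par) {x : ℝ} (h1 : d ≤ x) (h2 : x ≤ 1 - d) :
    wl d e t x ≤ 2 * e / Z d e := by
  have h3 := (wl_bounds h t x).2
  have h4 : f0 d e x = e := w0_out h (norm_out h h1 h2)
  rw [h4] at h3
  have h5 := e_div_Z h
  have h6 := h.e0
  have h7 : 2 * e / Z d e = e / Z d e + e / Z d e := by ring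
  rw [h7]
  linarith

/-! ### the lift of the involution -/

/-- the lift of the involution -/
noncomputable def al (h : Pm d e) (t : Par) (x : ℝ) : ℝ := (good_line h t).invLine (bl d e t x + 1 / 2)

theorem bl_al (h : Pm d e) (t : Par) (x : ℝ) : bl d e t (al h t x) = bl d e t x + 1 / 2 :=
  (good_line h t).apply_invLine _

/-- the involution -/
noncomputable def aHo (h : Pm d e) (t : Par) : Homeo :=
  (good_line h t).homeo⁻¹ * Pool.Agent.ELM.rot (1 / 2) * (good_line h t).homeo

theorem aHo_apply (h : Pm d e) (t : Par) (x : Ci) : aHo h t x =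
    ((good_line h t).homeo⁻¹ : Homeo) (((1 / 2 : ℝ) : Ci) + (good_line h t).homeo x) := rfl

theorem aHo_coe (h : Pm d e) (t : Par) (x : ℝ) : aHo h t (x : Ci) = ((al h t x : ℝ) : Ci) := by
  rw [aHo_apply, GoodLine.homeo_coe, ← AddCircle.coe_add, GoodLine.homeo_inv_coe]
  unfold al
  rw [add_comm (1 / 2 : ℝ) (bl d e t x)]

theorem aHo_good (h : Pm d e) (t : Par) : IsGood (aHo h t) := by
  have h1 := (good_line h t).isGood
  exact (h1.inv.mul (isGood_rot _)).mul h1

theorem aHo_inv (h : Pm d e) (t : Par) (x : Ci) : aHo h t (aHo h t x) = x := by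
  rw [aHo_apply, aHo_apply]
  have h1 : ∀ y, (good_line h t).homeo (((good_line h t).homeo⁻¹ : Homeo) y) = y := fun y =>
    (good_line h t).homeo.apply_symm_apply y
  have h2 : ∀ y, ((good_line h t).homeo⁻¹ : Homeo) ((good_line h t).homeo y) = y := fun y =>
    (good_line h t).homeo.symm_apply_apply y
  rw [h1, ← add_assoc, ← AddCircle.coe_add]
  have h3 : ((1 / 2 + 1 / 2 : ℝ) : Ci) = 0 := by
    rw [show (1 / 2 + 1 / 2 : ℝ) = 0 + 1 by norm_num, coe_add_one]
    rfl
  rw [h3, zero_add, h2]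

theorem half_ne : ((1 / 2 : ℝ) : Ci) ≠ 0 := by
  intro h0
  have h1 := norm_small (s := 1 / 2) (by rw [abs_of_pos (by norm_num)])
  rw [h0, norm_zero] at h1
  norm_num at h1

theorem aHo_ne (h : Pm d e) (t : Par) (x : Ci) : aHo h t x ≠ x := by
  intro h0
  have h1 : (good_line h t).homeo (aHo h t x) = ((1 / 2 : ℝ) : Ci) + (good_line h t).homeo x := by
    rw [aHo_apply]
    exact (good_line h t).homeo.apply_symm_apply _
  rw [h0] at h1
  exact half_ne (by simpa using h1)

/-! ### joint continuity -/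

theorem homeo_eq (h : Pm d e) (t : Par) (x : Ci) : (good_line h t).homeo x =
    circleMap' (fun s => G d e s / Z d e) x + ((PC (e / 2) t x : ℝ) : Ci) := by
  obtain ⟨a, rfl⟩ := exists_coe x
  rw [GoodLine.homeo_coe, circleMap'_coe (fun s => by
    rw [G_add_one, add_div, div_self (Z_pos h).ne']), PC_coe, ← AddCircle.coe_add]
  rfl

theorem homeo_cont (h : Pm d e) : Continuous fun p : Par × Ci => (good_line h p.1).homeo p.2 := by
  have h0 : (fun p : Par × Ci => (good_line h p.1).homeo p.2) = fun p : Par × Ci =>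
      circleMap' (fun s => G d e s / Z d e) p.2 + ((PC (e / 2) p.1 p.2 : ℝ) : Ci) :=
    funext fun p => homeo_eq h p.1 p.2
  rw [h0]
  have h1 : Continuous (circleMap' fun s => G d e s / Z d e) := by
    refine continuous_circleMap' (fun s => ?_) ?_
    · rw [G_add_one, add_div, div_self (Z_pos h).ne']
    · exact (continuous_iff_continuousAt.2 fun x => (G_deriv d e x).continuousAt).div_const _
  exact (h1.comp continuous_snd).add
    ((AddCircle.continuous_mk' 1).comp (PC_cont (c_nonneg h)))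

/-- the family of the conjugacies as one map -/
noncomputable def Phi (h : Pm d e) : Par × Ci ≃ Par × Ci where
  toFun p := (p.1, (good_line h p.1).homeo p.2)
  invFun p := (p.1, ((good_line h p.1).homeo⁻¹ : Homeo) p.2)
  left_inv p := by
    have : ((good_line h p.1).homeo⁻¹ : Homeo) ((good_line h p.1).homeo p.2) = p.2 :=
      (good_line h p.1).homeo.symm_apply_apply _
    simp only [this]
  right_inv p := by
    have : (good_line h p.1).homeo (((good_line h p.1).homeo⁻¹ : Homeo) p.2) = p.2 :=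
      (good_line h p.1).homeo.apply_symm_apply _
    simp only [this]

theorem Phi_symm_cont (h : Pm d e) : Continuous (Phi h).symm := by
  have h1 : Continuous (Phi h) := continuous_fst.prodMk (homeo_cont h)
  exact h1.continuous_symm_of_equiv_compact_to_t2

theorem aHo_cont (h : Pm d e) : Continuous fun p : Par × Ci => aHo h p.1 p.2 := by
  have h1 : Continuous fun p : Par × Ci =>
      ((Phi h).symm (p.1, ((1 / 2 : ℝ) : Ci) + (good_line h p.1).homeo p.2)).2 :=
    continuous_snd.comp ((Phi_symm_cont h).comp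
      (continuous_fst.prodMk (continuous_const.add (homeo_cont h))))
  exact h1

/-! ### estimates -/

theorem lower_abs (h : Pm d e) (t : Par) (x y : ℝ) :
    e / (2 * Z d e) * |x - y| ≤ |bl d e t x - bl d e t y| := by
  have hg := (good_line h t).goodLift
  rcases le_total x y with hxy | hxy
  · have h1 := hg.lower hxy
    rw [abs_of_nonpos (by linarith), abs_sub_comm]
    refine le_trans (le_of_eq ?_) (h1.trans (le_abs_self _))
    ring
  · have h1 := hg.lower hxy
    rw [abs_of_nonneg (by linarith)]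
    exact h1.trans (le_abs_self _)

theorem ratio (h : Pm d e) : 2 / Z d e / (e / (2 * Z d e)) = 4 / e := by
  have := (Z_pos h).ne'
  have := h.e0.ne'
  field_simp
  norm_num

theorem al_lip (h : Pm d e) (t : Par) (x y : ℝ) : |al h t x - al h t y| ≤ 4 / e * |x - y| := by
  have h1 := lower_abs h t (al h t x) (al h t y)
  rw [bl_al, bl_al] at h1
  have h2 := (good_line h t).goodLift.lipschitz x y
  have h3 : bl d e t x + 1 / 2 - (bl d e t y + 1 / 2) = bl d e t x - bl d e t y := by ring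
  rw [h3] at h1
  have hm := (good_line h t).pos
  rw [← ratio h, div_mul_eq_mul_div, le_div_iff₀ hm]
  linarith

theorem aHo_lip (h : Pm d e) (t : Par) (x y : Ci) :
    ‖aHo h t x - aHo h t y‖ ≤ 4 / e * ‖x - y‖ := by
  obtain ⟨a, b, rfl, rfl, hab⟩ := GoodLift.exists_reps x y
  rw [← dist_eq_norm (a : Ci) (b : Ci), ← hab, aHo_coe, aHo_coe, ← AddCircle.coe_sub]
  exact (norm_coe_le _).trans (al_lip h t a b)

theorem al_mem (h : Pm d e) (t : Par) {x : ℝ} (h1 : d ≤ x) (h2 : x ≤ 1 - d) :
    |al h t x - 1| ≤ d / 2 := by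
  have hs := (good_line h t).goodLift.strictMono
  have h3 := abs_le.1 (bl_mid h t h1 h2)
  have h4 := bl_right h t
  have h5 := bl_left h t
  have h6 := bl_al h t x
  have h7 : al h t x ≤ 1 + d / 2 := hs.le_iff_le.1 (by rw [h6]; linarith)
  have h8 : 1 - d / 2 ≤ al h t x := hs.le_iff_le.1 (by rw [h6]; linarith)
  rw [abs_le]
  constructor <;> linarith

theorem mvt_ge (h : Pm d e) (t : Par) {m x y : ℝ} (hxy : x ≤ y) (hm : ∀ s ∈ Icc x y, m ≤ wl d e t s) :
    m * (y - x) ≤ bl d e t y - bl d e t x := by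
  have hg := good_line h t
  refine (convex_Icc x y).mul_sub_le_image_sub_of_le_deriv
    (fun s _ => (hg.hasDeriv s).continuousAt.continuousWithinAt)
    (fun s _ => (hg.hasDeriv s).differentiableAt.differentiableWithinAt) (fun s hs => ?_)
    x (left_mem_Icc.2 hxy) y (right_mem_Icc.2 hxy) hxy
  rw [(hg.hasDeriv s).deriv]
  exact hm s (interior_subset hs)

theorem mvt_le (h : Pm d e) (t : Par) {M x y : ℝ} (hxy : x ≤ y) (hM : ∀ s ∈ Icc x y, wl d e t s ≤ M) :
    bl d e t y - bl d e t x ≤ M * (y - x) := by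
  have hg := good_line h t
  refine (convex_Icc x y).image_sub_le_mul_sub_of_deriv_le
    (fun s _ => (hg.hasDeriv s).continuousAt.continuousWithinAt)
    (fun s _ => (hg.hasDeriv s).differentiableAt.differentiableWithinAt) (fun s hs => ?_)
    x (left_mem_Icc.2 hxy) y (right_mem_Icc.2 hxy) hxy
  rw [(hg.hasDeriv s).deriv]
  exact hM s (interior_subset hs)

theorem al_contr' (h : Pm d e) (t : Par) {x y : ℝ} (hxy : x ≤ y) (hx : d ≤ x) (hy : y ≤ 1 - d) :
    |al h t x - al h t y| ≤ 8 * e * |x - y| := by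
  have hZ := Z_pos h
  have hs := (good_line h t).goodLift.strictMono
  have h1 := al_mem h t hx (hxy.trans hy)
  have h2 := al_mem h t (hx.trans hxy) hy
  rw [abs_le] at h1 h2
  have hal : al h t x ≤ al h t y := by
    apply hs.le_iff_le.1
    rw [bl_al, bl_al]
    have := hs.monotone hxy
    linarith
  have h3 := mvt_ge h t (m := 1 / (4 * Z d e)) hal (fun s hs => wl_in h t (by
    rw [abs_le]
    constructor
    · linarith [hs.1]
    · linarith [hs.2]))
  rw [bl_al, bl_al] at h3
  have h4 := mvt_le h t (M := 2 * e / Z d e) hxy (fun s hs =>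
    wl_out h t (hx.trans hs.1) (hs.2.trans hy))
  rw [abs_of_nonpos (by linarith), abs_of_nonpos (by linarith)]
  have h5 : 1 / (4 * Z d e) * (al h t y - al h t x) ≤ 2 * e / Z d e * (y - x) := by linarith
  have h6 : 1 / (4 * Z d e) * (al h t y - al h t x) = (al h t y - al h t x) / (4 * Z d e) := by ring
  have h7 : 2 * e / Z d e * (y - x) = 8 * e * (y - x) / (4 * Z d e) := by
    field_simp
    ring
  rw [h6, h7, div_le_div_iff_of_pos_right (by positivity)] at h5
  linarith

theorem al_contr (h : Pm d e) (t : Par) {x y : ℝ} (hx : d ≤ x) (hx' : x ≤ 1 - d) (hy : d ≤ y)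
    (hy' : y ≤ 1 - d) : |al h t x - al h t y| ≤ 8 * e * |x - y| := by
  rcases le_total x y with hxy | hxy
  · exact al_contr' h t hxy hx hy'
  · rw [abs_sub_comm, abs_sub_comm x y]
    exact al_contr' h t hxy hy hx'

theorem rep_dist (h : Pm d e) {x y : ℝ} (hx : d ≤ x) (hx' : x ≤ 1 - d) (hy : d ≤ y)
    (hy' : y ≤ 1 - d) : 2 * d * |x - y| ≤ ‖(x : Ci) - (y : Ci)‖ := by
  have hd := h.d0
  have hd1 := h.d1
  have h1 : |x - y| ≤ 1 - 2 * d := by
    rw [abs_le]; constructor <;> linarith
  have h0 := abs_nonneg (x - y)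
  rw [← AddCircle.coe_sub]
  rcases le_total |x - y| (1 / 2) with h2 | h2
  · rw [norm_small h2]
    nlinarith
  · -- the other arc
    have h3 : ‖((x - y : ℝ) : Ci)‖ = 1 - |x - y| := by
      rcases le_total 0 (x - y) with h4 | h4
      · rw [abs_of_nonneg h4] at h1 h2 ⊢
        rw [← coe_sub_one, norm_small (by rw [abs_of_nonpos (by linarith)]; linarith),
          abs_of_nonpos (by linarith)]
        ring
      · rw [abs_of_nonpos h4] at h1 h2 ⊢
        rw [← coe_add_one, norm_small (by rw [abs_of_nonneg (by linarith)]; linarith),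
          abs_of_nonneg (by linarith)]
        ring
    rw [h3]
    nlinarith

theorem aHo_contr (h : Pm d e) (t : Par) {x y : Ci} (hx : d ≤ ‖x‖) (hy : d ≤ ‖y‖) :
    ‖aHo h t x - aHo h t y‖ ≤ 4 * e / d * ‖x - y‖ := by
  obtain ⟨a, rfl, ha, ha'⟩ := exists_out h hx
  obtain ⟨b, rfl, hb, hb'⟩ := exists_out h hy
  have h1 := al_contr h t ha ha' hb hb'
  have h2 := rep_dist h ha ha' hb hb'
  have hd := h.d0
  have he := h.e0
  rw [aHo_coe, aHo_coe, ← AddCircle.coe_sub]
  refine (norm_coe_le _).trans (h1.trans ?_)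
  have h3 : 4 * e / d * ‖(a : Ci) - (b : Ci)‖ = 8 * e * (‖(a : Ci) - (b : Ci)‖ / (2 * d)) := by
    field_simp
    ring
  rw [h3]
  apply mul_le_mul_of_nonneg_left _ (by positivity)
  rw [le_div_iff₀ (by positivity)]
  linarith

theorem aHo_small (h : Pm d e) (t : Par) {x : Ci} (hx : d ≤ ‖x‖) : ‖aHo h t x‖ ≤ d / 2 := by
  obtain ⟨a, rfl, ha, ha'⟩ := exists_out h hx
  rw [aHo_coe, ← coe_sub_one]
  exact (norm_coe_le _).trans (al_mem h t ha ha')

/-- the density on the circle -/
noncomputable def wC (d e : ℝ) (t : Par) (x : Ci) : ℝ := w0 d e x / Z d e + PC' (e / 2) t x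

theorem wC_coe (t : Par) (x : ℝ) : wC d e t (x : Ci) = wl d e t x := rfl

theorem wC_ge (h : Pm d e) (t : Par) (x : Ci) : e / (2 * Z d e) ≤ wC d e t x := by
  obtain ⟨a, rfl⟩ := exists_coe x
  exact (good_line h t).ge a

theorem wC_le (h : Pm d e) (t : Par) (x : Ci) : wC d e t x ≤ 2 / Z d e := by
  obtain ⟨a, rfl⟩ := exists_coe x
  exact (good_line h t).le a

theorem wC_pos (h : Pm d e) (t : Par) (x : Ci) : 0 < wC d e t x :=
  (good_line h t).pos.trans_le (wC_ge h t x)

theorem wC_cont (h : Pm d e) : Continuous fun p : Par × Ci => wC d e p.1 p.2 := by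
  unfold wC
  exact (((w0_cont d e).comp continuous_snd).div_const _).add (PC'_cont (c_nonneg h))

theorem wC_ratio (h : Pm d e) (t : Par) (x : Ci) : wC d e t x / wC d e t (aHo h t x) ≤ 4 / e := by
  rw [← ratio h]
  exact div_le_div₀ ((wC_pos h t x).le.trans (wC_le h t x)) (wC_le h t x) (good_line h t).pos
    (wC_ge h t _)

theorem wC_ratio' (h : Pm d e) (t : Par) {x : Ci} (hx : d ≤ ‖x‖) :
    wC d e t x / wC d e t (aHo h t x) ≤ 8 * e := by
  obtain ⟨a, rfl, ha, ha'⟩ := exists_out h hx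
  rw [aHo_coe, wC_coe, wC_coe]
  have h1 := wl_out h t ha ha'
  have h2 := wl_in h t (al_mem h t ha ha')
  have hZ := Z_pos h
  have he := h.e0
  have h3 : 2 * e / Z d e / (1 / (4 * Z d e)) = 8 * e := by
    field_simp
    ring
  rw [← h3]
  exact div_le_div₀ (by positivity) h1 (by positivity) h2

/-! ### the expansion -/

theorem quad (h : Pm d e) (t : Par) (u v : ℝ) :
    |bl d e t v - bl d e t u - wl d e t u * (v - u)| ≤ (d⁻¹ / Z d e + e / 2) * (v - u) ^ 2 := by
  have hg := good_line h t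
  set C := d⁻¹ / Z d e + e / 2 with hC
  have hC0 : 0 ≤ C := hg.goodLift.C_nonneg
  have h1 : ∀ s ∈ uIcc u v, HasDerivWithinAt (fun s => bl d e t s - wl d e t u * s)
      (wl d e t s - wl d e t u) (uIcc u v) s := fun s _ => by
    have := (hg.hasDeriv s).sub ((hasDerivAt_id s).const_mul (wl d e t u))
    rw [mul_one] at this
    exact this.hasDerivWithinAt
  have h2 := (convex_uIcc u v).norm_image_sub_le_of_norm_hasDerivWithin_le (𝕜 := ℝ) h1
    (C := C * |v - u|) (fun s hs => by
      rw [Real.norm_eq_abs]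
      refine (hg.lip s u).trans (mul_le_mul_of_nonneg_left ?_ hC0)
      exact abs_sub_left_of_mem_uIcc hs) left_mem_uIcc right_mem_uIcc
  rw [Real.norm_eq_abs, Real.norm_eq_abs] at h2
  have e1 : bl d e t v - wl d e t u * v - (bl d e t u - wl d e t u * u)
      = bl d e t v - bl d e t u - wl d e t u * (v - u) := by ring
  rw [e1] at h2
  refine h2.trans (le_of_eq ?_)
  rw [mul_assoc, abs_mul_abs_self]
  ring

theorem expand_al (h : Pm d e) (i : ℕ) : ∃ C : ℝ, ∀ t t' : Par, (∀ j, j ≠ i → t j = t' j) →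
    ∀ (r ε : ℝ), |al h t' (r + ε) - al h t r - (wl d e t r * ε + ((t' i : ℝ) - t i) *
      (fr (e / 2) i r - fr (e / 2) i (al h t r))) / wl d e t (al h t r)| ≤
        C * (ε ^ 2 + ((t' i : ℝ) - t i) ^ 2) := by
  set m := e / (2 * Z d e) with hm
  set M := 2 / Z d e with hM
  set Cl := d⁻¹ / Z d e + e / 2 with hCl
  set c := e / 2 with hc
  set u := uu c i with hu
  have hmp : 0 < m := (good_line h fun _ => 0).pos
  have hM0 : 0 < M := by have := Z_pos h; rw [hM]; positivity
  have hCl0 : 0 ≤ Cl := (good_line h fun _ => 0).goodLift.C_nonneg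
  have hc0 : 0 ≤ c := c_nonneg h
  have hu0 : 0 ≤ u := uu_nonneg hc0 i
  set K := (M + 2 * u) / m with hK
  have hK0 : 0 ≤ K := by positivity
  refine ⟨(u + u * (1 + 2 * K ^ 2) + Cl * (2 * K ^ 2) + Cl) / m, ?_⟩
  intro t t' htt r ε
  set δ := (t' i : ℝ) - t i with hδ
  set y := al h t r with hy
  set y' := al h t' (r + ε) with hy'
  set A := y' - y with hA
  -- the equation
  have p1 : ∀ x, bl d e t' x = bl d e t x + δ * fr c i x := by
    intro x
    unfold bl
    rw [P_change hc0 htt]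
    ring
  have p2 : ∀ x, wl d e t' x = wl d e t x + δ * fr' c i x := by
    intro x
    unfold wl
    rw [P'_change hc0 htt]
    ring
  have q1 := bl_al h t r
  have q2 := bl_al h t' (r + ε)
  rw [← hy] at q1
  rw [← hy'] at q2
  have E : bl d e t' y' - bl d e t' y = bl d e t' (r + ε) - bl d e t' r + δ * (fr c i r - fr c i y) := by
    rw [q2, p1 y, q1, p1 r]
    ring
  have k1 := quad h t' y y'
  have k2 := quad h t' r (r + ε)
  rw [← hA, ← hCl] at k1
  rw [add_sub_cancel_left, ← hCl] at k2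
  have f1 := fr'_abs hc0 i r
  have f2 := fr'_abs hc0 i y
  have f3 := fr_abs hc0 i r
  have f4 := fr_abs hc0 i y
  rw [← hu] at f1 f2 f3 f4
  -- size of `A`
  have hAb : |A| ≤ K * (|ε| + |δ|) := by
    have l1 := lower_abs h t' y' y
    rw [← hA, ← hm, E] at l1
    have l2 := (good_line h t').goodLift.lipschitz (r + ε) r
    rw [add_sub_cancel_left, ← hM] at l2
    have l3 : |bl d e t' (r + ε) - bl d e t' r + δ * (fr c i r - fr c i y)|
        ≤ M * |ε| + |δ| * (2 * u) := by
      refine (abs_add_le _ _).trans (add_le_add l2 ?_)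
      rw [abs_mul]
      apply mul_le_mul_of_nonneg_left _ (abs_nonneg _)
      have := abs_sub (fr c i r) (fr c i y)
      linarith
    have l4 : m * |A| ≤ M * |ε| + |δ| * (2 * u) := l1.trans l3
    have l5 : M * |ε| + |δ| * (2 * u) ≤ (M + 2 * u) * (|ε| + |δ|) := by
      have := abs_nonneg ε
      have := abs_nonneg δ
      nlinarith [mul_nonneg hM0.le (abs_nonneg δ), mul_nonneg hu0 (abs_nonneg ε)]
    rw [hK, div_mul_eq_mul_div, le_div_iff₀ hmp]
    linarith
  have hA2 : A ^ 2 ≤ 2 * K ^ 2 * (ε ^ 2 + δ ^ 2) := by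
    have h1 : |A| ^ 2 ≤ (K * (|ε| + |δ|)) ^ 2 := pow_le_pow_left₀ (abs_nonneg _) hAb 2
    rw [sq_abs, mul_pow] at h1
    have h2 : (|ε| + |δ|) ^ 2 ≤ 2 * (ε ^ 2 + δ ^ 2) := by
      rw [← sq_abs ε, ← sq_abs δ]
      nlinarith [sq_nonneg (|ε| - |δ|)]
    have h3 : K ^ 2 * (|ε| + |δ|) ^ 2 ≤ K ^ 2 * (2 * (ε ^ 2 + δ ^ 2)) :=
      mul_le_mul_of_nonneg_left h2 (sq_nonneg K)
    linarith
  -- the main estimate
  have hw := (good_line h t).ge y
  rw [← hm] at hw
  have hwp : 0 < wl d e t y := hmp.trans_le hw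
  have main : |wl d e t y * A - (wl d e t r * ε + δ * (fr c i r - fr c i y))|
      ≤ (u + u * (1 + 2 * K ^ 2) + Cl * (2 * K ^ 2) + Cl) * (ε ^ 2 + δ ^ 2) := by
    have e1 : wl d e t y * A - (wl d e t r * ε + δ * (fr c i r - fr c i y))
        = δ * fr' c i r * ε - δ * fr' c i y * A
          - (bl d e t' y' - bl d e t' y - wl d e t' y * A)
          + (bl d e t' (r + ε) - bl d e t' r - wl d e t' r * ε) := by
      rw [p2, p2]
      linear_combination E
    have g1 : |δ * fr' c i r * ε| ≤ u * (ε ^ 2 + δ ^ 2) := by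
      rw [abs_mul, abs_mul]
      have h1 : |δ| * |fr' c i r| * |ε| ≤ |δ| * u * |ε| := by gcongr
      have h2 : |δ| * |ε| ≤ ε ^ 2 + δ ^ 2 := by
        rw [← sq_abs ε, ← sq_abs δ]
        nlinarith [sq_nonneg (|ε| - |δ|), sq_nonneg |ε|, sq_nonneg |δ|]
      nlinarith
    have g2 : |δ * fr' c i y * A| ≤ u * (1 + 2 * K ^ 2) * (ε ^ 2 + δ ^ 2) := by
      rw [abs_mul, abs_mul]
      have h1 : |δ| * |fr' c i y| * |A| ≤ |δ| * u * |A| := by gcongr
      have h2 : |δ| * |A| ≤ δ ^ 2 + A ^ 2 := by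
        rw [← sq_abs A, ← sq_abs δ]
        nlinarith [sq_nonneg (|A| - |δ|), sq_nonneg |A|, sq_nonneg |δ|]
      have h3 : |δ| * |A| ≤ (1 + 2 * K ^ 2) * (ε ^ 2 + δ ^ 2) := by
        nlinarith [sq_nonneg ε]
      nlinarith
    have g3 : |bl d e t' y' - bl d e t' y - wl d e t' y * A| ≤ Cl * (2 * K ^ 2) * (ε ^ 2 + δ ^ 2) := by
      refine k1.trans ?_
      rw [mul_assoc]
      exact mul_le_mul_of_nonneg_left hA2 hCl0
    have g4 : |bl d e t' (r + ε) - bl d e t' r - wl d e t' r * ε| ≤ Cl * (ε ^ 2 + δ ^ 2) := by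
      refine k2.trans (mul_le_mul_of_nonneg_left ?_ hCl0)
      nlinarith [sq_nonneg δ]
    rw [e1]
    refine (abs_add_le _ _).trans ?_
    have g5 := abs_sub (δ * fr' c i r * ε - δ * fr' c i y * A)
      (bl d e t' y' - bl d e t' y - wl d e t' y * A)
    have g6 := abs_sub (δ * fr' c i r * ε) (δ * fr' c i y * A)
    nlinarith
  have e2 : A - (wl d e t r * ε + δ * (fr c i r - fr c i y)) / wl d e t y
      = (wl d e t y * A - (wl d e t r * ε + δ * (fr c i r - fr c i y))) / wl d e t y := by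
    field_simp
  rw [e2, abs_div, abs_of_pos hwp, div_le_iff₀ hwp]
  refine main.trans ?_
  rw [div_mul_eq_mul_div, div_mul_eq_mul_div, le_div_iff₀ hmp]
  apply mul_le_mul_of_nonneg_left hw
  positivity

end Pool.Agent.ELM.FamC
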