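import Pool.Agent.ELM.FamE

/-!
# ELM, row FAM: the family exists
-/

set_option autoImplicit false
set_option linter.unusedVariables false

namespace Pool.Agent.ELM.FamC

open Filter MeasureTheory Topology Set

/-- the smallest rotation angle of the first powers -/
theorem exists_d {θ : ℝ} (hθ : Irrational θ) : ∃ d : ℝ, 0 < d ∧ d ≤ 1 / 8 ∧
    ∀ j : ℤ, j ≠ 0 → |j| < 30 → 3 * d < ‖((j * θ : ℝ) : Ci)‖ := by
  have hpos : ∀ j : ℤ, j ≠ 0 → 0 < ‖((j * θ : ℝ) : Ci)‖ := by
    intro j hj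
    rw [norm_pos_iff]
    intro h0
    rw [AddCircle.coe_eq_zero_iff] at h0
    obtain ⟨m, hm⟩ := h0
    refine (hθ.intCast_mul hj) ⟨m, ?_⟩
    rw [← hm]
    simp
  set S : Finset ℤ := (Finset.Icc (-29) 29).filter fun j => j ≠ 0 with hS
  have hne : S.Nonempty := ⟨1, by simp [hS]⟩
  obtain ⟨j0, hj0, hmin⟩ := S.exists_min_image (fun j : ℤ => ‖((j * θ : ℝ) : Ci)‖) hne
  have h0 : 0 < ‖((j0 * θ : ℝ) : Ci)‖ := hpos j0 (by
    have := (Finset.mem_filter.1 hj0).2
    exact this)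
  refine ⟨min (1 / 8) (‖((j0 * θ : ℝ) : Ci)‖ / 4), by positivity, min_le_left _ _, ?_⟩
  intro j hj hj1
  have h1 := hmin j (by
    rw [hS, Finset.mem_filter, Finset.mem_Icc]
    have := abs_lt.1 hj1
    exact ⟨⟨by omega, by omega⟩, hj⟩)
  have h2 := min_le_right (1 / 8) (‖((j0 * θ : ℝ) : Ci)‖ / 4)
  linarith

theorem exists_q {d : ℝ} (hd : 0 < d) : ∃ q : ℝ, 0 < q ∧ q ≤ 1 / 2 ∧ 16 * q ^ 100 ≤ d := by
  obtain ⟨n, hn⟩ := exists_nat_gt (16 / d)
  have hn0 : (0:ℝ) < n := lt_trans (by positivity) hn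
  refine ⟨1 / ((n:ℝ) + 2), by positivity, ?_, ?_⟩
  · exact one_div_le_one_div_of_le (by norm_num) (by linarith)
  · have h1 : (1 / ((n:ℝ) + 2)) ^ 100 ≤ 1 / ((n:ℝ) + 2) := by
      apply pow_le_of_le_one (by positivity) _ (by norm_num)
      rw [div_le_one (by positivity)]
      linarith
    have h2 : 16 * (1 / ((n:ℝ) + 2)) ≤ d := by
      rw [mul_one_div, div_le_iff₀ (by positivity)]
      rw [div_lt_iff₀ hd] at hn
      nlinarith
    linarith

theorem exists_fam (θ : ℝ) (hθ : Irrational θ) : ∃ F : Fam, F.θ = θ := by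
  obtain ⟨d, hd, hd1, hdθ⟩ := exists_d hθ
  obtain ⟨q, hq, hq1, hq2⟩ := exists_q hd
  set e : ℝ := 4 * q ^ 200 with he
  have hq200 : q ^ 200 = q ^ 100 * q ^ 100 := by rw [← pow_add]
  have hqp : 0 < q ^ 100 := by positivity
  have h : Pm d e := ⟨hd, hd1, by positivity, by
    rw [he, hq200]
    nlinarith⟩
  have r1 : 4 / e = q⁻¹ ^ 200 := by
    rw [he, inv_pow]
    field_simp
  have r2 : 4 * e / d ≤ q ^ 100 := by
    rw [div_le_iff₀ hd, he, hq200]
    nlinarith
  have r3 : 8 * e ≤ q ^ 100 := by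
    rw [he, hq200]
    nlinarith
  have hout : ∀ x : Ci, x ∉ {x : Ci | ‖x‖ < d} → d ≤ ‖x‖ := fun x hx => not_lt.1 hx
  refine ⟨{
    θ := θ
    irr := hθ
    a := fun t x => aHo h t x
    inv := fun t x => aHo_inv h t x
    ne_self := fun t x => aHo_ne h t x
    cont := aHo_cont h
    good := fun t => aHo_good h t
    w := wC d e
    w_pos := fun t x => wC_pos h t x
    w_cont := wC_cont h
    φ := fC (e / 2)
    dense := fun L h1 h2 => dense_dir (by have := h.e0; linarith) L h1 h2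
    expand := ?_
    U := {x : Ci | ‖x‖ < d}
    U_open := isOpen_lt continuous_norm continuous_const
    q := q
    q_pos := hq
    q_le := hq1
    lip := fun t x y => by rw [← r1]; exact aHo_lip h t x y
    contr := fun t x y hx hy => (aHo_contr h t (hout x hx) (hout y hy)).trans
      (mul_le_mul_of_nonneg_right r2 (norm_nonneg _))
    der_le := fun t x => by rw [← r1]; exact wC_ratio h t x
    der_le' := fun t x hx => (wC_ratio' h t (hout x hx)).trans r3
    stay := ?_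
    ret := ?_ }, rfl⟩
  · -- expand
    intro i
    obtain ⟨C, hC⟩ := expand_al h i
    refine ⟨C, fun t t' htt x ε => ?_⟩
    obtain ⟨r, rfl⟩ := exists_coe x
    have h1 := hC t t' htt r ε
    refine le_trans ?_ h1
    rw [← AddCircle.coe_add, aHo_coe, aHo_coe, ← AddCircle.coe_sub, ← AddCircle.coe_sub]
    exact norm_coe_le _
  · -- stay
    intro t x hx k hk hk1 hmem
    have h1 := aHo_small h t (hout x hx)
    have h2 := hdθ k hk (by omega)
    have h3 : ‖aHo h t x + ((k * θ : ℝ) : Ci)‖ < d := hmem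
    have h4 := norm_sub_le (aHo h t x + ((k * θ : ℝ) : Ci)) (aHo h t x)
    rw [add_sub_cancel_left] at h4
    linarith
  · -- ret
    intro x k k' hk hk' h1 h2
    by_contra hne
    have h3 := hdθ (k - k') (sub_ne_zero.2 hne) (by
      rw [abs_lt] at hk hk' ⊢
      omega)
    have h4 : ‖x + ((k * θ : ℝ) : Ci)‖ < d := h1
    have h5 : ‖x + ((k' * θ : ℝ) : Ci)‖ < d := h2
    have h6 := norm_sub_le (x + ((k * θ : ℝ) : Ci)) (x + ((k' * θ : ℝ) : Ci))
    rw [add_sub_add_left_eq_sub, ← AddCircle.coe_sub] at h6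
    have e1 : ((k * θ : ℝ) - k' * θ : ℝ) = ((k - k' : ℤ) : ℝ) * θ := by push_cast; ring
    rw [e1] at h6
    linarith

end Pool.Agent.ELM.FamC

namespace Pool.Agent.ELM

/-- row FAM -/
theorem exists_fam (θ : ℝ) (hθ : Irrational θ) : ∃ F : Fam, F.θ = θ := FamC.exists_fam θ hθ

end Pool.Agent.ELM
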