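import Pool.Agent.ELM.Model

/-! # ELM: the exceptional arc -/

set_option autoImplicit false

namespace Pool.Agent.ELM

theorem norm_zmul_pos {θ : ℝ} (hθ : Irrational θ) {k : ℤ} (hk : k ≠ 0) :
    0 < ‖((k * θ : ℝ) : Ci)‖ := by
  rw [norm_pos_iff]
  intro h
  rw [AddCircle.coe_eq_zero_iff] at h
  obtain ⟨n, hn⟩ := h
  rw [zsmul_eq_mul, mul_one] at hn
  exact (hθ.intCast_mul hk).ne_int n hn.symm

/-- the size of the exceptional arc -/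
theorem exists_arc {θ : ℝ} (hθ : Irrational θ) : ∃ d : ℝ, 0 < d ∧ d < 1 / 8 ∧
    ∀ k : ℤ, k ≠ 0 → |k| < 30 → 3 * d < ‖((k * θ : ℝ) : Ci)‖ := by
  classical
  set s : Finset ℤ := (Finset.Ioo (-30 : ℤ) 30).erase 0 with hs
  have hne : s.Nonempty := ⟨1, by rw [hs]; decide⟩
  obtain ⟨k₀, hk₀, hmin⟩ := s.exists_min_image (fun k : ℤ => ‖((k * θ : ℝ) : Ci)‖) hne
  have hp : 0 < ‖((k₀ * θ : ℝ) : Ci)‖ := norm_zmul_pos hθ (Finset.ne_of_mem_erase hk₀)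
  refine ⟨min (1 / 9) (‖((k₀ * θ : ℝ) : Ci)‖ / 4), lt_min (by norm_num) (by positivity),
    (min_le_left _ _).trans_lt (by norm_num), fun k hk hk' => ?_⟩
  have h1 : k ∈ s := by
    rw [hs, Finset.mem_erase, Finset.mem_Ioo]
    exact ⟨hk, abs_lt.1 hk'⟩
  have h2 := hmin k h1
  have h3 := min_le_right (1 / 9 : ℝ) (‖((k₀ * θ : ℝ) : Ci)‖ / 4)
  linarith

theorem arc_stay {θ d : ℝ} (hd : 0 < d)
    (h : ∀ k : ℤ, k ≠ 0 → |k| < 30 → 3 * d < ‖((k * θ : ℝ) : Ci)‖) {y : Ci} (hy : ‖y‖ ≤ d)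
    (k : ℤ) (hk : k ≠ 0) (hk' : |k| < 15) : y + ((k * θ : ℝ) : Ci) ∉ {x : Ci | ‖x‖ < d} := by
  intro h1
  have h1' : ‖y + ((k * θ : ℝ) : Ci)‖ < d := h1
  have h2 := h k hk (hk'.trans (by norm_num))
  have h3 : ‖((k * θ : ℝ) : Ci)‖ ≤ ‖y + ((k * θ : ℝ) : Ci)‖ + ‖y‖ := by
    have h4 := norm_sub_le (y + ((k * θ : ℝ) : Ci)) y
    rwa [add_sub_cancel_left] at h4
  linarith

theorem arc_ret {θ d : ℝ} (hd : 0 < d)
    (h : ∀ k : ℤ, k ≠ 0 → |k| < 30 → 3 * d < ‖((k * θ : ℝ) : Ci)‖) (x : Ci) (k k' : ℤ)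
    (hk : |k| < 15) (hk' : |k'| < 15) (h1 : x + ((k * θ : ℝ) : Ci) ∈ {x : Ci | ‖x‖ < d})
    (h2 : x + ((k' * θ : ℝ) : Ci) ∈ {x : Ci | ‖x‖ < d}) : k = k' := by
  by_contra hne
  have h1' : ‖x + ((k * θ : ℝ) : Ci)‖ < d := h1
  have h2' : ‖x + ((k' * θ : ℝ) : Ci)‖ < d := h2
  have h3 := h (k - k') (sub_ne_zero.2 hne) (by
    rw [abs_lt] at hk hk' ⊢
    constructor <;> omega)
  have h4 := norm_sub_le (x + ((k * θ : ℝ) : Ci)) (x + ((k' * θ : ℝ) : Ci))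
  have e : x + ((k * θ : ℝ) : Ci) - (x + ((k' * θ : ℝ) : Ci)) =
      (((k - k' : ℤ) * θ : ℝ) : Ci) := by
    rw [add_sub_add_left_eq_sub, ← AddCircle.coe_sub, ← sub_mul]
    push_cast
    rfl
  rw [e] at h4
  linarith

end Pool.Agent.ELM
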