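import Mathlib

/-! # ELM, row FAM: the real-variable core of the expansion of the involutions -/

set_option autoImplicit false

namespace Pool.Agent.ELM

/-- The solution `u'` of `B' u' = B' (s + e) + 1/2`, where `B' = B + δ φ`, in terms of the solution
`u` of `B u = B s + 1/2`. -/
theorem expand_core {B B' w φ : ℝ → ℝ} {c K δ : ℝ} (hc : 0 < c) (hK : 0 ≤ K)
    (hB : ∀ s e, |B (s + e) - B s - w s * e| ≤ K * e ^ 2)
    (hL : ∀ s e, |B (s + e) - B s| ≤ K * |e|)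
    (hm : ∀ s e, c * |e| ≤ |B (s + e) - B s|)
    (hB' : ∀ s, B' s = B s + δ * φ s)
    (hφ : ∀ s e, |φ (s + e) - φ s| ≤ K * |e|) (hφb : ∀ s, |φ s| ≤ K)
    (hw : ∀ s, c ≤ w s)
    {s e u u' : ℝ} (hu : B u = B s + 1 / 2) (hu' : B' u' = B' (s + e) + 1 / 2) :
    |u' - u - (w s * e + δ * (φ s - φ u)) / w u| ≤
      (K * (8 * (K / c) ^ 2 + 3 / 2 + 3 * (K / c)) / c) * (e ^ 2 + δ ^ 2) := by
  obtain ⟨D, hD⟩ : ∃ D, u' = u + D := ⟨u' - u, by ring⟩
  subst hD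
  have hwu : 0 < w u := hc.trans_le (hw u)
  set r := K / c with hr
  have hr0 : 0 ≤ r := by positivity
  -- the size of `D`
  have h1 : B (u + D) - B u = B (s + e) - B s + δ * (φ (s + e) - φ (u + D)) := by
    rw [hB', hB'] at hu'
    linarith
  have h2 : |φ (s + e) - φ (u + D)| ≤ 2 * K := by
    have a1 := hφb (s + e)
    have a2 := hφb (u + D)
    exact (abs_sub _ _).trans (by linarith)
  have h3 : c * |D| ≤ K * |e| + 2 * K * |δ| := by
    refine (hm u D).trans ?_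
    rw [h1]
    refine (abs_add_le _ _).trans (add_le_add (hL s e) ?_)
    rw [abs_mul, mul_comm]
    exact mul_le_mul_of_nonneg_right h2 (abs_nonneg δ)
  have h4 : |D| ≤ r * (|e| + 2 * |δ|) := by
    rw [hr, div_mul_eq_mul_div, le_div_iff₀ hc]
    linarith
  -- the squares
  have hee : |e| ^ 2 = e ^ 2 := sq_abs e
  have hdd : |δ| ^ 2 = δ ^ 2 := sq_abs δ
  have hDD : |D| ^ 2 = D ^ 2 := sq_abs D
  have he0 := abs_nonneg e
  have hd0 := abs_nonneg δ
  have hD0 := abs_nonneg D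
  have h5 : D ^ 2 ≤ 8 * r ^ 2 * (e ^ 2 + δ ^ 2) := by
    rw [← hDD]
    calc |D| ^ 2 ≤ (r * (|e| + 2 * |δ|)) ^ 2 := pow_le_pow_left₀ hD0 h4 2
      _ = r ^ 2 * (|e| + 2 * |δ|) ^ 2 := by ring
      _ ≤ r ^ 2 * (8 * (e ^ 2 + δ ^ 2)) := by
        refine mul_le_mul_of_nonneg_left ?_ (sq_nonneg r)
        nlinarith [sq_nonneg (|e| - 2 * |δ|)]
      _ = 8 * r ^ 2 * (e ^ 2 + δ ^ 2) := by ring
  have h6 : |δ| * |e| ≤ 1 / 2 * (e ^ 2 + δ ^ 2) := by
    nlinarith [sq_nonneg (|e| - |δ|)]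
  have h7 : |δ| * |D| ≤ 3 * r * (e ^ 2 + δ ^ 2) := by
    calc |δ| * |D| ≤ |δ| * (r * (|e| + 2 * |δ|)) := mul_le_mul_of_nonneg_left h4 hd0
      _ = r * (|δ| * |e| + 2 * |δ| ^ 2) := by ring
      _ ≤ r * (3 * (e ^ 2 + δ ^ 2)) := by
        refine mul_le_mul_of_nonneg_left ?_ hr0
        nlinarith [sq_nonneg e]
      _ = 3 * r * (e ^ 2 + δ ^ 2) := by ring
  -- the remainder
  have h8 : w u * D - (w s * e + δ * (φ s - φ u)) =
      -(B (u + D) - B u - w u * D) + (B (s + e) - B s - w s * e) +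
        (δ * (φ (s + e) - φ s) - δ * (φ (u + D) - φ u)) := by
    linear_combination h1
  have h9 : |w u * D - (w s * e + δ * (φ s - φ u))| ≤
      K * (8 * r ^ 2 + 3 / 2 + 3 * r) * (e ^ 2 + δ ^ 2) := by
    rw [h8]
    have b1 := hB u D
    have b2 := hB s e
    have b3 : |δ * (φ (s + e) - φ s)| ≤ K * (|δ| * |e|) := by
      rw [abs_mul]
      calc |δ| * |φ (s + e) - φ s| ≤ |δ| * (K * |e|) := mul_le_mul_of_nonneg_left (hφ s e) hd0
        _ = K * (|δ| * |e|) := by ring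
    have b4 : |δ * (φ (u + D) - φ u)| ≤ K * (|δ| * |D|) := by
      rw [abs_mul]
      calc |δ| * |φ (u + D) - φ u| ≤ |δ| * (K * |D|) := mul_le_mul_of_nonneg_left (hφ u D) hd0
        _ = K * (|δ| * |D|) := by ring
    calc _ ≤ |-(B (u + D) - B u - w u * D)| + |B (s + e) - B s - w s * e| +
          (|δ * (φ (s + e) - φ s)| + |δ * (φ (u + D) - φ u)|) :=
          (abs_add_le _ _).trans (add_le_add (abs_add_le _ _) (abs_sub _ _))
      _ ≤ K * D ^ 2 + K * e ^ 2 + (K * (|δ| * |e|) + K * (|δ| * |D|)) := by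
          rw [abs_neg]
          exact add_le_add (add_le_add b1 b2) (add_le_add b3 b4)
      _ = K * (D ^ 2 + e ^ 2 + |δ| * |e| + |δ| * |D|) := by ring
      _ ≤ K * (8 * r ^ 2 * (e ^ 2 + δ ^ 2) + (e ^ 2 + δ ^ 2) + 1 / 2 * (e ^ 2 + δ ^ 2) +
          3 * r * (e ^ 2 + δ ^ 2)) := by
          refine mul_le_mul_of_nonneg_left ?_ hK
          have := sq_nonneg δ
          linarith
      _ = K * (8 * r ^ 2 + 3 / 2 + 3 * r) * (e ^ 2 + δ ^ 2) := by ring
  have h10 : u + D - u - (w s * e + δ * (φ s - φ u)) / w u =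
      (w u * D - (w s * e + δ * (φ s - φ u))) / w u := by
    field_simp
    ring
  rw [h10, abs_div, abs_of_pos hwu, div_le_iff₀ hwu]
  refine h9.trans ?_
  have h11 : 0 ≤ K * (8 * r ^ 2 + 3 / 2 + 3 * r) * (e ^ 2 + δ ^ 2) := by positivity
  calc K * (8 * r ^ 2 + 3 / 2 + 3 * r) * (e ^ 2 + δ ^ 2) =
        K * (8 * r ^ 2 + 3 / 2 + 3 * r) / c * (e ^ 2 + δ ^ 2) * c := by
        field_simp
    _ ≤ K * (8 * r ^ 2 + 3 / 2 + 3 * r) / c * (e ^ 2 + δ ^ 2) * w u := by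
        refine mul_le_mul_of_nonneg_left (hw u) ?_
        positivity

end Pool.Agent.ELM
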