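import Pool.Agent.ELM.OfLift
import Pool.Agent.ELM.Model

/-!
# ELM, row FAM, analytic version: the base density (a trigonometric polynomial) and its primitive
-/

set_option autoImplicit false
set_option linter.unusedVariables false

namespace Pool.Agent.ELM.Fan

open Filter MeasureTheory Topology Set

/-- the parameters of the construction -/
structure Pm (d e : ℝ) : Prop where
  d0 : 0 < d
  d1 : d ≤ 1 / 8
  e0 : 0 < e
  e1 : 1000 * e ≤ d

/-! ### norms -/

theorem norm_small {s : ℝ} (hs : |s| ≤ 1 / 2) : ‖(s : Ci)‖ = |s| := by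
  rw [AddCircle.norm_coe_eq_abs_iff (1 : ℝ) one_ne_zero, abs_one]
  exact hs

theorem norm_coe_le (s : ℝ) : ‖(s : Ci)‖ ≤ |s| := by
  rw [UnitAddCircle.norm_eq]
  have := round_le s 0
  simpa using this

theorem coe_sub_one (s : ℝ) : ((s - 1 : ℝ) : Ci) = (s : Ci) := by
  rw [coe_eq_coe_iff']
  exact ⟨-1, by push_cast; ring⟩

theorem coe_add_one (s : ℝ) : ((s + 1 : ℝ) : Ci) = (s : Ci) := by
  rw [coe_eq_coe_iff']
  exact ⟨1, by push_cast; ring⟩

theorem norm_out {d : ℝ} (hd : 0 < d) {s : ℝ} (h1 : d ≤ s) (h2 : s ≤ 1 - d) : d ≤ ‖(s : Ci)‖ := by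
  rcases le_total s (1 / 2) with h3 | h3
  · rw [norm_small (by rw [abs_of_nonneg (by linarith)]; exact h3), abs_of_nonneg (by linarith)]
    exact h1
  · rw [← coe_sub_one, norm_small (by rw [abs_of_nonpos (by linarith)]; linarith),
      abs_of_nonpos (by linarith)]
    linarith

theorem exists_out {d e : ℝ} (h : Pm d e) {x : Ci} (hx : d ≤ ‖x‖) :
    ∃ s : ℝ, (s : Ci) = x ∧ d ≤ s ∧ s ≤ 1 - d := by
  have h1 := rep_mem x
  have h2 := abs_rep x
  have hd := h.d1
  rcases le_total 0 (rep x) with h3 | h3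
  · rw [abs_of_nonneg h3] at h2
    exact ⟨rep x, coe_rep x, by linarith, by linarith [h1.2]⟩
  · rw [abs_of_nonpos h3] at h2
    refine ⟨rep x + 1, ?_, by linarith [h1.1], by linarith⟩
    rw [coe_add_one, coe_rep]

/-- periodic functions as functions on the circle -/
noncomputable def mkC (f : ℝ → ℝ) (hf : Continuous f) (hp : Function.Periodic f 1) : C(Ci, ℝ) where
  toFun := hp.lift
  continuous_toFun := by
    have hq : IsQuotientMap ((↑) : ℝ → UnitAddCircle) := QuotientAddGroup.isQuotientMap_mk _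
    rw [hq.continuous_iff]
    exact hf

theorem mkC_coe (f : ℝ → ℝ) (hf : Continuous f) (hp : Function.Periodic f 1) (x : ℝ) :
    mkC f hf hp (x : Ci) = f x := rfl

theorem fourier_re_im (n : ℤ) (x : ℝ) :
    (fourier n (x : Ci) : ℂ) = ((Real.cos (2 * Real.pi * n * x) : ℝ) : ℂ)
      + ((Real.sin (2 * Real.pi * n * x) : ℝ) : ℂ) * Complex.I := by
  rw [fourier_coe_apply]
  have e : (2 * (Real.pi : ℂ) * Complex.I * (n : ℂ) * (x : ℂ) / ((1 : ℝ) : ℂ))
      = ((2 * Real.pi * n * x : ℝ) : ℂ) * Complex.I := by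
    push_cast
    ring
  rw [e, Complex.exp_mul_I, ← Complex.ofReal_cos, ← Complex.ofReal_sin]

/-- the cosines and sines -/
noncomputable def cosC (n : ℕ) : C(Ci, ℝ) :=
  mkC (fun x => Real.cos (2 * Real.pi * n * x)) (by fun_prop) (fun x => by
    show Real.cos (2 * Real.pi * n * (x + 1)) = Real.cos (2 * Real.pi * n * x)
    rw [show 2 * Real.pi * n * (x + 1) = 2 * Real.pi * n * x + n * (2 * Real.pi) by ring,
      Real.cos_add_nat_mul_two_pi])

noncomputable def sinC (n : ℕ) : C(Ci, ℝ) :=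
  mkC (fun x => Real.sin (2 * Real.pi * n * x)) (by fun_prop) (fun x => by
    show Real.sin (2 * Real.pi * n * (x + 1)) = Real.sin (2 * Real.pi * n * x)
    rw [show 2 * Real.pi * n * (x + 1) = 2 * Real.pi * n * x + n * (2 * Real.pi) by ring,
      Real.sin_add_nat_mul_two_pi])


/-! ### approximation by trigonometric polynomials -/

/-- real trigonometric polynomials -/
noncomputable def TP : Submodule ℝ C(Ci, ℝ) := Submodule.span ℝ (range cosC ∪ range sinC)

theorem approx (f : C(Ci, ℝ)) {ε : ℝ} (hε : 0 < ε) : ∃ g ∈ TP, ∀ x, |g x - f x| < ε := by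
  set reM : C(Ci, ℂ) →L[ℝ] C(Ci, ℝ) := Complex.reCLM.compLeftContinuous ℝ Ci with hre
  have hreA : ∀ (F : C(Ci, ℂ)) (x : Ci), reM F x = (F x).re := fun F x => rfl
  have key : ∀ (n : ℤ) (z : ℂ), reM (z • (fourier n : C(Ci, ℂ))) ∈ TP := by
    intro n z
    have c1 : ∀ j, cosC j ∈ TP := fun j => Submodule.subset_span (Or.inl ⟨j, rfl⟩)
    have s1 : ∀ j, sinC j ∈ TP := fun j => Submodule.subset_span (Or.inr ⟨j, rfl⟩)
    obtain ⟨j, rfl | rfl⟩ := n.eq_nat_or_neg
    · have e1 : reM (z • (fourier (j : ℤ) : C(Ci, ℂ))) = z.re • cosC j - z.im • sinC j := by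
        ext x
        obtain ⟨a, rfl⟩ := exists_coe x
        show (z * fourier (j : ℤ) (a : Ci)).re
          = z.re * Real.cos (2 * Real.pi * (j : ℝ) * a) - z.im * Real.sin (2 * Real.pi * (j : ℝ) * a)
        rw [fourier_re_im]
        simp only [Complex.mul_re, Complex.add_re, Complex.add_im, Complex.ofReal_re,
          Complex.ofReal_im, Complex.mul_im, Complex.I_re, Complex.I_im, Int.cast_natCast]
        ring
      rw [e1]
      exact TP.sub_mem (TP.smul_mem _ (c1 j)) (TP.smul_mem _ (s1 j))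
    · have e1 : reM (z • (fourier (-(j : ℤ)) : C(Ci, ℂ))) = z.re • cosC j + z.im • sinC j := by
        ext x
        obtain ⟨a, rfl⟩ := exists_coe x
        show (z * fourier (-(j : ℤ)) (a : Ci)).re
          = z.re * Real.cos (2 * Real.pi * (j : ℝ) * a) + z.im * Real.sin (2 * Real.pi * (j : ℝ) * a)
        rw [fourier_re_im]
        have e : 2 * Real.pi * ((-(j : ℤ) : ℤ) : ℝ) * a = -(2 * Real.pi * (j : ℝ) * a) := by
          push_cast; ring
        rw [e, Real.cos_neg, Real.sin_neg]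
        simp only [Complex.mul_re, Complex.add_re, Complex.add_im, Complex.ofReal_re,
          Complex.ofReal_im, Complex.mul_im, Complex.I_re, Complex.I_im]
        ring
      rw [e1]
      exact TP.add_mem (TP.smul_mem _ (c1 j)) (TP.smul_mem _ (s1 j))
  have key2 : ∀ F ∈ Submodule.span ℂ (Set.range (fourier : ℤ → C(Ci, ℂ))), ∀ z : ℂ, reM (z • F) ∈ TP := by
    intro F hF
    induction hF using Submodule.span_induction with
    | mem x hx =>
      obtain ⟨n, rfl⟩ := hx
      exact key n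
    | zero => intro z; simp
    | add x y _ _ hx hy =>
      intro z
      rw [show z • (x + y) = z • x + z • y from smul_add z x y, map_add]
      exact TP.add_mem (hx z) (hy z)
    | smul a x _ hx => intro z; rw [show z • a • x = (z * a) • x from smul_smul z a x]; exact hx _
  set fc : C(Ci, ℂ) := ⟨fun x => ((f x : ℝ) : ℂ), by fun_prop⟩ with hfc
  have hf : fc ∈ (Submodule.span ℂ (Set.range (fourier : ℤ → C(Ci, ℂ)))).topologicalClosure := by
    rw [span_fourier_closure_eq_top]; trivial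
  rw [← SetLike.mem_coe, Submodule.topologicalClosure_coe, Metric.mem_closure_iff] at hf
  obtain ⟨F, hF, hd⟩ := hf ε hε
  refine ⟨reM F, by have := key2 F hF 1; rwa [one_smul] at this, fun x => ?_⟩
  have h1 : dist (fc x) (F x) < ε := (ContinuousMap.dist_apply_le_dist x).trans_lt hd
  rw [dist_comm, dist_eq_norm] at h1
  refine lt_of_le_of_lt ?_ h1
  have h2 := Complex.abs_re_le_norm (F x - fc x)
  rw [Complex.sub_re] at h2
  exact h2

/-- a trigonometric polynomial on the line -/
structure IsTrig (g : ℝ → ℝ) : Prop where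
  ana : ∀ x, AnalyticAt ℝ g x
  per : Function.Periodic g 1
  lip : ∃ K, ∀ x y, |g x - g y| ≤ K * |x - y|

theorem IsTrig.add {f g : ℝ → ℝ} (hf : IsTrig f) (hg : IsTrig g) : IsTrig (fun x => f x + g x) := by
  obtain ⟨K, hK⟩ := hf.lip
  obtain ⟨K', hK'⟩ := hg.lip
  refine ⟨fun x => (hf.ana x).add (hg.ana x), fun x => ?_, K + K', fun x y => ?_⟩
  · show f (x + 1) + g (x + 1) = f x + g x
    rw [hf.per x, hg.per x]
  · have e : f x + g x - (f y + g y) = (f x - f y) + (g x - g y) := by ring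
    rw [e, add_mul]
    exact (abs_add_le _ _).trans (add_le_add (hK x y) (hK' x y))

theorem IsTrig.smul {f : ℝ → ℝ} (hf : IsTrig f) (a : ℝ) : IsTrig (fun x => a * f x) := by
  obtain ⟨K, hK⟩ := hf.lip
  refine ⟨fun x => analyticAt_const.mul (hf.ana x), fun x => ?_, |a| * K, fun x y => ?_⟩
  · show a * f (x + 1) = a * f x
    rw [hf.per x]
  · rw [← mul_sub, abs_mul, mul_assoc]
    exact mul_le_mul_of_nonneg_left (hK x y) (abs_nonneg _)

theorem IsTrig.neg {f : ℝ → ℝ} (hf : IsTrig f) : IsTrig (fun x => f (-x)) := by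
  obtain ⟨K, hK⟩ := hf.lip
  refine ⟨fun x => ?_, fun x => ?_, K, fun x y => ?_⟩
  · exact (hf.ana (-x)).comp (f := fun x : ℝ => -x) (g := f) analyticAt_id.neg
  · show f (-(x + 1)) = f (-x)
    have := hf.per (-(x + 1))
    rw [← this]
    congr 1
    ring
  · refine (hK (-x) (-y)).trans (le_of_eq ?_)
    congr 1
    rw [show -x - -y = -(x - y) by ring, abs_neg]

theorem isTrig_cos (n : ℕ) : IsTrig fun x => Real.cos (2 * Real.pi * n * x) := by
  refine ⟨fun x => ?_, fun x => ?_, 2 * Real.pi * n, fun x y => ?_⟩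
  · exact Real.analyticAt_cos.comp (analyticAt_const.mul analyticAt_id)
  · show Real.cos (2 * Real.pi * n * (x + 1)) = Real.cos (2 * Real.pi * n * x)
    rw [show 2 * Real.pi * n * (x + 1) = 2 * Real.pi * n * x + n * (2 * Real.pi) by ring,
      Real.cos_add_nat_mul_two_pi]
  · refine (Real.abs_cos_sub_cos_le _ _).trans (le_of_eq ?_)
    rw [← mul_sub, abs_mul, abs_of_nonneg (by positivity)]

theorem isTrig_sin (n : ℕ) : IsTrig fun x => Real.sin (2 * Real.pi * n * x) := by
  refine ⟨fun x => ?_, fun x => ?_, 2 * Real.pi * n, fun x y => ?_⟩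
  · exact Real.analyticAt_sin.comp (analyticAt_const.mul analyticAt_id)
  · show Real.sin (2 * Real.pi * n * (x + 1)) = Real.sin (2 * Real.pi * n * x)
    rw [show 2 * Real.pi * n * (x + 1) = 2 * Real.pi * n * x + n * (2 * Real.pi) by ring,
      Real.sin_add_nat_mul_two_pi]
  · refine (Real.abs_sin_sub_sin_le _ _).trans (le_of_eq ?_)
    rw [← mul_sub, abs_mul, abs_of_nonneg (by positivity)]

theorem isTrig_of_TP {g : C(Ci, ℝ)} (hg : g ∈ TP) : IsTrig fun x : ℝ => g (x : Ci) := by
  unfold TP at hg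
  induction hg using Submodule.span_induction with
  | mem x hx =>
    rcases hx with ⟨n, rfl⟩ | ⟨n, rfl⟩
    · exact isTrig_cos n
    · exact isTrig_sin n
  | zero => exact ⟨fun x => analyticAt_const, fun x => rfl, 0, fun x y => by simp⟩
  | add x y _ _ hx hy => exact hx.add hy
  | smul a x _ hx => exact hx.smul a

/-! ### the base density -/

/-- the base density and the size of the perturbation -/
structure Base (d e : ℝ) where
  f : ℝ → ℝ
  trig : IsTrig f
  near_even : ∀ x, |f (-x) - f x| ≤ e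
  ge : ∀ x, e ≤ f x
  le : ∀ x, f x ≤ 2
  out : ∀ x, d ≤ x → x ≤ 1 - d → f x ≤ 2 * e
  near : ∀ x, |x| ≤ d / 2 → 1 / 4 ≤ f x
  c : ℝ
  c_pos : 0 < c
  c_le : c ≤ e / 2

/-- the center of the open set of densities -/
noncomputable def wz (d e : ℝ) : C(Ci, ℝ) := ⟨fun x => max (3 / 2 * e) (1 - ‖x‖ / d), by fun_prop⟩

theorem wz_apply (d e : ℝ) (x : Ci) : wz d e x = max (3 / 2 * e) (1 - ‖x‖ / d) := rfl

theorem exists_base {d e : ℝ} (h : Pm d e) (w : C(Ci, ℝ)) (hw : ∀ x, |w x - wz d e x| < e / 8)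
    {δ : ℝ} (hδ : 0 < δ) : ∃ b : Base d e, (∀ x : ℝ, |b.f x - w (x : Ci)| < δ) ∧ b.c ≤ δ := by
  have hd := h.d0
  have he := h.e0
  have he1 := h.e1
  have hd1 := h.d1
  obtain ⟨g, hg, hgw⟩ := approx w (ε := min δ (e / 8)) (lt_min hδ (by linarith))
  have hT := isTrig_of_TP hg
  have b1 : ∀ x : Ci, |g x - wz d e x| < e / 4 := by
    intro x
    have h1 := (hgw x).trans_le (min_le_right _ _)
    have h2 := hw x
    have h3 := abs_add_le (g x - w x) (w x - wz d e x)
    rw [sub_add_sub_cancel] at h3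
    linarith
  have lo : ∀ x : Ci, 3 / 2 * e ≤ wz d e x := fun x => by rw [wz_apply]; exact le_max_left _ _
  have hi : ∀ x : Ci, wz d e x ≤ 1 := by
    intro x
    rw [wz_apply]
    apply max_le
    · linarith
    · have := div_nonneg (norm_nonneg x) hd.le
      linarith
  refine ⟨⟨fun x => g (x : Ci), hT, ?_, ?_, ?_, ?_, ?_, min (e / 2) δ, lt_min (by linarith) hδ,
    min_le_left _ _⟩, fun x => (hgw _).trans_le (min_le_left _ _), min_le_right _ _⟩
  · intro x
    have h1 := abs_lt.1 (b1 (x : Ci))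
    have h2 := abs_lt.1 (b1 ((-x : ℝ) : Ci))
    have e1 : wz d e ((-x : ℝ) : Ci) = wz d e (x : Ci) := by
      rw [wz_apply, wz_apply, AddCircle.coe_neg, norm_neg]
    rw [e1] at h2
    rw [abs_le]
    constructor <;> linarith
  · intro x
    have h1 := (abs_lt.1 (b1 (x : Ci))).1
    have h3 := lo (x : Ci)
    linarith
  · intro x
    have h1 := (abs_lt.1 (b1 (x : Ci))).2
    have h3 := hi (x : Ci)
    linarith
  · intro x hx hx'
    have h1 := (abs_lt.1 (b1 (x : Ci))).2
    have h3 : wz d e (x : Ci) = 3 / 2 * e := by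
      rw [wz_apply]
      apply max_eq_left
      have h4 := norm_out hd hx hx'
      have : 1 ≤ ‖(x : Ci)‖ / d := by rwa [le_div_iff₀ hd, one_mul]
      linarith
    linarith
  · intro x hx
    have h1 := (abs_lt.1 (b1 (x : Ci))).1
    have h3 : 1 / 2 ≤ wz d e (x : Ci) := by
      rw [wz_apply]
      apply le_max_of_le_right
      have h4 : ‖(x : Ci)‖ / d ≤ 1 / 2 := by
        rw [div_le_iff₀ hd]
        have := (norm_coe_le x).trans hx
        linarith
      linarith
    linarith

/-! ### the primitive -/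

section
variable {d e : ℝ} (b : Base d e)

theorem Base.pos (h : Pm d e) (x : ℝ) : 0 < b.f x := h.e0.trans_le (b.ge x)

theorem Base.cont : Continuous b.f := continuous_iff_continuousAt.2 fun x => (b.trig.ana x).continuousAt

theorem Base.int (u v : ℝ) : IntervalIntegrable b.f volume u v := b.cont.intervalIntegrable u v

/-- the primitive -/
noncomputable def Base.G (x : ℝ) : ℝ := ∫ s in (0:ℝ)..x, b.f s

/-- the total mass -/
noncomputable def Base.Z : ℝ := b.G 1

theorem Base.G_deriv (x : ℝ) : HasDerivAt b.G (b.f x) x :=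
  (b.cont.integral_hasStrictDerivAt 0 x).hasDerivAt

theorem Base.G_zero : b.G 0 = 0 := by
  unfold Base.G
  simp

theorem Base.G_sub (x y : ℝ) : b.G y - b.G x = ∫ s in x..y, b.f s := by
  unfold Base.G
  rw [intervalIntegral.integral_interval_sub_left (b.int 0 y) (b.int 0 x)]

theorem Base.G_add_one (x : ℝ) : b.G (x + 1) = b.G x + b.Z := by
  have h1 := b.trig.per.intervalIntegral_add_eq x 0
  rw [zero_add] at h1
  have h2 := b.G_sub x (x + 1)
  rw [h1] at h2
  unfold Base.Z
  have h3 := b.G_sub 0 1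
  rw [b.G_zero, sub_zero] at h3
  rw [h3]
  linarith

theorem Base.G_neg (x : ℝ) : |b.G (-x) + b.G x| ≤ e * |x| := by
  unfold Base.G
  have h1 := intervalIntegral.integral_comp_neg (a := 0) (b := x) b.f
  rw [neg_zero] at h1
  rw [intervalIntegral.integral_symm (-x) 0, ← h1]
  have h2 : IntervalIntegrable (fun s => b.f (-s)) volume 0 x :=
    (b.cont.comp continuous_neg).intervalIntegrable 0 x
  have e1 : -(∫ s in (0:ℝ)..x, b.f (-s)) + ∫ s in (0:ℝ)..x, b.f s
      = -(∫ s in (0:ℝ)..x, (b.f (-s) - b.f s)) := by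
    rw [intervalIntegral.integral_sub h2 (b.int 0 x)]
    ring
  rw [e1, abs_neg]
  have h3 := intervalIntegral.norm_integral_le_of_norm_le_const (a := 0) (b := x) (C := e)
    (f := fun s => b.f (-s) - b.f s) (fun s _ => b.near_even s)
  rw [sub_zero] at h3
  exact h3

theorem Base.G_half : |b.G (1 / 2) - b.Z / 2| ≤ e / 4 := by
  have h1 := b.G_add_one (-(1 / 2))
  have h3 := b.G_neg (1 / 2)
  have h2 : (-(1 / 2) + 1 : ℝ) = 1 / 2 := by norm_num
  rw [h2] at h1
  rw [abs_of_pos (show (0:ℝ) < 1 / 2 by norm_num)] at h3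
  rw [abs_le] at h3 ⊢
  constructor <;> linarith

theorem Base.G_le {x y M : ℝ} (hxy : x ≤ y) (hM : ∀ s ∈ Icc x y, b.f s ≤ M) :
    b.G y - b.G x ≤ M * (y - x) := by
  rw [b.G_sub]
  have h1 := intervalIntegral.integral_mono_on (μ := volume) hxy (b.int x y)
    (intervalIntegrable_const (c := M)) hM
  rw [intervalIntegral.integral_const, smul_eq_mul] at h1
  linarith

theorem Base.G_ge {x y m : ℝ} (hxy : x ≤ y) (hm : ∀ s ∈ Icc x y, m ≤ b.f s) :
    m * (y - x) ≤ b.G y - b.G x := by
  rw [b.G_sub]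
  have h1 := intervalIntegral.integral_mono_on (μ := volume) hxy
    (intervalIntegrable_const (c := m)) (b.int x y) hm
  rw [intervalIntegral.integral_const, smul_eq_mul] at h1
  linarith

theorem Base.G_mono (h : Pm d e) {x y : ℝ} (hxy : x ≤ y) : b.G x ≤ b.G y := by
  have := b.G_ge (m := 0) hxy (fun s _ => (b.pos h s).le)
  linarith

theorem Base.G_d2 (h : Pm d e) : d / 8 ≤ b.G (d / 2) := by
  have hd := h.d0
  have := b.G_ge (m := 1 / 4) (x := 0) (y := d / 2) (by linarith) (fun s hs =>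
    b.near s (by rw [abs_of_nonneg hs.1]; exact hs.2))
  rw [b.G_zero] at this
  linarith

theorem Base.Z_ge (h : Pm d e) : d / 8 ≤ b.Z :=
  (b.G_d2 h).trans (b.G_mono h (by linarith [h.d1]))

theorem Base.Z_pos (h : Pm d e) : 0 < b.Z := by
  have := b.Z_ge h
  linarith [h.d0]

theorem Base.Z_le (h : Pm d e) : b.Z ≤ 5 * d := by
  have hd := h.d0
  have hd1 := h.d1
  have h1 := b.G_le (M := 2) (x := 0) (y := d) hd.le (fun s _ => b.le s)
  have h2 := b.G_le (M := 2 * e) (x := d) (y := 1 - d) (by linarith) (fun s hs => b.out s hs.1 hs.2)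
  have h3 := b.G_le (M := 2) (x := 1 - d) (y := 1) (by linarith) (fun s _ => b.le s)
  rw [b.G_zero] at h1
  have he := h.e0
  have he1 := h.e1
  unfold Base.Z
  nlinarith

theorem Base.G_mid (h : Pm d e) {x : ℝ} (h1 : d ≤ x) (h2 : x ≤ 1 - d) :
    |b.G x / b.Z - 1 / 2| ≤ 1 / 100 := by
  have hZ := b.Z_pos h
  have hd := h.d0
  have key : |b.G x - b.G (1 / 2)| ≤ e := by
    have he := h.e0
    rcases le_total x (1 / 2) with h3 | h3
    · have h4 := b.G_le (M := 2 * e) h3 (fun s hs =>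
        b.out s (h1.trans hs.1) (by linarith [hs.2, h.d1]))
      have h5 := b.G_mono h h3
      rw [abs_of_nonpos (by linarith)]
      nlinarith
    · have h4 := b.G_le (M := 2 * e) h3 (fun s hs =>
        b.out s (by linarith [hs.1, h.d1]) (hs.2.trans h2))
      have h5 := b.G_mono h h3
      rw [abs_of_nonneg (by linarith)]
      nlinarith
  have key2 : |b.G x - b.Z / 2| ≤ e + e / 4 := by
    have h3 := abs_add_le (b.G x - b.G (1 / 2)) (b.G (1 / 2) - b.Z / 2)
    rw [sub_add_sub_cancel] at h3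
    have := b.G_half
    linarith
  have e1 : b.G x / b.Z - 1 / 2 = (b.G x - b.Z / 2) / b.Z := by field_simp
  rw [e1, abs_div, abs_of_pos hZ, div_le_iff₀ hZ]
  have := b.Z_ge h
  have := h.e1
  linarith

theorem Base.G_near (h : Pm d e) : 1 / 40 ≤ b.G (d / 2) / b.Z := by
  rw [le_div_iff₀ (b.Z_pos h)]
  have := b.Z_le h
  have := b.G_d2 h
  linarith

theorem Base.G_near' (h : Pm d e) : b.G (-(d / 2)) / b.Z ≤ -(1 / 50) := by
  have hd := h.d0
  have he := h.e0
  have hd1 := h.d1
  have he1 := h.e1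
  rw [div_le_iff₀ (b.Z_pos h)]
  have h1 := b.Z_le h
  have h2 := b.G_d2 h
  have h3 := (abs_le.1 (b.G_neg (d / 2))).2
  rw [abs_of_pos (by linarith)] at h3
  nlinarith

end

end Pool.Agent.ELM.Fan
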