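import Pool.Agent.ELM.FanB

/-!
# ELM, row FAM, analytic version: the directions span a dense space
-/

set_option autoImplicit false
set_option linter.unusedVariables false

namespace Pool.Agent.ELM.Fan

open Filter MeasureTheory Topology Set

theorem fC_even (c : ℝ) (m : ℕ) (x : ℝ) :
    fC c (2 * m) (x : Ci) = cc c (2 * m) * Real.cos (2 * Real.pi * ((m : ℝ) + 1) * x) := by
  change fr c (2 * m) x = _
  unfold fr om ph
  have h1 : 2 * m / 2 = m := by omega
  have h2 : 2 * m % 2 = 0 := by omega
  rw [h1, if_pos h2, sub_zero]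
  push_cast
  rfl

theorem fC_odd (c : ℝ) (m : ℕ) (x : ℝ) :
    fC c (2 * m + 1) (x : Ci) = cc c (2 * m + 1) * Real.sin (2 * Real.pi * ((m : ℝ) + 1) * x) := by
  change fr c (2 * m + 1) x = _
  unfold fr om ph
  have h1 : (2 * m + 1) / 2 = m := by omega
  have h2 : ¬ (2 * m + 1) % 2 = 0 := by omega
  rw [h1, if_neg h2, Real.cos_sub_pi_div_two]
  push_cast
  rfl

theorem dense_dir {c : ℝ} (hc : 0 < c) (L : C(Ci, ℝ) →L[ℝ] ℝ) (h1 : L 1 = 0)
    (h : ∀ i, L (fC c i) = 0) : L = 0 := by
  -- cosines and sines
  have hcos : ∀ n : ℕ, L (cosC n) = 0 := by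
    intro n
    rcases n with _ | m
    · have : cosC 0 = 1 := by
        ext x
        obtain ⟨a, rfl⟩ := exists_coe x
        show Real.cos (2 * Real.pi * ((0 : ℕ) : ℝ) * a) = 1
        simp
      rw [this, h1]
    · have : fC c (2 * m) = cc c (2 * m) • cosC (m + 1) := by
        ext x
        obtain ⟨a, rfl⟩ := exists_coe x
        rw [fC_even]
        show _ = cc c (2 * m) * Real.cos (2 * Real.pi * ((m + 1 : ℕ) : ℝ) * a)
        push_cast
        rfl
      have h2 := h (2 * m)
      rw [this, map_smul, smul_eq_mul] at h2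
      exact (mul_eq_zero.1 h2).resolve_left (cc_pos hc _).ne'
  have hsin : ∀ n : ℕ, L (sinC n) = 0 := by
    intro n
    rcases n with _ | m
    · have : sinC 0 = 0 := by
        ext x
        obtain ⟨a, rfl⟩ := exists_coe x
        show Real.sin (2 * Real.pi * ((0 : ℕ) : ℝ) * a) = 0
        simp
      rw [this, map_zero]
    · have : fC c (2 * m + 1) = cc c (2 * m + 1) • sinC (m + 1) := by
        ext x
        obtain ⟨a, rfl⟩ := exists_coe x
        rw [fC_odd]
        show _ = cc c (2 * m + 1) * Real.sin (2 * Real.pi * ((m + 1 : ℕ) : ℝ) * a)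
        push_cast
        rfl
      have h2 := h (2 * m + 1)
      rw [this, map_smul, smul_eq_mul] at h2
      exact (mul_eq_zero.1 h2).resolve_left (cc_pos hc _).ne'
  -- the complex functional
  set Lc : C(Ci, ℂ) →L[ℝ] ℝ := L.comp (Complex.reCLM.compLeftContinuous ℝ Ci) with hLc
  have hLa : ∀ f : C(Ci, ℂ), ∀ g : C(Ci, ℝ), (∀ x, (f x).re = g x) → Lc f = L g := by
    intro f g hfg
    show L _ = L g
    congr 1
    ext x
    exact hfg x
  have key : ∀ (n : ℤ) (z : ℂ), Lc (z • (fourier n : C(Ci, ℂ))) = 0 := by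
    intro n z
    obtain ⟨j, rfl | rfl⟩ := n.eq_nat_or_neg
    · rw [hLa _ (z.re • cosC j - z.im • sinC j), map_sub, map_smul, map_smul, hcos, hsin]
      · simp
      · intro x
        obtain ⟨a, rfl⟩ := exists_coe x
        show (z * fourier (j : ℤ) (a : Ci)).re
          = z.re * Real.cos (2 * Real.pi * (j : ℝ) * a) - z.im * Real.sin (2 * Real.pi * (j : ℝ) * a)
        rw [fourier_re_im]
        simp only [Complex.mul_re, Complex.add_re, Complex.add_im, Complex.ofReal_re,
          Complex.ofReal_im, Complex.mul_im, Complex.I_re, Complex.I_im, Int.cast_natCast]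
        ring
    · rw [hLa _ (z.re • cosC j + z.im • sinC j), map_add, map_smul, map_smul, hcos, hsin]
      · simp
      · intro x
        obtain ⟨a, rfl⟩ := exists_coe x
        show (z * fourier (-(j : ℤ)) (a : Ci)).re
          = z.re * Real.cos (2 * Real.pi * (j : ℝ) * a) + z.im * Real.sin (2 * Real.pi * (j : ℝ) * a)
        rw [fourier_re_im]
        have e : 2 * Real.pi * ((-(j : ℤ) : ℤ) : ℝ) * a = -(2 * Real.pi * (j : ℝ) * a) := by
          push_cast; ring
        rw [e, Real.cos_neg, Real.sin_neg]
        simp only [Complex.mul_re, Complex.add_re, Complex.add_im, Complex.ofReal_re,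
          Complex.ofReal_im, Complex.mul_im, Complex.I_re, Complex.I_im]
        ring
  have key2 : ∀ f ∈ Submodule.span ℂ (Set.range (fourier : ℤ → C(Ci, ℂ))), ∀ z : ℂ, Lc (z • f) = 0 := by
    intro f hf
    induction hf using Submodule.span_induction with
    | mem x hx =>
      obtain ⟨n, rfl⟩ := hx
      exact key n
    | zero => intro z; simp
    | add x y _ _ hx hy => intro z; rw [show z • (x + y) = z • x + z • y from smul_add z x y, map_add, hx, hy, add_zero]
    | smul a x _ hx => intro z; rw [show z • a • x = (z * a) • x from smul_smul z a x]; exact hx _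
  have key3 : ∀ f : C(Ci, ℂ), Lc f = 0 := by
    intro f
    have hf : f ∈ (Submodule.span ℂ (Set.range (fourier : ℤ → C(Ci, ℂ)))).topologicalClosure := by
      rw [span_fourier_closure_eq_top]; trivial
    have hcl : IsClosed {f : C(Ci, ℂ) | Lc f = 0} := isClosed_eq Lc.continuous continuous_const
    rw [← SetLike.mem_coe, Submodule.topologicalClosure_coe] at hf
    exact closure_minimal (fun g hg => by
      have := key2 g hg 1
      rwa [one_smul] at this) hcl hf
  ext g
  have h2 := hLa (⟨fun x => ((g x : ℝ) : ℂ), by fun_prop⟩ : C(Ci, ℂ)) g (fun x => by simp)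
  rw [key3] at h2
  simpa using h2.symm

end Pool.Agent.ELM.Fan
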