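import Pool.Agent.ELM.Conv

/-!
# ELM: typical sequences
-/

set_option autoImplicit false

namespace Pool.Agent.ELM

open Filter MeasureTheory Topology
open scoped ENNReal

theorem bound_of_eventually {f : ℕ → ℤ} (h : ∀ᶠ n : ℕ in atTop, f n ≤ 7 * (n : ℤ)) :
    ∃ C : ℤ, ∀ n : ℕ, f n ≤ 7 * n + C := by
  obtain ⟨N, hN⟩ := eventually_atTop.1 h
  have h0 : 0 ≤ ∑ j ∈ Finset.range N, |f j| := Finset.sum_nonneg fun j _ => abs_nonneg _
  refine ⟨∑ j ∈ Finset.range N, |f j|, fun n => ?_⟩
  by_cases hn : N ≤ n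
  · have := hN n hn
    omega
  · have h1 : |f n| ≤ ∑ j ∈ Finset.range N, |f j| :=
      Finset.single_le_sum (f := fun j => |f j|) (fun j _ => abs_nonneg _)
        (Finset.mem_range.2 (not_le.1 hn))
    have h2 := le_abs_self (f n)
    omega

theorem bound_of_eventually' {f : ℕ → ℕ} (h : ∀ᶠ n : ℕ in atTop, f n ≤ n) :
    ∃ C : ℕ, ∀ n : ℕ, f n ≤ n + C := by
  obtain ⟨N, hN⟩ := eventually_atTop.1 h
  refine ⟨∑ j ∈ Finset.range N, f j, fun n => ?_⟩
  by_cases hn : N ≤ n
  · have := hN n hn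
    omega
  · have h1 : f n ≤ ∑ j ∈ Finset.range N, f j :=
      Finset.single_le_sum (f := f) (fun j _ => Nat.zero_le _)
        (Finset.mem_range.2 (not_le.1 hn))
    omega

theorem sum_scons (k : ℤ) (u : ℕ → ℤ) (n : ℕ) :
    ∑ j ∈ Finset.range (n + 1), |scons k u j| = |k| + ∑ j ∈ Finset.range n, |u j| := by
  rw [Finset.sum_range_succ']
  rw [add_comm]
  rfl

theorem bd1_scons {u : ℕ → ℤ} (h : ∃ C : ℤ, ∀ n : ℕ, 4 * ∑ j ∈ Finset.range n, |u j| ≤ 7 * n + C)
    (k : ℤ) : ∃ C : ℤ, ∀ n : ℕ, 4 * ∑ j ∈ Finset.range n, |scons k u j| ≤ 7 * n + C := by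
  obtain ⟨C, hC⟩ := h
  have h0 : 0 ≤ C := by simpa using hC 0
  have hk := abs_nonneg k
  refine ⟨C + 4 * |k|, fun n => ?_⟩
  cases n with
  | zero => simp only [Finset.range_zero, Finset.sum_empty, Nat.cast_zero]; omega
  | succ n =>
    rw [sum_scons]
    have := hC n
    push_cast
    omega

namespace Fam

variable (F : Fam)

theorem visits_scons (x : Ci) (y : ℕ → Ci) (n : ℕ) :
    F.visits (scons x y) (n + 1) = F.visits y n + (open Classical in if y 0 ∈ F.U then 1 else 0) := by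
  induction n with
  | zero =>
    rw [visits_succ, visits_zero, visits_zero]
    rfl
  | succ n ih =>
    rw [visits_succ, ih, visits_succ F y n]
    change _ + _ + (open Classical in if y (n + 1) ∈ F.U then 1 else 0) = _
    ring

theorem bd2_scons {y : ℕ → Ci} (h : ∃ C : ℕ, ∀ n : ℕ, 2000 * F.visits y n ≤ n + C) (x : Ci) :
    ∃ C : ℕ, ∀ n : ℕ, 2000 * F.visits (scons x y) n ≤ n + C := by
  obtain ⟨C, hC⟩ := h
  refine ⟨C + 2000, fun n => ?_⟩
  cases n with
  | zero => rw [visits_zero]; omega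
  | succ n =>
    rw [visits_scons]
    have := hC n
    split_ifs <;> omega

theorem orb_eq (t : Par) (u : ℕ → ℤ) : F.orb t u = scons (F.xi t u) (F.orb t (sh u)) := by
  funext j
  cases j <;> rfl

theorem orb_meas (t : Par) (j : ℕ) : Measurable fun u : ℕ → ℤ => F.orb t u j :=
  (F.xi_meas t).comp (sh_measurable.iterate j)

theorem visits_meas (t : Par) (n : ℕ) : Measurable fun u : ℕ → ℤ => F.visits (F.orb t u) n := by
  induction n with
  | zero =>
    simp_rw [visits_zero]
    exact measurable_const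
  | succ n ih =>
    simp_rw [visits_succ]
    refine ih.add (Measurable.ite ?_ measurable_const measurable_const)
    exact F.orb_meas t (n + 1) F.U_open.measurableSet

theorem visits_ae (t : Par) :
    ∀ᵐ u ∂PP, ∀ᶠ n : ℕ in atTop, 2000 * F.visits (F.orb t u) n ≤ n := by
  refine count_ae (fun _ => {u | F.xi t u ∈ F.U}) (fun _ => F.xi_meas t F.U_open.measurableSet)
    (fun n u => F.visits (F.orb t u) n) (F.visits_meas t) ?_ (fun n => ?_) (fun n => ?_)
    (fun n => ?_)
  · exact Eventually.of_forall fun u => F.visits_zero _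
  · refine Eventually.of_forall fun u => Eventually.of_forall fun k => ?_
    change F.visits (F.orb t (scons k u)) (n + 1) = F.visits (F.orb t u) n + _
    rw [orb_scons, visits_scons]
    rfl
  · filter_upwards [F.conv_ae t] with u hu hU
    have h1 : {k : ℤ | scons k u ∈ {u : ℕ → ℤ | F.xi t u ∈ F.U}} ⊆
        {k : ℤ | F.br t k (F.xi t u) ∈ F.U} := by
      intro k hk
      have h2 : F.xi t (scons k u) ∈ F.U := hk
      rw [F.xi_scons t k u hu] at h2
      exact h2
    refine (measure_mono h1).trans ((F.visit_good t _ hU).trans ?_)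
    exact ENNReal.div_le_div_right (by norm_num) _
  · filter_upwards [F.conv_ae t] with u hu hU
    have h1 : {k : ℤ | scons k u ∈ {u : ℕ → ℤ | F.xi t u ∈ F.U}} ⊆
        {k : ℤ | F.br t k (F.xi t u) ∈ F.U} := by
      intro k hk
      have h2 : F.xi t (scons k u) ∈ F.U := hk
      rw [F.xi_scons t k u hu] at h2
      exact h2
    refine (measure_mono h1).trans ((F.visit_bad t _).trans ?_)
    exact add_le_add (ENNReal.div_le_div_right (by norm_num) _)
      (ENNReal.div_le_div_right (by norm_num) _)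

theorem styp_ae (t : Par) : ∀ᵐ u ∂PP, F.STyp t u := by
  filter_upwards [F.conv_ae t, ne_ae, slln, F.visits_ae t] with u h1 h2 h3 h4
  exact ⟨h1, h2, bound_of_eventually h3, bound_of_eventually' h4⟩

theorem styp_sh (t : Par) (u : ℕ → ℤ) (h : F.STyp t u) : F.STyp t (sh u) := by
  refine ⟨F.cv_conv_sh t u h.conv, fun j => h.ne (j + 1), ?_, ?_⟩
  · obtain ⟨C, hC⟩ := h.t1
    refine ⟨C + 7, fun n => ?_⟩
    have h1 := hC (n + 1)
    rw [← cv_scons_sh u, sum_scons] at h1
    have h2 := abs_nonneg (u 0)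
    push_cast at h1
    omega
  · obtain ⟨C, hC⟩ := h.t2
    refine ⟨C + 1, fun n => ?_⟩
    have h1 := hC (n + 1)
    rw [F.orb_eq t u, visits_scons] at h1
    split_ifs at h1 <;> omega

theorem styp_scons (t : Par) (u : ℕ → ℤ) (h : F.STyp t u) (k : ℤ) (hk : k ≠ 0) :
    F.STyp t (scons k u) := by
  refine ⟨(F.conv_scons t k u).2 h.conv, fun j => ?_, bd1_scons h.t1 k, ?_⟩
  · cases j with
    | zero => exact hk
    | succ j => exact h.ne j
  · rw [orb_scons]
    exact F.bd2_scons h.t2 _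

theorem typ_of_bounds (k : ℕ → ℤ) (y : ℕ → Ci)
    (h1 : ∃ C : ℤ, ∀ n : ℕ, 4 * ∑ j ∈ Finset.range n, |k j| ≤ 7 * n + C)
    (h2 : ∃ C : ℕ, ∀ n : ℕ, 2000 * F.visits y n ≤ n + C) : ∃ p, F.Typ p k y := by
  obtain ⟨C, hC⟩ := h1
  obtain ⟨C', hC'⟩ := h2
  refine ⟨C.toNat + C', fun n hn => ?_, fun n hn => ?_⟩
  · have := hC n
    have h3 : C ≤ n := by
      have := Int.self_le_toNat C
      omega
    omega
  · have := hC' n
    omega

theorem typ_app (t : Par) (u : ℕ → ℤ) (h : F.STyp t u) (l : List ℤ) :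
    ∃ p, F.Typ p (appZ l u) (F.appO t l (F.orb t u)) := by
  refine F.typ_of_bounds _ _ ?_ ?_
  · induction l with
    | nil => exact h.t1
    | cons b l ih => exact bd1_scons ih b
  · induction l with
    | nil => exact h.t2
    | cons b l ih => exact F.bd2_scons ih _

theorem isOrbit_app (t : Par) (u : ℕ → ℤ) (h : F.STyp t u) (l : List ℤ) :
    F.IsOrbit t (appZ l u) (F.appO t l (F.orb t u)) := by
  induction l with
  | nil => exact F.isOrbit_orb t u h.conv
  | cons b l ih => exact F.isOrbit_scons t _ _ ih b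

theorem appO_zero (t : Par) (l : List ℤ) (y : ℕ → Ci) : F.appO t l y 0 = F.pw t l (y 0) := by
  induction l with
  | nil => rfl
  | cons b l ih =>
    change F.br t b (F.appO t l y 0) = F.br t b (F.pw t l (y 0))
    rw [ih]

end Fam

end Pool.Agent.ELM
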