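import Pool.Agent.ELM.Bas
import Pool.Agent.ELM.Typ
import Pool.Agent.ELM.Eta

/-!
# ELM: almost all points have trivial stabilisers
-/

set_option autoImplicit false

namespace Pool.Agent.ELM

open Filter MeasureTheory Topology
open scoped ENNReal

namespace Fam

variable (F : Fam) (t : Par)

/-! ## Words -/

theorem stb_pw_nil (x : Ci) : F.pw t [] x = x := rfl

theorem stb_pw_cons (b : ℤ) (l : List ℤ) (x : Ci) : F.pw t (b :: l) x = F.br t b (F.pw t l x) := rfl

theorem stb_pw_append (l m : List ℤ) (x : Ci) : F.pw t (l ++ m) x = F.pw t l (F.pw t m x) := by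
  unfold pw
  rw [List.foldr_append]

theorem stb_br_zero (x : Ci) : F.br t 0 x = F.a t x := by
  unfold br
  simp

theorem stb_br_eq (b : ℤ) (x : Ci) : F.br t b x = F.rot b (F.a t x) := rfl

theorem stb_rot_rot (b c : ℤ) (x : Ci) : F.rot b (F.rot c x) = F.rot (b + c) x := by
  unfold rot
  rw [add_assoc, ← AddCircle.coe_add]
  congr 2
  push_cast
  ring

theorem stb_rot_zero (x : Ci) : F.rot 0 x = x := by
  unfold rot
  simp

theorem stb_rot_ne (b : ℤ) (hb : b ≠ 0) (x : Ci) : F.rot b x ≠ x := by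
  intro h
  unfold rot at h
  have h1 : ((b * F.θ : ℝ) : Ci) = 0 := by simpa using h
  rw [AddCircle.coe_eq_zero_iff] at h1
  obtain ⟨n, hn⟩ := h1
  have h2 : Irrational ((b : ℝ) * F.θ) := F.irr.intCast_mul hb
  apply h2
  refine ⟨(n : ℚ), ?_⟩
  rw [← hn]
  simp

theorem stb_continuous_a : Continuous (F.a t) := F.cont.comp (Continuous.prodMk_right t)

theorem stb_continuous_rot (b : ℤ) : Continuous (F.rot b) := continuous_id.add continuous_const

theorem stb_continuous_br (b : ℤ) : Continuous (F.br t b) :=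
  (F.stb_continuous_rot b).comp (F.stb_continuous_a t)

theorem stb_continuous_pw (l : List ℤ) : Continuous (F.pw t l) := by
  induction l with
  | nil => exact continuous_id
  | cons b l ih => exact (F.stb_continuous_br t b).comp ih

/-! ## Derivatives of words -/

/-- the derivative of `pw l` at `x` -/
noncomputable def dw : List ℤ → Ci → ℝ
  | [], _ => 1
  | _ :: l, x => F.w t (F.pw t l x) / F.w t (F.a t (F.pw t l x)) * dw l x

/-- the atom at `x₀` along the loop -/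
noncomputable def lw (x₀ : Ci) : List ℤ → Ci → ℝ
  | [], _ => 0
  | _ :: l, x => by
      classical
      exact ((if F.pw t l x = x₀ then (1 : ℝ) else 0) -
        (if F.a t (F.pw t l x) = x₀ then (1 : ℝ) else 0)) / F.w t (F.a t (F.pw t l x)) +
          F.w t (F.pw t l x) / F.w t (F.a t (F.pw t l x)) * lw x₀ l x

theorem dw_abs (l : List ℤ) : ∃ K : ℝ, 0 ≤ K ∧ ∀ x, |F.dw t l x| ≤ K := by
  obtain ⟨c, C, hc, hw⟩ := F.w_bd
  induction l with
  | nil => exact ⟨1, by norm_num, fun x => by simp [dw]⟩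
  | cons b l ih =>
    obtain ⟨K, hK, hK'⟩ := ih
    have hC : 0 ≤ C := hc.le.trans ((hw t 0).1.trans (hw t 0).2)
    refine ⟨C / c * K, by positivity, fun x => ?_⟩
    unfold dw
    rw [abs_mul]
    refine mul_le_mul ?_ (hK' x) (abs_nonneg _) (by positivity)
    rw [abs_of_pos (div_pos (F.w_pos _ _) (F.w_pos _ _))]
    exact div_le_div₀ hC (hw _ _).2 hc (hw _ _).1

/-- the first order expansion of a word -/
theorem expand_pw (l : List ℤ) : ∃ C : ℝ, 0 ≤ C ∧ ∀ (x : Ci) (e : ℝ), |e| ≤ 1 →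
    ‖F.pw t l (x + (e : Ci)) - F.pw t l x - ((F.dw t l x * e : ℝ) : Ci)‖ ≤ C * e ^ 2 := by
  induction l with
  | nil =>
    refine ⟨0, le_rfl, fun x e _ => ?_⟩
    simp [stb_pw_nil, dw]
  | cons b l ih =>
    obtain ⟨C, hC, h1⟩ := ih
    obtain ⟨C1, h2⟩ := F.expand_x t
    obtain ⟨K, hK, h3⟩ := F.dw_abs t l
    obtain ⟨K1, hK1, h4⟩ := F.dw_abs t [b]
    have hC1 : 0 ≤ C1 := by
      have := h2 0 1
      have h5 := (norm_nonneg _).trans this
      simpa using h5
    refine ⟨C1 * (K + C) ^ 2 + K1 * C, by positivity, fun x e he => ?_⟩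
    obtain ⟨r, hr, hr'⟩ : ∃ r : ℝ, (r : Ci) = F.pw t l (x + (e : Ci)) - F.pw t l x -
        ((F.dw t l x * e : ℝ) : Ci) ∧ |r| ≤ C * e ^ 2 :=
      ⟨rep _, coe_rep _, by rw [abs_rep]; exact h1 x e he⟩
    set e' : ℝ := F.dw t l x * e + r with he'
    have h5 : F.pw t l (x + (e : Ci)) = F.pw t l x + (e' : Ci) := by
      rw [he', AddCircle.coe_add, hr]
      abel
    have h6 : |e'| ≤ (K + C) * |e| := by
      have h7 : |e'| ≤ |F.dw t l x * e| + |r| := abs_add_le _ _
      rw [abs_mul] at h7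
      have h8 : e ^ 2 ≤ |e| := by
        rw [← sq_abs]
        nlinarith [abs_nonneg e]
      have h9 := mul_le_mul_of_nonneg_right (h3 x) (abs_nonneg e)
      nlinarith [mul_le_mul_of_nonneg_left h8 hC]
    have h7 := h2 (F.pw t l x) e'
    set A : ℝ := F.w t (F.pw t l x) / F.w t (F.a t (F.pw t l x)) with hA
    have hA' : |A| ≤ K1 := by
      have := h4 (F.pw t l x)
      simpa [dw, stb_pw_nil] using this
    have h8 : F.pw t (b :: l) (x + (e : Ci)) - F.pw t (b :: l) x -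
        ((F.dw t (b :: l) x * e : ℝ) : Ci) =
        (F.a t (F.pw t l x + (e' : Ci)) - F.a t (F.pw t l x) - ((A * e' : ℝ) : Ci)) +
          ((A * r : ℝ) : Ci) := by
      rw [stb_pw_cons, stb_pw_cons, h5]
      unfold br
      have h9 : F.dw t (b :: l) x * e = A * e' - A * r := by
        have : F.dw t (b :: l) x = A * F.dw t l x := rfl
        rw [this, he']
        ring
      rw [h9, AddCircle.coe_sub]
      abel
    rw [h8]
    refine (norm_add_le _ _).trans ?_
    have h10 : ‖((A * r : ℝ) : Ci)‖ ≤ |A * r| := QuotientAddGroup.norm_mk_le_norm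
    have h11 : |A * r| ≤ K1 * (C * e ^ 2) := by
      rw [abs_mul]
      exact mul_le_mul hA' hr' (abs_nonneg _) hK1
    have h12 : e' ^ 2 ≤ (K + C) ^ 2 * e ^ 2 := by
      have h14 := pow_le_pow_left₀ (abs_nonneg _) h6 2
      rwa [mul_pow, sq_abs, sq_abs] at h14
    have h13 := mul_le_mul_of_nonneg_left h12 hC1
    nlinarith [h7, h10, h11, h13]

theorem dw_eq_one (l : List ℤ) (x : Ci) (hx : F.pw t l x = x)
    (hacc : AccPt x (𝓟 {y | F.pw t l y = y})) : F.dw t l x = 1 := by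
  obtain ⟨C, hC, h1⟩ := F.expand_pw t l
  by_contra hne
  set δ : ℝ := |1 - F.dw t l x| with hδ
  have hδ0 : 0 < δ := abs_pos.2 (sub_ne_zero.2 (Ne.symm hne))
  set ε : ℝ := min 1 (min (1 / (2 * δ)) (δ / (C + 1))) with hε
  have hε0 : 0 < ε := by positivity
  rw [accPt_iff_frequently] at hacc
  obtain ⟨y, ⟨hyx, hy⟩, hyε⟩ := (hacc.and_eventually (Metric.ball_mem_nhds x hε0)).exists
  have hy' : F.pw t l y = y := hy
  set e : ℝ := rep (y - x) with he
  have he1 : (e : Ci) = y - x := coe_rep _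
  have he2 : |e| = ‖y - x‖ := abs_rep _
  have he3 : |e| < ε := by
    rw [he2, ← dist_eq_norm]
    exact hyε
  have he0 : 0 < |e| := by
    rw [he2]
    exact norm_pos_iff.2 (sub_ne_zero.2 hyx)
  have h2 := h1 x e (he3.le.trans (min_le_left _ _))
  have h3 : x + (e : Ci) = y := by rw [he1]; abel
  rw [h3, hy', hx] at h2
  have h4 : y - x - ((F.dw t l x * e : ℝ) : Ci) = (((1 - F.dw t l x) * e : ℝ) : Ci) := by
    rw [← he1, ← AddCircle.coe_sub]
    congr 1
    ring
  have h5 : |(1 - F.dw t l x) * e| ≤ |(1 : ℝ)| / 2 := by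
    rw [abs_mul, ← hδ, abs_one]
    have h6 : |e| ≤ 1 / (2 * δ) := he3.le.trans ((min_le_right _ _).trans (min_le_left _ _))
    rw [le_div_iff₀ (by positivity)] at h6
    linarith
  rw [h4, (AddCircle.norm_coe_eq_abs_iff (1 : ℝ) one_ne_zero).2 h5, abs_mul, ← hδ, ← sq_abs,
    pow_two, ← mul_assoc] at h2
  have h6 : δ ≤ C * |e| := le_of_mul_le_mul_right h2 he0
  have h7 : |e| < δ / (C + 1) := he3.trans_le ((min_le_right _ _).trans (min_le_right _ _))
  rw [lt_div_iff₀ (by positivity)] at h7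
  nlinarith

/-- the atoms along a loop do not cancel -/
theorem lw_pos (x : Ci) (l : List ℤ) (hl : l ≠ [])
    (h : ∀ m : List ℤ, m.length < l.length → m <:+ l → m ≠ [] → F.a t (F.pw t m x) ≠ x) :
    0 < F.lw t x l x := by
  classical
  induction l with
  | nil => exact absurd rfl hl
  | cons b l ih =>
    have h1 : F.lw t x (b :: l) x = ((if F.pw t l x = x then (1 : ℝ) else 0) -
        (if F.a t (F.pw t l x) = x then (1 : ℝ) else 0)) / F.w t (F.a t (F.pw t l x)) +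
          F.w t (F.pw t l x) / F.w t (F.a t (F.pw t l x)) * F.lw t x l x := by
      conv_lhs => unfold lw
    rw [h1]
    rcases eq_or_ne l [] with rfl | hl'
    · rw [stb_pw_nil, if_pos rfl, if_neg (F.ne_self t x)]
      have h2 : F.lw t x [] x = 0 := rfl
      rw [h2, mul_zero, add_zero, sub_zero]
      exact div_pos one_pos (F.w_pos _ _)
    · rw [if_neg (h l (by simp) (List.suffix_cons b l) hl')]
      have h2 := ih hl' fun m hm hm' hm0 => h m (hm.trans (by simp))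
        (hm'.trans (List.suffix_cons b l)) hm0
      have h3 : (0 : ℝ) ≤ (if F.pw t l x = x then (1 : ℝ) else 0) := by split_ifs <;> norm_num
      have h4 : 0 < F.w t (F.pw t l x) / F.w t (F.a t (F.pw t l x)) :=
        div_pos (F.w_pos _ _) (F.w_pos _ _)
      have h5 : 0 ≤ ((if F.pw t l x = x then (1 : ℝ) else 0) - 0) / F.w t (F.a t (F.pw t l x)) := by
        rw [sub_zero]
        exact div_nonneg h3 (F.w_pos _ _).le
      exact add_pos_of_nonneg_of_pos h5 (mul_pos h4 h2)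

theorem At_app (y : ℕ → Ci) (x₀ : Ci) (l : List ℤ)
    (hs : ∀ m : List ℤ, m <:+ l → Summable (F.coef t (F.appO t m y))) :
    F.At t (F.appO t l y) x₀ = F.lw t x₀ l (y 0) + F.dw t l (y 0) * F.At t y x₀ := by
  classical
  induction l with
  | nil =>
    have h1 : F.appO t [] y = y := rfl
    have h2 : F.lw t x₀ [] (y 0) = 0 := rfl
    have h3 : F.dw t [] (y 0) = 1 := rfl
    rw [h1, h2, h3, zero_add, one_mul]
  | cons b l ih =>
    have h1 : F.appO t (b :: l) y = scons (F.br t b (F.appO t l y 0)) (F.appO t l y) := rfl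
    have h2 := F.D_scons t (F.br t b (F.appO t l y 0)) (F.appO t l y)
      (hs l (List.suffix_cons b l)) (fun x => if x = x₀ then (1 : ℝ) else 0)
      ⟨1, fun x => by split_ifs <;> norm_num⟩
    have h3 := ih fun m hm => hs m (hm.trans (List.suffix_cons b l))
    have h4 : F.At t (F.appO t l y) x₀ =
      F.D t (F.appO t l y) (fun x => if x = x₀ then (1 : ℝ) else 0) := by
        rfl
    have h5 : F.At t (F.appO t (b :: l) y) x₀ =
      F.D t (F.appO t (b :: l) y) (fun x => if x = x₀ then (1 : ℝ) else 0) := by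
        rfl
    rw [h5, h1, h2, ← h4, h3, F.appO_zero]
    have h6 : F.lw t x₀ (b :: l) (y 0) = ((if F.pw t l (y 0) = x₀ then (1 : ℝ) else 0) -
        (if F.a t (F.pw t l (y 0)) = x₀ then (1 : ℝ) else 0)) / F.w t (F.a t (F.pw t l (y 0))) +
          F.w t (F.pw t l (y 0)) / F.w t (F.a t (F.pw t l (y 0))) * F.lw t x₀ l (y 0) := by
      conv_lhs => unfold lw
    have h7 : F.dw t (b :: l) (y 0) =
      F.w t (F.pw t l (y 0)) / F.w t (F.a t (F.pw t l (y 0))) * F.dw t l (y 0) := rfl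
    rw [h6, h7]
    ring

theorem stb_appO_append (l m : List ℤ) (y : ℕ → Ci) :
    F.appO t (l ++ m) y = F.appO t l (F.appO t m y) := by
  unfold appO
  rw [List.foldr_append]

theorem stb_orb_zero (u : ℕ → ℤ) : F.orb t u 0 = F.xi t u := rfl

/-- a point of a typical orbit is not fixed by a word with derivative one -/
theorem no_fix (hG : F.Good t) (u : ℕ → ℤ) (hu : F.STyp t u) (l₀ l : List ℤ) (hl : l ≠ [])
    (x : Ci) (hx : x = F.pw t l₀ (F.xi t u)) (hfix : F.pw t l x = x) (hd : F.dw t l x = 1)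
    (h : ∀ m : List ℤ, m.length < l.length → m <:+ l → m ≠ [] → F.a t (F.pw t m x) ≠ x) :
    False := by
  obtain ⟨p₁, h1⟩ := F.typ_app t u hu l₀
  obtain ⟨p₂, h2⟩ := F.typ_app t u hu (l ++ l₀)
  have h3 := F.isOrbit_app t u hu l₀
  have h4 := F.isOrbit_app t u hu (l ++ l₀)
  have h5 : F.appO t l₀ (F.orb t u) 0 = x := by rw [F.appO_zero, stb_orb_zero, hx]
  have h6 : F.appO t (l ++ l₀) (F.orb t u) 0 = x := by
    rw [F.appO_zero, stb_orb_zero, stb_pw_append, ← hx, hfix]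
  have h7 := hG (max p₁ p₂) _ _ _ _ h4 h3 (h2.mono (le_max_right _ _))
    (h1.mono (le_max_left _ _)) (h6.trans h5.symm) x
  rw [stb_appO_append, F.At_app, h5, hd, one_mul] at h7
  · have h8 := F.lw_pos t x l hl h
    linarith
  · intro m _
    obtain ⟨p, hp⟩ := F.typ_app t u hu (m ++ l₀)
    rw [← stb_appO_append]
    exact F.coef_summable t p _ hp.t2

/-- no short relation of the type `l` -/
def PQR (l : List ℤ) (x : Ci) : Prop :=
  F.pw t l x ≠ x ∧ F.pw t l (F.a t x) ≠ x ∧ F.a t (F.pw t l x) ≠ x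

theorem ae_nu_iff (p : Ci → Prop) :
    (∀ᵐ x ∂F.nu t, p x) ↔ (∀ᵐ x ∂F.eta t, p x) ∧ ∀ᵐ x ∂(F.eta t).map (F.a t), p x := by
  unfold nu
  rw [ae_add_measure_iff, Measure.ae_ennreal_smul_measure_iff (by simp),
    Measure.ae_ennreal_smul_measure_iff (by simp)]

theorem ae_nu_rot (c : ℤ) (p : Ci → Prop) (h : ∀ᵐ x ∂F.nu t, p x) :
    ∀ᵐ x ∂F.nu t, p (F.rot c x) :=
  ae_of_ae_map (F.stb_continuous_rot c).measurable.aemeasurable ((F.nu_rot t c).ae_le h)

theorem ae_nu_a (p : Ci → Prop) (h : ∀ᵐ x ∂F.nu t, p x) :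
    ∀ᵐ x ∂F.nu t, p (F.a t x) := by
  refine ae_of_ae_map (F.stb_continuous_a t).measurable.aemeasurable ?_
  rwa [F.nu_a]

theorem ae_nu_pw (l : List ℤ) (p : Ci → Prop) (h : ∀ᵐ x ∂F.nu t, p x) :
    ∀ᵐ x ∂F.nu t, p (F.pw t l x) := by
  induction l generalizing p with
  | nil => exact h
  | cons b l ih =>
    exact ih (fun x => p (F.br t b x)) (F.ae_nu_a t (fun x => p (F.rot b x)) (F.ae_nu_rot t b p h))

theorem ae_pp (p : Ci → Prop) (h : ∀ᵐ x ∂F.nu t, p x) :
    ∀ᵐ u ∂PP, p (F.xi t u) ∧ p (F.a t (F.xi t u)) := by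
  obtain ⟨h1, h2⟩ := (F.ae_nu_iff t p).1 h
  have h3 : ∀ᵐ u ∂PP, p (F.xi t u) := ae_of_ae_map (F.xi_meas t).aemeasurable h1
  have h4 : ∀ᵐ x ∂F.eta t, p (F.a t x) :=
    ae_of_ae_map (F.stb_continuous_a t).measurable.aemeasurable h2
  have h5 : ∀ᵐ u ∂PP, p (F.a t (F.xi t u)) := ae_of_ae_map (F.xi_meas t).aemeasurable h4
  exact h3.and h5

theorem ae_nu_of_pp (p : Ci → Prop) (hp : MeasurableSet {x | p x})
    (h : ∀ᵐ u ∂PP, p (F.xi t u) ∧ p (F.a t (F.xi t u))) : ∀ᵐ x ∂F.nu t, p x := by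
  rw [ae_nu_iff]
  constructor
  · unfold eta
    rw [ae_map_iff (F.xi_meas t).aemeasurable hp]
    exact h.mono fun _ h => h.1
  · rw [ae_map_iff (F.stb_continuous_a t).measurable.aemeasurable hp]
    unfold eta
    refine (ae_map_iff (F.xi_meas t).aemeasurable ((F.stb_continuous_a t).measurable hp)).2 ?_
    exact h.mono fun _ h => h.2

theorem Q_of_shorter (l : List ℤ) (hl : l ≠ []) (hb : ∀ b ∈ l, b ≠ 0)
    (h : ∀ᵐ x ∂F.nu t, ∀ m : List ℤ, m.length < l.length → m ≠ [] → (∀ b ∈ m, b ≠ 0) →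
      F.PQR t m x) : ∀ᵐ x ∂F.nu t, F.pw t l (F.a t x) ≠ x := by
  obtain ⟨b, l₁, rfl⟩ := List.exists_cons_of_ne_nil hl
  rcases List.eq_nil_or_concat l₁ with rfl | ⟨m, c, rfl⟩
  · refine Eventually.of_forall fun x hx => ?_
    rw [stb_pw_cons, stb_pw_nil, stb_br_eq, F.inv] at hx
    exact F.stb_rot_ne b (hb b (by simp)) x hx
  · have h1 := F.ae_nu_rot t c _ h
    filter_upwards [h1] with x hx hfix
    have hc : c ≠ 0 := hb c (by simp)
    set z : Ci := F.rot c x with hz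
    have h2 : F.rot (-c) z = x := by rw [hz, stb_rot_rot, neg_add_cancel, stb_rot_zero]
    have h3 : F.rot b (F.a t (F.pw t m z)) = F.rot (-c) z := by
      rw [h2]
      have h4 : F.pw t (b :: (m ++ [c])) (F.a t x) = F.rot b (F.a t (F.pw t m z)) := by
        rw [stb_pw_cons, stb_pw_append, stb_pw_cons, stb_pw_nil, stb_br_eq, stb_br_eq, F.inv]
      rw [← h4]
      simpa using hfix
    have h4 : F.rot (c + b) (F.a t (F.pw t m z)) = z := by
      rw [← stb_rot_rot, h3, stb_rot_rot, add_neg_cancel, stb_rot_zero]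
    rcases eq_or_ne (c + b) 0 with h5 | h5
    · rw [h5, stb_rot_zero] at h4
      rcases eq_or_ne m [] with rfl | hm
      · exact F.ne_self t z h4
      · exact (hx m (by simp) hm fun b' hb' => hb b' (by simp [hb'])).2.2 h4
    · refine (hx ((c + b) :: m) (by simp) (by simp) fun b' hb' => ?_).1 h4
      rcases List.mem_cons.1 hb' with rfl | hb'
      · exact h5
      · exact hb b' (by simp [hb'])

theorem P_of_shorter (hG : F.Good t) (l : List ℤ) (hl : l ≠ []) (hb : ∀ b ∈ l, b ≠ 0)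
    (h : ∀ᵐ x ∂F.nu t, ∀ m : List ℤ, m.length < l.length → m ≠ [] → (∀ b ∈ m, b ≠ 0) →
      F.PQR t m x) : ∀ᵐ x ∂F.nu t, F.pw t l x ≠ x := by
  have hclosed : IsClosed {x | F.pw t l x = x} :=
    isClosed_eq (F.stb_continuous_pw t l) continuous_id
  obtain ⟨V, D, hV, hD, hVD⟩ := exists_countable_union_perfect_of_isClosed hclosed
  have : NullSingletonClass (F.nu t) := ⟨F.nu_atom t⟩
  have h1 : ∀ᵐ x ∂F.nu t, x ∉ V := hV.ae_notMem _
  have h2 := F.ae_pp t _ (h.and h1)
  refine F.ae_nu_of_pp t _ hclosed.measurableSet.compl ?_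
  filter_upwards [h2, F.styp_ae t] with u hu1 hu2
  have h3 : ∀ (l₀ : List ℤ) (x : Ci), x = F.pw t l₀ (F.xi t u) →
      ((∀ m : List ℤ, m.length < l.length → m ≠ [] → (∀ b ∈ m, b ≠ 0) → F.PQR t m x) ∧ x ∉ V) →
        F.pw t l x ≠ x := by
    intro l₀ x hx hx1 hfix
    have h4 : x ∈ V ∪ D := by
      rw [← hVD]
      exact hfix
    have h5 : x ∈ D := h4.resolve_left hx1.2
    have h6 : AccPt x (𝓟 {y | F.pw t l y = y}) := by
      refine (hD.acc x h5).mono ?_
      rw [hVD]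
      exact principal_mono.2 Set.subset_union_right
    exact F.no_fix t hG u hu2 l₀ l hl x hx hfix (F.dw_eq_one t l x hfix h6)
      fun m hm hm' hm0 => (hx1.1 m hm hm0 fun b hb' => hb b (hm'.subset hb')).2.2
  exact ⟨h3 [] _ rfl hu1.1, h3 [0] _ (by rw [stb_pw_cons, stb_pw_nil, stb_br_zero]) hu1.2⟩

theorem pqr_ae (hG : F.Good t) (l : List ℤ) (hl : l ≠ []) (hb : ∀ b ∈ l, b ≠ 0) :
    ∀ᵐ x ∂F.nu t, F.PQR t l x := by
  induction hr : l.length using Nat.strong_induction_on generalizing l with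
  | _ r ih =>
    have h : ∀ᵐ x ∂F.nu t, ∀ m : List ℤ, m.length < l.length → m ≠ [] → (∀ b ∈ m, b ≠ 0) →
        F.PQR t m x := by
      rw [ae_all_iff]
      intro m
      by_cases h1 : m.length < l.length ∧ m ≠ [] ∧ ∀ b ∈ m, b ≠ 0
      · filter_upwards [ih m.length (hr ▸ h1.1) m h1.2.1 h1.2.2 rfl] with x hx _ _ _
        exact hx
      · refine Eventually.of_forall fun x h2 h3 h4 => absurd ⟨h2, h3, h4⟩ h1
    have hQ := F.Q_of_shorter t l hl hb h
    filter_upwards [F.P_of_shorter t hG l hl hb h, hQ, F.ae_nu_a t _ hQ] with x h1 h2 h3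
    refine ⟨h1, h2, fun h4 => h3 ?_⟩
    rw [F.inv, ← h4, F.inv]
    exact congrArg _ h4

theorem free_ae (hG : F.Good t) : ∀ᵐ x ∂F.nu t, F.Free t x := by
  unfold Free
  rw [ae_all_iff]
  intro l
  by_cases h1 : l ≠ [] ∧ ∀ b ∈ l, b ≠ 0
  · filter_upwards [F.pqr_ae t hG l h1.1 h1.2] with x hx _ _
    exact hx
  · exact Eventually.of_forall fun x h2 h3 => absurd ⟨h2, h3⟩ h1

theorem gseq_ae (hG : F.Good t) : ∀ᵐ u ∂PP, F.GSeq t u := by
  have h : ∀ᵐ u ∂PP, ∀ l : List ℤ, F.Free t (F.pw t l (F.xi t u)) := by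
    rw [ae_all_iff]
    intro l
    exact (F.ae_pp t _ (F.ae_nu_pw t l _ (F.free_ae t hG))).mono fun u hu => hu.1
  filter_upwards [h, F.styp_ae t] with u h1 h2
  exact ⟨h2, h1⟩

theorem gseq_sh (u : ℕ → ℤ) (h : F.GSeq t u) : F.GSeq t (sh u) := by
  refine ⟨F.styp_sh t u h.styp, fun l => ?_⟩
  have hc : F.Conv t (sh u) := (F.styp_sh t u h.styp).conv
  have h0 : scons (u 0) (sh u) = u := by
    funext n
    cases n <;> rfl
  have h1 : F.xi t u = F.br t (u 0) (F.xi t (sh u)) := by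
    rw [← F.xi_scons t (u 0) (sh u) hc, h0]
  have h2 : F.pw t l (F.xi t (sh u)) = F.pw t (l ++ [0, -u 0, 0]) (F.xi t u) := by
    rw [stb_pw_append, stb_pw_cons, stb_pw_cons, stb_pw_cons, stb_pw_nil, stb_br_zero,
      stb_br_zero, h1, stb_br_eq, stb_br_eq, F.inv,
      stb_rot_rot, neg_add_cancel, stb_rot_zero, F.inv]
  rw [h2]
  exact h.free _

theorem gseq_scons (u : ℕ → ℤ) (h : F.GSeq t u) (k : ℤ) (hk : k ≠ 0) :
    F.GSeq t (scons k u) := by
  refine ⟨F.styp_scons t u h.styp k hk, fun l => ?_⟩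
  rw [F.xi_scons t k u h.styp.conv]
  have h2 : F.pw t l (F.br t k (F.xi t u)) = F.pw t (l ++ [k]) (F.xi t u) := by
    rw [stb_pw_append, stb_pw_cons, stb_pw_nil]
  rw [h2]
  exact h.free _

end Fam

end Pool.Agent.ELM
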