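import Pool.Agent.ELM.Inj
import Pool.Agent.ELM.Stab

/-!
# ELM, row FRE: the maps `T` and `S = a T a` generate a free group (ping-pong)
-/

set_option autoImplicit false

namespace Pool.Agent.ELM

open Filter MeasureTheory Topology
open scoped ENNReal Pointwise

namespace Fam

variable (F : Fam)

/-- the points with a good code -/
def Om (t : Par) : Set Ci := {x | ∃ b : Bd, F.GSeq t b.2 ∧ x = F.cod t b}

theorem scons_sh74 {α : Type} (u : ℕ → α) : scons (u 0) (sh u) = u := by
  funext n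
  cases n <;> rfl

theorem rot_rot74 (k l : ℤ) (x : Ci) : F.rot k (F.rot l x) = F.rot (k + l) x := by
  unfold rot
  rw [add_assoc, ← AddCircle.coe_add]
  congr 2
  push_cast
  ring

theorem rot_zero74 (x : Ci) : F.rot 0 x = x := by
  unfold rot
  simp

theorem br_eq_rot74 (t : Par) (k : ℤ) (x : Ci) : F.br t k x = F.rot k (F.a t x) := rfl

/-- a good sequence and its first exponent -/
theorem xi_eq74 (t : Par) (u : ℕ → ℤ) (h : F.GSeq t u) :
    F.xi t u = F.rot (u 0) (F.a t (F.xi t (sh u))) := by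
  have h1 := F.isOrbit_orb t u h.styp.conv 0
  rw [orb_zero74, zero_add, orb_one74, br_eq_rot74] at h1
  exact h1

/-- the action of `T^s` on the points `xi u` -/
theorem rot_xi (t : Par) (s : ℤ) (u : ℕ → ℤ) (h : F.GSeq t u) (hs : u 0 + s ≠ 0) :
    F.GSeq t (scons (u 0 + s) (sh u)) ∧
      F.rot s (F.xi t u) = F.xi t (scons (u 0 + s) (sh u)) := by
  have hsh := F.gseq_sh t u h
  have hg := F.gseq_scons t (sh u) hsh (u 0 + s) hs
  refine ⟨hg, ?_⟩
  rw [F.xi_scons t (u 0 + s) (sh u) hsh.styp.conv, br_eq_rot74, F.xi_eq74 t u h, rot_rot74, add_comm]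

theorem rot_xi_zero (t : Par) (s : ℤ) (u : ℕ → ℤ) (h : F.GSeq t u) (hs : u 0 + s = 0) :
    F.rot s (F.xi t u) = F.a t (F.xi t (sh u)) := by
  rw [F.xi_eq74 t u h, rot_rot74, add_comm, hs, rot_zero74]

/-- the action of `T^s` on the points `a (xi u)` -/
theorem rot_axi (t : Par) (s : ℤ) (u : ℕ → ℤ) (h : F.GSeq t u) (hs : s ≠ 0) :
    F.GSeq t (scons s u) ∧ F.rot s (F.a t (F.xi t u)) = F.xi t (scons s u) :=
  ⟨F.gseq_scons t u h s hs, by rw [F.xi_scons t s u h.styp.conv, br_eq_rot74]⟩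

theorem om_xi (t : Par) (u : ℕ → ℤ) (h : F.GSeq t u) : F.xi t u ∈ F.Om t :=
  ⟨(true, u), h, by simp [cod]⟩

theorem om_axi (t : Par) (u : ℕ → ℤ) (h : F.GSeq t u) : F.a t (F.xi t u) ∈ F.Om t :=
  ⟨(false, u), h, by simp [cod]⟩

theorem om_cases (t : Par) {x : Ci} (hx : x ∈ F.Om t) :
    ∃ u, F.GSeq t u ∧ (x = F.xi t u ∨ x = F.a t (F.xi t u)) := by
  obtain ⟨⟨b, u⟩, h, rfl⟩ := hx
  refine ⟨u, h, ?_⟩
  cases b <;> simp [cod]

theorem om_a (t : Par) {x : Ci} (hx : x ∈ F.Om t) : F.a t x ∈ F.Om t := by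
  obtain ⟨u, h, rfl | rfl⟩ := F.om_cases t hx
  · exact F.om_axi t u h
  · rw [F.inv]
    exact F.om_xi t u h

theorem om_rot (t : Par) (s : ℤ) {x : Ci} (hx : x ∈ F.Om t) : F.rot s x ∈ F.Om t := by
  by_cases hs : s = 0
  · rw [hs, rot_zero74]
    exact hx
  obtain ⟨u, h, rfl | rfl⟩ := F.om_cases t hx
  · by_cases h0 : u 0 + s = 0
    · rw [F.rot_xi_zero t s u h h0]
      exact F.om_axi t _ (F.gseq_sh t u h)
    · rw [(F.rot_xi t s u h h0).2]
      exact F.om_xi t _ (F.rot_xi t s u h h0).1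
  · rw [(F.rot_axi t s u h hs).2]
    exact F.om_xi t _ (F.rot_axi t s u h hs).1

/-- the rotation on the good points -/
def rotP (t : Par) : Equiv.Perm (F.Om t) where
  toFun x := ⟨F.rot 1 x, F.om_rot t 1 x.2⟩
  invFun x := ⟨F.rot (-1) x, F.om_rot t (-1) x.2⟩
  left_inv x := Subtype.ext (by
    change F.rot (-1) (F.rot 1 x) = x
    rw [rot_rot74]
    exact F.rot_zero74 _)
  right_inv x := Subtype.ext (by
    change F.rot 1 (F.rot (-1) x) = x
    rw [rot_rot74]
    exact F.rot_zero74 _)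

/-- the involution on the good points -/
def aP (t : Par) : Equiv.Perm (F.Om t) where
  toFun x := ⟨F.a t x, F.om_a t x.2⟩
  invFun x := ⟨F.a t x, F.om_a t x.2⟩
  left_inv x := Subtype.ext (F.inv t x)
  right_inv x := Subtype.ext (F.inv t x)

/-- the generators on the good points -/
def genP (t : Par) (b : Bool) : Equiv.Perm (F.Om t) :=
  if b = true then F.rotP t else F.aP t * F.rotP t * F.aP t

theorem rotP_inv (t : Par) (x : F.Om t) : (((F.rotP t)⁻¹ x : F.Om t) : Ci) = F.rot (-1) x := rfl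

theorem aP_inv (t : Par) : (F.aP t)⁻¹ = F.aP t := rfl

theorem hom_coe (t : Par) (g : F2) : ∀ x : F.Om t,
    ((FreeGroup.lift (F.genP t) g x : F.Om t) : Ci) = F.hom t g x := by
  have hgen : ∀ (b : Bool) (x : F.Om t), ((F.genP t b x : F.Om t) : Ci) =
      F.hom t (FreeGroup.of b) x := by
    intro b x
    unfold hom
    rw [FreeGroup.lift_apply_of]
    cases b
    · change F.a t (F.rot 1 (F.a t x)) = F.a t (((F.θ : ℝ) : Ci) + F.a t x)
      unfold Fam.rot
      rw [Int.cast_one, one_mul, add_comm]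
    · change F.rot 1 x = ((F.θ : ℝ) : Ci) + x
      unfold Fam.rot
      rw [Int.cast_one, one_mul, add_comm]
  induction g using FreeGroup.induction_on with
  | C1 => intro x; rw [map_one, map_one]; rfl
  | of b => intro x; rw [FreeGroup.lift_apply_of]; exact hgen b x
  | inv_of b ih =>
    intro x
    rw [map_inv, map_inv]
    have h1 := ih ((FreeGroup.lift (F.genP t) (FreeGroup.of b))⁻¹ x)
    have h2 : FreeGroup.lift (F.genP t) (FreeGroup.of b)
        ((FreeGroup.lift (F.genP t) (FreeGroup.of b))⁻¹ x) = x := Equiv.apply_symm_apply _ x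
    rw [h2] at h1
    rw [h1]
    exact ((F.hom t (FreeGroup.of b)).symm_apply_apply _).symm
  | mul g g' ih ih' =>
    intro x
    rw [map_mul, map_mul, Equiv.Perm.mul_apply, ih, ih']
    rfl

/-- first exponent positive or negative -/
def XX (t : Par) (b : Bool) (s : ℤ) : Set (F.Om t) :=
  {x | ∃ u, F.GSeq t u ∧ 0 < s * u 0 ∧ (x : Ci) = if b = true then F.xi t u else F.a t (F.xi t u)}

theorem exists_gseq (t : Par) (hG : F.Good t) : ∃ u, F.GSeq t u := (F.gseq_ae t hG).exists

theorem xx_nonempty (t : Par) (hG : F.Good t) (b : Bool) : (F.XX t b 1).Nonempty := by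
  obtain ⟨u, hu⟩ := F.exists_gseq t hG
  have h := F.gseq_scons t u hu 1 one_ne_zero
  cases b
  · exact ⟨⟨_, F.om_axi t _ h⟩, scons 1 u, h, by change (0 : ℤ) < 1 * 1; norm_num, by simp⟩
  · exact ⟨⟨_, F.om_xi t _ h⟩, scons 1 u, h, by change (0 : ℤ) < 1 * 1; norm_num, by simp⟩

/-- the sets are disjoint -/
theorem xx_disj (t : Par) (hG : F.Good t) (b b' : Bool) (s s' : ℤ)
    (h : b ≠ b' ∨ s = -s') : Disjoint (F.XX t b s) (F.XX t b' s') := by
  rw [Set.disjoint_left]
  rintro x ⟨u, hu, hs, hx⟩ ⟨v, hv, hs', hx'⟩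
  rw [hx] at hx'
  have key : F.xi t u = F.xi t v → b = b' → False := by
    intro h1 h2
    have h3 := F.xi_inj t hG u v hu hv h1
    rcases h with h | h
    · exact h h2
    · rw [h3, h] at hs
      nlinarith
  cases b <;> cases b' <;> simp only [Bool.false_eq_true, if_true, if_false] at hx'
  · exact key (by rw [← F.inv t (F.xi t u), hx', F.inv]) rfl
  · exact F.xi_ne t hG v u hv hu hx'.symm
  · exact F.xi_ne t hG u v hu hv hx'
  · exact key hx' rfl

/-- `T^s` sends everything outside the points with negative first exponent to points with positive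
first exponent -/
theorem rot_xx (t : Par) (s : ℤ) (hs : s = 1 ∨ s = -1) (x : F.Om t)
    (hx : x ∉ F.XX t true (-s)) (y : F.Om t) (hy : (y : Ci) = F.rot s x) : y ∈ F.XX t true s := by
  have hs0 : s ≠ 0 := by rcases hs with rfl | rfl <;> norm_num
  obtain ⟨u, h, hu | hu⟩ := F.om_cases t x.2
  · have h1 : 0 < s * u 0 := by
      by_contra h2
      refine hx ⟨u, h, ?_, by simp [hu]⟩
      have h3 : s * u 0 ≠ 0 := mul_ne_zero hs0 (h.styp.ne 0)
      have h4 : s * u 0 < 0 := lt_of_le_of_ne (not_lt.1 h2) h3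
      linarith [neg_mul s (u 0)]
    have h2 : 0 < s * (u 0 + s) := by
      have : 0 < s * s := by rcases hs with rfl | rfl <;> norm_num
      nlinarith
    have h3 : u 0 + s ≠ 0 := by
      intro h4
      rw [h4, mul_zero] at h2
      exact lt_irrefl _ h2
    refine ⟨scons (u 0 + s) (sh u), (F.rot_xi t s u h h3).1, h2, ?_⟩
    rw [if_pos rfl, hy, hu, (F.rot_xi t s u h h3).2]
  · refine ⟨scons s u, (F.rot_axi t s u h hs0).1, ?_, ?_⟩
    · change 0 < s * s
      rcases hs with rfl | rfl <;> norm_num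
    · rw [if_pos rfl, hy, hu, (F.rot_axi t s u h hs0).2]

theorem a_xx (t : Par) (s : ℤ) (x : F.Om t) :
    F.aP t x ∈ F.XX t true s ↔ x ∈ F.XX t false s := by
  constructor
  · rintro ⟨u, h, hs, hx⟩
    refine ⟨u, h, hs, ?_⟩
    rw [if_pos rfl] at hx
    rw [if_neg (by simp), ← hx]
    exact (F.inv t x).symm
  · rintro ⟨u, h, hs, hx⟩
    refine ⟨u, h, hs, ?_⟩
    rw [if_neg (by simp)] at hx
    rw [if_pos rfl]
    change F.a t x = _
    rw [hx, F.inv]

theorem hom_inj (t : Par) (hG : F.Good t) : Function.Injective (F.hom t) := by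
  have hP : Function.Injective (FreeGroup.lift (F.genP t)) := by
    refine FreeGroup.injective_lift_of_ping_pong (α := F.Om t) (F.genP t)
      (fun b => F.XX t b 1) (fun b => F.XX t b (-1)) ?_ ?_ ?_ ?_ ?_ ?_
    · exact fun b => F.xx_nonempty t hG b
    · exact fun b b' h => F.xx_disj t hG b b' 1 1 (Or.inl h)
    · exact fun b b' h => F.xx_disj t hG b b' (-1) (-1) (Or.inl h)
    · intro b b'
      exact F.xx_disj t hG b b' 1 (-1) (Or.inr (by norm_num))
    · intro b
      rintro y ⟨x, hx, rfl⟩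
      cases b
      · change F.aP t (F.rotP t (F.aP t x)) ∈ F.XX t false 1
        rw [← F.a_xx]
        have h1 : F.aP t (F.aP t (F.rotP t (F.aP t x))) = F.rotP t (F.aP t x) :=
          Subtype.ext (F.inv t _)
        rw [h1]
        refine F.rot_xx t 1 (Or.inl rfl) (F.aP t x) ?_ _ rfl
        rw [F.a_xx]
        exact hx
      · change F.rotP t x ∈ F.XX t true 1
        exact F.rot_xx t 1 (Or.inl rfl) x hx _ rfl
    · intro b
      rintro y ⟨x, hx, rfl⟩
      cases b
      · change F.aP t ((F.rotP t)⁻¹ (F.aP t x)) ∈ F.XX t false (-1)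
        rw [← F.a_xx]
        have h1 : F.aP t (F.aP t ((F.rotP t)⁻¹ (F.aP t x))) = (F.rotP t)⁻¹ (F.aP t x) :=
          Subtype.ext (F.inv t _)
        rw [h1]
        refine F.rot_xx t (-1) (Or.inr rfl) (F.aP t x) ?_ _ (F.rotP_inv t _)
        rw [neg_neg, F.a_xx]
        exact hx
      · change (F.rotP t)⁻¹ x ∈ F.XX t true (-1)
        exact F.rot_xx t (-1) (Or.inr rfl) x (by rw [neg_neg]; exact hx) _ (F.rotP_inv t _)
  intro g g' h
  refine hP ?_
  ext x
  rw [F.hom_coe t g, F.hom_coe t g', h]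

end Fam

end Pool.Agent.ELM
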