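import Pool.Agent.ELM.Uniq
import Pool.Agent.ELM.Visit

/-! # ELM: contraction in mean -/

set_option autoImplicit false

namespace Pool.Agent.ELM

open Filter MeasureTheory Topology
open scoped ENNReal

theorem kapf_toReal (k : ℤ) : (kapf k).toReal = wt k := by
  unfold kapf wt
  split_ifs
  · simp
  · simp

theorem tsum_wt_ind (s : Set ℤ) :
    ∑' k, wt k * s.indicator (fun _ => (1 : ℝ)) k = (kap.toMeasure s).toReal := by
  rw [PMF.toMeasure_apply _ MeasurableSet.of_discrete, ENNReal.tsum_toReal_eq]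
  · refine tsum_congr fun k => ?_
    by_cases h : k ∈ s
    · rw [Set.indicator_of_mem h, Set.indicator_of_mem h, mul_one]
      exact (kapf_toReal k).symm
    · rw [Set.indicator_of_notMem h, Set.indicator_of_notMem h, mul_zero]
      simp
  · intro k
    by_cases h : k ∈ s
    · rw [Set.indicator_of_mem h]
      exact PMF.apply_ne_top _ _
    · rw [Set.indicator_of_notMem h]
      exact ENNReal.zero_ne_top

namespace Fam

variable (F : Fam) (t : Par)

theorem zpow_a (k : ℤ) (x : Ci) :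
    (Pool.Agent.ELM.rot F.θ ^ k : Homeo) (F.aH t x) = F.br t k x := by
  rw [rot_zpow, rot_apply]
  exact add_comm _ _

theorem dist_br (k : ℤ) (x y : Ci) : dist (F.br t k x) (F.br t k y) = dist (F.a t x) (F.a t y) := by
  unfold br
  exact dist_add_right _ _ _

/-- the next pair meets `U` -/
def hit (x y : Ci) : Set ℤ := {k | F.br t k x ∈ F.U ∨ F.br t k y ∈ F.U}

theorem hit_good (x y : Ci) (hx : x ∉ F.U) (hy : y ∉ F.U) :
    (kap.toMeasure (F.hit t x y)).toReal ≤ 1 / 1000 := by
  have h1 : kap.toMeasure (F.hit t x y) ≤ 1 / 3 ^ 14 + 1 / 3 ^ 14 := by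
    have : F.hit t x y = {k | F.br t k x ∈ F.U} ∪ {k | F.br t k y ∈ F.U} := rfl
    rw [this]
    exact (measure_union_le _ _).trans (add_le_add (F.visit_good t x hx) (F.visit_good t y hy))
  have h2 : (1 / 3 ^ 14 + 1 / 3 ^ 14 : ℝ≥0∞) = ENNReal.ofReal (2 / 3 ^ 14) := by
    rw [ENNReal.ofReal_div_of_pos (by positivity)]
    rw [ENNReal.ofReal_pow (by norm_num)]
    norm_num
    rw [← two_mul, ENNReal.div_eq_inv_mul, mul_comm]
  rw [h2] at h1
  refine (ENNReal.toReal_le_of_le_ofReal (by positivity) h1).trans ?_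
  norm_num

theorem hit_bad (x y : Ci) : (kap.toMeasure (F.hit t x y)).toReal ≤ 2 / 3 + 1 / 1000 := by
  have h1 : kap.toMeasure (F.hit t x y) ≤ (1 / 3 + 1 / 3 ^ 14) + (1 / 3 + 1 / 3 ^ 14) := by
    have : F.hit t x y = {k | F.br t k x ∈ F.U} ∪ {k | F.br t k y ∈ F.U} := rfl
    rw [this]
    exact (measure_union_le _ _).trans (add_le_add (F.visit_bad t x) (F.visit_bad t y))
  have h3 : (1 / 3 + 1 / 3 ^ 14 : ℝ≥0∞) = ENNReal.ofReal (1 / 3 + 1 / 3 ^ 14) := by
    rw [ENNReal.ofReal_add (by positivity) (by positivity),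
      ENNReal.ofReal_div_of_pos (by positivity), ENNReal.ofReal_div_of_pos (by positivity),
      ENNReal.ofReal_pow (by norm_num)]
    norm_num
  rw [h3, ← ENNReal.ofReal_add (by positivity) (by positivity)] at h1
  refine (ENNReal.toReal_le_of_le_ofReal (by positivity) h1).trans ?_
  norm_num

/-- the exponent -/
noncomputable def al : ℝ := Real.log (9 / 10) / Real.log (F.q ^ 100)

theorem q100 : F.q ^ 100 ≤ 9 / 10 := by
  calc F.q ^ 100 ≤ (1 / 2) ^ 100 := pow_le_pow_left₀ F.q_pos.le F.q_le 100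
    _ ≤ 9 / 10 := by norm_num

theorem log_q : Real.log (F.q ^ 100) < 0 :=
  Real.log_neg (pow_pos F.q_pos _) (F.q100.trans_lt (by norm_num))

theorem al_pos : 0 < F.al :=
  div_pos_of_neg_of_neg (Real.log_neg (by norm_num) (by norm_num)) F.log_q

theorem al_le : F.al ≤ 1 := by
  unfold al
  rw [div_le_one_of_neg F.log_q]
  exact Real.log_le_log (pow_pos F.q_pos _) F.q100

theorem q_al : (F.q ^ 100) ^ F.al = 9 / 10 := by
  rw [Real.rpow_def_of_pos (pow_pos F.q_pos _), al, mul_div_cancel₀ _ F.log_q.ne,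
    Real.exp_log (by norm_num)]

open Classical in
/-- the Lyapunov function -/
noncomputable def lya (x y : Ci) : ℝ := (if x ∈ F.U ∨ y ∈ F.U then 7 else 1) * dist x y ^ F.al

theorem lya_nonneg (x y : Ci) : 0 ≤ F.lya x y := by
  unfold lya
  have : 0 ≤ dist x y ^ F.al := Real.rpow_nonneg dist_nonneg _
  split_ifs <;> positivity

theorem dist_le_lya (x y : Ci) : dist x y ≤ F.lya x y := by
  have h0 : 0 ≤ dist x y ^ F.al := Real.rpow_nonneg dist_nonneg _
  have h1 : dist x y ≤ dist x y ^ F.al := by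
    rcases (dist_nonneg (x := x) (y := y)).eq_or_lt with h | h
    · rw [← h]
      exact Real.rpow_nonneg le_rfl _
    · conv_lhs => rw [← Real.rpow_one (dist x y)]
      exact Real.rpow_le_rpow_of_exponent_ge h (dist_le_one x y) F.al_le
  unfold lya
  split_ifs <;> linarith

theorem lya_le (x y : Ci) : F.lya x y ≤ 7 := by
  have h0 : dist x y ^ F.al ≤ 1 := Real.rpow_le_one dist_nonneg (dist_le_one x y) F.al_pos.le
  unfold lya
  split_ifs <;> linarith

theorem tsum_lya (x y : Ci) : ∑' k, wt k * F.lya (F.br t k x) (F.br t k y) =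
    dist (F.a t x) (F.a t y) ^ F.al * (1 + 6 * (kap.toMeasure (F.hit t x y)).toReal) := by
  classical
  have h1 : ∀ k, wt k * F.lya (F.br t k x) (F.br t k y) = dist (F.a t x) (F.a t y) ^ F.al *
      (wt k + 6 * (wt k * (F.hit t x y).indicator (fun _ => (1 : ℝ)) k)) := by
    intro k
    unfold lya
    rw [F.dist_br]
    by_cases h : k ∈ F.hit t x y
    · have h' : F.br t k x ∈ F.U ∨ F.br t k y ∈ F.U := h
      rw [Set.indicator_of_mem h, if_pos h']
      ring
    · have h' : ¬ (F.br t k x ∈ F.U ∨ F.br t k y ∈ F.U) := h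
      rw [Set.indicator_of_notMem h, if_neg h']
      ring
  have hb : ∀ k, |(F.hit t x y).indicator (fun _ => (1 : ℝ)) k| ≤ 1 := by
    intro k
    by_cases h : k ∈ F.hit t x y
    · rw [Set.indicator_of_mem h]
      simp
    · rw [Set.indicator_of_notMem h]
      simp
  rw [tsum_congr h1, tsum_mul_left, summable_wt.tsum_add ((summable_wt_mul hb).mul_left 6),
    tsum_mul_left, tsum_wt_ind, hasSum_wt.tsum_eq]

theorem lya_step (x y : Ci) :
    ∑' k, wt k * F.lya (F.br t k x) (F.br t k y) ≤ 91 / 100 * F.lya x y := by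
  classical
  rw [tsum_lya]
  have hd : 0 ≤ dist x y ^ F.al := Real.rpow_nonneg dist_nonneg _
  have hp : 0 ≤ (kap.toMeasure (F.hit t x y)).toReal := ENNReal.toReal_nonneg
  have hq : 0 < F.q ^ 100 := pow_pos F.q_pos _
  by_cases h : x ∈ F.U ∨ y ∈ F.U
  · have h1 : dist (F.a t x) (F.a t y) ^ F.al ≤ 100 / 81 * dist x y ^ F.al := by
      have h2 : dist (F.a t x) (F.a t y) ≤ F.q⁻¹ ^ 200 * dist x y := by
        rw [dist_eq_norm, dist_eq_norm]
        exact F.lip t x y
      refine (Real.rpow_le_rpow dist_nonneg h2 F.al_pos.le).trans ?_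
      have hqi : 0 ≤ F.q⁻¹ ^ 200 := pow_nonneg (inv_nonneg.2 F.q_pos.le) _
      rw [Real.mul_rpow hqi dist_nonneg]
      have h3 : (F.q⁻¹ ^ 200) ^ F.al = 100 / 81 := by
        have h4 : F.q⁻¹ ^ 200 = ((F.q ^ 100)⁻¹) ^ 2 := by
          rw [← inv_pow, ← pow_mul]
        rw [h4, ← Real.rpow_natCast, ← Real.rpow_mul (inv_nonneg.2 hq.le), mul_comm,
          Real.rpow_mul (inv_nonneg.2 hq.le), Real.inv_rpow hq.le, q_al]
        norm_num
      rw [h3]
    have h5 : F.lya x y = 7 * dist x y ^ F.al := by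
      unfold lya
      rw [if_pos h]
    have h6 := F.hit_bad t x y
    rw [h5]
    calc dist (F.a t x) (F.a t y) ^ F.al * (1 + 6 * (kap.toMeasure (F.hit t x y)).toReal) ≤
          (100 / 81 * dist x y ^ F.al) * (1 + 6 * (2 / 3 + 1 / 1000)) := by
          refine mul_le_mul h1 (by linarith) (by positivity) (by positivity)
      _ ≤ 91 / 100 * (7 * dist x y ^ F.al) := by nlinarith
  · have hx : x ∉ F.U := fun hx => h (Or.inl hx)
    have hy : y ∉ F.U := fun hy => h (Or.inr hy)
    have h1 : dist (F.a t x) (F.a t y) ^ F.al ≤ 9 / 10 * dist x y ^ F.al := by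
      have h2 : dist (F.a t x) (F.a t y) ≤ F.q ^ 100 * dist x y := by
        rw [dist_eq_norm, dist_eq_norm]
        exact F.contr t x y hx hy
      refine (Real.rpow_le_rpow dist_nonneg h2 F.al_pos.le).trans ?_
      rw [Real.mul_rpow hq.le dist_nonneg, q_al]
    have h5 : F.lya x y = dist x y ^ F.al := by
      unfold lya
      rw [if_neg h, one_mul]
    have h6 := F.hit_good t x y hx hy
    rw [h5]
    calc dist (F.a t x) (F.a t y) ^ F.al * (1 + 6 * (kap.toMeasure (F.hit t x y)).toReal) ≤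
          (9 / 10 * dist x y ^ F.al) * (1 + 6 * (1 / 1000)) := by
          refine mul_le_mul h1 (by linarith) (by positivity) (by positivity)
      _ ≤ 91 / 100 * dist x y ^ F.al := by nlinarith

theorem contr_le (n : ℕ) (x y : Ci) :
    Pool.Agent.ELM.contr (Pool.Agent.ELM.rot F.θ) (F.aH t) n x y ≤ (91 / 100) ^ n * F.lya x y := by
  induction n generalizing x y with
  | zero =>
    rw [Pool.Agent.ELM.contr, pow_zero, one_mul]
    exact F.dist_le_lya x y
  | succ n ih =>
    rw [Pool.Agent.ELM.contr]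
    have h1 : ∀ k : ℤ, |(91 / 100) ^ n * F.lya (F.br t k x) (F.br t k y)| ≤ 7 := by
      intro k
      rw [abs_of_nonneg (mul_nonneg (by positivity) (F.lya_nonneg _ _))]
      have h2 : ((91 : ℝ) / 100) ^ n ≤ 1 := pow_le_one₀ (by norm_num) (by norm_num)
      calc (91 / 100) ^ n * F.lya (F.br t k x) (F.br t k y) ≤ 1 * 7 :=
            mul_le_mul h2 (F.lya_le _ _) (F.lya_nonneg _ _) zero_le_one
        _ = 7 := one_mul _
    calc ∑' k : ℤ, wt k * Pool.Agent.ELM.contr (Pool.Agent.ELM.rot F.θ) (F.aH t) n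
          ((Pool.Agent.ELM.rot F.θ ^ k : Homeo) (F.aH t x))
          ((Pool.Agent.ELM.rot F.θ ^ k : Homeo) (F.aH t y)) ≤
          ∑' k : ℤ, wt k * ((91 / 100) ^ n * F.lya (F.br t k x) (F.br t k y)) := by
          refine tsum_wt_mono (fun k => abs_contr_le _ _ _ _ _) h1 fun k => ?_
          rw [F.zpow_a, F.zpow_a]
          exact ih _ _
      _ = (91 / 100) ^ n * ∑' k : ℤ, wt k * F.lya (F.br t k x) (F.br t k y) := by
          rw [← tsum_mul_left]
          refine tsum_congr fun k => ?_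
          ring
      _ ≤ (91 / 100) ^ n * (91 / 100 * F.lya x y) :=
          mul_le_mul_of_nonneg_left (F.lya_step t x y) (by positivity)
      _ = (91 / 100) ^ (n + 1) * F.lya x y := by ring

/-- **contraction in mean** -/
theorem contr_tendsto (x y : Ci) :
    Tendsto (fun n => Pool.Agent.ELM.contr (Pool.Agent.ELM.rot F.θ) (F.aH t) n x y) atTop (𝓝 0) := by
  have h0 : ∀ n (x y : Ci), 0 ≤ Pool.Agent.ELM.contr (Pool.Agent.ELM.rot F.θ) (F.aH t) n x y := by
    intro n
    induction n with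
    | zero =>
      intro x y
      rw [Pool.Agent.ELM.contr]
      exact dist_nonneg
    | succ n ih =>
      intro x y
      rw [Pool.Agent.ELM.contr]
      exact tsum_nonneg fun k => mul_nonneg (wt_nonneg k) (ih _ _)
  have h1 : Tendsto (fun n : ℕ => ((91 : ℝ) / 100) ^ n * F.lya x y) atTop (𝓝 0) := by
    have h := (tendsto_pow_atTop_nhds_zero_of_lt_one (r := (91 : ℝ) / 100) (by norm_num)
      (by norm_num)).mul_const (F.lya x y)
    rwa [zero_mul] at h
  exact squeeze_zero (fun n => h0 n x y) (fun n => F.contr_le t n x y) h1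

theorem mix_aH_mul : F.aH t * F.aH t = 1 := by
  ext x
  exact F.inv t x

/-- uniqueness of the stationary probability -/
theorem stat_unique' {ν ν' : Measure Ci} (hν : IsProbabilityMeasure ν)
    (hν' : IsProbabilityMeasure ν')
    (hs : Stat4 (Pool.Agent.ELM.rot F.θ) (F.aH t * Pool.Agent.ELM.rot F.θ * F.aH t) ν)
    (hs' : Stat4 (Pool.Agent.ELM.rot F.θ) (F.aH t * Pool.Agent.ELM.rot F.θ * F.aH t) ν') :
    ν' = ν :=
  stat_unique (F.mix_aH_mul t) (F.contr_tendsto t) hν hν' hs hs'

end Fam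

end Pool.Agent.ELM
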