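import Pool.Agent.ELM.Assemble

/-!
# ELM, row NEL: the group generated by an irrational rotation and a good diffeomorphism which does
not commute with it preserves no probability measure
-/

set_option autoImplicit false

namespace Pool.Agent.ELM

open Filter MeasureTheory Topology Set
open scoped ENNReal

/-- A probability measure which is invariant under an irrational rotation is invariant under all
rotations. -/
theorem inv_all {θ : ℝ} (hθ : Irrational θ) {m : Measure UnitAddCircle} [IsProbabilityMeasure m]
    (h : ∀ k : ℤ, m.map (rot θ ^ k : Homeo) = m) (c : UnitAddCircle) :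
    m.map (fun x => c + x) = m := by
  have hm : IsProbabilityMeasure (m.map fun x => c + x) :=
    Measure.isProbabilityMeasure_map (by fun_prop)
  refine ext_of_forall_integral_eq_of_IsFiniteMeasure fun f => ?_
  rw [integral_map (by fun_prop) (by fun_prop)]
  have hcont : Continuous fun c : UnitAddCircle => ∫ x, f (c + x) ∂m := by
    refine continuous_of_dominated (bound := fun _ => ‖f‖) ?_ ?_ ?_ ?_
    · intro c
      fun_prop
    · exact fun c => Eventually.of_forall fun x => f.norm_coe_le_norm _
    · exact integrable_const _
    · exact Eventually.of_forall fun x => by fun_prop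
  have hd : DenseRange (fun k : ℤ => k • (θ : UnitAddCircle)) := by
    rw [AddCircle.denseRange_zsmul_coe_iff, div_one]
    exact hθ
  have heq : (fun c : UnitAddCircle => ∫ x, f (c + x) ∂m) = fun _ => ∫ x, f x ∂m := by
    refine hd.equalizer hcont continuous_const ?_
    funext k
    simp only [Function.comp]
    have h1 := h k
    rw [rot_zpow] at h1
    conv_rhs => rw [← h1]
    rw [integral_map (Homeomorph.continuous _).aemeasurable (by fun_prop)]
    refine integral_congr_ae (Eventually.of_forall fun x => ?_)
    show f (k • (θ : UnitAddCircle) + x) = f (rot (k * θ) x)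
    rw [rot_apply, ← AddCircle.coe_zsmul, zsmul_eq_mul]
  exact congr_fun heq c

/-- ... so it is the Lebesgue measure. -/
theorem eq_volume {θ : ℝ} (hθ : Irrational θ) {m : Measure UnitAddCircle} [IsProbabilityMeasure m]
    (h : ∀ k : ℤ, m.map (rot θ ^ k : Homeo) = m) : m = volume := by
  have : m.IsAddLeftInvariant := ⟨fun c => inv_all hθ h c⟩
  have : m.IsAddHaarMeasure :=
    Measure.isAddHaarMeasure_of_isCompact_nonempty_interior m univ isCompact_univ
      (by simp) (by simp) (by simp)
  have : IsProbabilityMeasure (volume : Measure UnitAddCircle) := ⟨UnitAddCircle.measure_univ⟩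
  exact Measure.isAddHaarMeasure_eq_of_isProbabilityMeasure m volume

/-- A good diffeomorphism which preserves the Lebesgue measure expands. -/
theorem one_le_of_volume {g : Homeo} {F F' : ℝ → ℝ} {m M C : ℝ} (hF : GoodLift g F F' m M C)
    (hg : (volume : Measure UnitAddCircle).map g = volume) (x : ℝ) : 1 ≤ F' x := by
  have key : ∀ u v : ℝ, u ≤ v → v - u ≤ 1 → v - u ≤ F v - F u := by
    intro u v huv hv
    set B : Set UnitAddCircle := Metric.closedBall (((u + v) / 2 : ℝ) : UnitAddCircle)
      ((v - u) / 2) with hB
    have h1 : g '' B ⊆ Metric.closedBall (((F u + F v) / 2 : ℝ) : UnitAddCircle)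
        ((F v - F u) / 2) := by
      rintro _ ⟨z, hz, rfl⟩
      rw [hB, Metric.mem_closedBall, dist_eq_norm] at hz
      set h : ℝ := rep (z - (((u + v) / 2 : ℝ) : UnitAddCircle)) with hh
      have hz2 : z = (((u + v) / 2 + h : ℝ) : UnitAddCircle) := by
        rw [AddCircle.coe_add, hh, coe_rep, add_sub_cancel]
      have hh2 : |h| ≤ (v - u) / 2 := by rwa [hh, abs_rep]
      rw [abs_le] at hh2
      have hm := hF.strictMono.monotone
      have h3 : F u ≤ F ((u + v) / 2 + h) := hm (by linarith [hh2.1])
      have h4 : F ((u + v) / 2 + h) ≤ F v := hm (by linarith [hh2.2])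
      rw [hz2, ← hF.lift, Metric.mem_closedBall, dist_eq_norm, ← AddCircle.coe_sub]
      refine le_trans ?_ (show |F ((u + v) / 2 + h) - (F u + F v) / 2| ≤ (F v - F u) / 2 by
        rw [abs_le]; constructor <;> linarith)
      rw [UnitAddCircle.norm_eq]
      simpa using round_le (F ((u + v) / 2 + h) - (F u + F v) / 2) 0
    have h2 : volume (g '' B) = volume B := by
      have hBc : IsClosed (g '' B) := g.isClosedMap _ Metric.isClosed_closedBall
      conv_lhs => rw [← hg]
      rw [Measure.map_apply g.continuous.measurable hBc.measurableSet,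
        preimage_image_eq _ g.injective]
    have h3 : volume B ≤ ENNReal.ofReal (F v - F u) := by
      rw [← h2]
      refine (measure_mono h1).trans ?_
      rw [AddCircle.volume_closedBall]
      refine ENNReal.ofReal_le_ofReal ((min_le_right _ _).trans (le_of_eq ?_))
      ring
    rw [hB, AddCircle.volume_closedBall, ENNReal.ofReal_le_ofReal_iff] at h3
    · rwa [min_eq_right (by linarith), show 2 * ((v - u) / 2) = v - u by ring] at h3
    · linarith [hF.strictMono.monotone huv]
  have h1 := (hF.hasDeriv x).tendsto_slope_zero_right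
  refine ge_of_tendsto h1 ?_
  filter_upwards [Ioc_mem_nhdsGT (zero_lt_one' ℝ)] with t ht
  have h2 := key x (x + t) (by linarith [ht.1]) (by linarith [ht.2])
  rw [add_sub_cancel_left] at h2
  rw [smul_eq_mul, ← div_eq_inv_mul, le_div_iff₀ ht.1, one_mul]
  exact h2

/-- A good diffeomorphism which preserves the Lebesgue measure is a rotation. -/
theorem rot_of_volume {g : Homeo} (hg : IsGood g)
    (h : (volume : Measure UnitAddCircle).map g = volume) : ∃ c : ℝ, g = rot c := by
  obtain ⟨F, F', m, M, C, hF⟩ := hg
  obtain ⟨H, h1, h2, hH⟩ := hF.inv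
  have h' : (volume : Measure UnitAddCircle).map (g⁻¹ : Homeo) = volume := by
    conv_lhs => rw [← h]
    rw [Measure.map_map (Homeomorph.continuous _).measurable g.continuous.measurable]
    have : (((g⁻¹ : Homeo) : UnitAddCircle → UnitAddCircle) ∘ g) = id := by
      funext x
      exact g.symm_apply_apply x
    rw [this, Measure.map_id]
  have hone : ∀ x, F' x = 1 := by
    intro x
    refine le_antisymm ?_ (one_le_of_volume hF h x)
    have h3 := one_le_of_volume hH h' (F x)
    rw [h2, one_le_inv₀ (hF.pos' x)] at h3
    exact h3
  have hconst : ∀ x, F x = F 0 + x := by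
    intro x
    have hd : ∀ y, HasDerivAt (fun y => F y - y) 0 y := by
      intro y
      have h3 := (hF.hasDeriv y).sub (hasDerivAt_id y)
      rw [hone y, sub_self] at h3
      exact h3
    have h3 := is_const_of_deriv_eq_zero (fun y => (hd y).differentiableAt)
      (fun y => (hd y).deriv) x 0
    simp only [sub_zero] at h3
    linarith
  refine ⟨F 0, ?_⟩
  ext x
  obtain ⟨y, rfl⟩ := QuotientAddGroup.mk_surjective x
  rw [rot_apply]
  have h4 := hF.lift y
  rw [hconst, AddCircle.coe_add] at h4
  exact h4.symm

/-- **Row NEL.** -/
theorem isNonElementary {θ : ℝ} (hθ : Irrational θ) {S : Homeo} (hS : IsGood S)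
    (hinj : Function.Injective (toHomeo (rot θ) S)) : IsNonElementary (Grp (rot θ) S) := by
  intro m hm
  by_contra hcon
  push Not at hcon
  have h1 : m = volume := eq_volume hθ fun k => hcon _ (Subgroup.zpow_mem _ (T_mem _ _) k)
  have h2 := hcon S (S_mem _ _)
  rw [h1] at h2
  obtain ⟨c, hc⟩ := rot_of_volume hS h2
  have h3 : rot θ * S = S * rot θ := by
    rw [hc]
    ext x
    show rot θ (rot c x) = rot c (rot θ x)
    rw [rot_apply, rot_apply, rot_apply, rot_apply, add_left_comm]
  have h4 : toHomeo (rot θ) S (FreeGroup.of true * FreeGroup.of false) =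
      toHomeo (rot θ) S (FreeGroup.of false * FreeGroup.of true) := by
    simpa [toHomeo] using h3
  have h5 := hinj h4
  exact absurd h5 (by decide)

end Pool.Agent.ELM
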