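import Pool.Agent.ELM.Lift

/-!
# ELM: Möbius transformations and their lifts to the finite covers of the circle

If a homeomorphism of the circle conjugates an irrational rotation and a homeomorphism `S` to
elements of the `k`-fold cover of `PGL₂(ℝ)`, then `S` itself is an element of the `j`-fold cover of
`PGL₂(ℝ)` for some `j ≥ 1`.
-/

set_option autoImplicit false

namespace Pool.Agent.ELM

open Filter MeasureTheory Topology
open scoped ComplexConjugate

/-- `g` is a lift, to the `k`-fold cover `x ↦ exp (2 π i k x)` of the unit circle, of a Möbius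
transformation `z ↦ (α z + β) / (conj β z + conj α)` which preserves the unit circle, that is an
element of the `k`-fold cover of `PGL₂(ℝ)` -/
def IsMoeb (k : ℕ) (g : Homeo) : Prop :=
  ∃ α β : ℂ, ‖α‖ ≠ ‖β‖ ∧ ∀ x : UnitAddCircle,
    fourier k (g x) * (conj β * fourier k x + conj α) = α * fourier k x + β

namespace Moeb

theorem norm_fourier (n : ℤ) (x : UnitAddCircle) : ‖fourier n x‖ = 1 := by
  rw [fourier_apply]
  exact Circle.norm_coe _

theorem fourier_ne_zero (n : ℤ) (x : UnitAddCircle) : fourier n x ≠ 0 := by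
  intro h
  have := norm_fourier n x
  rw [h, norm_zero] at this
  exact zero_ne_one this

theorem fourier_add_right (n : ℤ) (x y : UnitAddCircle) :
    fourier n (x + y) = fourier n x * fourier n y := by
  simp only [fourier_apply, smul_add, AddCircle.toCircle_add, Circle.coe_mul]

theorem mul_conj_of_norm {z : ℂ} (h : ‖z‖ = 1) : z * conj z = 1 := by
  rw [Complex.mul_conj, Complex.normSq_eq_norm_sq, h]
  norm_num

theorem den_ne {α β z : ℂ} (h : ‖α‖ ≠ ‖β‖) (hz : ‖z‖ = 1) : conj β * z + conj α ≠ 0 := by
  intro h0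
  have h1 : conj β * z = - conj α := by linear_combination h0
  have h2 := congrArg norm h1
  rw [norm_mul, hz, mul_one, norm_neg, RCLike.norm_conj, RCLike.norm_conj] at h2
  exact h h2.symm

theorem det_ne {α β : ℂ} (h : ‖α‖ ≠ ‖β‖) : α * conj α - β * conj β ≠ 0 := by
  rw [Complex.mul_conj, Complex.mul_conj, Complex.normSq_eq_norm_sq, Complex.normSq_eq_norm_sq]
  intro h0
  have h1 : ‖α‖ ^ 2 = ‖β‖ ^ 2 := by
    have := sub_eq_zero.1 h0
    exact_mod_cast this
  exact h ((sq_eq_sq₀ (norm_nonneg _) (norm_nonneg _)).1 h1)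

/-- `w = m z`, `w' = m z'`: the difference -/
theorem sub_eq {α β z z' w w' : ℂ} (h : w * (conj β * z + conj α) = α * z + β)
    (h' : w' * (conj β * z' + conj α) = α * z' + β) :
    (w - w') * ((conj β * z + conj α) * (conj β * z' + conj α)) =
      (α * conj α - β * conj β) * (z - z') := by
  linear_combination (conj β * z' + conj α) * h - (conj β * z + conj α) * h'

/-- dense orbits of an irrational rotation -/
theorem eq_of_rot {θ : ℝ} (hθ : Irrational θ) {E : Type*} [TopologicalSpace E] [T2Space E]
    {H : UnitAddCircle → E} (hH : Continuous H)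
    (h : ∀ x, H (x + (θ : UnitAddCircle)) = H x) (x y : UnitAddCircle) : H x = H y := by
  have h1 : DenseRange (fun k : ℤ => k • (θ : UnitAddCircle)) := by
    rw [AddCircle.denseRange_zsmul_coe_iff, div_one]
    exact hθ
  have h2 : ∀ (k : ℤ) (z : UnitAddCircle), H (k • (θ : UnitAddCircle) + z) = H z := by
    intro k z
    induction k using Int.induction_on with
    | zero => simp
    | succ n ih =>
      rw [← ih, ← h (((n : ℤ)) • (θ : UnitAddCircle) + z)]
      congr 1
      rw [add_smul, one_smul]
      abel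
    | pred n ih =>
      rw [← ih, ← h ((-(n : ℤ) - 1) • (θ : UnitAddCircle) + z)]
      congr 1
      rw [sub_smul, one_smul]
      abel
  have h3 : (fun z => H (z + y)) = fun _ => H y := by
    refine Continuous.ext_on h1 (hH.comp (continuous_id.add continuous_const)) continuous_const ?_
    rintro _ ⟨k, rfl⟩
    exact h2 k y
  have h4 := congrFun h3 (x - y)
  simpa using h4

/-- continuous eigenfunctions of an irrational rotation -/
theorem eigen {θ : ℝ} (hθ : Irrational θ) {G : UnitAddCircle → ℂ} (hG : Continuous G)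
    (h0 : ∀ x, G x ≠ 0) {c : ℂ} (h : ∀ x, G (x + (θ : UnitAddCircle)) = c * G x) :
    ∃ j : ℤ, ∀ x, G x = G 0 * fourier j x := by
  have h1 : ∀ x y, G (x + y) * G 0 = G x * G y := by
    intro x y
    have hc : c ≠ 0 := by
      intro hc
      have := h 0
      rw [hc, zero_mul] at this
      exact h0 _ this
    have h2 := eq_of_rot hθ (H := fun x => G (x + y) / G x)
      ((hG.comp (continuous_id.add continuous_const)).div hG h0) (by
        intro x
        show G (x + (θ : UnitAddCircle) + y) / G (x + (θ : UnitAddCircle)) = G (x + y) / G x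
        rw [add_right_comm, h, h, mul_div_mul_left _ _ hc]) x 0
    simp only [zero_add] at h2
    rw [div_eq_div_iff (h0 _) (h0 _)] at h2
    rw [h2]
    ring
  have h2 : ∃ n : ℤ, fourierCoeff G n ≠ 0 := by
    by_contra hcon
    push Not at hcon
    have h3 : fourierCoeff (⟨G, hG⟩ : C(UnitAddCircle, ℂ)) = 0 := funext hcon
    have h4 := has_pointwise_sum_fourier_series_of_summable (f := (⟨G, hG⟩ : C(UnitAddCircle, ℂ)))
      (by rw [h3]; exact summable_zero) 0
    rw [h3] at h4
    simp only [Pi.zero_apply, zero_smul] at h4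
    exact h0 0 (h4.unique hasSum_zero)
  obtain ⟨n, hn⟩ := h2
  refine ⟨n, fun y => ?_⟩
  have h3 : ∫ x : UnitAddCircle, fourier (-n) x * G (x + y) ∂AddCircle.haarAddCircle =
      fourier n y * ∫ x : UnitAddCircle, fourier (-n) x * G x ∂AddCircle.haarAddCircle := by
    rw [← integral_add_right_eq_self (fun x : UnitAddCircle => fourier (-n) x * G x) y,
      ← integral_const_mul]
    refine integral_congr_ae (Eventually.of_forall fun x => ?_)
    show fourier (-n) x * G (x + y) = fourier n y * (fourier (-n) (x + y) * G (x + y))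
    rw [fourier_add_right, fourier_neg (n := n) (x := y)]
    linear_combination (-(fourier (-n) x * G (x + y))) * mul_conj_of_norm (norm_fourier n y)
  have h4 : G 0 * ∫ x : UnitAddCircle, fourier (-n) x * G (x + y) ∂AddCircle.haarAddCircle =
      G y * ∫ x : UnitAddCircle, fourier (-n) x * G x ∂AddCircle.haarAddCircle := by
    rw [← integral_const_mul, ← integral_const_mul]
    refine integral_congr_ae (Eventually.of_forall fun x => ?_)
    show G 0 * (fourier (-n) x * G (x + y)) = G y * (fourier (-n) x * G x)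
    linear_combination (fourier (-n) x) * h1 x y
  have h5 : (∫ x : UnitAddCircle, fourier (-n) x * G x ∂AddCircle.haarAddCircle) ≠ 0 := by
    have : fourierCoeff G n = ∫ x : UnitAddCircle, fourier (-n) x • G x
      ∂AddCircle.haarAddCircle := rfl
    rw [this] at hn
    exact hn
  rw [h3] at h4
  have h6 : (∫ x : UnitAddCircle, fourier (-n) x * G x ∂AddCircle.haarAddCircle) *
      (G y - G 0 * fourier n y) = 0 := by linear_combination -h4
  rcases mul_eq_zero.1 h6 with h7 | h7
  · exact absurd h7 h5
  · exact sub_eq_zero.1 h7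

/-- a root in the open unit disc of the fixed point equation of a Möbius transformation without
fixed points on the unit circle -/
theorem exists_fix {α β : ℂ}
    (hn : ∀ z : ℂ, ‖z‖ = 1 → z * (conj β * z + conj α) ≠ α * z + β) :
    ∃ z : ℂ, ‖z‖ < 1 ∧ z * (conj β * z + conj α) = α * z + β := by
  by_cases hβ : β = 0
  · exact ⟨0, by simp, by simp [hβ]⟩
  have hβ' : conj β ≠ 0 := (map_ne_zero _).2 hβ
  obtain ⟨s, hs⟩ := IsAlgClosed.exists_pow_nat_eq ((conj α - α) ^ 2 + 4 * β * conj β)
    (n := 2) (by norm_num)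
  have h2 : ∀ z : ℂ, (2 * conj β * z + (conj α - α)) ^ 2 = s ^ 2 →
      z * (conj β * z + conj α) = α * z + β := by
    intro z hz
    rw [hs] at hz
    have h3 : (4 * conj β) * (z * (conj β * z + conj α) - (α * z + β)) = 0 := by
      linear_combination hz
    rcases mul_eq_zero.1 h3 with h4 | h4
    · exact absurd h4 (mul_ne_zero (by norm_num) hβ')
    · exact sub_eq_zero.1 h4
  set z1 : ℂ := (s - (conj α - α)) / (2 * conj β) with hz1
  set z2 : ℂ := (-s - (conj α - α)) / (2 * conj β) with hz2
  have e1 : 2 * conj β * z1 = s - (conj α - α) := by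
    rw [hz1]; field_simp
  have e2 : 2 * conj β * z2 = -s - (conj α - α) := by
    rw [hz2]; field_simp
  have f1 := h2 z1 (by rw [e1]; ring)
  have f2 := h2 z2 (by rw [e2]; ring)
  have e3 : conj β * (z1 * z2) = -β := by
    have h5 : (4 * conj β) * (conj β * (z1 * z2) + β) = 0 := by
      linear_combination (2 * conj β * z2) * e1 + (s - (conj α - α)) * e2 - hs
    rcases mul_eq_zero.1 h5 with h4 | h4
    · exact absurd h4 (mul_ne_zero (by norm_num) hβ')
    · linear_combination h4
  have e4 : ‖z1‖ * ‖z2‖ = 1 := by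
    have h5 := congrArg norm e3
    rw [norm_mul, norm_mul, norm_neg, RCLike.norm_conj] at h5
    have h6 : ‖β‖ ≠ 0 := norm_ne_zero_iff.2 hβ
    have h7 : ‖β‖ * (‖z1‖ * ‖z2‖ - 1) = 0 := by linear_combination h5
    rcases mul_eq_zero.1 h7 with h8 | h8
    · exact absurd h8 h6
    · linarith
  rcases lt_trichotomy ‖z1‖ 1 with h | h | h
  · exact ⟨z1, h, f1⟩
  · exact absurd f1 (hn z1 h)
  · refine ⟨z2, ?_, f2⟩
    by_contra hcon
    push Not at hcon
    nlinarith [norm_nonneg z1, norm_nonneg z2]

/-- the composition with the disc automorphism which moves the fixed point to `0` -/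
theorem conj_rel {α β z0 z w : ℂ} (h0 : ‖z0‖ < 1) (hαβ : ‖α‖ ≠ ‖β‖) (hz : ‖z‖ = 1) (hw : ‖w‖ = 1)
    (h : w * (conj β * z + conj α) = α * z + β) :
    ∃ a b : ℂ, ‖a‖ ≠ ‖b‖ ∧ a = α + β * conj z0 - z0 * (conj α * conj z0 + conj β) ∧
      b = (α * z0 + β) - z0 * (conj α + conj β * z0) ∧
      (w - z0) / (1 - conj z0 * w) * (conj b * ((z - z0) / (1 - conj z0 * z)) + conj a) =
        a * ((z - z0) / (1 - conj z0 * z)) + b := by
  have hd : ∀ v : ℂ, ‖v‖ = 1 → 1 - conj z0 * v ≠ 0 := by
    intro v hv h1
    have h2 : conj z0 * v = 1 := by linear_combination -h1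
    have h3 := congrArg norm h2
    rw [norm_mul, hv, mul_one, RCLike.norm_conj, norm_one] at h3
    exact h0.ne h3
  have hdz := hd z hz
  have hdw := hd w hw
  have hz0 : (1 : ℂ) - z0 * conj z0 ≠ 0 := by
    rw [Complex.mul_conj, Complex.normSq_eq_norm_sq]
    intro h1
    have h2 : (1 : ℝ) = ‖z0‖ ^ 2 := by exact_mod_cast sub_eq_zero.1 h1
    have h3 : ‖z0‖ ^ 2 < 1 := by nlinarith [norm_nonneg z0]
    linarith
  refine ⟨_, _, ?_, rfl, rfl, ?_⟩
  · have hdet := det_ne hαβ
    intro heq
    have h4 : (α + β * conj z0 - z0 * (conj α * conj z0 + conj β)) *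
        conj (α + β * conj z0 - z0 * (conj α * conj z0 + conj β)) =
        ((α * z0 + β) - z0 * (conj α + conj β * z0)) *
          conj ((α * z0 + β) - z0 * (conj α + conj β * z0)) := by
      rw [Complex.mul_conj, Complex.mul_conj, Complex.normSq_eq_norm_sq,
        Complex.normSq_eq_norm_sq, heq]
    simp only [map_sub, map_add, map_mul, Complex.conj_conj] at h4
    have h5 : (α * conj α - β * conj β) * (1 - z0 * conj z0) ^ 2 = 0 := by
      linear_combination h4
    rcases mul_eq_zero.1 h5 with h6 | h6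
    · exact hdet h6
    · exact hz0 (pow_eq_zero_iff (by norm_num) |>.1 h6)
  · simp only [map_sub, map_add, map_mul, Complex.conj_conj]
    obtain ⟨Z, hZ⟩ : ∃ Z, Z = (z - z0) / (1 - conj z0 * z) := ⟨_, rfl⟩
    rw [← hZ, div_mul_eq_mul_div, div_eq_iff hdw]
    rw [eq_div_iff hdz] at hZ
    refine mul_left_cancel₀ hdz ?_
    linear_combination ((w - z0) * (conj α * conj z0 + conj β - conj z0 * (α + β * conj z0)) -
      (α + β * conj z0 - z0 * (conj α * conj z0 + conj β)) * (1 - conj z0 * w)) * hZ +
      (1 - z0 * conj z0) ^ 2 * h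

/-- negative indices -/
theorem of_int {j : ℤ} (hj : j ≠ 0) {S : Homeo} {a b : ℂ} (hab : ‖a‖ ≠ ‖b‖)
    (h : ∀ x : UnitAddCircle, fourier j (S x) * (conj b * fourier j x + conj a) =
      a * fourier j x + b) : ∃ k : ℕ, 1 ≤ k ∧ IsMoeb k S := by
  refine ⟨j.natAbs, Nat.one_le_iff_ne_zero.2 (Int.natAbs_ne_zero.2 hj), ?_⟩
  rcases Int.natAbs_eq j with h1 | h1
  · refine ⟨a, b, hab, fun x => ?_⟩
    rw [← h1]
    exact h x
  · refine ⟨conj a, conj b, by rwa [RCLike.norm_conj, RCLike.norm_conj], fun x => ?_⟩
    have h2 := congrArg conj (h x)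
    simp only [map_mul, map_add, Complex.conj_conj] at h2
    have h3 : ∀ y : UnitAddCircle, conj (fourier j y) = fourier (j.natAbs : ℤ) y := by
      intro y
      rw [← fourier_neg, h1]
      simp
    rw [h3, h3] at h2
    simpa only [Complex.conj_conj] using h2

end Moeb

open Moeb in
/-- A homeomorphism `h` which conjugates an irrational rotation and `S` to elements of the `k`-fold
cover of `PGL₂(ℝ)`: then `S` is an element of the `j`-fold cover of `PGL₂(ℝ)` for some `j`. -/
theorem IsMoeb.of_conj {θ : ℝ} (hθ : Irrational θ) {k : ℕ} (hk : 1 ≤ k) {h S : Homeo}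
    (hT : IsMoeb k (h * rot θ * h⁻¹)) (hS : IsMoeb k (h * S * h⁻¹)) :
    ∃ j : ℕ, 1 ≤ j ∧ IsMoeb j S := by
  obtain ⟨α, β, hαβ, hT⟩ := hT
  obtain ⟨γ, δ, hγδ, hS⟩ := hS
  set f : UnitAddCircle → ℂ := fun x => fourier (k : ℤ) (h x) with hf
  have hfn : ∀ x, ‖f x‖ = 1 := fun x => norm_fourier _ _
  have hfc : Continuous f := (fourier (k : ℤ)).continuous.comp h.continuous
  have hT' : ∀ x : UnitAddCircle, f (x + (θ : UnitAddCircle)) * (conj β * f x + conj α) =
      α * f x + β := by
    intro x
    have h1 := hT (h x)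
    have h2 : (h * rot θ * h⁻¹ : Homeo) (h x) = h (x + (θ : UnitAddCircle)) := by
      show h (rot θ (h.symm (h x))) = _
      rw [h.symm_apply_apply, rot_apply, add_comm]
    rw [h2] at h1
    exact h1
  have hS' : ∀ x : UnitAddCircle, f (S x) * (conj δ * f x + conj γ) = γ * f x + δ := by
    intro x
    have h1 := hS (h x)
    have h2 : (h * S * h⁻¹ : Homeo) (h x) = h (S x) := by
      show h (S (h.symm (h x))) = _
      rw [h.symm_apply_apply]
    rw [h2] at h1
    exact h1
  have hsurj : ∀ z : ℂ, ‖z‖ = 1 → ∃ x, f x = z := by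
    intro z hz
    obtain ⟨r, hr⟩ : ∃ r : ℝ, Complex.exp (r * Complex.I) = z := by
      refine ⟨Complex.arg z, ?_⟩
      have := Complex.norm_mul_exp_arg_mul_I z
      rwa [hz, Complex.ofReal_one, one_mul] at this
    refine ⟨h.symm ((r / (2 * Real.pi * k) : ℝ) : UnitAddCircle), ?_⟩
    simp only [hf, h.apply_symm_apply]
    rw [fourier_coe_apply, ← hr]
    congr 1
    have : (k : ℂ) ≠ 0 := by exact_mod_cast (show k ≠ 0 by omega)
    have hpi : (Real.pi : ℂ) ≠ 0 := by exact_mod_cast Real.pi_ne_zero
    push_cast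
    field_simp
  -- no fixed point on the circle
  have hnf : ∀ z : ℂ, ‖z‖ = 1 → z * (conj β * z + conj α) ≠ α * z + β := by
    intro z hz hfix
    obtain ⟨x0, hx0⟩ := hsurj z hz
    have hstep : ∀ x, f (x + (θ : UnitAddCircle)) = z ↔ f x = z := by
      intro x
      have h1 := sub_eq (hT' x) hfix
      have h2 := den_ne hαβ (hfn x)
      have h3 := den_ne hαβ hz
      have h4 := det_ne hαβ
      rw [← sub_eq_zero, ← sub_eq_zero (a := f x)]
      constructor
      · intro h5
        rw [h5, zero_mul] at h1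
        exact (mul_eq_zero.1 h1.symm).resolve_left h4
      · intro h5
        rw [h5, mul_zero] at h1
        exact (mul_eq_zero.1 h1).resolve_right (mul_ne_zero h2 h3)
    have h5 : DenseRange (fun n : ℤ => n • (θ : UnitAddCircle)) := by
      rw [AddCircle.denseRange_zsmul_coe_iff, div_one]
      exact hθ
    have h6 : ∀ n : ℤ, f (n • (θ : UnitAddCircle) + x0) = z := by
      intro n
      induction n using Int.induction_on with
      | zero => simpa using hx0
      | succ n ih =>
        have e : ((n : ℤ) + 1) • (θ : UnitAddCircle) + x0 =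
            ((n : ℤ) • (θ : UnitAddCircle) + x0) + (θ : UnitAddCircle) := by
          rw [add_smul, one_smul]
          abel
        rw [e]
        exact (hstep _).2 ih
      | pred n ih =>
        refine (hstep _).1 ?_
        rw [← ih]
        congr 1
        rw [sub_smul, one_smul]
        abel
    have h7 : (fun y => f (y + x0)) = fun _ => z := by
      refine Continuous.ext_on h5 (hfc.comp (continuous_id.add continuous_const))
        continuous_const ?_
      rintro _ ⟨n, rfl⟩
      exact h6 n
    obtain ⟨x1, hx1⟩ := hsurj (-z) (by rw [norm_neg, hz])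
    have h8 := congrFun h7 (x1 - x0)
    simp only [sub_add_cancel] at h8
    rw [hx1] at h8
    have h9 : z = 0 := by linear_combination (-1 / 2 : ℂ) * h8
    rw [h9, norm_zero] at hz
    exact zero_ne_one hz
  obtain ⟨z0, hz0, hfix⟩ := exists_fix hnf
  have hd : ∀ v : ℂ, ‖v‖ = 1 → 1 - conj z0 * v ≠ 0 := by
    intro v hv h1
    have h2 : conj z0 * v = 1 := by linear_combination -h1
    have h3 := congrArg norm h2
    rw [norm_mul, hv, mul_one, RCLike.norm_conj, norm_one] at h3
    exact hz0.ne h3
  have hd' : ∀ v : ℂ, ‖v‖ = 1 → v - z0 ≠ 0 := by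
    intro v hv h1
    rw [sub_eq_zero.1 h1] at hv
    exact hz0.ne hv
  set F : UnitAddCircle → ℂ := fun x => (f x - z0) / (1 - conj z0 * f x) with hF
  have hF0 : ∀ x, F x ≠ 0 := fun x => div_ne_zero (hd' _ (hfn x)) (hd _ (hfn x))
  have hFc : Continuous F := (hfc.sub continuous_const).div
    (continuous_const.sub (continuous_const.mul hfc)) fun x => hd _ (hfn x)
  have hFT : ∀ x : UnitAddCircle, F (x + (θ : UnitAddCircle)) =
      (α - z0 * conj β) / (conj α - conj z0 * β) * F x := by
    intro x
    have h1 := hT' x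
    have h2 := den_ne hαβ (hfn x)
    have h3 := hd _ (hfn x)
    have h4 := hd _ (hfn (x + (θ : UnitAddCircle)))
    have hfix' := congrArg conj hfix
    simp only [map_mul, map_add, Complex.conj_conj] at hfix'
    have h6 : (1 - conj z0 * f (x + (θ : UnitAddCircle))) * (conj β * f x + conj α) =
        (conj α - conj z0 * β) * (1 - conj z0 * f x) := by
      linear_combination -(conj z0) * h1 - f x * hfix'
    have h7 : (f (x + (θ : UnitAddCircle)) - z0) * (conj β * f x + conj α) =
        (α - z0 * conj β) * (f x - z0) := by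
      linear_combination h1 - hfix
    have h5 : conj α - conj z0 * β ≠ 0 := by
      intro h8
      rw [h8, zero_mul] at h6
      exact (mul_ne_zero h4 h2) h6
    simp only [hF]
    rw [div_mul_div_comm, ← h6, ← h7, mul_div_mul_right _ _ h2]
  obtain ⟨j, hj⟩ := eigen hθ hFc hF0 hFT
  have hj0 : j ≠ 0 := by
    intro h0
    obtain ⟨x1, hx1⟩ := hsurj 1 (by simp)
    obtain ⟨x2, hx2⟩ := hsurj (-1) (by simp)
    have e1 := hj x1
    have e2 := hj x2
    rw [h0, fourier_zero] at e1 e2
    have e3 : F x1 = F x2 := by rw [e1, e2]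
    simp only [hF, hx1, hx2] at e3
    rw [div_eq_div_iff (hd _ (by simp)) (hd _ (by simp))] at e3
    have e4 : (2 : ℂ) * (1 - z0 * conj z0) = 0 := by linear_combination e3
    have e5 : z0 * conj z0 = 1 := by linear_combination (-1 / 2 : ℂ) * e4
    rw [Complex.mul_conj, Complex.normSq_eq_norm_sq] at e5
    have e6 : ‖z0‖ ^ 2 = 1 := by exact_mod_cast e5
    nlinarith [norm_nonneg z0]
  -- conclusion
  obtain ⟨a, b, hab, ha, hb, -⟩ := conj_rel hz0 hγδ (hfn 0) (hfn (S 0)) (hS' 0)
  have hrel : ∀ x, F (S x) * (conj b * F x + conj a) = a * F x + b := by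
    intro x
    obtain ⟨a', b', -, ha', hb', h1⟩ := conj_rel hz0 hγδ (hfn x) (hfn (S x)) (hS' x)
    rw [← ha] at ha'
    rw [← hb] at hb'
    subst ha' hb'
    exact h1
  have hc : ‖F 0‖ = 1 := by
    have h1 : ‖f 0 - z0‖ = ‖1 - conj z0 * f 0‖ := by
      have h2 : f 0 - z0 = f 0 * conj (1 - conj z0 * f 0) := by
        simp only [map_sub, map_one, map_mul, Complex.conj_conj]
        linear_combination z0 * mul_conj_of_norm (hfn 0)
      rw [h2, norm_mul, hfn, one_mul, RCLike.norm_conj]
    simp only [hF]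
    rw [norm_div, h1, div_self (norm_ne_zero_iff.2 (hd _ (hfn 0)))]
  have hc1 := mul_conj_of_norm hc
  refine of_int hj0 (a := a) (b := b * conj (F 0)) ?_ fun x => ?_
  · rw [norm_mul, RCLike.norm_conj, hc, mul_one]
    exact hab
  · have h1 := hrel x
    rw [hj (S x), hj x] at h1
    rw [map_mul, Complex.conj_conj]
    have h2 : F 0 * (fourier j (S x) * (conj b * F 0 * fourier j x + conj a) -
        (a * fourier j x + b * conj (F 0))) = 0 := by
      linear_combination h1 - b * hc1
    rcases mul_eq_zero.1 h2 with h3 | h3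
    · exact absurd h3 (hF0 0)
    · exact sub_eq_zero.1 h3

end Pool.Agent.ELM
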