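import Pool.Agent.ELM.Model
import Pool.Agent.ELM.Moeb

/-!
# ELM, row NMB: for generic parameters `S = a T a` is in no finite cover of `PGL₂(ℝ)`
-/

set_option autoImplicit false

namespace Pool.Agent.ELM

open Filter MeasureTheory Topology
open scoped ComplexConjugate

/-! ## Cross ratios -/

namespace Moeb

/-- a Möbius transformation preserves the cross ratio -/
theorem cross {α β z₁ z₂ z₃ z₄ w₁ w₂ w₃ w₄ : ℂ} (hαβ : ‖α‖ ≠ ‖β‖)
    (n₁ : ‖z₁‖ = 1) (n₂ : ‖z₂‖ = 1) (n₃ : ‖z₃‖ = 1) (n₄ : ‖z₄‖ = 1)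
    (h₁ : w₁ * (conj β * z₁ + conj α) = α * z₁ + β)
    (h₂ : w₂ * (conj β * z₂ + conj α) = α * z₂ + β)
    (h₃ : w₃ * (conj β * z₃ + conj α) = α * z₃ + β)
    (h₄ : w₄ * (conj β * z₄ + conj α) = α * z₄ + β) :
    (w₁ - w₂) * (w₃ - w₄) * ((z₁ - z₃) * (z₂ - z₄)) -
      (w₁ - w₃) * (w₂ - w₄) * ((z₁ - z₂) * (z₃ - z₄)) = 0 := by
  have e12 := sub_eq h₁ h₂
  have e34 := sub_eq h₃ h₄
  have e13 := sub_eq h₁ h₃
  have e24 := sub_eq h₂ h₄
  have d1 := den_ne hαβ n₁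
  have d2 := den_ne hαβ n₂
  have d3 := den_ne hαβ n₃
  have d4 := den_ne hαβ n₄
  set D1 := conj β * z₁ + conj α
  set D2 := conj β * z₂ + conj α
  set D3 := conj β * z₃ + conj α
  set D4 := conj β * z₄ + conj α
  set Δ := α * conj α - β * conj β
  have key : (D1 * D2 * D3 * D4) * ((w₁ - w₂) * (w₃ - w₄) * ((z₁ - z₃) * (z₂ - z₄)) -
      (w₁ - w₃) * (w₂ - w₄) * ((z₁ - z₂) * (z₃ - z₄))) = 0 := by
    linear_combination ((w₃ - w₄) * (D3 * D4) * ((z₁ - z₃) * (z₂ - z₄))) * e12 +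
      (Δ * (z₁ - z₂) * ((z₁ - z₃) * (z₂ - z₄))) * e34 -
      ((w₂ - w₄) * (D2 * D4) * ((z₁ - z₂) * (z₃ - z₄))) * e13 -
      (Δ * (z₁ - z₃) * ((z₁ - z₂) * (z₃ - z₄))) * e24
  exact (mul_eq_zero.1 key).resolve_left (mul_ne_zero (mul_ne_zero (mul_ne_zero d1 d2) d3) d4)

theorem ne_of_ne {α β z z' w w' : ℂ} (hαβ : ‖α‖ ≠ ‖β‖)
    (h : w * (conj β * z + conj α) = α * z + β)
    (h' : w' * (conj β * z' + conj α) = α * z' + β) (hz : z ≠ z') : w ≠ w' := by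
  intro hw
  have e := sub_eq h h'
  rw [hw, sub_self, zero_mul] at e
  exact (mul_ne_zero (det_ne hαβ) (sub_ne_zero.2 hz)) e.symm

/-- the derivative of the cross ratio polynomial in the first variable is not zero -/
theorem partial_ne {z₁ z₂ z₃ z₄ w₁ w₂ w₃ w₄ : ℂ}
    (h : (w₁ - w₂) * (w₃ - w₄) * ((z₁ - z₃) * (z₂ - z₄)) -
      (w₁ - w₃) * (w₂ - w₄) * ((z₁ - z₂) * (z₃ - z₄)) = 0) (h12 : z₁ ≠ z₂) (h34 : z₃ ≠ z₄)
    (h23 : w₂ ≠ w₃) (h24 : w₂ ≠ w₄) :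
    (w₃ - w₄) * ((z₁ - z₃) * (z₂ - z₄)) - (w₂ - w₄) * ((z₁ - z₂) * (z₃ - z₄)) ≠ 0 := by
  intro h0
  have h1 : (w₃ - w₂) * (w₂ - w₄) * ((z₁ - z₂) * (z₃ - z₄)) = 0 := by
    linear_combination h - (w₁ - w₂) * h0
  exact (mul_ne_zero (mul_ne_zero (sub_ne_zero.2 h23.symm) (sub_ne_zero.2 h24))
    (mul_ne_zero (sub_ne_zero.2 h12) (sub_ne_zero.2 h34))) h1

end Moeb

/-- quadratic remainder -/
theorem hasDerivWithinAt_of_sq {f : ℝ → ℝ} {c x K : ℝ} {I : Set ℝ}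
    (h : ∀ s ∈ I, |f s - f x - (s - x) * c| ≤ K * (s - x) ^ 2) : HasDerivWithinAt f c I x := by
  rw [hasDerivWithinAt_iff_isLittleO]
  have h1 : (fun s => f s - f x - (s - x) • c) =O[𝓝[I] x] fun s => ‖s - x‖ ^ 2 := by
    refine Asymptotics.IsBigO.of_bound K ?_
    filter_upwards [self_mem_nhdsWithin] with s hs
    rw [Real.norm_eq_abs, smul_eq_mul, norm_pow, norm_norm, Real.norm_eq_abs, sq_abs]
    exact h s hs
  exact h1.trans_isLittleO
    ((Asymptotics.isLittleO_pow_sub_sub x one_lt_two).mono nhdsWithin_le_nhds)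

theorem eq_add_of_coe {X Y : Ci} {u r : ℝ} (h : ((r : ℝ) : Ci) = X - Y - ((u : ℝ) : Ci)) :
    X = Y + ((u + r : ℝ) : Ci) := by
  rw [AddCircle.coe_add, h]
  abel

theorem rep_zero' : rep (0 : Ci) = 0 := by
  have := abs_rep (0 : Ci)
  rw [norm_zero] at this
  exact abs_eq_zero.1 this

namespace Fam

variable (F : Fam)

/-- the path in the direction `i` -/
noncomputable def path (t : Par) (i : ℕ) (s : ℝ) : Par :=
  Function.update t i (Set.projIcc 0 1 zero_le_one s)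

theorem path_self (t : Par) (i : ℕ) : path t i (t i) = t := by
  unfold path
  rw [Set.projIcc_val]
  exact Function.update_eq_self i t

theorem path_i (t : Par) (i : ℕ) {s : ℝ} (hs : s ∈ Set.Icc (0 : ℝ) 1) :
    ((path t i s i : unitInterval) : ℝ) = s := by
  unfold path
  rw [Function.update_self, Set.projIcc_of_mem _ hs]

theorem path_j (t : Par) (i j : ℕ) (hj : j ≠ i) (s : ℝ) : path t i s j = t j := by
  unfold path
  rw [Function.update_of_ne hj]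

theorem path_cont (t : Par) (i : ℕ) : Continuous (path t i) := by
  unfold path
  exact continuous_const.update i continuous_projIcc

/-- the homeomorphism `S = a T a` -/
def S (t : Par) : Homeo := F.aH t * Pool.Agent.ELM.rot F.θ * F.aH t

theorem S_apply (t : Par) (x : Ci) : F.S t x = F.a t (F.a t x + (F.θ : Ci)) := by
  show F.a t ((F.θ : Ci) + F.a t x) = _
  rw [add_comm]

/-- the derivative of `S x` in the direction `ψ` -/
noncomputable def dS (t : Par) (x : Ci) (ψ : C(Ci, ℝ)) : ℝ :=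
  (F.w t (F.a t x + (F.θ : Ci)) * ((ψ x - ψ (F.a t x)) / F.w t (F.a t x)) +
    (ψ (F.a t x + (F.θ : Ci)) - ψ (F.a t (F.a t x + (F.θ : Ci))))) /
      F.w t (F.a t (F.a t x + (F.θ : Ci)))

theorem exists_path (t : Par) (i : ℕ) (x : Ci) : ∃ ρ : ℝ → ℝ,
    HasDerivWithinAt ρ (F.dS t x (F.φ i)) (Set.Icc 0 1) (t i) ∧ ρ (t i) = 0 ∧
    ∀ s ∈ Set.Icc (0 : ℝ) 1, F.S (path t i s) x = F.S t x + ((ρ s : ℝ) : Ci) := by
  obtain ⟨C, hC⟩ := F.expand i
  have hC0 : 0 ≤ C := by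
    have h1 := hC t t (fun _ _ => rfl) 0 1
    have h2 := (norm_nonneg _).trans h1
    simp only [sub_self] at h2
    norm_num at h2
    exact h2
  set A : ℝ := (F.φ i x - F.φ i (F.a t x)) / F.w t (F.a t x) with hA
  set y : Ci := F.a t x + (F.θ : Ci) with hy
  set B : ℝ := F.φ i y - F.φ i (F.a t y) with hB
  set wy : ℝ := F.w t y with hwy
  set wz : ℝ := F.w t (F.a t y) with hwz
  have hwz0 : 0 < wz := F.w_pos _ _
  have hwy0 : 0 < wy := F.w_pos _ _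
  set r1 : ℝ → ℝ := fun s => rep (F.a (path t i s) x - F.a t x - (((s - t i) * A : ℝ) : Ci))
    with hr1
  set e : ℝ → ℝ := fun s => (s - t i) * A + r1 s with he
  set r2 : ℝ → ℝ := fun s => rep (F.a (path t i s) (y + ((e s : ℝ) : Ci)) - F.a t y -
    (((wy * e s + (s - t i) * B) / wz : ℝ) : Ci)) with hr2
  have hr1' : ∀ s ∈ Set.Icc (0 : ℝ) 1, |r1 s| ≤ C * (s - t i) ^ 2 := by
    intro s hs
    have h1 := hC t (path t i s) (fun j hj => (path_j t i j hj s).symm) x 0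
    rw [path_i t i hs] at h1
    simp only [hr1, abs_rep]
    have e1 : (0 : ℝ) ^ 2 + (s - t i) ^ 2 = (s - t i) ^ 2 := by ring
    rw [e1] at h1
    have e2 : (F.w t x * 0 + (s - t i) * (F.φ i x - F.φ i (F.a t x))) / F.w t (F.a t x) =
        (s - t i) * A := by rw [hA]; ring
    rw [e2] at h1
    simpa using h1
  have hs1 : ∀ s ∈ Set.Icc (0 : ℝ) 1, |s - t i| ≤ 1 := by
    intro s hs
    rw [abs_le]
    have := (t i).2
    constructor <;> linarith [hs.1, hs.2, this.1, this.2]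
  have he' : ∀ s ∈ Set.Icc (0 : ℝ) 1, |e s| ≤ (|A| + C) * |s - t i| := by
    intro s hs
    have h1 := hr1' s hs
    have h2 := hs1 s hs
    have h3 : |e s| ≤ |(s - t i) * A| + |r1 s| := abs_add_le _ _
    rw [abs_mul] at h3
    have h4 : (s - t i) ^ 2 = |s - t i| ^ 2 := (sq_abs _).symm
    rw [h4] at h1
    nlinarith [abs_nonneg (s - (t i : ℝ)), mul_nonneg hC0 (abs_nonneg (s - (t i : ℝ)))]
  have hr2' : ∀ s ∈ Set.Icc (0 : ℝ) 1, |r2 s| ≤ C * ((|A| + C) ^ 2 + 1) * (s - t i) ^ 2 := by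
    intro s hs
    have h1 := hC t (path t i s) (fun j hj => (path_j t i j hj s).symm) y (e s)
    rw [path_i t i hs] at h1
    simp only [hr2, abs_rep]
    refine h1.trans ?_
    have h2 := he' s hs
    have h3 : (e s) ^ 2 ≤ (|A| + C) ^ 2 * (s - t i) ^ 2 := by
      rw [← sq_abs (e s), ← sq_abs (s - (t i : ℝ)), ← mul_pow]
      exact pow_le_pow_left₀ (abs_nonneg _) h2 2
    nlinarith [mul_le_mul_of_nonneg_left h3 hC0]
  have ha1 : ∀ s, F.a (path t i s) x = F.a t x + ((e s : ℝ) : Ci) := by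
    intro s
    exact eq_add_of_coe (coe_rep _)
  have ha2 : ∀ s, F.a (path t i s) (y + ((e s : ℝ) : Ci)) =
      F.a t y + (((wy * e s + (s - t i) * B) / wz + r2 s : ℝ) : Ci) := by
    intro s
    exact eq_add_of_coe (coe_rep _)
  obtain ⟨ρ, hρ⟩ : ∃ ρ : ℝ → ℝ, ∀ s, ρ s = (wy * e s + (s - t i) * B) / wz + r2 s :=
    ⟨_, fun _ => rfl⟩
  have hρ0 : ρ (t i) = 0 := by
    have g1 : r1 (t i) = 0 := by
      have := hr1' (t i) (t i).2
      rw [sub_self] at this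
      norm_num at this
      exact this
    have g2 : e (t i) = 0 := by simp only [he, g1, sub_self, zero_mul, add_zero]
    have g3 : r2 (t i) = 0 := by
      have := hr2' (t i) (t i).2
      rw [sub_self] at this
      norm_num at this
      exact this
    rw [hρ]
    simp only [g2, g3, sub_self, zero_mul, mul_zero, add_zero, zero_div]
  refine ⟨ρ, ?_, hρ0, ?_⟩
  · refine hasDerivWithinAt_of_sq (K := wy / wz * C + C * ((|A| + C) ^ 2 + 1)) fun s hs => ?_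
    rw [hρ0, sub_zero]
    have e1 : ρ s - (s - t i) * F.dS t x (F.φ i) = wy / wz * r1 s + r2 s := by
      have : F.dS t x (F.φ i) = (wy * A + B) / wz := rfl
      rw [this, hρ]
      simp only [he]
      field_simp
      ring
    rw [e1]
    have h1 := hr1' s hs
    have h2 := hr2' s hs
    have h3 : |wy / wz * r1 s + r2 s| ≤ |wy / wz * r1 s| + |r2 s| := abs_add_le _ _
    rw [abs_mul, abs_of_pos (div_pos hwy0 hwz0)] at h3
    have h4 := mul_le_mul_of_nonneg_left h1 (div_pos hwy0 hwz0).le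
    nlinarith
  · intro s _
    rw [S_apply, S_apply, ha1 s]
    have e1 : F.a t x + ((e s : ℝ) : Ci) + (F.θ : Ci) = y + ((e s : ℝ) : Ci) := by
      rw [hy]
      abel
    rw [e1, ha2 s, hρ]

theorem fourier_path (t : Par) (i k : ℕ) (x : Ci) : ∃ W : ℝ → ℂ,
    HasDerivWithinAt W (fourier (k : ℤ) (F.S t x) * (2 * Real.pi * Complex.I * k *
      (F.dS t x (F.φ i) : ℂ))) (Set.Icc 0 1) (t i) ∧
    (∀ s ∈ Set.Icc (0 : ℝ) 1, W s = fourier (k : ℤ) (F.S (path t i s) x)) := by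
  obtain ⟨ρ, h1, h2, h3⟩ := F.exists_path t i x
  refine ⟨fun s => fourier (k : ℤ) (F.S t x) * Complex.exp (2 * Real.pi * Complex.I * k * (ρ s : ℂ)),
    ?_, fun s hs => ?_⟩
  · have h4 := ((h1.ofReal_comp.const_mul (2 * Real.pi * Complex.I * k)).cexp).const_mul
      (fourier (k : ℤ) (F.S t x))
    rw [h2, Complex.ofReal_zero, mul_zero, Complex.exp_zero, one_mul] at h4
    exact h4
  · simp only
    rw [h3 s hs, Moeb.fourier_add_right, fourier_coe_apply]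
    congr 2
    push_cast
    ring

/-- the derivative of the cross ratio vanishes -/
theorem dS_rel {t : Par} {k : ℕ} {V : Set Par} (hV : IsOpen V) (ht : t ∈ V)
    (hM : ∀ t' ∈ V, IsMoeb k (F.S t')) (hk : 1 ≤ k) (i : ℕ) (x₁ x₂ x₃ x₄ : Ci) :
    let w : Ci → ℂ := fun x => fourier (k : ℤ) (F.S t x)
    let z : Ci → ℂ := fun x => fourier (k : ℤ) x
    let A : ℂ := (z x₁ - z x₃) * (z x₂ - z x₄)
    let B : ℂ := (z x₁ - z x₂) * (z x₃ - z x₄)
    w x₁ * ((w x₃ - w x₄) * A - (w x₂ - w x₄) * B) * (F.dS t x₁ (F.φ i) : ℂ) +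
    w x₂ * (-(w x₃ - w x₄) * A - (w x₁ - w x₃) * B) * (F.dS t x₂ (F.φ i) : ℂ) +
    w x₃ * ((w x₁ - w x₂) * A + (w x₂ - w x₄) * B) * (F.dS t x₃ (F.φ i) : ℂ) +
    w x₄ * (-(w x₁ - w x₂) * A + (w x₁ - w x₃) * B) * (F.dS t x₄ (F.φ i) : ℂ) = 0 := by
  intro w z A B
  obtain ⟨W₁, d₁, e₁⟩ := F.fourier_path t i k x₁
  obtain ⟨W₂, d₂, e₂⟩ := F.fourier_path t i k x₂
  obtain ⟨W₃, d₃, e₃⟩ := F.fourier_path t i k x₃
  obtain ⟨W₄, d₄, e₄⟩ := F.fourier_path t i k x₄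
  have hti := (t i).2
  have s₁ : W₁ (t i) = w x₁ := by rw [e₁ _ hti, path_self]
  have s₂ : W₂ (t i) = w x₂ := by rw [e₂ _ hti, path_self]
  have s₃ : W₃ (t i) = w x₃ := by rw [e₃ _ hti, path_self]
  have s₄ : W₄ (t i) = w x₄ := by rw [e₄ _ hti, path_self]
  have hD := (((d₁.sub d₂).mul (d₃.sub d₄)).mul_const A).sub
    (((d₁.sub d₃).mul (d₂.sub d₄)).mul_const B)
  have h0 : (fun s => (W₁ s - W₂ s) * (W₃ s - W₄ s) * A - (W₁ s - W₃ s) * (W₂ s - W₄ s) * B)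
      =ᶠ[𝓝[Set.Icc 0 1] (t i : ℝ)] fun _ => (0 : ℂ) := by
    have hev : ∀ᶠ s in 𝓝[Set.Icc 0 1] (t i : ℝ), path t i s ∈ V := by
      refine ((path_cont t i).tendsto (t i : ℝ)).mono_left nhdsWithin_le_nhds ?_
      rw [path_self]
      exact hV.mem_nhds ht
    filter_upwards [hev, self_mem_nhdsWithin] with s hs hs1
    obtain ⟨α, β, hαβ, hr⟩ := hM _ hs
    rw [e₁ s hs1, e₂ s hs1, e₃ s hs1, e₄ s hs1]
    exact Moeb.cross hαβ (Moeb.norm_fourier _ _) (Moeb.norm_fourier _ _) (Moeb.norm_fourier _ _)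
      (Moeb.norm_fourier _ _) (hr x₁) (hr x₂) (hr x₃) (hr x₄)
  have hD0 : HasDerivWithinAt (fun _ : ℝ => (0 : ℂ)) 0 (Set.Icc 0 1) (t i : ℝ) :=
    hasDerivWithinAt_const _ _ _
  have h00 : (W₁ (t i) - W₂ (t i)) * (W₃ (t i) - W₄ (t i)) * A -
      (W₁ (t i) - W₃ (t i)) * (W₂ (t i) - W₄ (t i)) * B = 0 :=
    h0.self_of_nhdsWithin hti
  have hD1 := hD0.congr_of_eventuallyEq h0 h00
  have hu : UniqueDiffWithinAt ℝ (Set.Icc (0 : ℝ) 1) (t i : ℝ) :=
    uniqueDiffOn_Icc zero_lt_one _ hti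
  have h5 := hu.eq_deriv _ hD hD1
  simp only [Pi.sub_apply] at h5
  rw [s₁, s₂, s₃, s₄] at h5
  have hpi : (2 * Real.pi * Complex.I * k : ℂ) ≠ 0 := by
    have : (k : ℂ) ≠ 0 := by exact_mod_cast (show k ≠ 0 by omega)
    have h6 : (Real.pi : ℂ) ≠ 0 := by exact_mod_cast Real.pi_ne_zero
    exact mul_ne_zero (mul_ne_zero (mul_ne_zero two_ne_zero h6) Complex.I_ne_zero) this
  refine (mul_eq_zero.1 ?_).resolve_left hpi
  rw [← h5]
  ring

/-- `dS` as a continuous linear functional -/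
noncomputable def dSL (t : Par) (x : Ci) : C(Ci, ℝ) →L[ℝ] ℝ :=
  (F.w t (F.a t (F.a t x + (F.θ : Ci))))⁻¹ •
    ((F.w t (F.a t x + (F.θ : Ci)) * (F.w t (F.a t x))⁻¹) •
      (ContinuousMap.evalCLM ℝ x - ContinuousMap.evalCLM ℝ (F.a t x)) +
    (ContinuousMap.evalCLM ℝ (F.a t x + (F.θ : Ci)) -
      ContinuousMap.evalCLM ℝ (F.a t (F.a t x + (F.θ : Ci)))))

theorem dSL_apply (t : Par) (x : Ci) (ψ : C(Ci, ℝ)) : F.dSL t x ψ = F.dS t x ψ := by
  unfold dSL dS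
  simp only [smul_apply, add_apply, sub_apply, ContinuousMap.evalCLM_apply, smul_eq_mul]
  ring

/-- the points of an orbit of the rotation -/
def ob (m : ℕ) : Ci := ((m * F.θ : ℝ) : Ci)

theorem ob_ne {k : ℕ} (hk : 1 ≤ k) {m n : ℕ} (h : m ≠ n) :
    fourier (k : ℤ) (F.ob m) ≠ fourier (k : ℤ) (F.ob n) := by
  intro h1
  rw [fourier_apply, fourier_apply] at h1
  have h2 := AddCircle.injective_toCircle one_ne_zero (Subtype.ext h1)
  unfold ob at h2
  rw [← AddCircle.coe_zsmul, ← AddCircle.coe_zsmul, ← sub_eq_zero, ← AddCircle.coe_sub,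
    AddCircle.coe_eq_zero_iff] at h2
  obtain ⟨l, hl⟩ := h2
  simp only [zsmul_eq_mul, mul_one] at hl
  have h3 : ((k : ℤ) * ((m : ℤ) - n) : ℤ) ≠ 0 := by
    refine mul_ne_zero (by omega) (sub_ne_zero.2 ?_)
    exact_mod_cast h
  refine (F.irr.intCast_mul h3) ⟨l, ?_⟩
  push_cast at hl ⊢
  rw [hl]
  ring

theorem ob_inj : Function.Injective F.ob := by
  intro m n h
  by_contra hne
  exact F.ob_ne le_rfl hne (by rw [h])

theorem nm_q100 : F.q ^ 100 < 1 := by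
  refine pow_lt_one₀ F.q_pos.le ?_ (by norm_num)
  linarith [F.q_le]

theorem eq_of_le {x y : Ci} {c : ℝ} (hc : c < 1) (h : ‖x - y‖ ≤ c * ‖x - y‖) : x = y := by
  have h1 := norm_nonneg (x - y)
  have h2 : ‖x - y‖ = 0 := by
    by_contra hne
    have h3 : 0 < ‖x - y‖ := lt_of_le_of_ne h1 (Ne.symm hne)
    nlinarith
  exact sub_eq_zero.1 (norm_eq_zero.1 h2)

/-- the choice of the first point -/
theorem exists_point (t : Par) (B : Set Ci) (hB : B.Finite) :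
    ∃ m : ℕ, 3 ≤ m ∧ F.ob m ∉ B ∧ F.ob m ≠ F.a t (F.ob m) ∧
      F.ob m ≠ F.a t (F.ob m) + (F.θ : Ci) ∧ F.ob m ≠ F.S t (F.ob m) := by
  have hN : {m : ℕ | F.ob m ∉ F.U}.Infinite := by
    refine Set.infinite_of_forall_exists_gt fun a => ?_
    by_contra hcon
    push Not at hcon
    have h1 : F.ob (a + 1) ∈ F.U := by
      by_contra h
      exact absurd (hcon (a + 1) h) (by omega)
    have h2 : F.ob (a + 2) ∈ F.U := by
      by_contra h
      exact absurd (hcon (a + 2) h) (by omega)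
    have h3 := F.ret (F.ob (a + 1)) 0 1 (by norm_num) (by norm_num) (by simpa using h1) (by
      have e : F.ob (a + 1) + (((1 : ℤ) * F.θ : ℝ) : Ci) = F.ob (a + 2) := by
        unfold ob
        rw [← AddCircle.coe_add]
        congr 1
        push_cast
        ring
      rw [e]
      exact h2)
    exact absurd h3 (by norm_num)
  have f1 : {m : ℕ | m < 3}.Finite := Set.finite_lt_nat 3
  have f2 : {m : ℕ | F.ob m ∈ B}.Finite := hB.preimage F.ob_inj.injOn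
  have f3 : {m : ℕ | F.ob m ∉ F.U ∧ F.ob m = F.a t (F.ob m) + (F.θ : Ci)}.Finite := by
    refine Set.Subsingleton.finite ?_
    rintro m ⟨h1, h2⟩ n ⟨h3, h4⟩
    refine F.ob_inj (eq_of_le F.nm_q100 ?_)
    have h5 := F.contr t _ _ h1 h3
    have h6 : F.a t (F.ob m) - F.a t (F.ob n) = F.ob m - F.ob n := by
      conv_rhs => rw [h2, h4]
      abel
    rwa [h6] at h5
  have f4 : {m : ℕ | F.ob m ∉ F.U ∧ F.ob m = F.S t (F.ob m)}.Finite := by
    refine Set.Subsingleton.finite ?_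
    rintro m ⟨h1, h2⟩ n ⟨h3, h4⟩
    refine F.ob_inj (eq_of_le F.nm_q100 ?_)
    have h5 := F.contr t _ _ h1 h3
    have g1 := F.stay t _ h1 1 (by norm_num) (by norm_num)
    have g3 := F.stay t _ h3 1 (by norm_num) (by norm_num)
    simp only [Int.cast_one, one_mul] at g1 g3
    have h7 := F.contr t _ _ g1 g3
    rw [← S_apply, ← S_apply, ← h2, ← h4, add_sub_add_right_eq_sub] at h7
    have h8 : ‖F.a t (F.ob m) - F.a t (F.ob n)‖ ≤ ‖F.ob m - F.ob n‖ := by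
      refine h5.trans ?_
      nlinarith [norm_nonneg (F.ob m - F.ob n), F.nm_q100]
    exact h7.trans (mul_le_mul_of_nonneg_left h8 (pow_nonneg F.q_pos.le _))
  obtain ⟨m, hm, hm'⟩ := (hN.sdiff (((f1.union f2).union f3).union f4)).nonempty
  simp only [Set.mem_union, Set.mem_ofPred_eq, not_or, not_and] at hm' hm
  exact ⟨m, by omega, hm'.1.1.2, (F.ne_self t _).symm, hm'.1.2 hm, hm'.2 hm⟩

theorem no_open {k : ℕ} (hk : 1 ≤ k) {V : Set Par} (hV : IsOpen V) {t : Par} (ht : t ∈ V)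
    (hM : ∀ t' ∈ V, IsMoeb k (F.S t')) : False := by
  obtain ⟨x₂, h₂⟩ : ∃ x, x = F.ob 0 := ⟨_, rfl⟩
  obtain ⟨x₃, h₃⟩ : ∃ x, x = F.ob 1 := ⟨_, rfl⟩
  obtain ⟨x₄, h₄⟩ : ∃ x, x = F.ob 2 := ⟨_, rfl⟩
  set B : Set Ci := {x₂, F.a t x₂, F.a t x₂ + (F.θ : Ci), F.a t (F.a t x₂ + (F.θ : Ci)),
    x₃, F.a t x₃, F.a t x₃ + (F.θ : Ci), F.a t (F.a t x₃ + (F.θ : Ci)),
    x₄, F.a t x₄, F.a t x₄ + (F.θ : Ci), F.a t (F.a t x₄ + (F.θ : Ci))} with hBdef
  have hBf : B.Finite := by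
    rw [hBdef]
    simp only [Set.finite_insert, Set.finite_singleton]
  obtain ⟨m, hm3, hmB, hma, hmT, hmS⟩ := F.exists_point t B hBf
  obtain ⟨x₁, h₁⟩ : ∃ x, x = F.ob m := ⟨_, rfl⟩
  rw [← h₁] at hmB hma hmT hmS
  have z12 : fourier (k : ℤ) x₁ ≠ fourier (k : ℤ) x₂ := by
    rw [h₁, h₂]; exact F.ob_ne hk (by omega)
  have z23 : fourier (k : ℤ) x₂ ≠ fourier (k : ℤ) x₃ := by
    rw [h₂, h₃]; exact F.ob_ne hk (by omega)
  have z24 : fourier (k : ℤ) x₂ ≠ fourier (k : ℤ) x₄ := by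
    rw [h₂, h₄]; exact F.ob_ne hk (by omega)
  have z34 : fourier (k : ℤ) x₃ ≠ fourier (k : ℤ) x₄ := by
    rw [h₃, h₄]; exact F.ob_ne hk (by omega)
  obtain ⟨α, β, hαβ, hr⟩ := hM t ht
  have w23 := Moeb.ne_of_ne hαβ (hr x₂) (hr x₃) z23
  have w24 := Moeb.ne_of_ne hαβ (hr x₂) (hr x₄) z24
  have hP := Moeb.cross hαβ (Moeb.norm_fourier _ _) (Moeb.norm_fourier _ _)
    (Moeb.norm_fourier _ _) (Moeb.norm_fourier _ _) (hr x₁) (hr x₂) (hr x₃) (hr x₄)
  have hK1 := mul_ne_zero (Moeb.fourier_ne_zero (k : ℤ) (F.S t x₁))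
    (Moeb.partial_ne hP z12 z34 w23 w24)
  have hrel := fun i => F.dS_rel hV ht hM hk i x₁ x₂ x₃ x₄
  simp only at hrel
  generalize hk1 : fourier (k : ℤ) (F.S t x₁) *
      ((fourier (k : ℤ) (F.S t x₃) - fourier (k : ℤ) (F.S t x₄)) *
        ((fourier (k : ℤ) x₁ - fourier (k : ℤ) x₃) * (fourier (k : ℤ) x₂ - fourier (k : ℤ) x₄)) -
      (fourier (k : ℤ) (F.S t x₂) - fourier (k : ℤ) (F.S t x₄)) *
        ((fourier (k : ℤ) x₁ - fourier (k : ℤ) x₂) *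
          (fourier (k : ℤ) x₃ - fourier (k : ℤ) x₄))) = K₁ at hrel hK1
  obtain ⟨K₂, K₃, K₄, hrel'⟩ : ∃ K₂ K₃ K₄ : ℂ, ∀ i, K₁ * (F.dS t x₁ (F.φ i) : ℂ) +
      K₂ * (F.dS t x₂ (F.φ i) : ℂ) + K₃ * (F.dS t x₃ (F.φ i) : ℂ) +
      K₄ * (F.dS t x₄ (F.φ i) : ℂ) = 0 := ⟨_, _, _, hrel⟩
  have hre : ∀ i, (conj K₁ * K₁).re * F.dS t x₁ (F.φ i) + (conj K₁ * K₂).re * F.dS t x₂ (F.φ i) +
      (conj K₁ * K₃).re * F.dS t x₃ (F.φ i) + (conj K₁ * K₄).re * F.dS t x₄ (F.φ i) = 0 := by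
    intro i
    have h1 := congrArg (fun z => (conj K₁ * z).re) (hrel' i)
    simp only [mul_zero, Complex.zero_re] at h1
    rw [← h1]
    simp only [mul_add, ← mul_assoc, Complex.add_re, Complex.re_mul_ofReal]
  have hb1 : (conj K₁ * K₁).re ≠ 0 := by
    rw [mul_comm, Complex.mul_conj, Complex.ofReal_re]
    exact fun h => hK1 (Complex.normSq_eq_zero.1 h)
  set L : C(Ci, ℝ) →L[ℝ] ℝ := (conj K₁ * K₁).re • F.dSL t x₁ + (conj K₁ * K₂).re • F.dSL t x₂ +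
    (conj K₁ * K₃).re • F.dSL t x₃ + (conj K₁ * K₄).re • F.dSL t x₄ with hL
  have hLa : ∀ ψ, L ψ = (conj K₁ * K₁).re * F.dS t x₁ ψ + (conj K₁ * K₂).re * F.dS t x₂ ψ +
      (conj K₁ * K₃).re * F.dS t x₃ ψ + (conj K₁ * K₄).re * F.dS t x₄ ψ := by
    intro ψ
    rw [hL]
    simp only [smul_apply, add_apply, smul_eq_mul, dSL_apply]
  have hL0 : L = 0 := by
    refine F.dense L ?_ fun i => ?_
    · rw [hLa]
      unfold dS
      simp
    · rw [hLa]
      exact hre i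
  -- the test function
  set B' : Set Ci := insert (F.a t x₁) (insert (F.a t x₁ + (F.θ : Ci))
    (insert (F.a t (F.a t x₁ + (F.θ : Ci))) B)) with hB'
  have hB'f : B'.Finite := ((hBf.insert _).insert _).insert _
  have hx₁ : x₁ ∉ B' := by
    rw [hB']
    simp only [Set.mem_insert_iff, not_or]
    refine ⟨hma, hmT, ?_, hmB⟩
    rw [← S_apply]
    exact hmS
  have hne : B'.Nonempty := ⟨_, Set.mem_insert _ _⟩
  set ψ : C(Ci, ℝ) := ⟨fun x => Metric.infDist x B', Metric.continuous_infDist_pt B'⟩ with hψ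
  have hψ0 : ∀ x ∈ B', ψ x = 0 := fun x hx => Metric.infDist_zero_of_mem hx
  have hψ1 : 0 < ψ x₁ := (hB'f.isClosed.notMem_iff_infDist_pos hne).1 hx₁
  have hsub : ∀ x ∈ B, x ∈ B' := fun x hx =>
    Set.mem_insert_of_mem _ (Set.mem_insert_of_mem _ (Set.mem_insert_of_mem _ hx))
  have h5 := hLa ψ
  rw [hL0] at h5
  simp only [zero_apply] at h5
  have v2 : F.dS t x₂ ψ = 0 := by
    unfold dS
    rw [hψ0 x₂ (hsub _ (by simp [hBdef])), hψ0 (F.a t x₂) (hsub _ (by simp [hBdef])),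
      hψ0 (F.a t x₂ + (F.θ : Ci)) (hsub _ (by simp [hBdef])),
      hψ0 (F.a t (F.a t x₂ + (F.θ : Ci))) (hsub _ (by simp [hBdef]))]
    simp
  have v3 : F.dS t x₃ ψ = 0 := by
    unfold dS
    rw [hψ0 x₃ (hsub _ (by simp [hBdef])), hψ0 (F.a t x₃) (hsub _ (by simp [hBdef])),
      hψ0 (F.a t x₃ + (F.θ : Ci)) (hsub _ (by simp [hBdef])),
      hψ0 (F.a t (F.a t x₃ + (F.θ : Ci))) (hsub _ (by simp [hBdef]))]
    simp
  have v4 : F.dS t x₄ ψ = 0 := by
    unfold dS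
    rw [hψ0 x₄ (hsub _ (by simp [hBdef])), hψ0 (F.a t x₄) (hsub _ (by simp [hBdef])),
      hψ0 (F.a t x₄ + (F.θ : Ci)) (hsub _ (by simp [hBdef])),
      hψ0 (F.a t (F.a t x₄ + (F.θ : Ci))) (hsub _ (by simp [hBdef]))]
    simp
  have v1 : F.dS t x₁ ψ ≠ 0 := by
    unfold dS
    rw [hψ0 (F.a t x₁) (by simp [hB']), hψ0 (F.a t x₁ + (F.θ : Ci)) (by simp [hB']),
      hψ0 (F.a t (F.a t x₁ + (F.θ : Ci))) (by simp [hB']), sub_zero, sub_zero, add_zero]
    exact div_ne_zero (mul_ne_zero (F.w_pos _ _).ne' (div_ne_zero hψ1.ne' (F.w_pos _ _).ne'))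
      (F.w_pos _ _).ne'
  rw [v2, v3, v4, mul_zero, mul_zero, mul_zero, add_zero, add_zero, add_zero] at h5
  exact (mul_ne_zero hb1 v1) h5.symm

/-! ## Meagreness -/

/-- the normalised coefficients -/
def nmKK (n : ℕ) : Set (ℂ × ℂ) :=
  {p | ‖p.1‖ ^ 2 + ‖p.2‖ ^ 2 = 1 ∧ 1 / ((n : ℝ) + 1) ≤ |‖p.1‖ - ‖p.2‖|}

theorem nmKK_compact (n : ℕ) : IsCompact (nmKK n) := by
  refine Metric.isCompact_of_isClosed_isBounded ?_ ?_
  · have c1 : Continuous fun p : ℂ × ℂ => ‖p.1‖ ^ 2 + ‖p.2‖ ^ 2 := by fun_prop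
    have c2 : Continuous fun p : ℂ × ℂ => |‖p.1‖ - ‖p.2‖| := by fun_prop
    exact (isClosed_eq c1 continuous_const).inter (isClosed_le continuous_const c2)
  · refine (Metric.isBounded_closedBall (x := (0 : ℂ × ℂ)) (r := 1)).subset fun p hp => ?_
    rw [mem_closedBall_zero_iff, Prod.norm_def, sup_le_iff]
    have h1 := hp.1
    constructor <;> nlinarith [norm_nonneg p.1, norm_nonneg p.2]

/-- a closed set of parameters -/
def EE (k n : ℕ) : Set Par := {t | ∃ p ∈ nmKK n, ∀ x : Ci,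
  fourier (k : ℤ) (F.S t x) * (conj p.2 * fourier (k : ℤ) x + conj p.1) =
    p.1 * fourier (k : ℤ) x + p.2}

theorem EE_closed (k n : ℕ) : IsClosed (F.EE k n) := by
  have h1 : F.EE k n = Prod.fst '' ((Set.univ ×ˢ nmKK n) ∩ {q : Par × (ℂ × ℂ) | ∀ x : Ci,
      fourier (k : ℤ) (F.a q.1 (F.a q.1 x + (F.θ : Ci))) *
        (conj q.2.2 * fourier (k : ℤ) x + conj q.2.1) =
      q.2.1 * fourier (k : ℤ) x + q.2.2}) := by
    ext t
    constructor
    · rintro ⟨p, hp, h⟩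
      refine ⟨(t, p), ⟨⟨Set.mem_univ _, hp⟩, fun x => ?_⟩, rfl⟩
      have := h x
      rw [S_apply] at this
      exact this
    · rintro ⟨⟨t', p⟩, ⟨⟨-, hp⟩, h⟩, rfl⟩
      refine ⟨p, hp, fun x => ?_⟩
      rw [S_apply]
      exact h x
  rw [h1]
  refine (IsCompact.image ?_ continuous_fst).isClosed
  refine (isCompact_univ.prod (nmKK_compact n)).inter_right ?_
  have h2 : {q : Par × (ℂ × ℂ) | ∀ x : Ci,
      fourier (k : ℤ) (F.a q.1 (F.a q.1 x + (F.θ : Ci))) *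
        (conj q.2.2 * fourier (k : ℤ) x + conj q.2.1) =
      q.2.1 * fourier (k : ℤ) x + q.2.2} = ⋂ x : Ci, {q : Par × (ℂ × ℂ) |
      fourier (k : ℤ) (F.a q.1 (F.a q.1 x + (F.θ : Ci))) *
        (conj q.2.2 * fourier (k : ℤ) x + conj q.2.1) =
      q.2.1 * fourier (k : ℤ) x + q.2.2} := by
    ext q
    simp
  rw [h2]
  refine isClosed_iInter fun x => isClosed_eq ?_ ?_
  · refine Continuous.mul ?_ ?_
    · refine (fourier (k : ℤ)).continuous.comp ?_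
      refine F.cont.comp (continuous_fst.prodMk ?_)
      exact (F.cont.comp (continuous_fst.prodMk continuous_const)).add continuous_const
    · exact ((Complex.continuous_conj.comp (continuous_snd.comp continuous_snd)).mul
        continuous_const).add (Complex.continuous_conj.comp (continuous_fst.comp continuous_snd))
  · exact ((continuous_fst.comp continuous_snd).mul continuous_const).add
      (continuous_snd.comp continuous_snd)

theorem EE_moeb {k n : ℕ} {t : Par} (h : t ∈ F.EE k n) : IsMoeb k (F.S t) := by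
  obtain ⟨p, hp, h⟩ := h
  refine ⟨p.1, p.2, fun he => ?_, h⟩
  have h1 := hp.2
  rw [he, sub_self, abs_zero] at h1
  have h2 : (0 : ℝ) < 1 / ((n : ℝ) + 1) := by positivity
  linarith

theorem moeb_EE {k : ℕ} {t : Par} (h : IsMoeb k (F.S t)) : ∃ n, t ∈ F.EE k n := by
  obtain ⟨α, β, hαβ, h⟩ := h
  have hr0 : 0 < ‖α‖ ^ 2 + ‖β‖ ^ 2 := by
    rcases eq_or_ne α 0 with h1 | h1
    · have h2 : β ≠ 0 := by
        intro h2
        rw [h1, h2] at hαβ
        exact hαβ rfl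
      have := norm_pos_iff.2 h2
      positivity
    · have := norm_pos_iff.2 h1
      positivity
  set r : ℝ := Real.sqrt (‖α‖ ^ 2 + ‖β‖ ^ 2) with hr
  have hr1 : 0 < r := Real.sqrt_pos.2 hr0
  have hr2 : r ^ 2 = ‖α‖ ^ 2 + ‖β‖ ^ 2 := Real.sq_sqrt hr0.le
  have hd : 0 < |‖α‖ / r - ‖β‖ / r| := by
    rw [abs_pos, ← sub_div]
    exact div_ne_zero (sub_ne_zero.2 hαβ) hr1.ne'
  obtain ⟨n, hn⟩ := exists_nat_one_div_lt hd
  refine ⟨n, (((r⁻¹ : ℝ) : ℂ) * α, ((r⁻¹ : ℝ) : ℂ) * β), ⟨?_, ?_⟩, fun x => ?_⟩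
  · simp only [norm_mul, Complex.norm_real, Real.norm_eq_abs, abs_of_pos (inv_pos.2 hr1)]
    rw [mul_pow, mul_pow, ← mul_add, ← hr2, inv_pow]
    exact inv_mul_cancel₀ (pow_ne_zero _ hr1.ne')
  · simp only [norm_mul, Complex.norm_real, Real.norm_eq_abs, abs_of_pos (inv_pos.2 hr1)]
    refine hn.le.trans (le_of_eq ?_)
    congr 1
    rw [div_eq_inv_mul, div_eq_inv_mul]
  · simp only [map_mul, Complex.conj_ofReal]
    linear_combination ((r⁻¹ : ℝ) : ℂ) * h x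

/-- for generic parameters `S` is in no finite cover of `PGL₂(ℝ)` -/
theorem nonmob_residual : {t | ∀ k : ℕ, 1 ≤ k → ¬ IsMoeb k (F.S t)} ∈ residual Par := by
  have h1 : ∀ k n : ℕ, 1 ≤ k → (F.EE k n)ᶜ ∈ residual Par := by
    intro k n hk
    refine residual_of_dense_open (F.EE_closed k n).isOpen_compl ?_
    rw [← interior_eq_empty_iff_dense_compl]
    by_contra hne
    obtain ⟨t, ht⟩ := Set.nonempty_iff_ne_empty.2 hne
    exact F.no_open hk isOpen_interior ht fun t' ht' => F.EE_moeb (interior_subset ht')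
  have h2 : ⋂ (k : ℕ) (_ : 1 ≤ k) (n : ℕ), (F.EE k n)ᶜ ∈ residual Par := by
    refine countable_iInter_mem.2 fun k => ?_
    by_cases hk : 1 ≤ k
    · simp only [hk, Set.iInter_true]
      exact countable_iInter_mem.2 fun n => h1 k n hk
    · simp only [hk, Set.iInter_false]
      exact Filter.univ_mem
  filter_upwards [h2] with t ht k hk hM
  obtain ⟨n, hn⟩ := F.moeb_EE hM
  simp only [Set.mem_iInter] at ht
  exact ht k hk n hn

/-- for generic parameters the group generated by `T` and `S` is not topologically conjugate to a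
subgroup of a finite cover of `PGL₂(ℝ)` -/
theorem nonconj_residual : {t | ∀ k : ℕ, 1 ≤ k → ∀ h : Homeo,
    ¬ (IsMoeb k (h * Pool.Agent.ELM.rot F.θ * h⁻¹) ∧ IsMoeb k (h * F.S t * h⁻¹))} ∈
      residual Par := by
  filter_upwards [F.nonmob_residual] with t ht k hk h hM
  obtain ⟨j, hj, h1⟩ := IsMoeb.of_conj F.irr hk hM.1 hM.2
  exact ht j hj h1

end Fam

end Pool.Agent.ELM
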