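import Pool.Agent.ELM.Typ

/-!
# ELM, row INJ: the coding is injective on the good sequences
-/

set_option autoImplicit false

namespace Pool.Agent.ELM

open Filter MeasureTheory Topology
open scoped ENNReal

namespace Fam

variable (F : Fam)

theorem br_inj74 (t : Par) (k : ℤ) {x x' : Ci} (h : F.br t k x = F.br t k x') : x = x' := by
  unfold br at h
  have h1 := add_right_cancel h
  rw [← F.inv t x, h1, F.inv]

theorem pw_append74 (t : Par) (l l' : List ℤ) (x : Ci) :
    F.pw t (l ++ l') x = F.pw t l (F.pw t l' x) := by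
  unfold pw
  rw [List.foldr_append]

theorem pw_cons74 (t : Par) (b : ℤ) (l : List ℤ) (x : Ci) :
    F.pw t (b :: l) x = F.br t b (F.pw t l x) := rfl

/-- the point `y m` in terms of `y (m + j)` -/
theorem pw_orbit (t : Par) (k : ℕ → ℤ) (y : ℕ → Ci) (h : F.IsOrbit t k y) (m j : ℕ) :
    F.pw t ((List.range j).map fun i => k (m + i)) (y (m + j)) = y m := by
  induction j with
  | zero => rfl
  | succ j ih =>
    rw [List.range_succ, List.map_append, pw_append74, ← ih]
    congr 1
    change F.br t (k (m + j)) (y (m + (j + 1))) = y (m + j)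
    exact (h (m + j)).symm

/-- two orbits with different first exponents, one of them through a free point, do not end at the
same point -/
theorem inj_aux (t : Par) (hG : F.Good t) (p p' : ℕ) (k l : ℕ → ℤ) (y z : ℕ → Ci)
    (hy : F.IsOrbit t k y) (hz : F.IsOrbit t l z) (hTy : F.Typ p k y) (hTz : F.Typ p' l z)
    (h0 : y 0 = z 0) (hk : k 0 ≠ l 0) (hk1 : ∀ j, k (j + 1) ≠ 0) (hl1 : ∀ j, l (j + 1) ≠ 0)
    (hf : F.Free t (y 1)) : False := by
  classical
  -- the base point
  set x₀ : Ci := F.a t (y 1) with hx₀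
  have hTy' : F.Typ (max p p') k y := hTy.mono (le_max_left _ _)
  have hTz' : F.Typ (max p p') l z := hTz.mono (le_max_right _ _)
  have hAt := hG (max p p') k l y z hy hz hTy' hTz' h0 x₀
  -- no positive atom of `y`
  have hyp : ∀ j, y (j + 1) ≠ x₀ := by
    intro j hj
    rcases Nat.eq_zero_or_pos j with rfl | hj0
    · exact F.ne_self t (y 1) hj.symm
    · obtain ⟨j, rfl⟩ := Nat.exists_eq_succ_of_ne_zero hj0.ne'
      have h1 := F.pw_orbit t k y hy 1 (j + 1)
      rw [show 1 + (j + 1) = j + 1 + 1 by ring, show y (j + 1 + 1) = F.a t (y 1) from hj] at h1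
      refine (hf ((List.range (j + 1)).map fun i => k (1 + i)) (by simp) ?_).2.1 h1
      intro b hb
      obtain ⟨i, -, rfl⟩ := List.mem_map.1 hb
      rw [add_comm]
      exact hk1 i
  -- no negative atom of `z`
  have hzn : ∀ j, F.a t (z (j + 1)) ≠ x₀ := by
    intro j hj
    have h1 : z (j + 1) = y 1 := by rw [← F.inv t (z (j + 1)), hj, hx₀, F.inv]
    have h2 := F.pw_orbit t l z hz 1 j
    rw [show 1 + j = j + 1 by ring, h1] at h2
    -- `a (y 1) = T^(l 0 - k 0) a (z 1)`
    have h3 : F.a t (y 1) = F.br t (l 0 - k 0) (z 1) := by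
      have h4 := hy 0
      have h5 := hz 0
      rw [h0] at h4
      rw [h4] at h5
      unfold br at h5 ⊢
      have h6 : F.a t (y 1) = F.a t (z 1) + ((l 0 * F.θ : ℝ) : Ci) - ((k 0 * F.θ : ℝ) : Ci) :=
        eq_sub_of_add_eq h5
      rw [h6, add_sub_assoc, ← AddCircle.coe_sub]
      congr 2
      push_cast
      ring
    have h4 : F.a t (F.pw t ((l 0 - k 0) :: ((List.range j).map fun i => l (1 + i))) (y 1))
        = y 1 := by
      rw [pw_cons74, h2, ← h3, F.inv]
    refine (hf ((l 0 - k 0) :: ((List.range j).map fun i => l (1 + i))) (by simp) ?_).2.2 h4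
    intro b hb
    rcases List.mem_cons.1 hb with rfl | hb
    · exact sub_ne_zero.2 hk.symm
    · obtain ⟨i, -, rfl⟩ := List.mem_map.1 hb
      rw [add_comm]
      exact hl1 i
  -- sums
  have hb : ∃ C : ℝ, ∀ x : Ci, |(if x = x₀ then (1 : ℝ) else 0)| ≤ C := by
    refine ⟨1, fun x => ?_⟩
    split_ifs <;> simp
  have hsy := F.coef_summable t (max p p') y hTy'.t2
  have hsz := F.coef_summable t (max p p') z hTz'.t2
  have hDy := F.D_summable t y hsy (fun x => if x = x₀ then 1 else 0) hb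
  have h1 : F.At t y x₀ ≤ -F.coef t y 0 := by
    unfold At D
    rw [hDy.tsum_eq_zero_add]
    have h2 : F.coef t y 0 * ((if y (0 + 1) = x₀ then (1 : ℝ) else 0) -
        (if F.a t (y (0 + 1)) = x₀ then (1 : ℝ) else 0)) = -F.coef t y 0 := by
      rw [if_neg (hyp 0), if_pos (by rw [hx₀])]
      ring
    have h3 : ∑' j, F.coef t y (j + 1) * ((if y (j + 1 + 1) = x₀ then (1 : ℝ) else 0) -
        (if F.a t (y (j + 1 + 1)) = x₀ then (1 : ℝ) else 0)) ≤ 0 := by
      refine tsum_nonpos fun j => ?_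
      rw [if_neg (hyp (j + 1)), zero_sub]
      have h4 := F.coef_pos t y (j + 1)
      split_ifs <;> nlinarith
    refine le_trans (add_le_add (le_of_eq ?_) h3) (by rw [add_zero])
    exact h2
  have h2 : 0 ≤ F.At t z x₀ := by
    unfold At D
    refine tsum_nonneg fun j => ?_
    change 0 ≤ F.coef t z j * ((if z (j + 1) = x₀ then (1 : ℝ) else 0) -
      (if F.a t (z (j + 1)) = x₀ then (1 : ℝ) else 0))
    rw [if_neg (hzn j), sub_zero]
    have h4 := F.coef_pos t z j
    split_ifs <;> simp [h4.le]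
  have h3 := F.coef_pos t y 0
  rw [hAt] at h1
  linarith

theorem appZ_nil74 (u : ℕ → ℤ) : appZ [] u = u := rfl

theorem appO_nil74 (t : Par) (y : ℕ → Ci) : F.appO t [] y = y := rfl

theorem orb_zero74 (t : Par) (u : ℕ → ℤ) : F.orb t u 0 = F.xi t u := rfl

theorem orb_one74 (t : Par) (u : ℕ → ℤ) : F.orb t u 1 = F.xi t (sh u) := rfl

theorem pw_back (t : Par) (u : ℕ → ℤ) (h : F.Conv t u) :
    F.pw t [0, -u 0, 0] (F.xi t u) = F.xi t (sh u) := by
  have h1 := F.isOrbit_orb t u h 0
  rw [orb_zero74, zero_add, orb_one74] at h1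
  rw [h1]
  simp only [pw, List.foldr_cons, List.foldr_nil, br, Int.cast_zero, zero_mul, AddCircle.coe_zero,
    add_zero, F.inv]
  rw [add_assoc, ← AddCircle.coe_add]
  have h2 : ((u 0 : ℝ) * F.θ + ((-u 0 : ℤ) : ℝ) * F.θ) = 0 := by
    push_cast
    ring
  rw [h2, AddCircle.coe_zero, add_zero, F.inv]

theorem gseq_free_sh (t : Par) (u : ℕ → ℤ) (h : F.GSeq t u) : F.Free t (F.xi t (sh u)) := by
  rw [← F.pw_back t u h.styp.conv]
  exact h.free _

/-- the case of different first exponents -/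
theorem xi_inj_aux (t : Par) (hG : F.Good t) (u v : ℕ → ℤ) (hu : F.GSeq t u) (hv : F.STyp t v)
    (h : F.xi t u = F.xi t v) (h0 : u 0 ≠ v 0) : False := by
  obtain ⟨p, hp⟩ := F.typ_app t u hu.styp []
  obtain ⟨p', hp'⟩ := F.typ_app t v hv []
  have hO := F.isOrbit_app t u hu.styp []
  have hO' := F.isOrbit_app t v hv []
  rw [appZ_nil74, appO_nil74] at hp hp' hO hO'
  exact F.inj_aux t hG p p' u v _ _ hO hO' hp hp' h h0 (fun j => hu.styp.ne _) (fun j => hv.ne _)
    (F.gseq_free_sh t u hu)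

theorem gseq_sh_aux (t : Par) (u : ℕ → ℤ) (h : F.GSeq t u) : F.GSeq t (sh u) := by
  refine ⟨F.styp_sh t u h.styp, fun l => ?_⟩
  rw [← F.pw_back t u h.styp.conv, ← pw_append74]
  exact h.free _

theorem xi_inj (t : Par) (hG : F.Good t) (u v : ℕ → ℤ) (hu : F.GSeq t u) (hv : F.GSeq t v)
    (h : F.xi t u = F.xi t v) : u = v := by
  have key : ∀ n : ℕ, ∀ u v : ℕ → ℤ, F.GSeq t u → F.GSeq t v → F.xi t u = F.xi t v →
      u n = v n := by
    intro n
    induction n with
    | zero =>
      intro u v hu hv h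
      by_contra h0
      exact F.xi_inj_aux t hG u v hu hv.styp h h0
    | succ n ih =>
      intro u v hu hv h
      have h0 : u 0 = v 0 := by
        by_contra h0
        exact F.xi_inj_aux t hG u v hu hv.styp h h0
      refine ih (sh u) (sh v) (F.gseq_sh_aux t u hu) (F.gseq_sh_aux t v hv) ?_
      have h1 := F.isOrbit_orb t u hu.styp.conv 0
      have h2 := F.isOrbit_orb t v hv.styp.conv 0
      rw [orb_zero74, zero_add, orb_one74] at h1 h2
      rw [h1, h2, h0] at h
      exact F.br_inj74 t _ h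
  funext n
  exact key n u v hu hv h

theorem xi_ne (t : Par) (hG : F.Good t) (u v : ℕ → ℤ) (hu : F.GSeq t u) (hv : F.GSeq t v) :
    F.xi t u ≠ F.a t (F.xi t v) := by
  intro h
  obtain ⟨p, hp⟩ := F.typ_app t u hu.styp []
  obtain ⟨p', hp'⟩ := F.typ_app t v hv.styp [0]
  have hO := F.isOrbit_app t u hu.styp []
  have hO' := F.isOrbit_app t v hv.styp [0]
  rw [appZ_nil74, appO_nil74] at hp hO
  refine F.inj_aux t hG p p' u (appZ [0] v) _ _ hO hO' hp hp' ?_ (hu.styp.ne 0)
    (fun j => hu.styp.ne _) (fun j => hv.styp.ne _) (F.gseq_free_sh t u hu)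
  rw [appO_zero, orb_zero74, orb_zero74, h]
  simp [pw, br]

end Fam

end Pool.Agent.ELM
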