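import Pool.Agent.ELM.Eta
import Pool.Agent.ELM.Inj
import Pool.Agent.ELM.Stab

/-!
# ELM: the carriers of the four pieces of the stationary measure, row SEP
-/

set_option autoImplicit false

namespace Pool.Agent.ELM

open Filter MeasureTheory Topology Set
open scoped ENNReal

namespace Fam

variable (F : Fam)

/-- The sets `A`, `B` of `glue_main`. -/
theorem sep (t : Par) (hG : F.Good t) : ∃ A B : Set Ci, MeasurableSet A ∧ MeasurableSet B ∧
    half (Pool.Agent.ELM.rot F.θ) (F.aH t) (F.eta t) Aᶜ = 0 ∧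
    half (Pool.Agent.ELM.rot F.θ)⁻¹ (F.aH t) (F.eta t) Bᶜ = 0 ∧ Disjoint A B ∧
    Disjoint (A ∪ B) (F.aH t '' (A ∪ B)) := by
  obtain ⟨N, hN, hNm, hN0⟩ := exists_measurable_superset_of_null (F.gseq_ae t hG)
  have hgood : ∀ u, u ∉ N → F.GSeq t u := fun u hu => by
    by_contra h
    exact hu (hN h)
  have haeN : ∀ᵐ u ∂PP, u ∉ N := by
    rw [ae_iff]
    simpa using hN0
  have hpos : MeasurableSet {u : ℕ → ℤ | 0 < u 0} :=
    measurableSet_lt measurable_const (measurable_pi_apply 0)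
  have hneg : MeasurableSet {u : ℕ → ℤ | u 0 < 0} :=
    measurableSet_lt (measurable_pi_apply 0) measurable_const
  have hinj : InjOn (F.xi t) Nᶜ := fun u hu v hv h =>
    F.xi_inj t hG u v (hgood u hu) (hgood v hv) h
  have hmeas : ∀ P : Set (ℕ → ℤ), MeasurableSet P → MeasurableSet (F.xi t '' (Nᶜ ∩ P)) :=
    fun P hP => (hNm.compl.inter hP).image_of_measurable_injOn (F.xi_meas t)
      (hinj.mono inter_subset_left)
  have hA : MeasurableSet (F.xi t '' (Nᶜ ∩ {u : ℕ → ℤ | 0 < u 0})) := hmeas _ hpos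
  have hB : MeasurableSet (F.xi t '' (Nᶜ ∩ {u : ℕ → ℤ | u 0 < 0})) := hmeas _ hneg
  have main : ∀ (P : Set (ℕ → ℤ)) (k : ℤ), MeasurableSet P → k ≠ 0 → (∀ u, scons k u ∈ P) →
      (F.eta t).map (F.br t k) (F.xi t '' (Nᶜ ∩ P))ᶜ = 0 := by
    intro P k hPm hk hP
    have hm := (hmeas P hPm).compl
    rw [Measure.map_apply (F.br_meas82 t k) hm]
    unfold Fam.eta
    rw [Measure.map_apply (F.xi_meas t) (F.br_meas82 t k hm)]
    refine measure_mono_null (t := {u | ¬ (F.Conv t u ∧ scons k u ∉ N)}) ?_ ?_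
    · intro u hu huu
      refine hu ?_
      rw [← F.xi_scons t k u huu.1]
      exact ⟨scons k u, ⟨huu.2, hP u⟩, rfl⟩
    · have h1 : ∀ᵐ u ∂PP, F.Conv t u ∧ scons k u ∉ N := (F.conv_ae t).and (ae_scons82 haeN k hk)
      exact h1
  have hd1 : Disjoint (F.xi t '' (Nᶜ ∩ {u : ℕ → ℤ | 0 < u 0}))
      (F.xi t '' (Nᶜ ∩ {u : ℕ → ℤ | u 0 < 0})) := by
    rw [Set.disjoint_left]
    rintro x ⟨u, hu, rfl⟩ ⟨v, hv, hvu⟩
    have h1 := hinj hv.1 hu.1 hvu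
    have h2 : (0 : ℤ) < u 0 := hu.2
    have h3 : v 0 < (0 : ℤ) := hv.2
    rw [h1] at h3
    exact lt_asymm h2 h3
  have hsub : ∀ x, x ∈ F.xi t '' (Nᶜ ∩ {u : ℕ → ℤ | 0 < u 0}) ∪
      F.xi t '' (Nᶜ ∩ {u : ℕ → ℤ | u 0 < 0}) → ∃ u, u ∉ N ∧ F.xi t u = x := by
    rintro x (⟨u, hu, rfl⟩ | ⟨u, hu, rfl⟩)
    · exact ⟨u, hu.1, rfl⟩
    · exact ⟨u, hu.1, rfl⟩
  refine ⟨_, _, hA, hB, ?_, ?_, hd1, ?_⟩
  · rw [half_apply _ _ _ hA.compl, ENNReal.tsum_eq_zero]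
    intro n
    have h1 : ⇑(Pool.Agent.ELM.rot F.θ ^ (n + 1) * F.aH t : Homeo) = F.br t ((n : ℤ) + 1) := by
      rw [← F.coe_mulH t]
      norm_cast
    rw [h1, main _ _ hpos (by omega) (fun u => ?_), mul_zero]
    show (0 : ℤ) < (n : ℤ) + 1
    omega
  · rw [half_apply _ _ _ hB.compl, ENNReal.tsum_eq_zero]
    intro n
    have h1 : ⇑((Pool.Agent.ELM.rot F.θ)⁻¹ ^ (n + 1) * F.aH t : Homeo) =
        F.br t (-((n : ℤ) + 1)) := by
      rw [← F.coe_mulH t, zpow_neg, inv_pow]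
      norm_cast
    rw [h1, main _ _ hneg (by omega) (fun u => ?_), mul_zero]
    show -((n : ℤ) + 1) < (0 : ℤ)
    omega
  · rw [Set.disjoint_left]
    rintro x hx ⟨y, hy, hyx⟩
    obtain ⟨u, hu, hux⟩ := hsub x hx
    obtain ⟨v, hv, hvy⟩ := hsub y hy
    refine F.xi_ne t hG u v (hgood u hu) (hgood v hv) ?_
    rw [hux, hvy, ← hyx]
    rfl

end Fam

end Pool.Agent.ELM
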