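import Pool.Agent.ELM.Glue
import Pool.Agent.ELM.Mix
import Pool.Agent.ELM.NonElem
import Pool.Agent.ELM.Sep
import Pool.Agent.ELM.Free
import Pool.Agent.ELM.NonMob

/-!
# ELM: good parameters give counterexamples
-/

set_option autoImplicit false

namespace Pool.Agent.ELM

open Filter MeasureTheory Topology Set
open scoped ENNReal

namespace Fam

variable (F : Fam)

theorem isGood_S (t : Par) : IsGood (F.S t) :=
  IsGood.mul (IsGood.mul (F.good t) (isGood_rot F.θ)) (F.good t)

theorem main {t : Par} (hG : F.Good t) :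
    IsCounterexample (Grp (Pool.Agent.ELM.rot F.θ) (F.S t)) := by
  obtain ⟨A, B, hA, hB, hA0, hB0, hAB, haAB⟩ := F.sep t hG
  obtain ⟨hst, hent⟩ := glue_main (F.aH_mul t) (F.eta_prob t) (F.eta_rec' t) hA hB hA0 hB0 hAB haAB
  have hinj : Function.Injective (toHomeo (Pool.Agent.ELM.rot F.θ) (F.S t)) := F.hom_inj t hG
  have hν := isProbabilityMeasure_glue (a := F.aH t) (F.eta_prob t)
  exact isCounterexample F.irr (F.isGood_S t) hinj (isNonElementary F.irr (F.isGood_S t) hinj)
    hν hst (fun ν' h1 h2 => F.stat_unique' t hν h1 hst h2) hent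

end Fam

end Pool.Agent.ELM
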