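import Pool.Agent.ELM.Ana
import Pool.Agent.ELM.AE
import Pool.Agent.ELM.Main

/-!
# ELM: the involutions in terms of the densities, and the final choice of the parameter
-/

set_option autoImplicit false

namespace Pool.Agent.ELM

open Filter MeasureTheory Topology Set

/-- `a` moves every point of the circle by half of the total mass of the density `w` -/
def IsHalf (w : C(UnitAddCircle, ℝ)) (a : Homeo) : Prop :=
  ∃ A : ℝ → ℝ, (∀ x : ℝ, ((A x : ℝ) : UnitAddCircle) = a (x : UnitAddCircle)) ∧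
    ∀ x : ℝ, ∫ s in x..A x, w (s : UnitAddCircle) =
      (∫ s in (0 : ℝ)..1, w (s : UnitAddCircle)) / 2

namespace Fan

variable {θ : ℝ}

/-- the density -/
noncomputable def AnaFam.dens (A : AnaFam θ) (t : Par) : C(UnitAddCircle, ℝ) where
  toFun x := A.b.Z * wC A.b t x
  continuous_toFun := by
    have h := (wC_cont A.b A.h).comp (Continuous.prodMk_right t)
    exact continuous_const.mul h

theorem AnaFam.dens_coe (A : AnaFam θ) (t : Par) (x : ℝ) :
    A.dens t (x : UnitAddCircle) = A.b.Z * wl A.b t x := by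
  show A.b.Z * wC A.b t (x : Ci) = _
  rw [wC_coe]

theorem AnaFam.integral (A : AnaFam θ) (t : Par) (x y : ℝ) :
    ∫ s in x..y, A.dens t (s : UnitAddCircle) = A.b.Z * (bl A.b t y - bl A.b t x) := by
  have hg := good_line A.b A.h t
  have h1 : ∀ s ∈ uIcc x y, HasDerivAt (fun s => A.b.Z * bl A.b t s)
      (A.dens t (s : UnitAddCircle)) s := by
    intro s _
    rw [A.dens_coe]
    exact (hg.hasDeriv s).const_mul _
  have h2 : Continuous fun s : ℝ => A.dens t (s : UnitAddCircle) :=
    (A.dens t).continuous.comp (AddCircle.continuous_mk' 1)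
  rw [intervalIntegral.integral_eq_sub_of_hasDerivAt h1 (h2.intervalIntegrable _ _)]
  ring

theorem AnaFam.isHalf (A : AnaFam θ) (t : Par) : IsHalf (A.dens t) (A.F.aH t) := by
  refine ⟨al A.b A.h t, fun x => ?_, fun x => ?_⟩
  · rw [← aHo_coe]
    exact (A.a_eq t x).symm
  · have h1 := (good_line A.b A.h t).add_one 0
    rw [zero_add] at h1
    rw [A.integral, A.integral, bl_al, h1]
    ring

theorem AnaFam.dens_ana (A : AnaFam θ) (t : Par) :
    AnalyticOnNhd ℝ (fun x : ℝ => A.dens t (x : UnitAddCircle)) univ := by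
  have h1 := (bl_ana A.b A.h t).deriv
  have h2 : (fun x : ℝ => A.dens t (x : UnitAddCircle)) =
      fun x => A.b.Z * deriv (bl A.b t) x := by
    funext x
    rw [A.dens_coe, ((good_line A.b A.h t).hasDeriv x).deriv]
  rw [h2]
  exact fun x hx => analyticAt_const.mul (h1 x hx)

/-- every analytic family contains a parameter with all the properties -/
theorem AnaFam.exists_param (A : AnaFam θ) : ∃ t : Par,
    IsCounterexample (Subgroup.closure {rot θ, A.F.aH t * rot θ * A.F.aH t}) ∧
    (∀ g ∈ Subgroup.closure {rot θ, A.F.aH t * rot θ * A.F.aH t}, IsAnalytic g) ∧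
    ∀ k : ℕ, 1 ≤ k → ∀ h : Homeo,
      ∃ g ∈ Subgroup.closure {rot θ, A.F.aH t * rot θ * A.F.aH t}, ¬ IsMoeb k (h * g * h⁻¹) := by
  have h1 : ∀ᶠ t in residual Par, A.F.Good t := A.F.good_residual
  have h2 : ∀ᶠ t in residual Par, ∀ k : ℕ, 1 ≤ k → ∀ h : Homeo,
      ¬ (IsMoeb k (h * Pool.Agent.ELM.rot A.F.θ * h⁻¹) ∧ IsMoeb k (h * A.F.S t * h⁻¹)) :=
    A.F.nonconj_residual
  obtain ⟨t, hG, hM⟩ := (dense_of_mem_residual (h1.and h2)).nonempty
  have e1 : rot θ = Pool.Agent.ELM.rot A.F.θ := by rw [A.hθ]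
  refine ⟨t, ?_, ?_, ?_⟩
  · rw [e1]
    exact A.F.main hG
  · rw [e1]
    exact (A.analytic t).2
  · intro k hk h
    by_contra hcon
    push Not at hcon
    refine hM k hk h ⟨?_, ?_⟩
    · have h3 := hcon (rot θ) (Subgroup.subset_closure (mem_insert _ _))
      rwa [e1] at h3
    · have h3 := hcon (A.F.aH t * rot θ * A.F.aH t)
        (Subgroup.subset_closure (mem_insert_of_mem _ (mem_singleton _)))
      rwa [e1] at h3

end Fan

end Pool.Agent.ELM
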