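import Pool.Agent.ELM.Defs

/-!
# Lifts of circle diffeomorphisms to the line
-/

set_option autoImplicit false

namespace Pool.Agent.ELM

open Filter MeasureTheory Topology Set
open scoped ENNReal

theorem rep_coe {y : ℝ} (hy : y ∈ Ioc (-1 / 2 : ℝ) (1 / 2)) : rep (y : UnitAddCircle) = y := by
  unfold rep
  rw [AddCircle.equivIoc_coe_of_mem]
  rwa [show (-1 / 2 : ℝ) + 1 = 1 / 2 by norm_num]

theorem coe_rep (x : UnitAddCircle) : ((rep x : ℝ) : UnitAddCircle) = x := AddCircle.coe_equivIoc

theorem rep_mem (x : UnitAddCircle) : rep x ∈ Ioc (-1 / 2 : ℝ) (1 / 2) := by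
  have h := (AddCircle.equivIoc (1 : ℝ) (-1 / 2) x).2
  refine ⟨h.1, h.2.trans (by norm_num)⟩

theorem abs_rep (x : UnitAddCircle) : |rep x| = ‖x‖ := by
  have h1 := rep_mem x
  have h2 : ‖((rep x : ℝ) : UnitAddCircle)‖ = |rep x| := by
    rw [AddCircle.norm_coe_eq_abs_iff (1 : ℝ) one_ne_zero, abs_one, abs_le]
    exact ⟨by linarith [h1.1], h1.2⟩
  rw [← h2, coe_rep]

/-- a lift computes the local expressions -/
theorem hasDerivAt_localExpr {g : UnitAddCircle → UnitAddCircle} {F : ℝ → ℝ}
    (hF : ∀ x : ℝ, ((F x : ℝ) : UnitAddCircle) = g (x : UnitAddCircle)) {x d : ℝ}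
    (hd : HasDerivAt F d x) : HasDerivAt (localExpr g (x : UnitAddCircle)) d 0 := by
  have h1 : HasDerivAt (fun h : ℝ => F (x + h) - F x) d 0 := by
    have h2 : HasDerivAt (fun h : ℝ => F (x + h)) d 0 := by
      have h3 : HasDerivAt F d (x + 0) := by rwa [add_zero]
      exact h3.comp_const_add x 0
    exact h2.sub_const (F x)
  refine h1.congr_of_eventuallyEq ?_
  have h4 : ContinuousAt (fun h : ℝ => F (x + h) - F x) 0 := h1.continuousAt
  have h5 : ∀ᶠ h in 𝓝 (0 : ℝ), F (x + h) - F x ∈ Ioo (-1 / 2 : ℝ) (1 / 2) := by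
    refine h4.eventually_mem ?_
    simp only [add_zero, sub_self]
    exact Ioo_mem_nhds (by norm_num) (by norm_num)
  filter_upwards [h5] with h hh
  unfold localExpr
  rw [← AddCircle.coe_add, ← hF, ← hF, ← AddCircle.coe_sub, rep_coe ⟨hh.1, hh.2.le⟩]

theorem cderiv_eq {g : UnitAddCircle → UnitAddCircle} {F : ℝ → ℝ}
    (hF : ∀ x : ℝ, ((F x : ℝ) : UnitAddCircle) = g (x : UnitAddCircle)) {x d : ℝ}
    (hd : HasDerivAt F d x) : cderiv g (x : UnitAddCircle) = d := (hasDerivAt_localExpr hF hd).deriv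

/-- `F` is a lift of `g`, its derivative `F'` is Lipschitz with values in `[m, M]`, `m > 0` -/
structure GoodLift (g : UnitAddCircle → UnitAddCircle) (F F' : ℝ → ℝ) (m M C : ℝ) : Prop where
  lift : ∀ x : ℝ, ((F x : ℝ) : UnitAddCircle) = g (x : UnitAddCircle)
  hasDeriv : ∀ x, HasDerivAt F (F' x) x
  pos : 0 < m
  ge : ∀ x, m ≤ F' x
  le : ∀ x, F' x ≤ M
  lip : ∀ x y, |F' x - F' y| ≤ C * |x - y|

/-- the class of diffeomorphisms with good lifts -/
def IsGood (g : UnitAddCircle → UnitAddCircle) : Prop := ∃ F F' m M C, GoodLift g F F' m M C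

namespace GoodLift

variable {g k : UnitAddCircle → UnitAddCircle} {F F' H H' : ℝ → ℝ} {m M C m₂ M₂ C₂ : ℝ}

theorem pos' (h : GoodLift g F F' m M C) (x : ℝ) : 0 < F' x := h.pos.trans_le (h.ge x)

theorem C_nonneg (h : GoodLift g F F' m M C) : 0 ≤ C := by
  have := h.lip 1 0
  rw [sub_zero, abs_one, mul_one] at this
  exact (abs_nonneg _).trans this

theorem M_pos (h : GoodLift g F F' m M C) : 0 < M := (h.pos' 0).trans_le (h.le 0)

theorem lipschitz (h : GoodLift g F F' m M C) (x y : ℝ) : |F x - F y| ≤ M * |x - y| := by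
  have h1 : ∀ z ∈ (univ : Set ℝ), HasDerivWithinAt F (F' z) univ z := fun z _ =>
    (h.hasDeriv z).hasDerivWithinAt
  have h2 := convex_univ.norm_image_sub_le_of_norm_hasDerivWithin_le (𝕜 := ℝ) h1
    (C := M) (fun z _ => by
      rw [Real.norm_eq_abs, abs_of_pos (h.pos' z)]
      exact h.le z) (mem_univ y) (mem_univ x)
  simpa [Real.norm_eq_abs] using h2

theorem lower (h : GoodLift g F F' m M C) {x y : ℝ} (hxy : x ≤ y) : m * (y - x) ≤ F y - F x := by
  have h1 : MonotoneOn (fun z => F z - m * z) univ := by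
    refine monotoneOn_of_deriv_nonneg convex_univ ?_ ?_ ?_
    · exact fun z _ => ((h.hasDeriv z).continuousAt.sub (by fun_prop)).continuousWithinAt
    · exact fun z _ => ((h.hasDeriv z).sub ((hasDerivAt_id z).const_mul m)).differentiableAt.differentiableWithinAt
    · intro z _
      have h2 := ((h.hasDeriv z).sub ((hasDerivAt_id z).const_mul m)).deriv
      have h3 : deriv (fun z => F z - m * z) z = F' z - m * 1 := h2
      rw [h3]
      linarith [h.ge z]
  have h2 := h1 (mem_univ x) (mem_univ y) hxy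
  simp only at h2
  linarith

theorem strictMono (h : GoodLift g F F' m M C) : StrictMono F := by
  intro x y hxy
  have h1 := h.lower hxy.le
  nlinarith [h.pos]

theorem continuous (h : GoodLift g F F' m M C) : Continuous F :=
  continuous_iff_continuousAt.2 fun x => (h.hasDeriv x).continuousAt

theorem surjective (h : GoodLift g F F' m M C) : Function.Surjective F := by
  refine h.continuous.surjective ?_ ?_
  · rw [tendsto_atTop]
    intro b
    filter_upwards [eventually_ge_atTop (max 0 ((b - F 0) / m))] with x hx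
    have h1 := h.lower ((le_max_left _ _).trans hx)
    have h2 : (b - F 0) / m ≤ x := (le_max_right _ _).trans hx
    rw [div_le_iff₀ h.pos] at h2
    linarith
  · rw [tendsto_atBot]
    intro b
    filter_upwards [eventually_le_atBot (min 0 ((b - F 0) / m))] with x hx
    have h1 := h.lower (hx.trans (min_le_left _ _))
    have h2 : x ≤ (b - F 0) / m := hx.trans (min_le_right _ _)
    rw [le_div_iff₀ h.pos] at h2
    linarith

theorem comp (h : GoodLift g F F' m M C) (h₂ : GoodLift k H H' m₂ M₂ C₂) :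
    GoodLift (g ∘ k) (F ∘ H) (fun x => F' (H x) * H' x) (m * m₂) (M * M₂)
      (C * M₂ * M₂ + M * C₂) where
  lift x := by rw [Function.comp_apply, h.lift, h₂.lift, Function.comp_apply]
  hasDeriv x := (h.hasDeriv (H x)).comp x (h₂.hasDeriv x)
  pos := mul_pos h.pos h₂.pos
  ge x := mul_le_mul (h.ge _) (h₂.ge _) h₂.pos.le (h.pos' _).le
  le x := mul_le_mul (h.le _) (h₂.le _) (h₂.pos' _).le h.M_pos.le
  lip x y := by
    have e : F' (H x) * H' x - F' (H y) * H' y =
        (F' (H x) - F' (H y)) * H' x + F' (H y) * (H' x - H' y) := by ring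
    rw [e]
    refine (abs_add_le _ _).trans ?_
    rw [abs_mul, abs_mul, abs_of_pos (h₂.pos' x), abs_of_pos (h.pos' (H y)), add_mul]
    have h1 := h.lip (H x) (H y)
    have h2 := h₂.lipschitz x y
    have h3 := h₂.lip x y
    have h4 : |F' (H x) - F' (H y)| ≤ C * (M₂ * |x - y|) :=
      h1.trans (mul_le_mul_of_nonneg_left h2 h.C_nonneg)
    refine add_le_add ?_ ?_
    · calc |F' (H x) - F' (H y)| * H' x ≤ C * (M₂ * |x - y|) * M₂ := by
            refine mul_le_mul h4 (h₂.le x) (h₂.pos' x).le ?_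
            exact (abs_nonneg _).trans h4
        _ = C * M₂ * M₂ * |x - y| := by ring
    · calc F' (H y) * |H' x - H' y| ≤ M * (C₂ * |x - y|) :=
            mul_le_mul (h.le _) h3 (abs_nonneg _) h.M_pos.le
        _ = M * C₂ * |x - y| := by ring

theorem inv {g : Homeo} (h : GoodLift g F F' m M C) :
    ∃ H : ℝ → ℝ, (∀ x, F (H x) = x) ∧ (∀ x, H (F x) = x) ∧
      GoodLift (g⁻¹ : Homeo) H (fun x => (F' (H x))⁻¹) M⁻¹ m⁻¹ (C / m ^ 3) := by
  let e : ℝ ≃o ℝ := h.strictMono.orderIsoOfSurjective F h.surjective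
  have he : ∀ x, F (e.symm x) = x := fun x => e.apply_symm_apply x
  have he' : ∀ x, e.symm (F x) = x := fun x => e.symm_apply_apply x
  refine ⟨e.symm, he, he', ?_, ?_, ?_, ?_, ?_, ?_⟩
  · intro x
    have h1 : g ((e.symm x : ℝ) : UnitAddCircle) = (x : UnitAddCircle) := by rw [← h.lift, he]
    rw [← h1]
    exact (g.symm_apply_apply _).symm
  · intro x
    exact HasDerivAt.of_local_left_inverse (e.symm.continuous.continuousAt) (h.hasDeriv _)
      (h.pos' _).ne' (Eventually.of_forall he)
  · exact inv_pos.2 h.M_pos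
  · exact fun x => inv_anti₀ (h.pos' _) (h.le _)
  · exact fun x => inv_anti₀ h.pos (h.ge _)
  · intro x y
    have h1 : |e.symm x - e.symm y| ≤ m⁻¹ * |x - y| := by
      rcases le_total (e.symm x) (e.symm y) with hxy | hxy
      · have h2 := h.lower hxy
        rw [he, he] at h2
        have h3 : x ≤ y := by
          have := h.strictMono.monotone hxy
          rwa [he, he] at this
        rw [abs_of_nonpos (by linarith), abs_of_nonpos (by linarith), inv_mul_eq_div,
          le_div_iff₀ h.pos]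
        linarith
      · have h2 := h.lower hxy
        rw [he, he] at h2
        have h3 : y ≤ x := by
          have := h.strictMono.monotone hxy
          rwa [he, he] at this
        rw [abs_of_nonneg (by linarith), abs_of_nonneg (by linarith), inv_mul_eq_div,
          le_div_iff₀ h.pos]
        linarith
    have h4 := h.lip (e.symm x) (e.symm y)
    have p1 := h.pos' (e.symm x)
    have p2 := h.pos' (e.symm y)
    have e1 : (F' (e.symm x))⁻¹ - (F' (e.symm y))⁻¹ =
        (F' (e.symm y) - F' (e.symm x)) / (F' (e.symm x) * F' (e.symm y)) := by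
      field_simp
    rw [e1, abs_div, abs_of_pos (mul_pos p1 p2), abs_sub_comm, div_le_iff₀ (mul_pos p1 p2)]
    have h5 : |F' (e.symm x) - F' (e.symm y)| ≤ C * (m⁻¹ * |x - y|) :=
      h4.trans (mul_le_mul_of_nonneg_left h1 h.C_nonneg)
    refine h5.trans ?_
    have h6 : m * m ≤ F' (e.symm x) * F' (e.symm y) :=
      mul_le_mul (h.ge _) (h.ge _) h.pos.le p1.le
    have h7 : 0 ≤ C / m ^ 3 * |x - y| :=
      mul_nonneg (div_nonneg h.C_nonneg (pow_pos h.pos 3).le) (abs_nonneg _)
    calc C * (m⁻¹ * |x - y|) = C / m ^ 3 * |x - y| * (m * m) := by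
          have := h.pos.ne'
          field_simp
      _ ≤ C / m ^ 3 * |x - y| * (F' (e.symm x) * F' (e.symm y)) :=
          mul_le_mul_of_nonneg_left h6 h7

theorem cderiv_eq (h : GoodLift g F F' m M C) (x : ℝ) : cderiv g (x : UnitAddCircle) = F' x :=
  Pool.Agent.ELM.cderiv_eq h.lift (h.hasDeriv x)

/-- two points of the circle have representatives at the same distance -/
theorem exists_reps (x y : UnitAddCircle) :
    ∃ a b : ℝ, (a : UnitAddCircle) = x ∧ (b : UnitAddCircle) = y ∧ |a - b| = dist x y := by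
  refine ⟨rep y + rep (x - y), rep y, ?_, coe_rep y, ?_⟩
  · rw [AddCircle.coe_add, coe_rep, coe_rep, add_sub_cancel]
  · rw [add_sub_cancel_left, abs_rep, dist_eq_norm]

theorem cderiv_lip (h : GoodLift g F F' m M C) (x y : UnitAddCircle) :
    |cderiv g x - cderiv g y| ≤ C * dist x y := by
  obtain ⟨a, b, rfl, rfl, hab⟩ := exists_reps x y
  rw [h.cderiv_eq, h.cderiv_eq, ← hab]
  exact h.lip a b

theorem cderiv_ge (h : GoodLift g F F' m M C) (x : UnitAddCircle) : m ≤ cderiv g x := by
  obtain ⟨a, b, rfl, -, -⟩ := exists_reps x x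
  rw [h.cderiv_eq]
  exact h.ge a

theorem isHolderDiffeo {g : Homeo} (h : GoodLift g F F' m M C) : IsHolderDiffeo 1 g where
  differentiable x := by
    obtain ⟨a, b, rfl, -, -⟩ := exists_reps x x
    exact (hasDerivAt_localExpr h.lift (h.hasDeriv a)).differentiableAt
  ne_zero x := (h.pos.trans_le (h.cderiv_ge x)).ne'
  holder := ⟨C, fun x y => by
    rw [Real.rpow_one]
    exact h.cderiv_lip x y⟩

theorem logHolder_lt_top {g : Homeo} (h : GoodLift g F F' m M C) : logHolder 1 g < ∞ := by
  have h1 : logHolder 1 g ≤ ENNReal.ofReal (C / m) := by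
    unfold logHolder
    refine iSup_le fun x => iSup_le fun y => iSup_le fun hxy => ENNReal.ofReal_le_ofReal ?_
    have hd : 0 < dist x y := dist_pos.2 hxy
    have px := h.pos.trans_le (h.cderiv_ge x)
    have py := h.pos.trans_le (h.cderiv_ge y)
    rw [Real.rpow_one, div_le_iff₀ hd, abs_of_pos px, abs_of_pos py]
    have key : ∀ u v : ℝ, m ≤ u → m ≤ v → Real.log u - Real.log v ≤ |u - v| / m := by
      intro u v hu hv
      have hu0 := h.pos.trans_le hu
      have hv0 := h.pos.trans_le hv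
      rw [← Real.log_div hu0.ne' hv0.ne']
      have h2 := Real.log_le_sub_one_of_pos (div_pos hu0 hv0)
      have h3 : u / v - 1 = (u - v) / v := by field_simp
      rw [h3] at h2
      refine h2.trans ?_
      calc (u - v) / v ≤ |u - v| / v := div_le_div_of_nonneg_right (le_abs_self _) hv0.le
        _ ≤ |u - v| / m := div_le_div_of_nonneg_left (abs_nonneg _) h.pos hv
    have h4 : |Real.log (cderiv g x) - Real.log (cderiv g y)| ≤
        |cderiv g x - cderiv g y| / m := by
      rw [abs_le]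
      constructor
      · have := key _ _ (h.cderiv_ge y) (h.cderiv_ge x)
        rw [abs_sub_comm] at this
        linarith
      · exact key _ _ (h.cderiv_ge x) (h.cderiv_ge y)
    refine h4.trans ?_
    rw [div_mul_eq_mul_div]
    exact div_le_div_of_nonneg_right (h.cderiv_lip x y) h.pos.le
  exact h1.trans_lt ENNReal.ofReal_lt_top

end GoodLift

namespace IsGood

theorem comp {g k : UnitAddCircle → UnitAddCircle} (hg : IsGood g) (hk : IsGood k) :
    IsGood (g ∘ k) := by
  obtain ⟨F, F', m, M, C, h⟩ := hg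
  obtain ⟨H, H', m₂, M₂, C₂, h₂⟩ := hk
  exact ⟨_, _, _, _, _, h.comp h₂⟩

theorem mul {g k : Homeo} (hg : IsGood g) (hk : IsGood k) : IsGood (g * k : Homeo) := hg.comp hk

theorem inv {g : Homeo} (hg : IsGood g) : IsGood (g⁻¹ : Homeo) := by
  obtain ⟨F, F', m, M, C, h⟩ := hg
  obtain ⟨H, -, -, h'⟩ := h.inv
  exact ⟨_, _, _, _, _, h'⟩

theorem one : IsGood (1 : Homeo) := by
  refine ⟨fun x => x, fun _ => 1, 1, 1, 0, fun x => rfl, fun x => hasDerivAt_id x, one_pos,
    fun _ => le_rfl, fun _ => le_rfl, fun x y => ?_⟩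
  simp

theorem isHolderDiffeo {g : Homeo} (hg : IsGood g) : IsHolderDiffeo 1 g := by
  obtain ⟨F, F', m, M, C, h⟩ := hg
  exact h.isHolderDiffeo

theorem logHolder_lt_top {g : Homeo} (hg : IsGood g) : logHolder 1 g < ∞ := by
  obtain ⟨F, F', m, M, C, h⟩ := hg
  exact h.logHolder_lt_top

/-- a group generated by good diffeomorphisms consists of good diffeomorphisms -/
theorem of_mem_closure {s : Set Homeo} (hs : ∀ g ∈ s, IsGood g) {g : Homeo}
    (hg : g ∈ Subgroup.closure s) : IsGood g := by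
  induction hg using Subgroup.closure_induction with
  | mem x hx => exact hs x hx
  | one => exact one
  | mul x y _ _ hx hy => exact hx.mul hy
  | inv x _ hx => exact hx.inv

end IsGood

/-! ### rotations -/

/-- the rotation by `θ` -/
def rot (θ : ℝ) : Homeo := Homeomorph.addLeft (θ : UnitAddCircle)

theorem rot_apply (θ : ℝ) (x : UnitAddCircle) : rot θ x = (θ : UnitAddCircle) + x := rfl

theorem rot_zpow (θ : ℝ) (k : ℤ) : rot θ ^ k = rot (k * θ) := by
  have hnat : ∀ j : ℕ, rot θ ^ j = rot (j * θ) := by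
    intro j
    induction j with
    | zero =>
      ext x
      simp [rot_apply]
    | succ j ih =>
      rw [pow_succ, ih]
      ext x
      change rot (j * θ) (rot θ x) = _
      rw [rot_apply, rot_apply, rot_apply, ← add_assoc, ← AddCircle.coe_add]
      congr 2
      push_cast
      ring
  have hinv : ∀ θ : ℝ, (rot θ)⁻¹ = rot (-θ) := by
    intro θ
    rw [inv_eq_iff_mul_eq_one]
    ext x
    change rot θ (rot (-θ) x) = x
    rw [rot_apply, rot_apply, ← add_assoc, ← AddCircle.coe_add]
    simp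
  obtain ⟨j, rfl | rfl⟩ := k.eq_nat_or_neg
  · rw [zpow_natCast, hnat]
    norm_cast
  · rw [zpow_neg, zpow_natCast, hnat, hinv]
    congr 1
    push_cast
    ring

theorem goodLift_rot (θ : ℝ) : GoodLift (rot θ) (fun x => θ + x) (fun _ => 1) 1 1 0 where
  lift x := rfl
  hasDeriv x := (hasDerivAt_id x).const_add θ
  pos := one_pos
  ge _ := le_rfl
  le _ := le_rfl
  lip x y := by simp

theorem isGood_rot (θ : ℝ) : IsGood (rot θ) := ⟨_, _, _, _, _, goodLift_rot θ⟩

theorem cderiv_rot (θ : ℝ) (x : UnitAddCircle) : cderiv (rot θ) x = 1 := by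
  obtain ⟨a, b, rfl, -, -⟩ := GoodLift.exists_reps x x
  exact (goodLift_rot θ).cderiv_eq a

/-- powers of an irrational rotation which converge to the identity -/
theorem exists_rot_tendsto {θ : ℝ} (hθ : Irrational θ) : ∃ k : ℕ → ℤ,
    (∀ n, rot θ ^ k n ≠ 1) ∧ ∀ n, ‖((k n * θ : ℝ) : UnitAddCircle)‖ ≤ 1 / (n + 1 + 1) := by
  have h : ∀ n : ℕ, ∃ k : ℤ, 0 < k ∧ ‖((k * θ : ℝ) : UnitAddCircle)‖ ≤ 1 / (n + 1 + 1) := by
    intro n
    obtain ⟨j, k, h1, -, h2⟩ := Real.exists_int_int_abs_mul_sub_le θ (n := n + 1) (by omega)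
    refine ⟨k, h1, ?_⟩
    rw [UnitAddCircle.norm_eq]
    have h3 := round_le (k * θ) j
    push_cast at h2
    exact h3.trans h2
  choose k hk hk2 using h
  refine ⟨k, fun n hn => ?_, hk2⟩
  rw [rot_zpow] at hn
  have h1 : rot (k n * θ) 0 = 0 := by rw [hn]; rfl
  rw [rot_apply, add_zero] at h1
  rw [AddCircle.coe_eq_zero_iff] at h1
  obtain ⟨m, hm⟩ := h1
  have h2 := hθ.intCast_mul (hk n).ne'
  refine h2 ⟨m, ?_⟩
  rw [← hm]
  simp

theorem tendstoIdOn_rot {θ : ℝ} {k : ℕ → ℤ}
    (hk : ∀ n, ‖((k n * θ : ℝ) : UnitAddCircle)‖ ≤ 1 / (n + 1 + 1)) (I : Set UnitAddCircle) :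
    TendstoIdOn (fun n => rot θ ^ k n) I := by
  constructor
  · rw [Metric.tendstoUniformlyOn_iff]
    intro ε hε
    have h1 : Tendsto (fun n : ℕ => (1 : ℝ) / ((n : ℝ) + 1)) atTop (𝓝 0) :=
      tendsto_one_div_add_atTop_nhds_zero_nat
    filter_upwards [h1.eventually_lt_const hε] with n hn x _
    rw [rot_zpow, rot_apply, dist_comm, dist_eq_norm, add_sub_cancel_right]
    refine (hk n).trans_lt (lt_of_le_of_lt ?_ hn)
    exact one_div_le_one_div_of_le (by positivity) (by linarith)
  · rw [Metric.tendstoUniformlyOn_iff]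
    intro ε hε
    refine Eventually.of_forall fun n x _ => ?_
    change dist 1 (cderiv (rot θ ^ k n : Homeo) x) < ε
    rw [rot_zpow, cderiv_rot, dist_self]
    exact hε

/-- groups containing an irrational rotation are not strongly locally discrete -/
theorem not_isStronglyLocallyDiscrete {θ : ℝ} (hθ : Irrational θ) {G : Subgroup Homeo}
    (hG : rot θ ∈ G) {L : Set UnitAddCircle} (hL : L.Nonempty) :
    ¬ IsStronglyLocallyDiscrete G L := by
  rintro ⟨J, -, hJ, h⟩
  obtain ⟨x, hx⟩ := hL
  obtain ⟨I, hI, -⟩ := hJ hx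
  obtain ⟨k, h1, h2⟩ := exists_rot_tendsto hθ
  obtain ⟨n, hn⟩ := (h I hI (fun n => rot θ ^ k n) (fun n => G.zpow_mem hG _)
    (tendstoIdOn_rot h2 I)).exists
  exact h1 n hn

/-- the limit set of a group containing an irrational rotation is the circle -/
theorem isLimitSet_univ {θ : ℝ} (hθ : Irrational θ) {G : Subgroup Homeo} (hG : rot θ ∈ G) :
    IsLimitSet G univ where
  closed := isClosed_univ
  nonempty := univ_nonempty
  invariant g _ := mapsTo_univ g univ
  minimal K hK hne hinv := by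
    obtain ⟨x, hx⟩ := hne
    have h1 : DenseRange (fun k : ℤ => k • (θ : UnitAddCircle)) := by
      rw [AddCircle.denseRange_zsmul_coe_iff, div_one]
      exact hθ
    have h2 : DenseRange (fun k : ℤ => k • (θ : UnitAddCircle) + x) :=
      ((Homeomorph.addRight x).surjective.denseRange).comp h1 (Homeomorph.addRight x).continuous
    have h3 : range (fun k : ℤ => k • (θ : UnitAddCircle) + x) ⊆ K := by
      rintro _ ⟨k, rfl⟩
      have h4 := hinv (rot θ ^ k) (G.zpow_mem hG k) hx
      rw [rot_zpow, rot_apply] at h4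
      have e : ((k * θ : ℝ) : UnitAddCircle) = k • (θ : UnitAddCircle) := by
        rw [← AddCircle.coe_zsmul, zsmul_eq_mul]
      rwa [e] at h4
    intro y _
    exact closure_minimal h3 hK (h2 y)

end Pool.Agent.ELM
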