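import Pool.Agent.ELM.Bas

/-! # ELM, row LIN: linearisation of two orbits with the same exponents -/

set_option autoImplicit false

namespace Pool.Agent.ELM

open Filter MeasureTheory Topology

/-- the recursion for the distance of two orbits -/
theorem rec_bound (q c : ℝ) (hq : 0 < q) (hq2 : q ≤ 1 / 2) (hc : 0 ≤ c) (N : ℕ) (ρ : ℕ → ℝ)
    (B : ℕ → Prop) [DecidablePred B] (hN : ρ N ≤ 1)
    (hstep : ∀ j, j < N → ρ j ≤ (if B j then q⁻¹ ^ 200 else q ^ 100) * ρ (j + 1) + c) :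
    ∀ r, r ≤ N → ρ (N - r) ≤ q⁻¹ ^ (300 * ((Finset.Ico (N - r) N).filter B).card) *
      (q ^ (100 * r) + 2 * c) := by
  have hqi : 2 ≤ q⁻¹ := by
    rw [le_inv_comm₀ (by norm_num) hq]
    linarith
  have hqi1 : 1 ≤ q⁻¹ := by linarith
  have hq' : q ≠ 0 := hq.ne'
  intro r
  induction r with
  | zero =>
    intro _
    simp only [Nat.sub_zero, Finset.Ico_self, Finset.filter_empty, Finset.card_empty, mul_zero,
      pow_zero, one_mul]
    linarith
  | succ r ih =>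
    intro hr
    have h1 := ih (by omega)
    have h2 := hstep (N - (r + 1)) (by omega)
    have e1 : N - (r + 1) + 1 = N - r := by omega
    rw [e1] at h2
    have e2 : Finset.Ico (N - (r + 1)) N = insert (N - (r + 1)) (Finset.Ico (N - r) N) := by
      ext x
      simp only [Finset.mem_Ico, Finset.mem_insert]
      omega
    have e3 : N - (r + 1) ∉ (Finset.Ico (N - r) N).filter B := by
      simp only [Finset.mem_filter, Finset.mem_Ico]
      omega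
    set m := ((Finset.Ico (N - r) N).filter B).card with hm
    have hQ : 1 ≤ q⁻¹ ^ (300 * m) := one_le_pow₀ hqi1
    have hX : 0 ≤ q ^ (100 * r) := by positivity
    have e4 : q ^ (100 * (r + 1)) = q ^ 100 * q ^ (100 * r) := by
      rw [← pow_add]
      congr 1
      ring
    rw [e2, Finset.filter_insert]
    by_cases hB : B (N - (r + 1))
    · rw [if_pos hB, Finset.card_insert_of_notMem e3, ← hm]
      rw [if_pos hB] at h2
      have e5 : q⁻¹ ^ (300 * (m + 1)) = q⁻¹ ^ (300 * m) * (q⁻¹ ^ 200 * q⁻¹ ^ 100) := by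
        rw [← pow_add, ← pow_add]
        congr 1
      have e6 : q⁻¹ ^ 100 * q ^ 100 = 1 := by
        rw [← mul_pow, inv_mul_cancel₀ hq', one_pow]
      have h3 : (1 : ℝ) ≤ q⁻¹ ^ 200 := one_le_pow₀ hqi1
      have h4 : (2 : ℝ) ≤ q⁻¹ ^ 100 := by
        calc (2 : ℝ) ≤ q⁻¹ := hqi
          _ = q⁻¹ ^ 1 := (pow_one _).symm
          _ ≤ q⁻¹ ^ 100 := pow_le_pow_right₀ hqi1 (by norm_num)
      have h5 : c ≤ q⁻¹ ^ (300 * m) * q⁻¹ ^ 200 * c := by
        have h6 : (1 : ℝ) ≤ q⁻¹ ^ (300 * m) * q⁻¹ ^ 200 := by nlinarith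
        calc c = 1 * c := (one_mul c).symm
          _ ≤ q⁻¹ ^ (300 * m) * q⁻¹ ^ 200 * c := mul_le_mul_of_nonneg_right h6 hc
      have h6 : 0 ≤ q⁻¹ ^ (300 * m) * q⁻¹ ^ 200 * c := by positivity
      calc ρ (N - (r + 1)) ≤ q⁻¹ ^ 200 * ρ (N - r) + c := h2
        _ ≤ q⁻¹ ^ 200 * (q⁻¹ ^ (300 * m) * (q ^ (100 * r) + 2 * c)) + c := by
            have := mul_le_mul_of_nonneg_left h1 (by positivity : (0 : ℝ) ≤ q⁻¹ ^ 200)
            linarith
        _ = q⁻¹ ^ (300 * m) * q⁻¹ ^ 200 * (q ^ (100 * r) * (q⁻¹ ^ 100 * q ^ 100)) +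
            2 * (q⁻¹ ^ (300 * m) * q⁻¹ ^ 200 * c) + c := by
            rw [e6]
            ring
        _ ≤ q⁻¹ ^ (300 * m) * q⁻¹ ^ 200 * (q ^ (100 * r) * (q⁻¹ ^ 100 * q ^ 100)) +
            2 * (q⁻¹ ^ (300 * m) * q⁻¹ ^ 200 * c) * 2 := by linarith
        _ ≤ q⁻¹ ^ (300 * m) * q⁻¹ ^ 200 * (q ^ (100 * r) * (q⁻¹ ^ 100 * q ^ 100)) +
            2 * (q⁻¹ ^ (300 * m) * q⁻¹ ^ 200 * c) * q⁻¹ ^ 100 := by
            have := mul_le_mul_of_nonneg_left h4
              (by linarith : (0 : ℝ) ≤ 2 * (q⁻¹ ^ (300 * m) * q⁻¹ ^ 200 * c))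
            linarith
        _ = q⁻¹ ^ (300 * (m + 1)) * (q ^ (100 * (r + 1)) + 2 * c) := by
            rw [e5, e4]
            ring
    · rw [if_neg hB, ← hm]
      rw [if_neg hB] at h2
      have h4 : q ^ 100 ≤ 1 / 2 := by
        calc q ^ 100 ≤ q ^ 1 := pow_le_pow_of_le_one hq.le (by linarith) (by norm_num)
          _ = q := pow_one _
          _ ≤ 1 / 2 := hq2
      have h5 : c ≤ q⁻¹ ^ (300 * m) * c := by
        calc c = 1 * c := (one_mul c).symm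
          _ ≤ q⁻¹ ^ (300 * m) * c := mul_le_mul_of_nonneg_right hQ hc
      have h6 : 0 ≤ q⁻¹ ^ (300 * m) * c := by positivity
      calc ρ (N - (r + 1)) ≤ q ^ 100 * ρ (N - r) + c := h2
        _ ≤ q ^ 100 * (q⁻¹ ^ (300 * m) * (q ^ (100 * r) + 2 * c)) + c := by
            have := mul_le_mul_of_nonneg_left h1 (by positivity : (0 : ℝ) ≤ q ^ 100)
            linarith
        _ = q⁻¹ ^ (300 * m) * (q ^ 100 * q ^ (100 * r)) +
            q ^ 100 * (2 * (q⁻¹ ^ (300 * m) * c)) + c := by ring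
        _ ≤ q⁻¹ ^ (300 * m) * (q ^ 100 * q ^ (100 * r)) +
            1 / 2 * (2 * (q⁻¹ ^ (300 * m) * c)) + q⁻¹ ^ (300 * m) * c := by
            have := mul_le_mul_of_nonneg_right h4
              (by linarith : (0 : ℝ) ≤ 2 * (q⁻¹ ^ (300 * m) * c))
            linarith
        _ = q⁻¹ ^ (300 * m) * (q ^ (100 * (r + 1)) + 2 * c) := by
            rw [e4]
            ring

/-- summation of the linear recursion -/
theorem tele (M A e b R : ℕ → ℝ) (δ : ℝ) (M0 : M 0 = 1) (Ms : ∀ j, M (j + 1) = M j * A j) :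
    ∀ n, (∀ j, j < n → e j = A j * e (j + 1) + δ * b j + R j) →
      e 0 = M n * e n + ∑ j ∈ Finset.range n, M j * (δ * b j + R j) := by
  intro n
  induction n with
  | zero =>
    intro _
    rw [M0]
    simp
  | succ n ih =>
    intro h
    rw [ih (fun j hj => h j (by omega)), Finset.sum_range_succ, h n (by omega), Ms]
    ring

namespace Fam

variable (F : Fam)

theorem visits_or (y z : ℕ → Ci) (j N : ℕ) [DecidablePred fun j => y (j + 1) ∈ F.U ∨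
    z (j + 1) ∈ F.U] :
    ((Finset.Ico j N).filter fun j => y (j + 1) ∈ F.U ∨ z (j + 1) ∈ F.U).card ≤
      F.visits y N + F.visits z N := by
  classical
  unfold visits
  refine le_trans (Finset.card_le_card ?_) (Finset.card_union_le _ _)
  intro x hx
  simp only [Finset.mem_filter, Finset.mem_Ico, Finset.mem_union, Finset.mem_range] at hx ⊢
  rcases hx.2 with h | h
  · exact Or.inl ⟨hx.1.2, h⟩
  · exact Or.inr ⟨hx.1.2, h⟩

theorem norm_coe_le (x : ℝ) : ‖(x : Ci)‖ ≤ |x| := by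
  rw [UnitAddCircle.norm_eq]
  have := round_le x 0
  simpa using this

theorem norm_coe_eq (x : ℝ) (h : |x| ≤ 1 / 2) : ‖(x : Ci)‖ = |x| := by
  have := (AddCircle.norm_coe_eq_abs_iff (p := (1 : ℝ)) (x := x) one_ne_zero).mpr
    (by rw [abs_one]; exact h)
  exact this

open Classical in
/-- uniform constants for the expansion in the direction `i` -/
theorem step_le (i : ℕ) : ∃ C₁ β₀ Cx : ℝ, 0 ≤ C₁ ∧ 0 ≤ β₀ ∧ 0 ≤ Cx ∧
    (∀ (t : Par) (x : Ci), |(F.φ i x - F.φ i (F.a t x)) / F.w t (F.a t x)| ≤ β₀) ∧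
    (∀ t t' : Par, (∀ j, j ≠ i → t j = t' j) → ∀ (x : Ci) (e : ℝ),
      ‖F.a t' (x + (e : Ci)) - F.a t x - (((F.w t x * e + ((t' i : ℝ) - t i) *
        (F.φ i x - F.φ i (F.a t x))) / F.w t (F.a t x) : ℝ) : Ci)‖ ≤
        Cx * (e ^ 2 + ((t' i : ℝ) - t i) ^ 2)) ∧
    ∀ t t' : Par, (∀ j, j ≠ i → t j = t' j) → |(t' i : ℝ) - t i| ≤ 1 → ∀ x y : Ci,
      ‖F.a t' y - F.a t x‖ ≤ (if x ∈ F.U ∨ y ∈ F.U then F.q⁻¹ ^ 200 else F.q ^ 100) * ‖y - x‖ +
        C₁ * |(t' i : ℝ) - t i| := by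
  classical
  obtain ⟨c, Cw, hc, hw⟩ := F.w_bd
  obtain ⟨C₀, hexp⟩ := F.expand i
  set f := ‖F.φ i‖ with hf
  have hf0 : 0 ≤ f := norm_nonneg _
  have hφ : ∀ x, |F.φ i x| ≤ f := fun x => (F.φ i).norm_coe_le_norm x
  have hβ : ∀ (t : Par) (x : Ci),
      |(F.φ i x - F.φ i (F.a t x)) / F.w t (F.a t x)| ≤ 2 * f / c := by
    intro t x
    rw [abs_div, abs_of_pos (F.w_pos _ _)]
    refine div_le_div₀ (by positivity) ?_ hc (hw _ _).1
    have h1 := abs_le.mp (hφ x)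
    have h2 := abs_le.mp (hφ (F.a t x))
    rw [abs_le]
    constructor <;> linarith
  have hexp' : ∀ t t' : Par, (∀ j, j ≠ i → t j = t' j) → ∀ (x : Ci) (e : ℝ),
      ‖F.a t' (x + (e : Ci)) - F.a t x - (((F.w t x * e + ((t' i : ℝ) - t i) *
        (F.φ i x - F.φ i (F.a t x))) / F.w t (F.a t x) : ℝ) : Ci)‖ ≤
        |C₀| * (e ^ 2 + ((t' i : ℝ) - t i) ^ 2) := by
    intro t t' htt x e
    refine (hexp t t' htt x e).trans ?_
    exact mul_le_mul_of_nonneg_right (le_abs_self _) (by positivity)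
  refine ⟨2 * f / c + |C₀|, 2 * f / c, |C₀|, by positivity, by positivity, abs_nonneg _, hβ,
    hexp', ?_⟩
  intro t t' htt hδ x y
  have h1 := hexp' t t' htt y 0
  rw [mul_zero, zero_add] at h1
  have h0 : ((0 : ℝ) : Ci) = 0 := rfl
  rw [h0, add_zero] at h1
  have h2 : ‖F.a t' y - F.a t y‖ ≤ (2 * f / c + |C₀|) * |(t' i : ℝ) - t i| := by
    set v : ℝ := ((t' i : ℝ) - t i) * (F.φ i y - F.φ i (F.a t y)) / F.w t (F.a t y) with hv
    have h3 : ‖(v : Ci)‖ ≤ 2 * f / c * |(t' i : ℝ) - t i| := by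
      refine (norm_coe_le v).trans ?_
      rw [hv, mul_div_assoc, abs_mul, mul_comm]
      exact mul_le_mul_of_nonneg_right (hβ t y) (abs_nonneg _)
    have h4 : ‖F.a t' y - F.a t y‖ ≤ ‖F.a t' y - F.a t y - (v : Ci)‖ + ‖(v : Ci)‖ := by
      have := norm_add_le (F.a t' y - F.a t y - (v : Ci)) (v : Ci)
      simpa using this
    have h5 : ((t' i : ℝ) - t i) ^ 2 ≤ |(t' i : ℝ) - t i| := by
      rw [← sq_abs, sq]
      exact mul_le_of_le_one_left (abs_nonneg _) hδ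
    have h6 : |C₀| * ((0 : ℝ) ^ 2 + ((t' i : ℝ) - t i) ^ 2) ≤ |C₀| * |(t' i : ℝ) - t i| := by
      refine mul_le_mul_of_nonneg_left ?_ (abs_nonneg _)
      simpa using h5
    calc ‖F.a t' y - F.a t y‖ ≤ ‖F.a t' y - F.a t y - (v : Ci)‖ + ‖(v : Ci)‖ := h4
      _ ≤ |C₀| * |(t' i : ℝ) - t i| + 2 * f / c * |(t' i : ℝ) - t i| :=
          add_le_add (h1.trans h6) h3
      _ = _ := by ring
  have h3 : ‖F.a t y - F.a t x‖ ≤
      (if x ∈ F.U ∨ y ∈ F.U then F.q⁻¹ ^ 200 else F.q ^ 100) * ‖y - x‖ := by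
    by_cases h : x ∈ F.U ∨ y ∈ F.U
    · rw [if_pos h]
      exact F.lip t y x
    · rw [if_neg h]
      rw [not_or] at h
      exact F.contr t y x h.2 h.1
  have h4 : ‖F.a t' y - F.a t x‖ ≤ ‖F.a t' y - F.a t y‖ + ‖F.a t y - F.a t x‖ := by
    have := norm_add_le (F.a t' y - F.a t y) (F.a t y - F.a t x)
    simpa using this
  linarith

theorem small_n (p : ℕ) (C₁ β₀ : ℝ) : ∃ n₀ : ℕ, ∀ n, n₀ ≤ n → p ≤ n ∧
    (F.q ^ (98 * n) + 2 * C₁ * F.q ^ (3 * n)) * (1 + F.q⁻¹ ^ 200) + β₀ * F.q ^ (5 * n) <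
      1 / 4 := by
  have hq := F.q_pos
  have hq1 : F.q < 1 := by linarith [F.q_le]
  have hp : ∀ m : ℕ, 0 < m → Tendsto (fun n : ℕ => F.q ^ (m * n)) atTop (𝓝 0) := by
    intro m hm
    have h1 : F.q ^ m < 1 := pow_lt_one₀ hq.le hq1 hm.ne'
    have h2 := tendsto_pow_atTop_nhds_zero_of_lt_one (by positivity : 0 ≤ F.q ^ m) h1
    refine h2.congr fun n => ?_
    rw [pow_mul]
  have h1 : Tendsto (fun n : ℕ => (F.q ^ (98 * n) + 2 * C₁ * F.q ^ (3 * n)) *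
      (1 + F.q⁻¹ ^ 200) + β₀ * F.q ^ (5 * n)) atTop
      (𝓝 ((0 + 2 * C₁ * 0) * (1 + F.q⁻¹ ^ 200) + β₀ * 0)) :=
    (((hp 98 (by norm_num)).add ((hp 3 (by norm_num)).const_mul _)).mul_const _).add
      ((hp 5 (by norm_num)).const_mul _)
  have h2 : ((0 + 2 * C₁ * 0) * (1 + F.q⁻¹ ^ 200) + β₀ * 0 : ℝ) < 1 / 4 := by norm_num
  have h3 := (h1.eventually (gt_mem_nhds h2)).and (eventually_ge_atTop p)
  obtain ⟨n₀, h4⟩ := eventually_atTop.mp h3
  exact ⟨n₀, fun n hn => ⟨(h4 n hn).2, (h4 n hn).1⟩⟩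

theorem geo_le (j : ℕ) : F.q ^ (99 * j) ≤ (1 / 2 : ℝ) ^ j := by
  have hq := F.q_pos
  have hq1 : F.q ≤ 1 := by linarith [F.q_le]
  rw [pow_mul]
  refine pow_le_pow_left₀ (by positivity) ?_ j
  calc F.q ^ 99 ≤ F.q ^ 1 := pow_le_pow_of_le_one hq.le hq1 (by norm_num)
    _ = F.q := pow_one _
    _ ≤ 1 / 2 := F.q_le

/-- the tail of the series of the derivative -/
theorem D_tail (i p : ℕ) : ∃ C : ℝ, 0 ≤ C ∧ ∀ (t : Par) (y : ℕ → Ci),
    (∀ n, p ≤ n → 1000 * F.visits y n ≤ n) → ∀ n : ℕ,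
    |F.D t y (F.φ i) - ∑ j ∈ Finset.range n, F.mult t y j *
      ((F.φ i (y (j + 1)) - F.φ i (F.a t (y (j + 1)))) / F.w t (F.a t (y (j + 1))))| ≤
      C * F.q ^ (99 * n) := by
  obtain ⟨K', hK', hcoef⟩ := F.coef_le p
  have hq := F.q_pos
  set f := ‖F.φ i‖ with hf
  have hf0 : 0 ≤ f := norm_nonneg _
  have hφ : ∀ x, |F.φ i x| ≤ f := fun x => (F.φ i).norm_coe_le_norm x
  refine ⟨4 * K' * f, by positivity, fun t y hy n => ?_⟩
  have hs := F.D_summable t y (F.coef_summable t p y hy) (F.φ i) ⟨f, hφ⟩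
  have h1 := hs.sum_add_tsum_nat_add n
  have e1 : ∑ j ∈ Finset.range n, F.mult t y j *
      ((F.φ i (y (j + 1)) - F.φ i (F.a t (y (j + 1)))) / F.w t (F.a t (y (j + 1)))) =
      ∑ j ∈ Finset.range n, F.coef t y j * (F.φ i (y (j + 1)) - F.φ i (F.a t (y (j + 1)))) := by
    refine Finset.sum_congr rfl fun j _ => ?_
    unfold coef
    ring
  have e2 : F.D t y (F.φ i) - ∑ j ∈ Finset.range n, F.mult t y j *
      ((F.φ i (y (j + 1)) - F.φ i (F.a t (y (j + 1)))) / F.w t (F.a t (y (j + 1)))) =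
      ∑' j, F.coef t y (j + n) *
        (F.φ i (y (j + n + 1)) - F.φ i (F.a t (y (j + n + 1)))) := by
    rw [e1]
    unfold D
    rw [← h1]
    ring
  rw [e2]
  have hg : HasSum (fun j : ℕ => 2 * K' * f * F.q ^ (99 * n) * (1 / 2 : ℝ) ^ j)
      (2 * K' * f * F.q ^ (99 * n) * 2) := hasSum_geometric_two.mul_left _
  have h2 := tsum_of_norm_bounded (f := fun j : ℕ => F.coef t y (j + n) *
        (F.φ i (y (j + n + 1)) - F.φ i (F.a t (y (j + n + 1))))) hg (fun j => by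
    rw [Real.norm_eq_abs, abs_mul, abs_of_pos (F.coef_pos t y _)]
    have h3 := hcoef t y hy (j + n)
    have h4 : |F.φ i (y (j + n + 1)) - F.φ i (F.a t (y (j + n + 1)))| ≤ 2 * f := by
      have h5 := abs_le.mp (hφ (y (j + n + 1)))
      have h6 := abs_le.mp (hφ (F.a t (y (j + n + 1))))
      rw [abs_le]
      constructor <;> linarith
    calc F.coef t y (j + n) * |F.φ i (y (j + n + 1)) - F.φ i (F.a t (y (j + n + 1)))|
        ≤ (K' * F.q ^ (99 * (j + n))) * (2 * f) :=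
          mul_le_mul h3 h4 (abs_nonneg _) (by positivity)
      _ = 2 * K' * f * F.q ^ (99 * n) * F.q ^ (99 * j) := by
          rw [show 99 * (j + n) = 99 * n + 99 * j by ring, pow_add]
          ring
      _ ≤ 2 * K' * f * F.q ^ (99 * n) * (1 / 2 : ℝ) ^ j :=
          mul_le_mul_of_nonneg_left (F.geo_le j) (by positivity))
  rw [Real.norm_eq_abs] at h2
  refine h2.trans (le_of_eq ?_)
  ring

open Classical in
/-- Row LIN. -/
theorem lin (i p : ℕ) : ∃ C : ℝ, 0 < C ∧ ∃ n₀ : ℕ, ∀ n, n₀ ≤ n → ∀ t t' : Par,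
    (∀ j, j ≠ i → t j = t' j) → |(t' i : ℝ) - t i| ≤ F.q ^ (5 * n) →
    ∀ (k l : ℕ → ℤ) (y z : ℕ → Ci), F.IsOrbit t k y → F.IsOrbit t' l z → F.Typ p k y →
    F.Typ p l z → (∀ j, j < 2 * n → k j = l j) →
    ∃ e : ℝ, (e : Ci) = z 0 - y 0 ∧ |e| < 1 / 4 ∧
      |e - ((t' i : ℝ) - t i) * F.D t y (F.φ i)| ≤
        C * (F.q ^ (90 * n) + |(t' i : ℝ) - t i| * F.q ^ n) := by
  obtain ⟨C₁, β₀, Cx, hC₁, hβ₀, hCx, hβ, hexp, hstep⟩ := F.step_le i
  obtain ⟨K, hK, hmult⟩ := F.mult_le p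
  obtain ⟨Kt, hKt, htail⟩ := F.D_tail i p
  obtain ⟨n₀, hn₀⟩ := F.small_n p C₁ β₀
  have hq := F.q_pos
  have hq' : F.q ≠ 0 := hq.ne'
  have hq1 : F.q ≤ 1 := by linarith [F.q_le]
  have hqi1 := F.one_le_qinv
  refine ⟨K + 2 * K * (Cx * (8 * C₁ ^ 2 + 3)) + Kt, by positivity, n₀, ?_⟩
  intro n hn t t' htt hδ k l y z hy hz hTy hTz hkl
  obtain ⟨hpn, hsmall⟩ := hn₀ n hn
  set δ : ℝ := (t' i : ℝ) - t i with hδdef
  have hδ1 : |δ| ≤ 1 := hδ.trans (pow_le_one₀ hq.le hq1)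
  have hdiff : ∀ j, j < 2 * n → z j - y j = F.a t' (z (j + 1)) - F.a t (y (j + 1)) := by
    intro j hj
    rw [hz j, hy j, hkl j hj]
    unfold br
    abel
  -- the distances
  have hρhalf : ∀ j, ‖z j - y j‖ ≤ 1 / 2 := by
    intro j
    have := AddCircle.norm_le_half_period (1 : ℝ) (x := z j - y j) one_ne_zero
    rwa [abs_one] at this
  have hrec := rec_bound F.q (C₁ * |δ|) hq F.q_le (by positivity) (2 * n)
    (fun j => ‖z j - y j‖) (fun j => y (j + 1) ∈ F.U ∨ z (j + 1) ∈ F.U)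
    (by have := hρhalf (2 * n); linarith)
    (fun j hj => by
      have h1 := hstep t t' htt hδ1 (y (j + 1)) (z (j + 1))
      rw [hdiff j hj]
      exact h1)
  have hqq : ∀ m : ℕ, F.q ^ m * F.q⁻¹ ^ m = 1 := fun m => by
    rw [← mul_pow, mul_inv_cancel₀ hq', one_pow]
  have hρ : ∀ j, j ≤ n → ‖z j - y j‖ ≤ F.q ^ (98 * n) + 2 * C₁ * (|δ| * F.q⁻¹ ^ (2 * n)) := by
    intro j hj
    have h1 := hrec (2 * n - j) (by omega)
    have e1 : 2 * n - (2 * n - j) = j := by omega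
    rw [e1] at h1
    have h2 := F.visits_or y z j (2 * n)
    have h3 := hTy.t2 (2 * n) (by omega)
    have h4 := hTz.t2 (2 * n) (by omega)
    set m := ((Finset.Ico j (2 * n)).filter fun j => y (j + 1) ∈ F.U ∨
      z (j + 1) ∈ F.U).card with hm
    have h5 : F.q⁻¹ ^ (300 * m) ≤ F.q⁻¹ ^ (2 * n) := pow_le_pow_right₀ hqi1 (by omega)
    have h6 : F.q ^ (100 * (2 * n - j)) ≤ F.q ^ (100 * n) :=
      pow_le_pow_of_le_one hq.le hq1 (by omega)
    have h7 : 0 ≤ C₁ * |δ| := by positivity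
    calc ‖z j - y j‖ ≤ F.q⁻¹ ^ (300 * m) * (F.q ^ (100 * (2 * n - j)) + 2 * (C₁ * |δ|)) := h1
      _ ≤ F.q⁻¹ ^ (2 * n) * (F.q ^ (100 * n) + 2 * (C₁ * |δ|)) :=
          mul_le_mul h5 (by linarith) (by positivity) (by positivity)
      _ = F.q ^ (98 * n) * (F.q ^ (2 * n) * F.q⁻¹ ^ (2 * n)) +
          2 * C₁ * (|δ| * F.q⁻¹ ^ (2 * n)) := by
          rw [show 100 * n = 98 * n + 2 * n by ring, pow_add]
          ring
      _ = _ := by rw [hqq]; ring
  have hδ2 : |δ| * F.q⁻¹ ^ (2 * n) ≤ F.q ^ (3 * n) := by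
    calc |δ| * F.q⁻¹ ^ (2 * n) ≤ F.q ^ (5 * n) * F.q⁻¹ ^ (2 * n) :=
          mul_le_mul_of_nonneg_right hδ (by positivity)
      _ = F.q ^ (3 * n) * (F.q ^ (2 * n) * F.q⁻¹ ^ (2 * n)) := by
          rw [show 5 * n = 3 * n + 2 * n by ring, pow_add]
          ring
      _ = F.q ^ (3 * n) := by rw [hqq, mul_one]
  have hδ4 : |δ| * F.q⁻¹ ^ (4 * n) ≤ F.q ^ n := by
    calc |δ| * F.q⁻¹ ^ (4 * n) ≤ F.q ^ (5 * n) * F.q⁻¹ ^ (4 * n) :=
          mul_le_mul_of_nonneg_right hδ (by positivity)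
      _ = F.q ^ n * (F.q ^ (4 * n) * F.q⁻¹ ^ (4 * n)) := by
          rw [show 5 * n = n + 4 * n by ring, pow_add]
          ring
      _ = F.q ^ n := by rw [hqq, mul_one]
  have hρ' : ∀ j, j ≤ n → ‖z j - y j‖ ≤ F.q ^ (98 * n) + 2 * C₁ * F.q ^ (3 * n) := by
    intro j hj
    have h1 := hρ j hj
    have h2 := mul_le_mul_of_nonneg_left hδ2 (by positivity : 0 ≤ 2 * C₁)
    linarith
  have hρsq : ∀ j, j ≤ n → ‖z j - y j‖ ^ 2 ≤
      2 * F.q ^ (90 * n) + 8 * C₁ ^ 2 * (|δ| * F.q ^ n) := by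
    intro j hj
    have h1 := hρ j hj
    have h2 : ‖z j - y j‖ ^ 2 ≤
        (F.q ^ (98 * n) + 2 * C₁ * (|δ| * F.q⁻¹ ^ (2 * n))) ^ 2 :=
      pow_le_pow_left₀ (norm_nonneg _) h1 2
    have h3 : (F.q ^ (98 * n)) ^ 2 ≤ F.q ^ (90 * n) := by
      rw [← pow_mul]
      exact pow_le_pow_of_le_one hq.le hq1 (by omega)
    have h4 : (2 * C₁ * (|δ| * F.q⁻¹ ^ (2 * n))) ^ 2 ≤ 4 * C₁ ^ 2 * (|δ| * F.q ^ n) := by
      have e1 : (F.q⁻¹ ^ (2 * n)) ^ 2 = F.q⁻¹ ^ (4 * n) := by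
        rw [← pow_mul]
        congr 1
        ring
      calc (2 * C₁ * (|δ| * F.q⁻¹ ^ (2 * n))) ^ 2 =
          4 * C₁ ^ 2 * (|δ| * (|δ| * (F.q⁻¹ ^ (2 * n)) ^ 2)) := by ring
        _ = 4 * C₁ ^ 2 * (|δ| * (|δ| * F.q⁻¹ ^ (4 * n))) := by rw [e1]
        _ ≤ 4 * C₁ ^ 2 * (|δ| * F.q ^ n) := by
            refine mul_le_mul_of_nonneg_left ?_ (by positivity)
            exact mul_le_mul_of_nonneg_left hδ4 (abs_nonneg _)
    have h5 : (F.q ^ (98 * n) + 2 * C₁ * (|δ| * F.q⁻¹ ^ (2 * n))) ^ 2 ≤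
        2 * (F.q ^ (98 * n)) ^ 2 + 2 * (2 * C₁ * (|δ| * F.q⁻¹ ^ (2 * n))) ^ 2 := by
      nlinarith [sq_nonneg (F.q ^ (98 * n) - 2 * C₁ * (|δ| * F.q⁻¹ ^ (2 * n)))]
    linarith
  -- the lifts
  set e : ℕ → ℝ := fun j => rep (z j - y j) with he
  have hecoe : ∀ j, ((e j : ℝ) : Ci) = z j - y j := fun j => coe_rep _
  have heabs : ∀ j, |e j| = ‖z j - y j‖ := fun j => abs_rep _
  set A : ℕ → ℝ := fun j => F.w t (y (j + 1)) / F.w t (F.a t (y (j + 1))) with hA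
  set b : ℕ → ℝ := fun j => (F.φ i (y (j + 1)) - F.φ i (F.a t (y (j + 1)))) /
    F.w t (F.a t (y (j + 1))) with hb
  have hApos : ∀ j, 0 < A j := fun j => div_pos (F.w_pos _ _) (F.w_pos _ _)
  have hR : ∀ j, j < n → |e j - (A j * e (j + 1) + δ * b j)| ≤
      Cx * (3 + 8 * C₁ ^ 2) * (F.q ^ (90 * n) + |δ| * F.q ^ n) := by
    intro j hj
    have h1 := hexp t t' htt (y (j + 1)) (e (j + 1))
    have e1 : y (j + 1) + ((e (j + 1) : ℝ) : Ci) = z (j + 1) := by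
      rw [hecoe]
      abel
    have e2 : (F.w t (y (j + 1)) * e (j + 1) + ((t' i : ℝ) - t i) *
        (F.φ i (y (j + 1)) - F.φ i (F.a t (y (j + 1))))) / F.w t (F.a t (y (j + 1))) =
        A j * e (j + 1) + δ * b j := by
      rw [hA, hb, hδdef]
      ring
    rw [e1, e2, ← hdiff j (by omega), ← hecoe j, ← AddCircle.coe_sub] at h1
    have h2 : |e j - (A j * e (j + 1) + δ * b j)| ≤ 1 / 2 := by
      have h3 : |A j * e (j + 1)| ≤ F.q⁻¹ ^ 200 * (F.q ^ (98 * n) + 2 * C₁ * F.q ^ (3 * n)) := by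
        rw [abs_mul, abs_of_pos (hApos j), heabs]
        exact mul_le_mul (F.der_le t _) (hρ' (j + 1) (by omega)) (norm_nonneg _) (by positivity)
      have h4 : |δ * b j| ≤ β₀ * F.q ^ (5 * n) := by
        rw [abs_mul, mul_comm]
        exact mul_le_mul (hβ t _) hδ (abs_nonneg _) hβ₀
      have h5 : |e j| ≤ F.q ^ (98 * n) + 2 * C₁ * F.q ^ (3 * n) := by
        rw [heabs]
        exact hρ' j (by omega)
      have h6 := abs_le.mp h3
      have h7 := abs_le.mp h4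
      have h8 := abs_le.mp h5
      rw [abs_le]
      constructor <;> nlinarith
    rw [norm_coe_eq _ h2] at h1
    have h3 : e (j + 1) ^ 2 ≤ 2 * F.q ^ (90 * n) + 8 * C₁ ^ 2 * (|δ| * F.q ^ n) := by
      rw [← sq_abs, heabs]
      exact hρsq (j + 1) (by omega)
    have h4 : δ ^ 2 ≤ |δ| * F.q ^ n := by
      rw [← sq_abs, sq]
      refine mul_le_mul_of_nonneg_left (hδ.trans ?_) (abs_nonneg _)
      exact pow_le_pow_of_le_one hq.le hq1 (by omega)
    have h5 : 0 ≤ |δ| * F.q ^ n := by positivity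
    have h6 : 0 ≤ F.q ^ (90 * n) := by positivity
    have h7 : e (j + 1) ^ 2 + δ ^ 2 ≤
        (3 + 8 * C₁ ^ 2) * (F.q ^ (90 * n) + |δ| * F.q ^ n) := by
      have h8 : 0 ≤ 8 * C₁ ^ 2 * F.q ^ (90 * n) := by positivity
      nlinarith
    calc |e j - (A j * e (j + 1) + δ * b j)| ≤ Cx * (e (j + 1) ^ 2 + δ ^ 2) := h1
      _ ≤ Cx * ((3 + 8 * C₁ ^ 2) * (F.q ^ (90 * n) + |δ| * F.q ^ n)) :=
          mul_le_mul_of_nonneg_left h7 hCx
      _ = _ := by ring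
  have htele := tele (F.mult t y) A e b (fun j => e j - (A j * e (j + 1) + δ * b j)) δ
    (F.mult_zero t y) (F.mult_succ t y) n (fun j _ => by ring)
  refine ⟨e 0, hecoe 0, ?_, ?_⟩
  · rw [heabs]
    have h1 := hρ' 0 (Nat.zero_le n)
    have h2 : 0 ≤ F.q ^ (98 * n) + 2 * C₁ * F.q ^ (3 * n) := by positivity
    have h3 : 0 ≤ β₀ * F.q ^ (5 * n) := by positivity
    have h4 : 0 ≤ (F.q ^ (98 * n) + 2 * C₁ * F.q ^ (3 * n)) * F.q⁻¹ ^ 200 := by positivity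
    nlinarith
  · have hM : ∀ j, F.mult t y j ≤ K * F.q ^ (99 * j) := hmult t y hTy.t2
    set W := F.q ^ (90 * n) + |δ| * F.q ^ n with hW
    have hW0 : 0 ≤ W := by positivity
    have e1 : e 0 - δ * F.D t y (F.φ i) = F.mult t y n * e n +
        ∑ j ∈ Finset.range n, F.mult t y j * (e j - (A j * e (j + 1) + δ * b j)) -
        δ * (F.D t y (F.φ i) - ∑ j ∈ Finset.range n, F.mult t y j * b j) := by
      rw [htele]
      simp only [mul_add, Finset.sum_add_distrib]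
      have e2 : ∑ j ∈ Finset.range n, F.mult t y j * (δ * b j) =
          ∑ j ∈ Finset.range n, δ * (F.mult t y j * b j) :=
        Finset.sum_congr rfl fun j _ => by ring
      rw [e2, ← Finset.mul_sum]
      ring
    have h1 : |F.mult t y n * e n| ≤ K * W := by
      rw [abs_mul, abs_of_pos (F.mult_pos t y n), heabs]
      have h2 := hρhalf n
      have h3 : F.q ^ (99 * n) ≤ F.q ^ (90 * n) := pow_le_pow_of_le_one hq.le hq1 (by omega)
      have h4 : F.q ^ (90 * n) ≤ W := by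
        have : 0 ≤ |δ| * F.q ^ n := by positivity
        linarith
      calc F.mult t y n * ‖z n - y n‖ ≤ (K * F.q ^ (99 * n)) * 1 :=
            mul_le_mul (hM n) (by linarith) (norm_nonneg _) (by positivity)
        _ = K * F.q ^ (99 * n) := mul_one _
        _ ≤ K * W := mul_le_mul_of_nonneg_left (h3.trans h4) hK.le
    have h2 : |∑ j ∈ Finset.range n, F.mult t y j * (e j - (A j * e (j + 1) + δ * b j))| ≤
        2 * K * (Cx * (8 * C₁ ^ 2 + 3)) * W := by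
      calc |∑ j ∈ Finset.range n, F.mult t y j * (e j - (A j * e (j + 1) + δ * b j))|
          ≤ ∑ j ∈ Finset.range n, |F.mult t y j * (e j - (A j * e (j + 1) + δ * b j))| :=
            Finset.abs_sum_le_sum_abs _ _
        _ ≤ ∑ j ∈ Finset.range n, (K * (Cx * (3 + 8 * C₁ ^ 2) * W)) * (1 / 2 : ℝ) ^ j := by
            refine Finset.sum_le_sum fun j hj => ?_
            rw [abs_mul, abs_of_pos (F.mult_pos t y j)]
            have h3 := hR j (Finset.mem_range.mp hj)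
            calc F.mult t y j * |e j - (A j * e (j + 1) + δ * b j)| ≤
                (K * (1 / 2 : ℝ) ^ j) * (Cx * (3 + 8 * C₁ ^ 2) * W) := by
                  refine mul_le_mul ?_ h3 (abs_nonneg _) (by positivity)
                  exact (hM j).trans (mul_le_mul_of_nonneg_left (F.geo_le j) hK.le)
              _ = _ := by ring
        _ = (K * (Cx * (3 + 8 * C₁ ^ 2) * W)) * ∑ j ∈ Finset.range n, (1 / 2 : ℝ) ^ j := by
            rw [Finset.mul_sum]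
        _ ≤ (K * (Cx * (3 + 8 * C₁ ^ 2) * W)) * 2 :=
            mul_le_mul_of_nonneg_left (sum_geometric_two_le n) (by positivity)
        _ = _ := by ring
    have h3 : |δ * (F.D t y (F.φ i) - ∑ j ∈ Finset.range n, F.mult t y j * b j)| ≤ Kt * W := by
      rw [abs_mul]
      have h4 := htail t y hTy.t2 n
      have h5 : F.q ^ (99 * n) ≤ F.q ^ n := pow_le_pow_of_le_one hq.le hq1 (by omega)
      have h6 : |δ| * F.q ^ n ≤ W := by
        have : 0 ≤ F.q ^ (90 * n) := by positivity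
        linarith
      calc |δ| * |F.D t y (F.φ i) - ∑ j ∈ Finset.range n, F.mult t y j * b j| ≤
          |δ| * (Kt * F.q ^ (99 * n)) := mul_le_mul_of_nonneg_left h4 (abs_nonneg _)
        _ ≤ |δ| * (Kt * F.q ^ n) := mul_le_mul_of_nonneg_left
            (mul_le_mul_of_nonneg_left h5 hKt) (abs_nonneg _)
        _ = Kt * (|δ| * F.q ^ n) := by ring
        _ ≤ Kt * W := mul_le_mul_of_nonneg_left h6 hKt
    have e3 : (K + 2 * K * (Cx * (8 * C₁ ^ 2 + 3)) + Kt) * W =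
        K * W + 2 * K * (Cx * (8 * C₁ ^ 2 + 3)) * W + Kt * W := by ring
    rw [e1, e3]
    have h4 := abs_le.mp h1
    have h5 := abs_le.mp h2
    have h6 := abs_le.mp h3
    rw [abs_le]
    constructor
    · linarith [h4.1, h5.1, h6.2]
    · linarith [h4.2, h5.2, h6.1]

end Fam

end Pool.Agent.ELM
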