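import Pool.Agent.ELM.Lift

/-!
# Circle homeomorphisms from maps of the line which commute with the translation by one
-/

set_option autoImplicit false

namespace Pool.Agent.ELM

open Filter MeasureTheory Topology Set

theorem map_add_intCast {F : ℝ → ℝ} (hF : ∀ x, F (x + 1) = F x + 1) (x : ℝ) (k : ℤ) :
    F (x + k) = F x + k := by
  have hnat : ∀ (j : ℕ) (x : ℝ), F (x + j) = F x + j := by
    intro j
    induction j with
    | zero => intro x; simp
    | succ j ih =>
      intro x
      have h := hF (x + j)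
      push_cast
      rw [← add_assoc, h, ih]
      ring
  obtain ⟨j, rfl | rfl⟩ := k.eq_nat_or_neg
  · exact_mod_cast hnat j x
  · have h := hnat j (x + ((-(j : ℤ) : ℤ) : ℝ))
    push_cast at h ⊢
    rw [add_assoc, neg_add_cancel, add_zero] at h
    linarith

theorem coe_eq_coe_iff' {x y : ℝ} :
    (x : UnitAddCircle) = (y : UnitAddCircle) ↔ ∃ k : ℤ, x = y + k := by
  rw [← sub_eq_zero, ← AddCircle.coe_sub, AddCircle.coe_eq_zero_iff]
  constructor
  · rintro ⟨k, hk⟩
    refine ⟨k, ?_⟩
    simp only [zsmul_eq_mul, mul_one] at hk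
    linarith
  · rintro ⟨k, hk⟩
    refine ⟨k, ?_⟩
    simp only [zsmul_eq_mul, mul_one]
    linarith

/-- the map of the circle with a given lift -/
noncomputable def circleMap' (F : ℝ → ℝ) (x : UnitAddCircle) : UnitAddCircle :=
  ((F (rep x) : ℝ) : UnitAddCircle)

theorem circleMap'_coe {F : ℝ → ℝ} (hF : ∀ x, F (x + 1) = F x + 1) (x : ℝ) :
    circleMap' F (x : UnitAddCircle) = ((F x : ℝ) : UnitAddCircle) := by
  unfold circleMap'
  obtain ⟨k, hk⟩ := coe_eq_coe_iff'.1 (coe_rep (x : UnitAddCircle))
  rw [hk, map_add_intCast hF, coe_eq_coe_iff']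
  exact ⟨k, rfl⟩

theorem continuous_circleMap' {F : ℝ → ℝ} (hF : ∀ x, F (x + 1) = F x + 1)
    (hc : Continuous F) : Continuous (circleMap' F) := by
  have hq : IsQuotientMap ((↑) : ℝ → UnitAddCircle) :=
    QuotientAddGroup.isQuotientMap_mk _
  rw [hq.continuous_iff]
  have e : circleMap' F ∘ ((↑) : ℝ → UnitAddCircle) = ((↑) : ℝ → UnitAddCircle) ∘ F :=
    funext fun x => circleMap'_coe hF x
  rw [e]
  exact (AddCircle.continuous_mk' 1).comp hc

theorem exists_coe (x : UnitAddCircle) : ∃ a : ℝ, (a : UnitAddCircle) = x := ⟨rep x, coe_rep x⟩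

/-- the homeomorphism with given inverse lifts -/
noncomputable def homeoOf (F H : ℝ → ℝ) (hF : ∀ x, F (x + 1) = F x + 1)
    (hH : ∀ x, H (x + 1) = H x + 1) (hFc : Continuous F) (hHc : Continuous H)
    (hFH : ∀ x, F (H x) = x) (hHF : ∀ x, H (F x) = x) : Homeo where
  toFun := circleMap' F
  invFun := circleMap' H
  left_inv x := by
    obtain ⟨a, rfl⟩ := exists_coe x
    rw [circleMap'_coe hF, circleMap'_coe hH, hHF]
  right_inv x := by
    obtain ⟨a, rfl⟩ := exists_coe x
    rw [circleMap'_coe hH, circleMap'_coe hF, hFH]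
  continuous_toFun := continuous_circleMap' hF hFc
  continuous_invFun := continuous_circleMap' hH hHc

/-- `F` commutes with the translation by one, its derivative `F'` is Lipschitz with values in
`[m, M]`, `m > 0` -/
structure GoodLine (F F' : ℝ → ℝ) (m M C : ℝ) : Prop where
  add_one : ∀ x, F (x + 1) = F x + 1
  hasDeriv : ∀ x, HasDerivAt F (F' x) x
  pos : 0 < m
  ge : ∀ x, m ≤ F' x
  le : ∀ x, F' x ≤ M
  lip : ∀ x y, |F' x - F' y| ≤ C * |x - y|

namespace GoodLine

variable {F F' : ℝ → ℝ} {m M C : ℝ}

theorem goodLift (h : GoodLine F F' m M C) : GoodLift (circleMap' F) F F' m M C where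
  lift x := (circleMap'_coe h.add_one x).symm
  hasDeriv := h.hasDeriv
  pos := h.pos
  ge := h.ge
  le := h.le
  lip := h.lip

/-- the inverse of `F` -/
noncomputable def invLine (h : GoodLine F F' m M C) : ℝ → ℝ :=
  (h.goodLift.strictMono.orderIsoOfSurjective F h.goodLift.surjective).symm

theorem apply_invLine (h : GoodLine F F' m M C) (x : ℝ) : F (h.invLine x) = x :=
  (h.goodLift.strictMono.orderIsoOfSurjective F h.goodLift.surjective).apply_symm_apply x

theorem invLine_apply (h : GoodLine F F' m M C) (x : ℝ) : h.invLine (F x) = x :=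
  (h.goodLift.strictMono.orderIsoOfSurjective F h.goodLift.surjective).symm_apply_apply x

theorem continuous_invLine (h : GoodLine F F' m M C) : Continuous h.invLine :=
  (h.goodLift.strictMono.orderIsoOfSurjective F h.goodLift.surjective).symm.continuous

theorem invLine_add_one (h : GoodLine F F' m M C) (x : ℝ) :
    h.invLine (x + 1) = h.invLine x + 1 := by
  apply h.goodLift.strictMono.injective
  rw [h.apply_invLine, h.add_one, h.apply_invLine]

/-- the homeomorphism of the circle -/
noncomputable def homeo (h : GoodLine F F' m M C) : Homeo :=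
  homeoOf F h.invLine h.add_one h.invLine_add_one h.goodLift.continuous h.continuous_invLine
    h.apply_invLine h.invLine_apply

theorem homeo_coe (h : GoodLine F F' m M C) (x : ℝ) :
    h.homeo (x : UnitAddCircle) = ((F x : ℝ) : UnitAddCircle) := circleMap'_coe h.add_one x

theorem homeo_inv_coe (h : GoodLine F F' m M C) (x : ℝ) :
    (h.homeo⁻¹ : Homeo) (x : UnitAddCircle) = ((h.invLine x : ℝ) : UnitAddCircle) :=
  circleMap'_coe h.invLine_add_one x

theorem goodLift_homeo (h : GoodLine F F' m M C) : GoodLift h.homeo F F' m M C where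
  lift x := (h.homeo_coe x).symm
  hasDeriv := h.hasDeriv
  pos := h.pos
  ge := h.ge
  le := h.le
  lip := h.lip

theorem isGood (h : GoodLine F F' m M C) : IsGood h.homeo := ⟨_, _, _, _, _, h.goodLift_homeo⟩

end GoodLine

end Pool.Agent.ELM
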