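import Pool.Agent.ELM.Model

/-!
# ELM, row PRB: the product measure of the exponents
-/

set_option autoImplicit false

namespace Pool.Agent.ELM

open Filter MeasureTheory Topology ProbabilityTheory
open scoped ENNReal

theorem scons_measurable : Measurable (fun p : ℤ × (ℕ → ℤ) => scons p.1 p.2) := by
  rw [measurable_pi_iff]
  intro n
  cases n with
  | zero => exact measurable_fst
  | succ n => exact (measurable_pi_apply n).comp measurable_snd

theorem sh_measurable : Measurable (sh : (ℕ → ℤ) → ℕ → ℤ) := by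
  rw [measurable_pi_iff]
  intro n
  exact measurable_pi_apply (n + 1)

theorem scons_mp : MeasurePreserving (fun p : ℤ × (ℕ → ℤ) => scons p.1 p.2)
    (kap.toMeasure.prod PP) PP := by
  classical
  refine ⟨scons_measurable, ?_⟩
  unfold PP
  refine Measure.eq_infinitePi _ fun s t ht => ?_
  obtain ⟨N, hN⟩ : ∃ N, s ⊆ Finset.range (N + 1) := by
    refine ⟨s.sup id, fun i hi => ?_⟩
    have h1 : i ≤ s.sup id := Finset.le_sup (f := id) hi
    exact Finset.mem_range.2 (Nat.lt_succ_of_le h1)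
  set t' : ℕ → Set ℤ := fun i => if i ∈ s then t i else Set.univ with ht'
  have ht'm : ∀ i, MeasurableSet (t' i) := fun i => trivial
  have h1 : (Set.pi (s : Set ℕ) t : Set (ℕ → ℤ)) = Set.pi (Finset.range (N + 1) : Set ℕ) t' := by
    ext u
    simp only [Set.mem_pi, Finset.mem_coe]
    constructor
    · intro h i _
      by_cases hi : i ∈ s
      · simp only [ht', if_pos hi]
        exact h i hi
      · simp only [ht', if_neg hi]
        exact Set.mem_univ _
    · intro h i hi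
      have h2 := h i (hN hi)
      simp only [ht', if_pos hi] at h2
      exact h2
  have h2 : ∏ i ∈ s, kap.toMeasure (t i) = ∏ i ∈ Finset.range (N + 1), kap.toMeasure (t' i) := by
    rw [← Finset.prod_subset hN]
    · refine Finset.prod_congr rfl fun i hi => ?_
      simp only [ht', if_pos hi]
    · intro i _ hi
      simp only [ht', if_neg hi]
      exact measure_univ
  rw [h1, h2, Measure.map_apply scons_measurable (.pi (Finset.countable_toSet _) fun i _ => ht'm i)]
  have h3 : (fun p : ℤ × (ℕ → ℤ) => scons p.1 p.2) ⁻¹' (Set.pi (Finset.range (N + 1) : Set ℕ) t') =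
      t' 0 ×ˢ Set.pi (Finset.range N : Set ℕ) fun i => t' (i + 1) := by
    ext ⟨k, u⟩
    simp only [Set.mem_preimage, Set.mem_pi, Finset.mem_coe, Finset.mem_range, Set.mem_prod]
    constructor
    · intro h
      refine ⟨h 0 (Nat.succ_pos N), fun i hi => h (i + 1) (Nat.succ_lt_succ hi)⟩
    · rintro ⟨h4, h5⟩ i hi
      cases i with
      | zero => exact h4
      | succ i => exact h5 i (Nat.lt_of_succ_lt_succ hi)
  rw [h3, Measure.prod_prod, Measure.infinitePi_pi _ fun i _ => ht'm (i + 1),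
    Finset.prod_range_succ', mul_comm]

theorem sh_mp : MeasurePreserving (sh : (ℕ → ℤ) → ℕ → ℤ) PP PP := by
  refine ⟨sh_measurable, ?_⟩
  unfold PP
  exact Measure.map_infinitePi_infinitePi_of_inj (P := fun _ : ℕ => kap.toMeasure)
    (f := fun n : ℕ => n + 1) (add_left_injective 1)

theorem eval_mp (j : ℕ) : MeasurePreserving (fun u : ℕ → ℤ => u j) PP kap.toMeasure :=
  measurePreserving_eval_infinitePi (fun _ : ℕ => kap.toMeasure) j

theorem kap_apply (k : ℤ) : kap k = kapf k := rfl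

theorem kap_single (k : ℤ) : kap.toMeasure {k} = kapf k :=
  PMF.toMeasure_apply_singleton _ _ (MeasurableSet.singleton k)

theorem kap_zero : kap.toMeasure {0} = 0 := by
  rw [kap_single]
  simp [kapf]

theorem kap_atom (k : ℤ) : kap.toMeasure {k} ≤ 1 / 3 := by
  rw [kap_single, kapf, one_div]
  by_cases hk : k = 0
  · rw [if_pos hk]
    exact bot_le
  · rw [if_neg hk]
    have h1 : k.natAbs = (k.natAbs - 1) + 1 := by omega
    rw [h1, pow_succ]
    exact mul_le_of_le_one_left' (pow_le_one' (by simp) _)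

theorem geo_tail : ∑' m : ℕ, (3 : ℝ≥0∞)⁻¹ ^ (m + 15) = 3⁻¹ ^ 14 * 2⁻¹ := by
  have h1 : ∀ m : ℕ, (3 : ℝ≥0∞)⁻¹ ^ (m + 15) = 3⁻¹ ^ 14 * 3⁻¹ ^ (m + 1) := by
    intro m
    rw [← pow_add]
    congr 1
    omega
  rw [tsum_congr h1, ENNReal.tsum_mul_left]
  congr 1
  have h3 : (3 : ℝ≥0∞)⁻¹ ≠ ∞ := by simp
  simp only [pow_succ]
  rw [ENNReal.tsum_mul_right, ENNReal.tsum_geometric]
  have h1 : (1 : ℝ≥0∞) - 3⁻¹ = 2 / 3 := by
    have h4 : (1 : ℝ≥0∞) = 2 / 3 + 3⁻¹ := by
      rw [ENNReal.div_eq_inv_mul, ← mul_one (3 : ℝ≥0∞)⁻¹, mul_assoc, ← mul_add]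
      norm_num
      rw [ENNReal.inv_mul_cancel] <;> simp
    conv_lhs => rw [h4]
    exact ENNReal.add_sub_cancel_right h3
  rw [h1, ENNReal.inv_div (by simp) (by simp), ENNReal.div_eq_inv_mul, mul_assoc,
    ENNReal.mul_inv_cancel (by simp) (by simp), mul_one]

theorem kap_tail : kap.toMeasure {k : ℤ | 15 ≤ |k|} ≤ 1 / 3 ^ 14 := by
  rw [PMF.toMeasure_apply_eq_tsum]
  have h0 : ∑' k : ℤ, ({k : ℤ | 15 ≤ |k|}.indicator kap k) =
      ∑' n : ℕ, ({k : ℤ | 15 ≤ |k|}.indicator kap (n : ℤ)) +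
        ∑' n : ℕ, ({k : ℤ | 15 ≤ |k|}.indicator kap (-((n : ℤ) + 1))) :=
    tsum_of_nat_of_neg_add_one ENNReal.summable ENNReal.summable
  rw [h0]
  have h1 : ∑' n : ℕ, ({k : ℤ | 15 ≤ |k|}.indicator kap (n : ℤ)) = 3⁻¹ ^ 14 * 2⁻¹ := by
    rw [← ENNReal.summable.sum_add_tsum_nat_add' (k := 15)]
    have h2 : ∑ n ∈ Finset.range 15, ({k : ℤ | 15 ≤ |k|}.indicator kap (n : ℤ)) = 0 := by
      refine Finset.sum_eq_zero fun n hn => ?_
      rw [Set.indicator_of_notMem]
      simp only [Set.mem_ofPred_eq, not_le]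
      have := Finset.mem_range.1 hn
      rw [abs_of_nonneg (by positivity)]
      exact_mod_cast this
    rw [h2, zero_add, ← geo_tail]
    refine tsum_congr fun n => ?_
    rw [Set.indicator_of_mem]
    · rw [kap_apply, kapf_nat, if_neg (by omega)]
    · simp only [Set.mem_ofPred_eq]
      rw [abs_of_nonneg (by positivity)]
      push_cast
      omega
  have h2 : ∑' n : ℕ, ({k : ℤ | 15 ≤ |k|}.indicator kap (-((n : ℤ) + 1))) = 3⁻¹ ^ 14 * 2⁻¹ := by
    rw [← ENNReal.summable.sum_add_tsum_nat_add' (k := 14)]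
    have h2 : ∑ n ∈ Finset.range 14, ({k : ℤ | 15 ≤ |k|}.indicator kap (-((n : ℤ) + 1))) = 0 := by
      refine Finset.sum_eq_zero fun n hn => ?_
      rw [Set.indicator_of_notMem]
      simp only [Set.mem_ofPred_eq, not_le]
      have := Finset.mem_range.1 hn
      rw [abs_neg, abs_of_nonneg (by positivity)]
      omega
    rw [h2, zero_add, ← geo_tail]
    refine tsum_congr fun n => ?_
    rw [Set.indicator_of_mem]
    · rw [kap_apply, kapf_neg]
    · simp only [Set.mem_ofPred_eq]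
      rw [abs_neg, abs_of_nonneg (by positivity)]
      push_cast
      omega
  rw [h1, h2, ← mul_add, ENNReal.inv_two_add_inv_two, mul_one, one_div, ENNReal.inv_pow]

theorem ne_ae : ∀ᵐ u ∂PP, ∀ j, u j ≠ 0 := by
  rw [ae_all_iff]
  intro j
  rw [ae_iff]
  have h1 : {u : ℕ → ℤ | ¬ u j ≠ 0} = (fun u : ℕ → ℤ => u j) ⁻¹' {0} := by
    ext u
    simp
  rw [h1, (eval_mp j).measure_preimage (MeasurableSet.singleton 0).nullMeasurableSet, kap_zero]

theorem hasSum_abs : HasSum (fun k : ℤ => (kap k).toReal * |(k : ℝ)|) (3 / 2) := by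
  have hg := hasSum_coe_mul_geometric_of_norm_lt_one (𝕜 := ℝ) (r := 1 / 3) (by
    rw [Real.norm_eq_abs, abs_of_pos] <;> norm_num)
  have hv : (1 / 3 : ℝ) / (1 - 1 / 3) ^ 2 = 3 / 4 := by norm_num
  rw [hv] at hg
  have h1 : HasSum (fun n : ℕ => (kap (n : ℤ)).toReal * |((n : ℤ) : ℝ)|) (3 / 4) := by
    refine hg.congr_fun fun n => ?_
    rw [kap_apply, kapf_nat]
    by_cases hn : n = 0
    · subst hn
      simp
    · rw [if_neg hn]
      simp
      ring
  have h2 : HasSum (fun n : ℕ => (kap (-((n : ℤ) + 1))).toReal * |((-((n : ℤ) + 1) : ℤ) : ℝ)|)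
      (3 / 4) := by
    have h3 := (hasSum_nat_add_iff' (f := fun n : ℕ => (n : ℝ) * (1 / 3) ^ n) 1).2 hg
    simp only [Finset.range_one, Finset.sum_singleton, Nat.cast_zero, zero_mul, sub_zero] at h3
    refine h3.congr_fun fun n => ?_
    rw [kap_apply, kapf_neg]
    push_cast
    rw [abs_neg, abs_of_nonneg (by positivity)]
    simp
    ring
  have h4 := HasSum.of_nat_of_neg_add_one (f := fun k : ℤ => (kap k).toReal * |(k : ℝ)|) h1 h2
  have h5 : (3 / 4 + 3 / 4 : ℝ) = 3 / 2 := by norm_num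
  rwa [h5] at h4

theorem integrable_abs : Integrable (fun k : ℤ => |(k : ℝ)|) kap.toMeasure := by
  refine ⟨(measurable_from_top).aestronglyMeasurable, ?_⟩
  unfold HasFiniteIntegral
  rw [lintegral_countable']
  have h1 : ∀ k : ℤ, ‖|(k : ℝ)|‖ₑ * kap.toMeasure {k} =
      ENNReal.ofReal ((kap k).toReal * |(k : ℝ)|) := by
    intro k
    have h2 : kap k ≠ ∞ := PMF.apply_ne_top _ _
    rw [kap_single, ← kap_apply, ENNReal.ofReal_mul ENNReal.toReal_nonneg, ENNReal.ofReal_toReal h2,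
      mul_comm, Real.enorm_eq_ofReal (abs_nonneg _)]
  rw [tsum_congr h1, ← ENNReal.ofReal_tsum_of_nonneg
    (fun k => mul_nonneg ENNReal.toReal_nonneg (abs_nonneg _)) hasSum_abs.summable]
  exact ENNReal.ofReal_lt_top

/-- strong law of large numbers, the mean of `|u 0|` is `3 / 2` -/
theorem slln : ∀ᵐ u ∂PP, ∀ᶠ n : ℕ in atTop, 4 * ∑ j ∈ Finset.range n, |u j| ≤ 7 * (n : ℤ) := by
  have hm : Measurable (fun k : ℤ => |(k : ℝ)|) := measurable_from_top
  have hint : Integrable (fun u : ℕ → ℤ => |(u 0 : ℝ)|) PP :=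
    (eval_mp 0).integrable_comp_of_integrable integrable_abs
  have hind : iIndepFun (fun (i : ℕ) (u : ℕ → ℤ) => |(u i : ℝ)|) PP := by
    unfold PP
    exact iIndepFun_infinitePi (P := fun _ : ℕ => kap.toMeasure) (X := fun _ k => |(k : ℝ)|)
      fun _ => hm
  have hid : ∀ i : ℕ, IdentDistrib (fun u : ℕ → ℤ => |(u i : ℝ)|) (fun u : ℕ → ℤ => |(u 0 : ℝ)|)
      PP PP := by
    intro i
    refine ⟨(hm.comp (measurable_pi_apply i)).aemeasurable,
      (hm.comp (measurable_pi_apply 0)).aemeasurable, ?_⟩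
    have e1 : ∀ j : ℕ, PP.map (fun u : ℕ → ℤ => |(u j : ℝ)|) =
        kap.toMeasure.map (fun k : ℤ => |(k : ℝ)|) := by
      intro j
      rw [← (eval_mp j).map_eq, Measure.map_map hm (measurable_pi_apply j)]
      rfl
    rw [e1, e1]
  have hE : ∫ u : ℕ → ℤ, |(u 0 : ℝ)| ∂PP = 3 / 2 := by
    have e1 : ∫ u : ℕ → ℤ, |(u 0 : ℝ)| ∂PP = ∫ k, |(k : ℝ)| ∂kap.toMeasure := by
      rw [← (eval_mp 0).map_eq, integral_map (measurable_pi_apply 0).aemeasurable
        hm.aestronglyMeasurable]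
    rw [e1, PMF.integral_eq_tsum _ _ integrable_abs]
    simp only [smul_eq_mul]
    exact hasSum_abs.tsum_eq
  have h := strong_law_ae_real (fun (i : ℕ) (u : ℕ → ℤ) => |(u i : ℝ)|) hint
    (fun i j hij => hind.indepFun hij) hid
  filter_upwards [h] with u hu
  rw [hE] at hu
  have h1 := hu.eventually (gt_mem_nhds (show (3 / 2 : ℝ) < 7 / 4 by norm_num))
  filter_upwards [h1, eventually_gt_atTop 0] with n hn hn0
  have hn0' : (0 : ℝ) < n := by exact_mod_cast hn0
  rw [div_lt_iff₀ hn0'] at hn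
  have h2 : (4 : ℝ) * ∑ j ∈ Finset.range n, |(u j : ℝ)| ≤ 7 * n := by linarith
  exact_mod_cast h2

end Pool.Agent.ELM
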