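import Pool.Agent.ELM.Wt

/-!
# Contraction in mean implies uniqueness of the stationary probability
-/

set_option autoImplicit false

namespace Pool.Agent.ELM

open Filter MeasureTheory Topology
open scoped ENNReal

/-- continuous functions on the circle -/
abbrev CF := C(UnitAddCircle, ℝ)

/-- composition with a homeomorphism -/
def cm (f : CF) (g : Homeo) : CF := ⟨fun x => f (g x), f.continuous.comp g.continuous⟩

theorem cm_apply (f : CF) (g : Homeo) (x : UnitAddCircle) : cm f g x = f (g x) := rfl

theorem cm_cm (f : CF) (g h : Homeo) : cm (cm f g) h = cm f (g * h) := rfl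

theorem cm_one (f : CF) : cm f 1 = f := rfl

theorem norm_cm_le (f : CF) (g : Homeo) : ‖cm f g‖ ≤ ‖f‖ :=
  (ContinuousMap.norm_le _ (norm_nonneg f)).2 fun x => f.norm_coe_le_norm (g x)

/-- composition with a homeomorphism, as a linear map -/
noncomputable def cmLin (g : Homeo) : CF →ₗ[ℝ] CF where
  toFun f := cm f g
  map_add' _ _ := rfl
  map_smul' _ _ := rfl

/-- composition with a homeomorphism, as a continuous linear map -/
noncomputable def cmL (g : Homeo) : CF →L[ℝ] CF :=
  (cmLin g).mkContinuous 1 fun f => by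
    rw [one_mul]
    exact norm_cm_le f g

theorem cmL_apply (g : Homeo) (f : CF) : cmL g f = cm f g := rfl

theorem summable_cm (g : Homeo) (f : CF) : Summable fun k : ℤ => wt k • cm f (g ^ k) := by
  refine Summable.of_norm_bounded (summable_wt.mul_right ‖f‖) fun k => ?_
  rw [norm_smul, Real.norm_eq_abs, abs_of_nonneg (wt_nonneg k)]
  exact mul_le_mul_of_nonneg_left (norm_cm_le _ _) (wt_nonneg k)

/-- the averages over the powers of `g` -/
noncomputable def RR (g : Homeo) (f : CF) : CF := ∑' k : ℤ, wt k • cm f (g ^ k)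

theorem RR_apply (g : Homeo) (f : CF) (x : UnitAddCircle) :
    RR g f x = ∑' k : ℤ, wt k * f ((g ^ k : Homeo) x) := by
  have h := ((summable_cm g f).hasSum.mapL (ContinuousMap.evalCLM ℝ x)).tsum_eq
  exact h.symm

theorem norm_RR_le (g : Homeo) (f : CF) : ‖RR g f‖ ≤ ‖f‖ := by
  rw [ContinuousMap.norm_le _ (norm_nonneg f)]
  intro x
  rw [RR_apply, Real.norm_eq_abs]
  exact abs_tsum_wt_le fun k => f.norm_coe_le_norm _

section functional

variable (L : CF →L[ℝ] ℝ) (T S : Homeo)

/-- the piece of a functional which corresponds to the first letter `g` -/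
noncomputable def piece (g : Homeo) : CF →L[ℝ] ℝ := (8 : ℝ)⁻¹ • ((3 : ℝ) • L.comp (cmL g) - L)

theorem piece_apply (g : Homeo) (f : CF) : piece L g f = 8⁻¹ * (3 * L (cm f g) - L f) := rfl

/-- the sum of the pieces for `g` and `g⁻¹` -/
noncomputable def AA (g : Homeo) : CF →L[ℝ] ℝ := piece L g + piece L g⁻¹

theorem AA_apply (g : Homeo) (f : CF) : AA L g f = piece L g f + piece L g⁻¹ f := rfl

theorem AA_inv (g : Homeo) : AA L g⁻¹ = AA L g := by
  unfold AA
  rw [inv_inv, add_comm]

theorem piece_eq (hL : ∀ f, L f = AA L T f + AA L S f) (f : CF) :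
    piece L T f = 3⁻¹ * (AA L S (cm f T) + piece L T (cm f T)) := by
  have h1 := hL (cm f T)
  rw [AA_apply L T, piece_apply L T⁻¹, cm_cm, mul_inv_cancel, cm_one] at h1
  rw [piece_apply L T f]
  linarith

theorem piece_eq_iterate (hL : ∀ f, L f = AA L T f + AA L S f) (f : CF) (m : ℕ) :
    piece L T f = ∑ n ∈ Finset.range m, (1 / 3 : ℝ) ^ (n + 1) * AA L S (cm f (T ^ (n + 1))) +
      (1 / 3) ^ m * piece L T (cm f (T ^ m)) := by
  induction m with
  | zero => simp [cm_one]
  | succ m ih =>
    rw [ih, Finset.sum_range_succ, piece_eq L T S hL (cm f (T ^ m)), cm_cm, ← pow_succ]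
    ring

theorem hasSum_piece (hL : ∀ f, L f = AA L T f + AA L S f) (f : CF) :
    HasSum (fun n : ℕ => (1 / 3 : ℝ) ^ (n + 1) * AA L S (cm f (T ^ (n + 1)))) (piece L T f) := by
  have hs : Summable (fun n : ℕ => (1 / 3 : ℝ) ^ (n + 1) * AA L S (cm f (T ^ (n + 1)))) := by
    refine Summable.of_norm_bounded (hasSum_geom.summable.mul_right (‖AA L S‖ * ‖f‖)) fun n => ?_
    rw [norm_mul, Real.norm_eq_abs, abs_of_nonneg (by positivity)]
    refine mul_le_mul_of_nonneg_left ?_ (by positivity)
    exact ((AA L S).le_opNorm _).trans (mul_le_mul_of_nonneg_left (norm_cm_le _ _) (norm_nonneg _))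
  rw [hs.hasSum_iff_tendsto_nat]
  have h1 : Tendsto (fun m : ℕ => (1 / 3 : ℝ) ^ m * piece L T (cm f (T ^ m))) atTop (𝓝 0) := by
    refine squeeze_zero_norm (a := fun m : ℕ => (1 / 3 : ℝ) ^ m * (‖piece L T‖ * ‖f‖)) ?_ ?_
    · intro m
      rw [norm_mul, Real.norm_eq_abs, abs_of_nonneg (by positivity)]
      refine mul_le_mul_of_nonneg_left ?_ (by positivity)
      exact ((piece L T).le_opNorm _).trans
        (mul_le_mul_of_nonneg_left (norm_cm_le _ _) (norm_nonneg _))
    · have h2 := (tendsto_pow_atTop_nhds_zero_of_lt_one (r := (1 : ℝ) / 3) (by norm_num)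
        (by norm_num)).mul_const (‖piece L T‖ * ‖f‖)
      rwa [zero_mul] at h2
  have h3 : (fun m => ∑ n ∈ Finset.range m, (1 / 3 : ℝ) ^ (n + 1) *
      AA L S (cm f (T ^ (n + 1)))) = fun m : ℕ => piece L T f -
      (1 / 3 : ℝ) ^ m * piece L T (cm f (T ^ m)) := by
    funext m
    rw [eq_sub_iff_add_eq]
    exact (piece_eq_iterate L T S hL f m).symm
  rw [h3]
  have h4 := (tendsto_const_nhds (x := piece L T f)).sub h1
  rwa [sub_zero] at h4

theorem AA_eq (hL : ∀ f, L f = AA L T f + AA L S f) (f : CF) : AA L T f = AA L S (RR T f) := by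
  have h1 := hasSum_piece L T S hL f
  have h2 := hasSum_piece L T⁻¹ S (by rwa [AA_inv]) f
  have h3 := hasSum_wt_mul (F := fun k : ℤ => AA L S (cm f (T ^ k))) (p := piece L T f)
    (q := piece L T⁻¹ f) (by
      have e : ∀ n : ℕ, T ^ ((n : ℤ) + 1) = T ^ (n + 1) := fun n => by
        rw [← zpow_natCast]
        push_cast
        rfl
      simpa only [e] using h1) (by
      have e : ∀ n : ℕ, T ^ (-((n : ℤ) + 1)) = T⁻¹ ^ (n + 1) := fun n => by
        rw [zpow_neg, inv_pow, ← zpow_natCast]
        push_cast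
        rfl
      simpa only [e] using h2)
  have h4 := ((summable_cm T f).hasSum.mapL (AA L S))
  have h5 : (fun k : ℤ => (AA L S) (wt k • cm f (T ^ k))) =
      fun k : ℤ => wt k * AA L S (cm f (T ^ k)) := by
    funext k
    rw [map_smul, smul_eq_mul]
  rw [h5] at h4
  rw [AA_apply]
  exact h3.unique h4

end functional

section syllables

variable (T a : Homeo)

/-- the syllable operator -/
noncomputable def QQ (f : CF) : CF := cm (RR T f) a

theorem QQ_apply (f : CF) (x : UnitAddCircle) :
    QQ T a f x = ∑' k : ℤ, wt k * f ((T ^ k : Homeo) (a x)) := by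
  rw [QQ, cm_apply, RR_apply]

theorem norm_QQ_le (f : CF) : ‖QQ T a f‖ ≤ ‖f‖ := (norm_cm_le _ _).trans (norm_RR_le _ _)

theorem RR_conj (ha : a * a = 1) (f : CF) : RR (a * T * a) f = QQ T a (cm f a) := by
  have hinv : a⁻¹ = a := inv_eq_of_mul_eq_one_left ha
  have h : ∀ k : ℤ, (a * T * a) ^ k = a * T ^ k * a := by
    intro k
    have h1 := conj_zpow (i := k) (a := a) (b := T)
    rwa [hinv] at h1
  ext x
  rw [RR_apply, QQ_apply]
  refine tsum_congr fun k => ?_
  rw [h]
  rfl

theorem AA_QQ (L : CF →L[ℝ] ℝ) (ha : a * a = 1)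
    (hL : ∀ f, L f = AA L T f + AA L (a * T * a) f) (f : CF) :
    AA L T f = AA L T (QQ T a (QQ T a f)) := by
  have h1 := AA_eq L T (a * T * a) hL f
  have h2 := AA_eq L (a * T * a) T (fun f => by rw [hL f, add_comm]) (RR T f)
  rw [h1, h2, RR_conj T a ha]
  congr 2

theorem AA_QQ_iterate (L : CF →L[ℝ] ℝ) (ha : a * a = 1)
    (hL : ∀ f, L f = AA L T f + AA L (a * T * a) f) (f : CF) (n : ℕ) :
    AA L T f = AA L T ((QQ T a)^[2 * n] f) := by
  induction n with
  | zero => rfl
  | succ n ih =>
    rw [ih, AA_QQ T a L ha hL, show 2 * (n + 1) = 2 * n + 1 + 1 by ring,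
      Function.iterate_succ_apply', Function.iterate_succ_apply']

/-- the mean distance of the images of two points under `n` random syllables -/
noncomputable def contr : ℕ → UnitAddCircle → UnitAddCircle → ℝ
  | 0, x, y => dist x y
  | n + 1, x, y => ∑' k : ℤ, wt k * contr n ((T ^ k : Homeo) (a x)) ((T ^ k : Homeo) (a y))

theorem dist_le_one (x y : UnitAddCircle) : dist x y ≤ 1 := by
  rw [dist_eq_norm]
  have h := AddCircle.norm_le_half_period (1 : ℝ) (x := x - y) one_ne_zero
  rw [abs_one] at h
  linarith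

theorem abs_contr_le (n : ℕ) (x y : UnitAddCircle) : |contr T a n x y| ≤ 1 := by
  induction n generalizing x y with
  | zero =>
    rw [contr, abs_of_nonneg dist_nonneg]
    exact dist_le_one x y
  | succ n ih =>
    rw [contr]
    exact abs_tsum_wt_le fun k => ih _ _

theorem abs_QQ_iterate_sub_le {f : CF} {ε C : ℝ} (hC : 0 ≤ C) (hε : 0 ≤ ε)
    (hf : ∀ x y, |f x - f y| ≤ ε + C * dist x y) (n : ℕ) (x y : UnitAddCircle) :
    |(QQ T a)^[n] f x - (QQ T a)^[n] f y| ≤ ε + C * contr T a n x y := by
  induction n generalizing x y with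
  | zero => exact hf x y
  | succ n ih =>
    rw [Function.iterate_succ_apply', QQ_apply, QQ_apply, contr]
    set h := (QQ T a)^[n] f with hh
    have hb : ∀ z : ℤ → UnitAddCircle, ∀ k, |h (z k)| ≤ ‖h‖ := fun z k => h.norm_coe_le_norm _
    rw [← (summable_wt_mul (hb _)).tsum_sub (summable_wt_mul (hb _))]
    have hs : Summable fun k : ℤ => wt k * (ε + C * contr T a n ((T ^ k : Homeo) (a x))
        ((T ^ k : Homeo) (a y))) := by
      refine summable_wt_mul (C := ε + C) fun k => ?_
      refine (abs_add_le _ _).trans ?_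
      rw [abs_of_nonneg hε, abs_mul, abs_of_nonneg hC]
      have := abs_contr_le T a n ((T ^ k : Homeo) (a x)) ((T ^ k : Homeo) (a y))
      nlinarith
    have h1 : |∑' k : ℤ, (wt k * h ((T ^ k : Homeo) (a x)) - wt k * h ((T ^ k : Homeo) (a y)))| ≤
        ∑' k : ℤ, wt k * (ε + C * contr T a n ((T ^ k : Homeo) (a x)) ((T ^ k : Homeo) (a y))) := by
      rw [← Real.norm_eq_abs]
      refine tsum_of_norm_bounded hs.hasSum fun k => ?_
      rw [← mul_sub, Real.norm_eq_abs, abs_mul, abs_of_nonneg (wt_nonneg k)]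
      exact mul_le_mul_of_nonneg_left (ih _ _) (wt_nonneg k)
    refine h1.trans (le_of_eq ?_)
    have h2 : ∀ k : ℤ, wt k * (ε + C * contr T a n ((T ^ k : Homeo) (a x))
        ((T ^ k : Homeo) (a y))) = wt k * ε + C * (wt k * contr T a n ((T ^ k : Homeo) (a x))
        ((T ^ k : Homeo) (a y))) := fun k => by ring
    rw [tsum_congr h2, Summable.tsum_add (summable_wt.mul_right ε)
      ((summable_wt_mul fun k => abs_contr_le T a n _ _).mul_left C), tsum_mul_left,
      (hasSum_wt.mul_right ε).tsum_eq, one_mul]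

theorem exists_lip_bound (f : CF) {ε : ℝ} (hε : 0 < ε) :
    ∃ C : ℝ, 0 ≤ C ∧ ∀ x y, |f x - f y| ≤ ε + C * dist x y := by
  have hu : UniformContinuous f := CompactSpace.uniformContinuous_of_continuous f.continuous
  obtain ⟨δ, hδ, h⟩ := Metric.uniformContinuous_iff.1 hu ε hε
  refine ⟨2 * ‖f‖ / δ, by positivity, fun x y => ?_⟩
  by_cases hxy : dist x y < δ
  · have h1 := h hxy
    rw [Real.dist_eq] at h1
    have : 0 ≤ 2 * ‖f‖ / δ * dist x y := by positivity
    linarith
  · have h1 : |f x - f y| ≤ 2 * ‖f‖ := by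
      have h2 := f.norm_coe_le_norm x
      have h3 := f.norm_coe_le_norm y
      rw [Real.norm_eq_abs] at h2 h3
      have := abs_sub (f x) (f y)
      linarith
    have h4 : 2 * ‖f‖ ≤ 2 * ‖f‖ / δ * dist x y := by
      rw [div_mul_eq_mul_div, le_div_iff₀ hδ]
      exact mul_le_mul_of_nonneg_left (not_lt.1 hxy) (by positivity)
    linarith

theorem tendsto_QQ_sub (hc : ∀ x y, Tendsto (fun n => contr T a n x y) atTop (𝓝 0)) (f : CF)
    (x y : UnitAddCircle) :
    Tendsto (fun n => (QQ T a)^[n] f x - (QQ T a)^[n] f y) atTop (𝓝 0) := by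
  rw [Metric.tendsto_nhds]
  intro ε hε
  obtain ⟨C, hC, h⟩ := exists_lip_bound f (half_pos hε)
  have h1 := (hc x y).const_mul C
  rw [mul_zero] at h1
  filter_upwards [h1.eventually_lt_const (half_pos hε)] with n hn
  rw [Real.dist_eq, sub_zero]
  have h2 := abs_QQ_iterate_sub_le T a hC (half_pos hε).le h n x y
  linarith

theorem norm_iterate_le (f : CF) (n : ℕ) : ‖(QQ T a)^[n] f‖ ≤ ‖f‖ := by
  induction n with
  | zero => exact le_rfl
  | succ n ih =>
    rw [Function.iterate_succ_apply']
    exact (norm_QQ_le _ _ _).trans ih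

end syllables

theorem integrable_cf (ν : Measure UnitAddCircle) [IsProbabilityMeasure ν] (f : CF) :
    Integrable (fun x => f x) ν :=
  f.continuous.integrable_of_hasCompactSupport (HasCompactSupport.of_compactSpace _)

/-- integration against a probability, as a linear functional -/
noncomputable def intLin (ν : Measure UnitAddCircle) [IsProbabilityMeasure ν] : CF →ₗ[ℝ] ℝ where
  toFun f := ∫ x, f x ∂ν
  map_add' f g := integral_add (integrable_cf ν f) (integrable_cf ν g)
  map_smul' c _ := integral_const_mul c _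

/-- integration against a probability, as a functional -/
noncomputable def intL (ν : Measure UnitAddCircle) [IsProbabilityMeasure ν] : CF →L[ℝ] ℝ :=
  (intLin ν).mkContinuous 1 fun f => by
    rw [one_mul]
    have h : ‖∫ x, f x ∂ν‖ ≤ ‖f‖ * (ν Set.univ).toReal :=
      norm_integral_le_of_norm_le_const (Eventually.of_forall fun x => f.norm_coe_le_norm x)
    rwa [measure_univ, ENNReal.toReal_one, mul_one] at h

theorem intL_apply (ν : Measure UnitAddCircle) [IsProbabilityMeasure ν] (f : CF) :
    intL ν f = ∫ x, f x ∂ν := rfl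

theorem intL_stat {T S : Homeo} {ν : Measure UnitAddCircle} [IsProbabilityMeasure ν]
    (h : Stat4 T S ν) (f : CF) :
    intL ν (cm f T) + intL ν (cm f T⁻¹) + intL ν (cm f S) + intL ν (cm f S⁻¹) =
      4 * intL ν f := by
  have hm : ∀ g : Homeo, intL ν (cm f g) = ∫ x, f x ∂(ν.map g) := fun g => by
    rw [integral_map_of_stronglyMeasurable g.continuous.measurable
      f.continuous.stronglyMeasurable]
    rfl
  have hi : ∀ g : Homeo, Integrable (fun x => f x) (ν.map g) := fun g => by
    have : IsProbabilityMeasure (ν.map g) :=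
      Measure.isProbabilityMeasure_map g.continuous.measurable.aemeasurable
    exact integrable_cf _ f
  rw [hm, hm, hm, hm, ← integral_add_measure (hi _) (hi _),
    ← integral_add_measure ((hi _).add_measure (hi _)) (hi _),
    ← integral_add_measure (((hi _).add_measure (hi _)).add_measure (hi _)) (hi _)]
  unfold Stat4 at h
  rw [h, integral_smul_measure, intL_apply]
  norm_num

/-- **uniqueness** -/
theorem stat_unique {T a : Homeo} (ha : a * a = 1)
    (hc : ∀ x y, Tendsto (fun n => contr T a n x y) atTop (𝓝 0))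
    {ν ν' : Measure UnitAddCircle} (hν : IsProbabilityMeasure ν) (hν' : IsProbabilityMeasure ν')
    (hs : Stat4 T (a * T * a) ν) (hs' : Stat4 T (a * T * a) ν') : ν' = ν := by
  set L : CF →L[ℝ] ℝ := intL ν' - intL ν with hLdef
  have hLa : ∀ f, L f = intL ν' f - intL ν f := fun f => rfl
  have hL : ∀ f, L f = AA L T f + AA L (a * T * a) f := by
    intro f
    have h1 := intL_stat hs f
    have h2 := intL_stat hs' f
    simp only [AA_apply, piece_apply, hLa]
    linarith
  have hlim : ∀ (f : CF) (g : Homeo),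
      Tendsto (fun n => L (cm ((QQ T a)^[n] f) g)) atTop (𝓝 0) := by
    intro f g
    have key : ∀ m : Measure UnitAddCircle, ∀ _ : IsProbabilityMeasure m,
        Tendsto (fun n => ∫ x, ((QQ T a)^[n] f (g x) - (QQ T a)^[n] f (g 0)) ∂m) atTop
        (𝓝 0) := by
      intro m hm
      have h1 := tendsto_integral_of_dominated_convergence
        (F := fun (n : ℕ) x => (QQ T a)^[n] f (g x) - (QQ T a)^[n] f (g 0))
        (f := fun _ => (0 : ℝ)) (μ := m) (fun _ => 2 * ‖f‖) (fun n => by
          refine (Continuous.sub ?_ continuous_const).aestronglyMeasurable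
          exact ((QQ T a)^[n] f).continuous.comp g.continuous) (integrable_const _)
        (fun n => Eventually.of_forall fun x => by
          have h2 := ((QQ T a)^[n] f).norm_coe_le_norm (g x)
          have h3 := ((QQ T a)^[n] f).norm_coe_le_norm (g 0)
          have h4 := norm_iterate_le T a f n
          refine (norm_sub_le _ _).trans ?_
          linarith)
        (Eventually.of_forall fun x => tendsto_QQ_sub T a hc f (g x) (g 0))
      rwa [integral_zero] at h1
    have h1 := (key ν' hν').sub (key ν hν)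
    rw [sub_zero] at h1
    refine h1.congr fun n => ?_
    have h2 : ∀ m : Measure UnitAddCircle, ∀ _ : IsProbabilityMeasure m,
        ∫ x, ((QQ T a)^[n] f (g x) - (QQ T a)^[n] f (g 0)) ∂m =
        intL m (cm ((QQ T a)^[n] f) g) - (QQ T a)^[n] f (g 0) := by
      intro m hm
      have h3 := integral_sub (integrable_cf m (cm ((QQ T a)^[n] f) g))
        (integrable_const ((QQ T a)^[n] f (g 0)))
      rw [integral_const] at h3
      simpa [intL_apply, cm_apply] using h3
    rw [h2 ν' hν', h2 ν hν, hLa]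
    ring
  have hA : ∀ f, AA L T f = 0 := by
    intro f
    have h1 : Tendsto (fun n => AA L T ((QQ T a)^[n] f)) atTop (𝓝 0) := by
      have h2 := ((hlim f T).const_mul (3 / 8)).add ((hlim f T⁻¹).const_mul (3 / 8))
      have h3 := h2.sub ((hlim f 1).const_mul (1 / 4))
      simp only [mul_zero, add_zero, sub_zero] at h3
      refine h3.congr fun n => ?_
      rw [AA_apply, piece_apply, piece_apply, cm_one]
      ring
    have h4 : Tendsto (fun n : ℕ => 2 * n) atTop atTop :=
      tendsto_id.const_mul_atTop' (by norm_num)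
    have h5 : Tendsto (fun n : ℕ => AA L T ((QQ T a)^[2 * n] f)) atTop (𝓝 0) := h1.comp h4
    have h6 : (fun n : ℕ => AA L T ((QQ T a)^[2 * n] f)) = fun _ => AA L T f :=
      funext fun n => (AA_QQ_iterate T a L ha hL f n).symm
    rw [h6] at h5
    exact tendsto_nhds_unique tendsto_const_nhds h5
  have hL0 : ∀ f, L f = 0 := by
    intro f
    rw [hL f, hA f, zero_add, AA_eq L (a * T * a) T (fun f => by rw [hL f, add_comm]) f, hA]
  refine ext_of_forall_integral_eq_of_IsFiniteMeasure fun f => ?_
  have h := hL0 f.toContinuousMap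
  rw [hLa, intL_apply, intL_apply] at h
  exact sub_eq_zero.1 h

end Pool.Agent.ELM
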