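import Pool.Agent.ELM.Assemble

/-!
# The law of the exponents
-/

set_option autoImplicit false

namespace Pool.Agent.ELM

open Filter Topology

/-- the weight `3^{-|k|}` of the exponent `k ≠ 0` -/
noncomputable def wt (k : ℤ) : ℝ := if k = 0 then 0 else (1 / 3) ^ k.natAbs

theorem wt_zero : wt 0 = 0 := if_pos rfl

theorem wt_of_ne {k : ℤ} (hk : k ≠ 0) : wt k = (1 / 3) ^ k.natAbs := if_neg hk

theorem wt_nonneg (k : ℤ) : 0 ≤ wt k := by
  unfold wt
  split_ifs
  · exact le_rfl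
  · positivity

theorem wt_neg (k : ℤ) : wt (-k) = wt k := by
  unfold wt
  rw [Int.natAbs_neg]
  simp only [neg_eq_zero]

theorem wt_succ (n : ℕ) : wt ((n : ℤ) + 1) = (1 / 3) ^ (n + 1) := by
  rw [wt_of_ne (by omega)]
  congr 1

theorem hasSum_geom : HasSum (fun n : ℕ => ((1 : ℝ) / 3) ^ (n + 1)) (1 / 2) := by
  have h := (hasSum_geometric_of_lt_one (r := (1 : ℝ) / 3) (by norm_num) (by norm_num)).mul_left
    (1 / 3)
  have e : (1 : ℝ) / 3 * (1 - 1 / 3)⁻¹ = 1 / 2 := by norm_num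
  rw [e] at h
  have e2 : (fun n : ℕ => (1 : ℝ) / 3 * (1 / 3) ^ n) = fun n : ℕ => (1 / 3) ^ (n + 1) := by
    funext n
    ring
  rwa [e2] at h

/-- sums over the nonzero integers -/
theorem hasSum_wt_mul {F : ℤ → ℝ} {p q : ℝ}
    (hp : HasSum (fun n : ℕ => (1 / 3 : ℝ) ^ (n + 1) * F (n + 1)) p)
    (hq : HasSum (fun n : ℕ => (1 / 3 : ℝ) ^ (n + 1) * F (-(n + 1))) q) :
    HasSum (fun k : ℤ => wt k * F k) (p + q) := by
  refine HasSum.of_nat_of_neg_add_one ?_ ?_
  · rw [← hasSum_nat_add_iff' 1]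
    simp only [Finset.range_one, Finset.sum_singleton, Nat.cast_zero, wt_zero, zero_mul, sub_zero]
    have e : (fun n : ℕ => wt ((n + 1 : ℕ) : ℤ) * F ((n + 1 : ℕ) : ℤ)) =
        fun n : ℕ => (1 / 3 : ℝ) ^ (n + 1) * F (n + 1) := by
      funext n
      rw [Nat.cast_add, Nat.cast_one, wt_succ]
    rw [e]
    exact hp
  · have e : (fun n : ℕ => wt (-((n : ℤ) + 1)) * F (-((n : ℤ) + 1))) =
        fun n : ℕ => (1 / 3 : ℝ) ^ (n + 1) * F (-(n + 1)) := by
      funext n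
      rw [wt_neg, wt_succ]
    rw [e]
    exact hq

theorem hasSum_wt : HasSum wt 1 := by
  have h := hasSum_wt_mul (F := fun _ => 1) (p := 1 / 2) (q := 1 / 2)
    (by simpa using hasSum_geom) (by simpa using hasSum_geom)
  have e : (1 : ℝ) / 2 + 1 / 2 = 1 := by norm_num
  rw [e] at h
  simpa using h

theorem summable_wt : Summable wt := hasSum_wt.summable

theorem summable_wt_mul {F : ℤ → ℝ} {C : ℝ} (hF : ∀ k, |F k| ≤ C) :
    Summable fun k => wt k * F k := by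
  refine Summable.of_norm_bounded (summable_wt.mul_right C) fun k => ?_
  rw [Real.norm_eq_abs, abs_mul, abs_of_nonneg (wt_nonneg k)]
  exact mul_le_mul_of_nonneg_left (hF k) (wt_nonneg k)

theorem abs_tsum_wt_le {F : ℤ → ℝ} {C : ℝ} (hF : ∀ k, |F k| ≤ C) :
    |∑' k, wt k * F k| ≤ C := by
  have h1 : HasSum (fun k => wt k * C) C := by simpa using hasSum_wt.mul_right C
  have h2 := (summable_wt_mul hF).hasSum
  have h3 : |∑' k, wt k * F k| ≤ ∑' k, wt k * C := by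
    have h4 := tsum_of_norm_bounded h1 (f := fun k => wt k * F k) fun k => by
      rw [Real.norm_eq_abs, abs_mul, abs_of_nonneg (wt_nonneg k)]
      exact mul_le_mul_of_nonneg_left (hF k) (wt_nonneg k)
    rw [h1.tsum_eq]
    exact h4
  rwa [h1.tsum_eq] at h3

theorem tsum_wt_mono {F H : ℤ → ℝ} {C D : ℝ} (hF : ∀ k, |F k| ≤ C) (hH : ∀ k, |H k| ≤ D)
    (h : ∀ k, F k ≤ H k) : ∑' k, wt k * F k ≤ ∑' k, wt k * H k :=
  Summable.tsum_le_tsum (fun k => mul_le_mul_of_nonneg_left (h k) (wt_nonneg k))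
    (summable_wt_mul hF) (summable_wt_mul hH)

end Pool.Agent.ELM
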